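import Pool.Agent.Lib.MP_cb8a44_nt.RM.SpecM

set_option autoImplicit false

/-!
# MP_cb8a44_nt, block RM, part L: lattices, Voronoi cells, the extremal lattice

Plan.  `Phi G` = Gaussian mass of the Voronoi cell.  `rho G * Phi G ≤ 1` (MAS), so it is enough to show `Phi G ≥ c₀ⁿ` for `Semi G`.  Strong induction on `n`.  Scaling down (SCL) and splitting along a sublattice of determinant one (SPL: `Phi G ≥ Phi A * Phi S`)
reduce to a minimiser `G₀` of `Phi` on the compact (RED) set `{Semi, det = 1}` without proper sublattices of determinant one.  There all small deformations are allowed (DEF), `Phi` of the deformed lattice is the Gaussian integral over the deformed cell up to `o(t)` (LDF), so the cell is critical,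
and by the B-theorem (CRT) its Gaussian mass is the largest among its images under `SL_n` (CRI); the `M`-position (MPO) shows that one of these masses is `≥ c₀ⁿ`.
-/

open MeasureTheory Matrix Set Filter Topology
open scoped ENNReal

namespace Pool.Agent.Lib.MP_cb8a44_nt.RM

/-- **INJ** (120 lines).  Linear algebra of integral matrices.  `real`: the columns are independent over `ℤ`, so over `ℚ` (clear denominators), so over `ℝ` (a nonzero minor, or `LinearIndependent` base change; e.g. `Matrix.rank`, or `Matrix.exists_mulVec_eq_zero_iff` for `UᵀU`: `det (UᵀU) ≠ 0` over `ℤ`).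
`semi`: reindex along `κ ≃ Fin (card κ)`. -/
structure SpecINJ : Prop where
  real : ∀ {ι κ : Type} [Fintype ι] [Fintype κ] {U : Matrix ι κ ℤ}, Inj U → Function.Injective (fun v : κ → ℝ => rm U *ᵥ v)
  pd : ∀ {ι κ : Type} [Fintype ι] [Fintype κ] {G : Matrix ι ι ℝ} {U : Matrix ι κ ℤ}, G.PosDef → Inj U → (sg G U).PosDef
  comp : ∀ {ι κ μ : Type} [Fintype ι] [Fintype κ] [Fintype μ] (G : Matrix ι ι ℝ) (U : Matrix ι κ ℤ) (W : Matrix κ μ ℤ), sg G (U * W) = sg (sg G U) W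
  injc : ∀ {ι κ μ : Type} [Fintype ι] [Fintype κ] [Fintype μ] {U : Matrix ι κ ℤ} {W : Matrix κ μ ℤ}, Inj U → Inj W → Inj (U * W)
  sq : ∀ {ι κ : Type} [Fintype ι] [Fintype κ] [DecidableEq κ] (G : Matrix ι ι ℝ) (U : Matrix ι κ ℤ) (R : Matrix κ κ ℤ),
    (sg G (U * R)).det = (R.det : ℝ) ^ 2 * (sg G U).det
  injsq : ∀ {κ : Type} [Fintype κ] [DecidableEq κ] {R : Matrix κ κ ℤ}, Inj R ↔ R.det ≠ 0
  card : ∀ {ι κ : Type} [Fintype ι] [Fintype κ] {U : Matrix ι κ ℤ}, Inj U → Fintype.card κ ≤ Fintype.card ι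
  semi : ∀ {ι κ : Type} [Fintype ι] [Fintype κ] [DecidableEq κ] {G : Matrix ι ι ℝ} {U : Matrix ι κ ℤ}, Semi G → Inj U → 1 ≤ (sg G U).det

/-- **QPD** (120 lines).  The form.  Bounds by compactness of the sphere (or by the spectral theorem); `fin` from `bd`; `half`: `Q` is quadratic and nonnegative: `Q ((x+y)/2) ≤ (Q x + Q y)/2`. -/
structure SpecQPD : Prop where
  bd : ∀ {ι : Type} [Fintype ι] {G : Matrix ι ι ℝ}, G.PosDef → ∃ c C : ℝ, 0 < c ∧ 0 < C ∧ ∀ x, c * ∑ i, x i ^ 2 ≤ Q G x ∧ Q G x ≤ C * ∑ i, x i ^ 2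
  cont : ∀ {ι : Type} [Fintype ι] (G : Matrix ι ι ℝ), Continuous (Q G)
  cont2 : ∀ {ι : Type} [Fintype ι], Continuous (fun p : Matrix ι ι ℝ × (ι → ℝ) => Q p.1 p.2)
  even : ∀ {ι : Type} [Fintype ι] (G : Matrix ι ι ℝ) (x : ι → ℝ), Q G (-x) = Q G x
  scal : ∀ {ι : Type} [Fintype ι] (G : Matrix ι ι ℝ) (c : ℝ) (x : ι → ℝ), Q G (c • x) = c ^ 2 * Q G x ∧ Q (c • G) x = c * Q G x
  para : ∀ {ι : Type} [Fintype ι] (G : Matrix ι ι ℝ) (x y : ι → ℝ), Q G (x + y) + Q G (x - y) = 2 * Q G x + 2 * Q G y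
  fin : ∀ {ι : Type} [Fintype ι] {G : Matrix ι ι ℝ}, G.PosDef → ∀ R : ℝ, {y : ι → ℤ | Q G (fun i => (y i : ℝ)) ≤ R}.Finite
  low : ∀ {ι : Type} [Fintype ι] {G : Matrix ι ι ℝ}, G.PosDef → ∃ a : ℝ, 0 < a ∧ ∀ y : ι → ℤ, y ≠ 0 → a ≤ Q G (fun i => (y i : ℝ))
  one : ∀ {ι : Type} [Fintype ι] {G : Matrix ι ι ℝ}, Semi G → ∀ y : ι → ℤ, y ≠ 0 → 1 ≤ Q G (fun i => (y i : ℝ))
  comp : ∀ {ι κ : Type} [Fintype ι] [Fintype κ] (G : Matrix ι ι ℝ) (U : Matrix ι κ ℤ) (x : κ → ℝ), Q (sg G U) x = Q G (rm U *ᵥ x)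
  sq : ∀ {ι : Type} [Fintype ι] (B : Matrix ι ι ℝ) (x : ι → ℝ), Q (Bᵀ * B) x = ∑ i, (B *ᵥ x) i ^ 2

/-- **GNI** (from QPD; 80 lines).  `G = BᵀB`, change of variables, product of one dimensional Gaussian integrals. -/
def SpecGNI : Prop := ∀ {ι : Type} [Fintype ι] [DecidableEq ι] (G : Matrix ι ι ℝ), G.PosDef →
  ∫⁻ x : ι → ℝ, gs G x = ENNReal.ofReal (1 / Real.sqrt G.det)

/-- **MAS** (from QPD, GNI; 150 lines).  For all `w`: `∑_y gs (w - y) = ½ ∑_y (gs (w - y) + gs (w + y)) ≥ gs w · rho G` (`cosh ≥ 1`).  With `w = x - z`, sup over `z`: `rho G * sup0 G x ≤ ∑_y gs (x - y)`.  Integrate over the cube: the right side gives `∫_{ℝⁿ} gs G = 1/√det G`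
(the cube is a fundamental domain: `ZSpan.isAddFundamentalDomain` for `Pi.basisFun`, or `IsAddFundamentalDomain.lintegral_eq_tsum`). -/
def SpecMAS : Prop := ∀ {ι : Type} [Fintype ι] [DecidableEq ι] (G : Matrix ι ι ℝ), G.PosDef → rho G * Phi G ≤ 1

/-- **VO1** (from QPD; 120 lines).  `Vor G` is an intersection of half spaces (`Q x ≤ Q (x - y)` is linear in `x`), symmetric; bounded: `Q x ≤ Q (x - round x)`; contains a neighbourhood of `0` (`4 Q x ≤ Q y` for all `y ≠ 0` suffices); `cov`: take `y` minimising `Q (x - y)` (QPD.fin-like finiteness). -/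
structure SpecVO1 : Prop where
  cpt : ∀ {ι : Type} [Fintype ι] {G : Matrix ι ι ℝ}, G.PosDef → IsCompact (Vor G)
  conv : ∀ {ι : Type} [Fintype ι] {G : Matrix ι ι ℝ}, G.PosDef → Convex ℝ (Vor G)
  symm : ∀ {ι : Type} [Fintype ι] {G : Matrix ι ι ℝ}, ∀ x ∈ Vor G, -x ∈ Vor G
  zero : ∀ {ι : Type} [Fintype ι] {G : Matrix ι ι ℝ}, G.PosDef → (0 : ι → ℝ) ∈ interior (Vor G)
  cov : ∀ {ι : Type} [Fintype ι] {G : Matrix ι ι ℝ}, G.PosDef → ∀ x : ι → ℝ, ∃ y : ι → ℤ, (fun i => x i - (y i : ℝ)) ∈ Vor G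

/-- **VO2** (from QPD, VO1; 180 lines).  The cell is a fundamental domain of `ℤⁿ`: the sets `{x | Q x = Q (x - y)}`, `y ≠ 0`, are hyperplanes (null sets).  `per`: two fundamental domains have the same integral of a periodic function (`IsAddFundamentalDomain.setLIntegral_eq`).
On the cell `sup0 G x = gs G x`. -/
structure SpecVO2 : Prop where
  strict : ∀ {ι : Type} [Fintype ι] {G : Matrix ι ι ℝ}, G.PosDef → ∀ᵐ x ∂(volume.restrict (Vor G)), ∀ y : ι → ℤ, y ≠ 0 → Q G x < Q G (fun i => x i - (y i : ℝ))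
  per : ∀ {ι : Type} [Fintype ι] {G : Matrix ι ι ℝ} {F : (ι → ℝ) → ℝ≥0∞}, G.PosDef → Measurable F → (∀ (x : ι → ℝ) (y : ι → ℤ), F (fun i => x i - (y i : ℝ)) = F x) →
    ∫⁻ x in cube ι, F x = ∫⁻ x in Vor G, F x
  vol : ∀ {ι : Type} [Fintype ι] {G : Matrix ι ι ℝ}, G.PosDef → volume (Vor G) = 1
  phi : ∀ {ι : Type} [Fintype ι] [DecidableEq ι] {G : Matrix ι ι ℝ}, G.PosDef → Phi G = ENNReal.ofReal (Real.sqrt G.det) * ∫⁻ x in Vor G, gs G x

/-- **VBM** (from QPD, VO1, VO2; 120 lines).  The cell in `ℝⁿ` with the standard form: linear change of variables in VO1, VO2. -/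
structure SpecVBM : Prop where
  cpt : ∀ {ι : Type} [Fintype ι] [DecidableEq ι] {B : Matrix ι ι ℝ}, B.det ≠ 0 → IsCompact (VB B)
  conv : ∀ {ι : Type} [Fintype ι] [DecidableEq ι] {B : Matrix ι ι ℝ}, B.det ≠ 0 → Convex ℝ (VB B)
  symm : ∀ {ι : Type} [Fintype ι] [DecidableEq ι] {B : Matrix ι ι ℝ}, ∀ x ∈ VB B, -x ∈ VB B
  zero : ∀ {ι : Type} [Fintype ι] [DecidableEq ι] {B : Matrix ι ι ℝ}, B.det ≠ 0 → (0 : ι → ℝ) ∈ interior (VB B)
  vol : ∀ {ι : Type} [Fintype ι] [DecidableEq ι] {B : Matrix ι ι ℝ}, B.det ≠ 0 → volume (VB B) = ENNReal.ofReal |B.det|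
  hd : ∀ {ι : Type} [Fintype ι] [DecidableEq ι] {B : Matrix ι ι ℝ}, B.det ≠ 0 → HD (VB B) (fun _ => 1) = (Phi (Bᵀ * B)).toReal ∧ Phi (Bᵀ * B) ≤ 1
  rot : ∀ {ι : Type} [Fintype ι] [DecidableEq ι] {B O : Matrix ι ι ℝ}, Oᵀ * O = 1 → VB (O * B) = (fun x => O *ᵥ x) '' VB B

/-- **UNI** (from QPD, INJ, VO1, VO2; 120 lines).  Unimodular invariance: `Vor (sg G T) = (rm T)⁻¹ (Vor G)`, `|det| = 1`. -/
structure SpecUNI : Prop where
  phi : ∀ {ι κ : Type} [Fintype ι] [Fintype κ] [DecidableEq ι] [DecidableEq κ] {G : Matrix ι ι ℝ} {T : Matrix ι κ ℤ} {S : Matrix κ ι ℤ}, T * S = 1 → S * T = 1 → G.PosDef → Phi (sg G T) = Phi G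
  det : ∀ {ι κ : Type} [Fintype ι] [Fintype κ] [DecidableEq ι] [DecidableEq κ] {G : Matrix ι ι ℝ} {T : Matrix ι κ ℤ} {S : Matrix κ ι ℤ}, T * S = 1 → S * T = 1 → (sg G T).det = G.det
  semi : ∀ {ι κ : Type} [Fintype ι] [Fintype κ] [DecidableEq ι] [DecidableEq κ] {G : Matrix ι ι ℝ} {T : Matrix ι κ ℤ} {S : Matrix κ ι ℤ}, T * S = 1 → S * T = 1 → Semi G → Semi (sg G T)

/-- the quotient form (Schur complement) -/
noncomputable def sch {ι κ : Type} [Fintype ι] [Fintype κ] [DecidableEq ι] (G : Matrix (ι ⊕ κ) (ι ⊕ κ) ℝ) : Matrix κ κ ℝ :=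
  G.toBlocks₂₂ - G.toBlocks₂₁ * G.toBlocks₁₁⁻¹ * G.toBlocks₁₂

/-- **SPA** (from QPD, SPB; 150 lines).  Splitting of `Phi`.  `Q G (x₁, x₂) = Q A (x₁ + A⁻¹ G₁₂ x₂) + Q S x₂`.  `sup0 G (x₁, x₂) = sup_{y₂} gs S (x₂ - y₂) · sup0 A (x₁ + A⁻¹G₁₂ (x₂ - y₂))`.  Integrate over `x₁` in the cube: the integral of the supremum is at least the supremum of the integrals, and
`∫ sup0 A (x₁ + c) = ∫ sup0 A` (periodicity); then over `x₂` (`volume_measurePreserving_sumPiEquivProdPi`).  `det G = det A · det S`. -/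
def SpecSPA : Prop := ∀ {ι κ : Type} [Fintype ι] [Fintype κ] [DecidableEq ι] [DecidableEq κ] (G : Matrix (ι ⊕ κ) (ι ⊕ κ) ℝ), G.PosDef →
  Phi G.toBlocks₁₁ * Phi (sch G) ≤ Phi G

/-- **SPB** (from INJ; 150 lines).  Algebra of the splitting.  `semi`: for `A` use `U ↦ (U; 0)`; for `S` use `W = diag (1, U)`: `sg G W` has blocks `A, A₁₂U, …`, its Schur complement is `Uᵀ S U`, so `det (sg G W) = det A · det (sg S U)` (`Matrix.det_fromBlocks₁₁`). -/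
structure SpecSPB : Prop where
  pd : ∀ {ι κ : Type} [Fintype ι] [Fintype κ] [DecidableEq ι] [DecidableEq κ] {G : Matrix (ι ⊕ κ) (ι ⊕ κ) ℝ}, G.PosDef →
    G.toBlocks₁₁.PosDef ∧ (sch G).PosDef ∧ G.det = G.toBlocks₁₁.det * (sch G).det
  form : ∀ {ι κ : Type} [Fintype ι] [Fintype κ] [DecidableEq ι] [DecidableEq κ] {G : Matrix (ι ⊕ κ) (ι ⊕ κ) ℝ}, G.PosDef → ∀ (x : ι → ℝ) (y : κ → ℝ),
    Q G (Sum.elim x y) = Q G.toBlocks₁₁ (x + (G.toBlocks₁₁⁻¹ * G.toBlocks₁₂) *ᵥ y) + Q (sch G) y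
  semi : ∀ {ι κ : Type} [Fintype ι] [Fintype κ] [DecidableEq ι] [DecidableEq κ] {G : Matrix (ι ⊕ κ) (ι ⊕ κ) ℝ}, Semi G → G.toBlocks₁₁.det = 1 →
    Semi G.toBlocks₁₁ ∧ Semi (sch G)

/-- **PRM** (150 lines).  Completion of a primitive closure to a basis: Smith normal form of the column span of `U` in `ι → ℤ` (`Submodule.smithNormalForm`): `T` = the adapted basis, the vectors `bM (f i)` first. -/
def SpecPRM : Prop := ∀ {ι : Type} [Fintype ι] [DecidableEq ι] (m : ℕ) (U : Matrix ι (Fin m) ℤ), Inj U →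
  ∃ (k : ℕ) (T : Matrix ι (Fin m ⊕ Fin k) ℤ) (S : Matrix (Fin m ⊕ Fin k) ι ℤ) (R : Matrix (Fin m) (Fin m) ℤ),
    m + k = Fintype.card ι ∧ T * S = 1 ∧ S * T = 1 ∧ R.det ≠ 0 ∧ U = (T.submatrix id Sum.inl) * R

/-- **SPL** (from INJ, UNI, SPA, SPB, PRM; 80 lines).  With `T`, `R` from PRM: `1 = det (sg G U) = (det R)² det (sg G T₁) ≥ 1 · 1`, so the block `A = (sg G T)₁₁ = sg G T₁` has determinant one. -/
def SpecSPL : Prop := ∀ {ι : Type} [Fintype ι] [DecidableEq ι] (G : Matrix ι ι ℝ), Semi G → HasOne G →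
  ∃ (m k : ℕ) (A : Matrix (Fin m) (Fin m) ℝ) (S : Matrix (Fin k) (Fin k) ℝ), 0 < m ∧ 0 < k ∧ m + k = Fintype.card ι ∧ Semi A ∧ Semi S ∧ Phi A * Phi S ≤ Phi G

/-- **RED** (from INJ, QPD, PRM, SPB; 300 lines).  Reduction theory.  By induction on `n`, together with (H) `det G ≥ c_n (min Q)ⁿ`, `c_n > 0`.  Step `n + 1`: `y` a nonzero integral vector with `Q y = m` minimal; it is primitive, so (PRM, one column, `R = ±1`) it is the first vector of a basis: `G' = sg G T₁`, `G'₀₀ = m`.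
The Schur complement `S` (of the `1 × 1` block) has `det S = det G / m`, and `Q S z ≥ 3m/4` for integral `z ≠ 0` (choose the integral first coordinate at distance `≤ 1/2`: `m ≤ m/4 + Q S z`).  So (H): `det G = m det S ≥ m c_n (3m/4)ⁿ`, hence `m` is bounded, `m ≥ a`.
Induction for `S` (bounds `3a/4`, `D/a`): basis with bounded entries; lift it, subtracting integral multiples of the first vector so that `|G_{0j}| ≤ m/2`; `G_{ij} = S_{ij} + G_{0i}G_{0j}/m`. -/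
def SpecRED : Prop := ∀ (n : ℕ) (a D : ℝ), 0 < a → ∃ R : ℝ, ∀ G : Matrix (Fin n) (Fin n) ℝ, G.PosDef →
  (∀ y : Fin n → ℤ, y ≠ 0 → a ≤ Q G (fun i => (y i : ℝ))) → G.det ≤ D →
  ∃ T S : Matrix (Fin n) (Fin n) ℤ, T * S = 1 ∧ S * T = 1 ∧ ∀ i j, |sg G T i j| ≤ R

/-- **FNV** (from INJ, QPD, RED; 150 lines).  Determinants of sublattices are discrete.  `det (sg G U) ≤ 2`: by RED (`a` from QPD.low) a unimodular `T` with `sg G (U T)` bounded, so the columns of `U T` are bounded (QPD.bd), `m ≤ card ι` (INJ.card): finitely many matrices `U T`, and `det (sg G (U T)) = det (sg G U)`. -/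
def SpecFNV : Prop := ∀ {ι : Type} [Fintype ι] [DecidableEq ι] (G : Matrix ι ι ℝ), G.PosDef →
  ∃ ε : ℝ, 0 < ε ∧ ∀ (m : ℕ) (U : Matrix ι (Fin m) ℤ), Inj U → 1 < (sg G U).det → 1 + ε ≤ (sg G U).det

/-- **LSC** (from QPD; 80 lines).  Lower semicontinuity: Fatou (`lintegral_liminf_le`), `liminf sup ≥ sup liminf`, continuity of `det` and of `G ↦ Q G x`. -/
def SpecLSC : Prop := ∀ {ι : Type} [Fintype ι] [DecidableEq ι] (G : ℕ → Matrix ι ι ℝ) (G₀ : Matrix ι ι ℝ), Tendsto G atTop (𝓝 G₀) →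
  Phi G₀ ≤ liminf (fun k => Phi (G k)) atTop

/-- **MNM** (from INJ, QPD, UNI, RED, LSC; 150 lines).  The minimiser.  The set is nonempty (`G = 1`: `det (UᵀU)` is a positive integer).  Minimising sequence, bounded entries by RED (`a = 1`, `D = 1`) and UNI; a subsequence converges; the limit is positive semidefinite of determinant one, so positive definite; the conditions
`1 ≤ det (sg G U)` are closed; LSC. -/
def SpecMNM : Prop := ∀ n : ℕ, ∃ G₀ : Matrix (Fin n) (Fin n) ℝ, Semi G₀ ∧ G₀.det = 1 ∧ ∀ G : Matrix (Fin n) (Fin n) ℝ, Semi G → G.det = 1 → Phi G₀ ≤ Phi G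

/-- **DMO** (80 lines).  Monotonicity of the determinant: `A = CᵀC`, `C` invertible, `B = Cᵀ (1 + K) C`, `K` positive semidefinite, eigenvalues. -/
def SpecDMO : Prop := ∀ {ι : Type} [Fintype ι] [DecidableEq ι] (A B : Matrix ι ι ℝ), A.PosDef → (B - A).PosSemidef → A.det ≤ B.det

/-- **DEF** (from INJ, FNV, DMO; 150 lines).  Small deformations stay in the class.  `det (dfm B s t) = 1`.  For `U` with `m` columns: `m = 0`: determinant of the empty matrix; `m = n`: `det = (det U)² ≥ 1`; `0 < m < n`: `det (sg G U) ≥ 1 + ε` (FNV, no `HasOne`), and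
`sg (dfm B s t) U = (B rm U)ᵀ diag (exp 2ts) (B rm U) ≥ e^{-2|t|σ} sg G U`, `σ = max |s_i|`, so `det ≥ e^{-2|t|σn} (1 + ε) ≥ 1` for small `t`. -/
def SpecDEF : Prop := ∀ {ι : Type} [Fintype ι] [DecidableEq ι] (B : Matrix ι ι ℝ) (s : ι → ℝ), Semi (Bᵀ * B) → (Bᵀ * B).det = 1 → ¬ HasOne (Bᵀ * B) → ∑ i, s i = 0 →
  ∃ t₀ : ℝ, 0 < t₀ ∧ ∀ t : ℝ, |t| ≤ t₀ → Semi (dfm B s t) ∧ (dfm B s t).det = 1

/-- **LDF** (from QPD, VO1, VO2, VBM; 300 lines).  `E_t(u) = exp (-π ∑ e^{2ts_i} u_i²)`.  By VO2.per (with the cell of `G = BᵀB`) and the change of variables `v = Bx`: `Phi (dfm B s t) = ∫_{VB B} sup_y E_t (v - By) dv` (`∑ s = 0`, so `det (dfm B s t) = det G`).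
`|E_t(u) - E_0(u)| ≤ C|t|` for `|t| ≤ 1`, uniformly in `u` (`|d/dt E_t| ≤ 2σ sup w e^{-w}`).  `g_t(v) = sup_y E_t(v - By) - E_t(v) ≥ 0` satisfies `g_t ≤ 2C|t|` on `VB B` (as `E_0(v - By) ≤ E_0(v)`), and for almost every `v` (VO2.strict) `g_t(v) = 0` for small `t` (only finitely many `y` matter).
Dominated convergence along sequences `t_k → 0`: `∫ g_t / |t| → 0`. -/
def SpecLDF : Prop := ∀ {ι : Type} [Fintype ι] [DecidableEq ι] (B : Matrix ι ι ℝ) (s : ι → ℝ), B.det ≠ 0 → ∑ i, s i = 0 →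
  ∀ ε : ℝ, 0 < ε → ∃ δ : ℝ, 0 < δ ∧ ∀ t : ℝ, |t| < δ → (Phi (dfm B s t)).toReal ≤ HD (VB B) (fun i => Real.exp (2 * t * s i)) + ε * |t|

/-- **CRI** (from QPD, VBM, DEF, LDF, CRT; 80 lines).  For small `t`: `HD (VB B) 1 = Phi G₀ ≤ Phi (dfm B s t) ≤ HD (VB B) (exp 2ts) + ε|t|`; CRT. -/
def SpecCRI : Prop := ∀ {ι : Type} [Fintype ι] [DecidableEq ι] (B : Matrix ι ι ℝ) (s : ι → ℝ), Semi (Bᵀ * B) → (Bᵀ * B).det = 1 → ¬ HasOne (Bᵀ * B) →
  (∀ G : Matrix ι ι ℝ, Semi G → G.det = 1 → Phi (Bᵀ * B) ≤ Phi G) → ∑ i, s i = 0 →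
  HD (VB B) (fun i => Real.exp (2 * s i)) ≤ (Phi (Bᵀ * B)).toReal

/-- **SCL** (from INJ, QPD, VO1, VO2, FNV; 150 lines).  Scaling.  `Phi (sG) ≤ Phi G` for `0 < s ≤ 1` (`∫_{√s Vor} ≤ ∫_{Vor}`).  `s₀ = inf {s ∈ (0,1] | Semi (sG)}`; `sⁿ det G ≥ 1` bounds `s` from below; the conditions are closed, so `Semi (s₀G)`.
If no proper sublattice of `s₀G` has determinant one and `det (s₀G) ≠ 1`, all determinants of sublattices of positive rank are `> 1`, so `≥ 1 + ε` (FNV), and `s₀` could be decreased. -/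
def SpecSCL : Prop := ∀ {ι : Type} [Fintype ι] [DecidableEq ι] [Nonempty ι] (G : Matrix ι ι ℝ), Semi G →
  ∃ s : ℝ, 0 < s ∧ s ≤ 1 ∧ Semi (s • G) ∧ Phi (s • G) ≤ Phi G ∧ (HasOne (s • G) ∨ (s • G).det = 1)

/-- **RMM** (from QPD, VBM, SPL, MNM, CRI, SCL, MPO; 150 lines).  Strong induction on `n`; `c₀` from MPO.  `n = 0`: `Phi = 1`.  `n ≥ 1`: SCL; if `HasOne (sG)`: SPL and induction.  If `det (sG) = 1`: `Phi (sG) ≥ Phi G₀` (MNM); if `HasOne G₀`: SPL and induction.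
Otherwise `G₀ = BᵀB`, `V = VB B` has volume one; MPO gives `O`, `s` with `c₀ⁿ ≤ ∫_V exp (-π ∑ e^{2s_i} (Ox)_i²) = HD (VB (OB)) (exp 2s)` (VBM.rot, `|det O| = 1`), `≤ Phi G₀` by CRI for `OB`. -/
def SpecRMM : Prop := ∃ c₀ : ℝ, 0 < c₀ ∧ c₀ ≤ 1 ∧ ∀ (n : ℕ) (G : Matrix (Fin n) (Fin n) ℝ), Semi G → ENNReal.ofReal (c₀ ^ n) ≤ Phi G

/-- **RMI** (from INJ, QPD, MAS, RMM; 120 lines).  Interface for helper12.  `G` = Gram matrix of `b`; `sg G U` = Gram matrix of `f_j = ∑_i U_ij b_i`; `rho G ≤ C^n` from MAS and RMM; transfer to a real sum. -/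
def SpecRMI : Prop := ∃ C : ℝ, 1 ≤ C ∧ ∀ {E : Type} [NormedAddCommGroup E] [InnerProductSpace ℝ E] (n : ℕ) (b : Fin n → E), LinearIndependent ℝ b →
  (∀ (m : ℕ) (f : Fin m → E), LinearIndependent ℝ f → (∀ i, f i ∈ Submodule.span ℤ (Set.range b)) →
    1 ≤ (Matrix.of fun i j => (inner ℝ (f i) (f j) : ℝ)).det) →
  Summable (fun x : Fin n → ℤ => Real.exp (-(Real.pi * ‖∑ i, (x i : ℝ) • b i‖ ^ 2))) ∧
  ∑' x : Fin n → ℤ, Real.exp (-(Real.pi * ‖∑ i, (x i : ℝ) • b i‖ ^ 2)) ≤ C ^ n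

end Pool.Agent.Lib.MP_cb8a44_nt.RM
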