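import Mathlib

set_option autoImplicit false

/-!
# MP_cb8a44_nt, block RM (helper98): the exponential reverse Minkowski inequality

THEOREM RM.  There is `C` such that for every real positive definite `n × n` matrix `G` with
`det (Uᵀ G U) ≥ 1` for all integral matrices `U` of full column rank: `∑_{y ∈ ℤⁿ} exp (-π yᵀ G y) ≤ Cⁿ`.

`ℝⁿ` is `ι → ℝ` everywhere, with Lebesgue measure `volume`.  Rules: one module `XXX` is one file
`Pool/Agent/Lib/MP_cb8a44_nt/RM/Xxx.lean`, importing the Spec file, with the theorem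
`specXXX (hYYY : SpecYYY) … : SpecXXX`, own lemmas in the namespace `…RM.XXXM`.  A module may use every other
statement `SpecYYY` as a hypothesis (no cycles: only statements named in its docstring).
-/

open MeasureTheory Matrix Set
open scoped ENNReal

namespace Pool.Agent.Lib.MP_cb8a44_nt.RM

/-! ## Convexity (owner helper77, files `PL/`) -/

section PL
variable {ι : Type} [Fintype ι]

/-- a measurable symmetric convex set -/
structure SC (V : Set (ι → ℝ)) : Prop where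
  conv : Convex ℝ V
  symm : ∀ x ∈ V, -x ∈ V
  meas : MeasurableSet V

/-- Gaussian integral over `V` with diagonal quadratic form -/
noncomputable def HD (V : Set (ι → ℝ)) (a : ι → ℝ) : ℝ :=
  ∫ x in V, Real.exp (-(Real.pi * ∑ i, a i * x i ^ 2))

end PL

/-- **AND** (helper77; Anderson's inequality). -/
def SpecAND : Prop := ∀ {ι : Type} [Fintype ι] (V : Set (ι → ℝ)) (φ : (ι → ℝ) → ℝ≥0∞), SC V →
  Measurable φ → (∀ x, φ (-x) = φ x) → (∀ x y, φ x * φ y ≤ φ ((1 / 2 : ℝ) • (x + y)) ^ 2) →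
  ∀ a : ι → ℝ, ∫⁻ x in V, φ (x + a) ≤ ∫⁻ x in V, φ x

/-- **CRT** (helper77; consequence of the B-theorem `HD V (exp 2s) * HD V (exp (-2s)) ≤ HD V 1 ^ 2`). -/
def SpecCRT : Prop := ∀ {ι : Type} [Fintype ι] (V : Set (ι → ℝ)) (s : ι → ℝ), SC V → 0 < volume V →
  (∀ ε > (0 : ℝ), ∃ δ > (0 : ℝ), ∀ t : ℝ, |t| < δ →
    HD V (fun _ => 1) - ε * |t| ≤ HD V (fun i => Real.exp (2 * t * s i))) →
  HD V (fun i => Real.exp (2 * s i)) ≤ HD V (fun _ => 1)

/-! ## Lattices as Gram matrices -/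

section L
variable {ι κ : Type} [Fintype ι] [Fintype κ]

/-- the quadratic form of a real matrix -/
noncomputable def Q (G : Matrix ι ι ℝ) (x : ι → ℝ) : ℝ := x ⬝ᵥ (G *ᵥ x)

/-- an integral matrix as a real matrix -/
noncomputable def rm (U : Matrix ι κ ℤ) : Matrix ι κ ℝ := U.map (fun n : ℤ => (n : ℝ))

/-- the Gram matrix of the sublattice generated by the columns of `U` -/
noncomputable def sg (G : Matrix ι ι ℝ) (U : Matrix ι κ ℤ) : Matrix κ κ ℝ := (rm U)ᵀ * G * rm U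

/-- `U` has full column rank -/
def Inj (U : Matrix ι κ ℤ) : Prop := Function.Injective (fun v : κ → ℤ => U *ᵥ v)

/-- all sublattices have determinant at least `1` -/
def Semi (G : Matrix ι ι ℝ) : Prop := G.PosDef ∧ ∀ (m : ℕ) (U : Matrix ι (Fin m) ℤ), Inj U → 1 ≤ (sg G U).det

/-- some proper sublattice (neither `0` nor of full rank) has determinant `1` -/
def HasOne (G : Matrix ι ι ℝ) : Prop :=
  ∃ (m : ℕ) (U : Matrix ι (Fin m) ℤ), 0 < m ∧ m < Fintype.card ι ∧ Inj U ∧ (sg G U).det = 1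

/-- `exp (-π Q x)` -/
noncomputable def gs (G : Matrix ι ι ℝ) (x : ι → ℝ) : ℝ≥0∞ := ENNReal.ofReal (Real.exp (-(Real.pi * Q G x)))

/-- the Gaussian mass of the lattice -/
noncomputable def rho (G : Matrix ι ι ℝ) : ℝ≥0∞ := ∑' y : ι → ℤ, gs G (fun i => (y i : ℝ))

/-- the periodic maximum of the Gaussian -/
noncomputable def sup0 (G : Matrix ι ι ℝ) (x : ι → ℝ) : ℝ≥0∞ := ⨆ y : ι → ℤ, gs G (fun i => x i - (y i : ℝ))

/-- the unit cube -/
def cube (ι : Type) : Set (ι → ℝ) := Set.pi Set.univ (fun _ : ι => Set.Ico (0 : ℝ) 1)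

/-- the Voronoi cell in the coordinates of the lattice -/
def Vor (G : Matrix ι ι ℝ) : Set (ι → ℝ) := {x | ∀ y : ι → ℤ, Q G x ≤ Q G (fun i => x i - (y i : ℝ))}

end L

section L2
variable {ι : Type} [Fintype ι] [DecidableEq ι]

/-- the Gaussian mass of the Voronoi cell, as an integral over the torus -/
noncomputable def Phi (G : Matrix ι ι ℝ) : ℝ≥0∞ :=
  ENNReal.ofReal (Real.sqrt G.det) * ∫⁻ x in cube ι, sup0 G x

/-- the Voronoi cell of the lattice `B ℤⁿ`, in `ℝⁿ` with the standard form -/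
def VB (B : Matrix ι ι ℝ) : Set (ι → ℝ) := (fun x => B *ᵥ x) '' Vor (Bᵀ * B)

/-- the deformation `Bᵀ diag(exp 2ts) B` -/
noncomputable def dfm (B : Matrix ι ι ℝ) (s : ι → ℝ) (t : ℝ) : Matrix ι ι ℝ :=
  Bᵀ * Matrix.diagonal (fun i => Real.exp (2 * t * s i)) * B

end L2

/-! ## Norms on `ℝⁿ` and Gaussian measure -/

section M
variable {ι : Type} [Fintype ι]

/-- a norm on `ι → ℝ` -/
structure Nm (p : (ι → ℝ) → ℝ) : Prop where
  add : ∀ x y, p (x + y) ≤ p x + p y
  smul : ∀ (c : ℝ) (x : ι → ℝ), p (c • x) = |c| * p x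
  pos : ∀ x, x ≠ 0 → 0 < p x

/-- the Euclidean norm -/
noncomputable def eu (x : ι → ℝ) : ℝ := Real.sqrt (∑ i, x i ^ 2)

/-- the unit ball of `p` -/
def bl (p : (ι → ℝ) → ℝ) : Set (ι → ℝ) := {x | p x ≤ 1}

/-- the standard Gaussian measure -/
noncomputable def gm (ι : Type) [Fintype ι] : Measure (ι → ℝ) :=
  Measure.pi (fun _ : ι => ProbabilityTheory.gaussianReal 0 1)

/-- the mean of `p` -/
noncomputable def ell (p : (ι → ℝ) → ℝ) : ℝ := ∫ x, p x ∂(gm ι)

/-- the dual norm -/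
noncomputable def du (p : (ι → ℝ) → ℝ) (y : ι → ℝ) : ℝ := sSup ((fun x => x ⬝ᵥ y) '' bl p)

/-- the volume of the unit ball -/
noncomputable def vol (p : (ι → ℝ) → ℝ) : ℝ := (volume (bl p)).toReal

end M

section M2
variable {ι : Type} [Fintype ι] [DecidableEq ι]

/-- Banach-Mazur distance to the Euclidean norm at most `D` -/
def Dist (p : (ι → ℝ) → ℝ) (D : ℝ) : Prop :=
  ∃ A : Matrix ι ι ℝ, A.det ≠ 0 ∧ ∀ x, p x ≤ eu (A *ᵥ x) ∧ eu (A *ᵥ x) ≤ D * p x

/-- the Gaussian mass (density `exp (-π|x|²)`) of the image of the unit ball of `p` under `A` -/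
noncomputable def gmass (p : (ι → ℝ) → ℝ) (A : Matrix ι ι ℝ) : ℝ :=
  |A.det| * ∫ x in bl p, Real.exp (-(Real.pi * ∑ i, (A *ᵥ x) i ^ 2))

/-- some linear image of volume `1` of the unit ball has Gaussian mass at least `c` -/
def Good (p : (ι → ℝ) → ℝ) (c : ℝ) : Prop := ∃ A : Matrix ι ι ℝ, |A.det| * vol p = 1 ∧ c ≤ gmass p A

end M2

end Pool.Agent.Lib.MP_cb8a44_nt.RM
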