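import Pool.Agent.Lib.MP_cb8a44_nt.RM.SpecM

/-!
# MP_cb8a44_nt, block RM, module BAS: start of the iteration
-/

set_option autoImplicit false

open MeasureTheory Matrix Set
open scoped ENNReal Pointwise

namespace Pool.Agent.Lib.MP_cb8a44_nt.RM

namespace BASM

variable {ι : Type} [Fintype ι] {p : (ι → ℝ) → ℝ}

theorem eu_nonneg (x : ι → ℝ) : 0 ≤ eu x := Real.sqrt_nonneg _

theorem eu_sq (x : ι → ℝ) : eu x ^ 2 = ∑ i, x i ^ 2 :=
  Real.sq_sqrt (Finset.sum_nonneg (fun _ _ => sq_nonneg _))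

theorem eu_cont : Continuous (eu : (ι → ℝ) → ℝ) := by
  unfold eu
  fun_prop

theorem eu_smul (t : ℝ) (ht : 0 ≤ t) (x : ι → ℝ) : eu (t • x) = t * eu x := by
  unfold eu
  rw [show (∑ i, (t • x) i ^ 2) = t ^ 2 * ∑ i, x i ^ 2 by
    rw [Finset.mul_sum]
    refine Finset.sum_congr rfl (fun i _ => ?_)
    simp only [Pi.smul_apply, smul_eq_mul]; ring]
  rw [Real.sqrt_mul (sq_nonneg t), Real.sqrt_sq ht]

/-- The set `|A x| ≤ r`. -/
def S (A : Matrix ι ι ℝ) (r : ℝ) : Set (ι → ℝ) := {x | eu (A *ᵥ x) ≤ r}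

theorem cont_A (A : Matrix ι ι ℝ) : Continuous (fun x : ι → ℝ => A *ᵥ x) :=
  Continuous.matrix_mulVec continuous_const continuous_id

theorem S_closed (A : Matrix ι ι ℝ) (r : ℝ) : IsClosed (S A r) :=
  isClosed_le (eu_cont.comp (cont_A A)) continuous_const

theorem S_smul (A : Matrix ι ι ℝ) (r : ℝ) (hr : 0 < r) : S A r = r • S A 1 := by
  ext x
  rw [Set.mem_smul_set_iff_inv_smul_mem₀ hr.ne']
  change eu (A *ᵥ x) ≤ r ↔ eu (A *ᵥ (r⁻¹ • x)) ≤ 1
  rw [Matrix.mulVec_smul, eu_smul _ (inv_nonneg.2 hr.le), inv_mul_le_iff₀ hr, mul_one]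

theorem S_vol (A : Matrix ι ι ℝ) (r : ℝ) (hr : 0 < r) :
    volume.real (S A r) = r ^ Fintype.card ι * volume.real (S A 1) := by
  rw [S_smul A r hr, Measure.real, Measure.addHaar_smul, ENNReal.toReal_mul,
    Module.finrank_fintype_fun_eq_card, abs_of_pos (pow_pos hr _),
    ENNReal.toReal_ofReal (pow_nonneg hr.le _)]
  rfl

/-- The volume of the set `|A x| ≤ 1`, from below. -/
theorem S_ge [DecidableEq ι] [Nonempty ι] (A : Matrix ι ι ℝ) (hA : A.det ≠ 0) (hfin : volume (S A 1) ≠ ∞) :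
    (2 / Real.sqrt (Fintype.card ι)) ^ Fintype.card ι ≤ |A.det| * volume.real (S A 1) := by
  have hn : (0 : ℝ) < Fintype.card ι := by
    have := Fintype.card_pos (α := ι)
    exact_mod_cast this
  have hs : 0 < Real.sqrt (Fintype.card ι) := Real.sqrt_pos.2 hn
  set a : ℝ := 1 / Real.sqrt (Fintype.card ι) with ha
  have ha0 : 0 < a := by rw [ha]; positivity
  have hsub : (Matrix.toLin' A) ⁻¹' (Set.Icc (fun _ => -a) (fun _ => a)) ⊆ S A 1 := by
    intro x hx
    have hx' : ∀ i, |(A *ᵥ x) i| ≤ a := by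
      intro i
      have h1 := hx.1 i
      have h2 := hx.2 i
      rw [Matrix.toLin'_apply] at h1 h2
      exact abs_le.2 ⟨h1, h2⟩
    change eu (A *ᵥ x) ≤ 1
    unfold eu
    rw [Real.sqrt_le_one]
    calc ∑ i, (A *ᵥ x) i ^ 2 ≤ ∑ _i : ι, a ^ 2 := by
          refine Finset.sum_le_sum (fun i _ => ?_)
          rw [← sq_abs]
          exact pow_le_pow_left₀ (abs_nonneg _) (hx' i) 2
      _ = 1 := by
          rw [Finset.sum_const, Finset.card_univ, nsmul_eq_mul, ha, div_pow, one_pow, Real.sq_sqrt hn.le]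
          field_simp
  have hvol : volume ((Matrix.toLin' A) ⁻¹' (Set.Icc (fun _ => -a) (fun _ => a)))
      = ENNReal.ofReal |(A.det)⁻¹| * volume (Set.Icc (fun _ : ι => -a) (fun _ => a)) := by
    rw [← Measure.map_apply (by
      have := cont_A A
      exact (LinearMap.continuous_of_finiteDimensional _).measurable) measurableSet_Icc,
      Real.map_matrix_volume_pi_eq_smul_volume_pi hA, Measure.smul_apply, smul_eq_mul]
  have hIcc : volume (Set.Icc (fun _ : ι => -a) (fun _ => a)) = ENNReal.ofReal ((2 * a) ^ Fintype.card ι) := by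
    rw [Real.volume_Icc_pi]
    rw [Finset.prod_const, Finset.card_univ, ← ENNReal.ofReal_pow (by linarith)]
    congr 2; ring
  have h1 : |(A.det)⁻¹| * (2 * a) ^ Fintype.card ι ≤ volume.real (S A 1) := by
    have h2 := measure_mono (μ := volume) hsub
    rw [hvol, hIcc, ← ENNReal.ofReal_mul (abs_nonneg _)] at h2
    have h3 := (ENNReal.ofReal_le_iff_le_toReal hfin).1 h2
    exact h3
  have hd : 0 < |A.det| := abs_pos.2 hA
  calc (2 / Real.sqrt (Fintype.card ι)) ^ Fintype.card ι
      = |A.det| * (|(A.det)⁻¹| * (2 * a) ^ Fintype.card ι) := by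
        rw [abs_inv, ← mul_assoc, mul_inv_cancel₀ hd.ne', one_mul, ha]
        congr 1; ring
    _ ≤ _ := mul_le_mul_of_nonneg_left h1 hd.le

end BASM

open BASM in
theorem specBAS (hNM1 : SpecNM1) : SpecBAS := by
  intro ι _ _ _ p D hp hD hDist
  obtain ⟨A, hA, hAx⟩ := hDist
  have hn : (0 : ℝ) < Fintype.card ι := by
    have := Fintype.card_pos (α := ι)
    exact_mod_cast this
  have hn0 : Fintype.card ι ≠ 0 := Fintype.card_pos.ne'
  have hs : 0 < Real.sqrt (Fintype.card ι) := Real.sqrt_pos.2 hn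
  have hD0 : 0 < D := by linarith
  have hd : 0 < |A.det| := abs_pos.2 hA
  have hv : 0 < vol p := hNM1.vpos hp
  have hcpt : IsCompact (bl p) := hNM1.cpt hp
  have hSsub : S A 1 ⊆ bl p := fun x hx => (hAx x).1.trans hx
  have hScpt : IsCompact (S A 1) := hcpt.of_isClosed_subset (S_closed A 1) hSsub
  have hsub2 : bl p ⊆ S A D := by
    intro x hx
    have hx' : p x ≤ 1 := hx
    exact (hAx x).2.trans (by nlinarith)
  -- the scaling factor
  obtain ⟨l, hl, hln⟩ : ∃ l : ℝ, 0 < l ∧ l ^ Fintype.card ι = (|A.det| * vol p)⁻¹ := by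
    refine ⟨((|A.det| * vol p)⁻¹) ^ ((Fintype.card ι : ℝ)⁻¹), Real.rpow_pos_of_pos (by positivity) _, ?_⟩
    exact Real.rpow_inv_natCast_pow (by positivity) hn0
  set s : ℝ := volume.real (S A 1) with hsdef
  have hvD : vol p ≤ D ^ Fintype.card ι * s := by
    rw [hsdef, ← S_vol A D hD0]
    have hfinD : volume (S A D) ≠ ∞ := by
      rw [S_smul A D hD0, Measure.addHaar_smul]
      exact ENNReal.mul_ne_top ENNReal.ofReal_ne_top hScpt.measure_lt_top.ne
    exact ENNReal.toReal_mono hfinD (measure_mono hsub2)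
  have hsv : s ≤ vol p := ENNReal.toReal_mono hcpt.measure_lt_top.ne (measure_mono hSsub)
  have hs0 : 0 < s := by
    have : 0 < D ^ Fintype.card ι * s := lt_of_lt_of_le hv hvD
    exact (mul_pos_iff_of_pos_left (pow_pos hD0 _)).1 this
  have hge := S_ge A hA hScpt.measure_lt_top.ne
  have hl2 : l ≤ Real.sqrt (Fintype.card ι) / 2 := by
    have h1 : (l * (2 / Real.sqrt (Fintype.card ι))) ^ Fintype.card ι ≤ 1 := by
      rw [mul_pow, hln]
      calc (|A.det| * vol p)⁻¹ * (2 / Real.sqrt (Fintype.card ι)) ^ Fintype.card ι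
          ≤ (|A.det| * vol p)⁻¹ * (|A.det| * s) :=
            mul_le_mul_of_nonneg_left hge (by positivity)
        _ ≤ (|A.det| * vol p)⁻¹ * (|A.det| * vol p) :=
            mul_le_mul_of_nonneg_left (mul_le_mul_of_nonneg_left hsv hd.le) (by positivity)
        _ = 1 := inv_mul_cancel₀ (by positivity)
    have h2 : l * (2 / Real.sqrt (Fintype.card ι)) ≤ 1 :=
      (pow_le_one_iff_of_nonneg (by positivity) hn0).1 h1
    rw [← mul_div_assoc, div_le_one hs] at h2
    linarith
  have hpi : Real.pi * l ^ 2 ≤ Fintype.card ι := by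
    have h1 : l ^ 2 ≤ Fintype.card ι / 4 := by
      calc l ^ 2 ≤ (Real.sqrt (Fintype.card ι) / 2) ^ 2 := pow_le_pow_left₀ hl.le hl2 2
        _ = Fintype.card ι / 4 := by rw [div_pow, Real.sq_sqrt hn.le]; norm_num
    have h2 : Real.pi ≤ 4 := Real.pi_le_four
    nlinarith [Real.pi_pos, sq_nonneg l]
  refine ⟨l • A, ?_, ?_⟩
  · rw [Matrix.det_smul, abs_mul, abs_of_pos (pow_pos hl _), hln, mul_assoc]
    exact inv_mul_cancel₀ (by positivity)
  · unfold gmass
    rw [Matrix.det_smul, abs_mul, abs_of_pos (pow_pos hl _), hln]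
    have hcont : Continuous (fun x : ι → ℝ =>
        Real.exp (-(Real.pi * ∑ i, ((l • A) *ᵥ x) i ^ 2))) := by
      have h1 := cont_A (l • A)
      have h2 : ∀ i, Continuous (fun x : ι → ℝ => ((l • A) *ᵥ x) i) :=
        fun i => (continuous_apply i).comp h1
      fun_prop
    have hint : IntegrableOn (fun x : ι → ℝ =>
        Real.exp (-(Real.pi * ∑ i, ((l • A) *ᵥ x) i ^ 2))) (bl p) volume :=
      hcont.continuousOn.integrableOn_compact hcpt
    have h1 : Real.exp (-(Real.pi * l ^ 2)) * s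
        ≤ ∫ x in bl p, Real.exp (-(Real.pi * ∑ i, ((l • A) *ᵥ x) i ^ 2)) := by
      calc Real.exp (-(Real.pi * l ^ 2)) * s
          ≤ ∫ x in S A 1, Real.exp (-(Real.pi * ∑ i, ((l • A) *ᵥ x) i ^ 2)) := by
            apply setIntegral_ge_of_const_le_real (S_closed A 1).measurableSet
              hScpt.measure_lt_top.ne ?_ (hint.mono_set hSsub)
            intro x hx
            apply Real.exp_le_exp.2
            have hx' : eu (A *ᵥ x) ≤ 1 := hx
            have e : ∑ i, ((l • A) *ᵥ x) i ^ 2 = l ^ 2 * eu (A *ᵥ x) ^ 2 := by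
              rw [eu_sq, Finset.mul_sum]
              refine Finset.sum_congr rfl (fun i _ => ?_)
              rw [Matrix.smul_mulVec, Pi.smul_apply, smul_eq_mul]; ring
            rw [e]
            have h3 : eu (A *ᵥ x) ^ 2 ≤ 1 := pow_le_one₀ (eu_nonneg _) hx'
            have h4 : l ^ 2 * eu (A *ᵥ x) ^ 2 ≤ l ^ 2 := by nlinarith [sq_nonneg l]
            have := mul_le_mul_of_nonneg_left h4 Real.pi_pos.le
            linarith
        _ ≤ _ := setIntegral_mono_set hint
            (Filter.Eventually.of_forall (fun x => (Real.exp_pos _).le))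
            (LE.le.eventuallyLE hSsub)
    have h2 : Real.exp (-1) ^ Fintype.card ι ≤ Real.exp (-(Real.pi * l ^ 2)) := by
      rw [← Real.exp_nat_mul]
      apply Real.exp_le_exp.2
      linarith
    calc (Real.exp (-1) / D) ^ Fintype.card ι
        = (|A.det| * vol p)⁻¹ * |A.det| * (Real.exp (-1) ^ Fintype.card ι *
            (vol p / D ^ Fintype.card ι)) := by
          rw [div_pow]; field_simp
      _ ≤ (|A.det| * vol p)⁻¹ * |A.det| * (Real.exp (-(Real.pi * l ^ 2)) * s) := by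
          apply mul_le_mul_of_nonneg_left _ (by positivity)
          apply mul_le_mul h2 _ (by positivity) (Real.exp_pos _).le
          rw [div_le_iff₀ (pow_pos hD0 _)]
          linarith
      _ ≤ _ := mul_le_mul_of_nonneg_left h1 (by positivity)

end Pool.Agent.Lib.MP_cb8a44_nt.RM
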