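import Pool.Agent.Lib.MP_cb8a44_nt.RM.SpecL

set_option autoImplicit false
set_option linter.unusedSectionVars false
set_option linter.unusedVariables false

/-!
# MP_cb8a44_nt, block RM, module DEF: small deformations stay in the class
-/

open MeasureTheory Matrix Set Filter Topology
open scoped ENNReal

namespace Pool.Agent.Lib.MP_cb8a44_nt.RM

namespace DEFM

variable {ι : Type} [Fintype ι] [DecidableEq ι]

theorem dfm_eq (B : Matrix ι ι ℝ) (s : ι → ℝ) (t : ℝ) :
    dfm B s t = (Matrix.diagonal (fun i => Real.exp (t * s i)) * B)ᵀ *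
      (Matrix.diagonal (fun i => Real.exp (t * s i)) * B) := by
  rw [dfm, Matrix.transpose_mul, Matrix.diagonal_transpose, Matrix.mul_assoc Bᵀ,
    Matrix.mul_assoc Bᵀ, ← Matrix.mul_assoc (Matrix.diagonal _) (Matrix.diagonal _) B,
    Matrix.diagonal_mul_diagonal]
  congr 3
  funext i
  rw [← Real.exp_add]
  congr 1
  ring

theorem det_dfm (B : Matrix ι ι ℝ) (s : ι → ℝ) (t : ℝ) (hs : ∑ i, s i = 0) :
    (dfm B s t).det = B.det ^ 2 := by
  rw [dfm, Matrix.det_mul, Matrix.det_mul, Matrix.det_transpose, Matrix.det_diagonal,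
    ← Real.exp_sum, ← Finset.mul_sum, hs, mul_zero, Real.exp_zero]
  ring

theorem pd {B : Matrix ι ι ℝ} (hB : B.det ≠ 0) : (Bᵀ * B).PosDef := by
  have := Matrix.PosDef.conjTranspose_mul_self B (Matrix.mulVec_injective_iff_isUnit.2
    ((Matrix.isUnit_iff_isUnit_det B).2 (isUnit_iff_ne_zero.2 hB)))
  rwa [Matrix.conjTranspose_eq_transpose_of_trivial] at this

theorem dfm_pd {B : Matrix ι ι ℝ} (hB : B.det ≠ 0) (s : ι → ℝ) (t : ℝ) : (dfm B s t).PosDef := by
  rw [dfm_eq]
  apply pd
  rw [Matrix.det_mul, Matrix.det_diagonal]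
  exact mul_ne_zero (Finset.prod_ne_zero_iff.2 fun i _ => (Real.exp_pos _).ne') hB

/-- the square case -/
theorem square (hINJ : SpecINJ) (G : Matrix ι ι ℝ) {m : ℕ} (U : Matrix ι (Fin m) ℤ)
    (hm : m = Fintype.card ι) : ∃ d : ℝ, ∀ G : Matrix ι ι ℝ, (sg G U).det = d * G.det := by
  subst hm
  have e : Fin (Fintype.card ι) ≃ ι := (Fintype.equivFin ι).symm
  refine ⟨((U.submatrix e id).det : ℝ) ^ 2, fun G => ?_⟩
  have h1 : (1 : Matrix ι ι ℤ).submatrix id e * U.submatrix e id = U := by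
    rw [Matrix.submatrix_mul_equiv, Matrix.one_mul, Matrix.submatrix_id_id]
  have h2 := hINJ.sq G ((1 : Matrix ι ι ℤ).submatrix id e) (U.submatrix e id)
  rw [h1] at h2
  rw [h2]
  congr 1
  rw [← Matrix.det_submatrix_equiv_self e G]
  congr 1
  have h3 : rm ((1 : Matrix ι ι ℤ).submatrix id e) = (1 : Matrix ι ι ℝ).submatrix id e := by
    ext i j
    simp [rm, Matrix.one_apply]
  rw [sg, h3, Matrix.transpose_submatrix, Matrix.transpose_one]
  have h4 : (1 : Matrix ι ι ℝ).submatrix e id * G = G.submatrix e id := by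
    have := Matrix.submatrix_mul_equiv (1 : Matrix ι ι ℝ) G e (Equiv.refl ι) id
    simpa using this
  have h5 : G.submatrix e id * (1 : Matrix ι ι ℝ).submatrix id e = G.submatrix e e := by
    have := Matrix.submatrix_mul_equiv G (1 : Matrix ι ι ℝ) e (Equiv.refl ι) e
    simpa using this
  rw [h4, h5]

/-- the size of `s` -/
noncomputable def sig (s : ι → ℝ) : ℝ := ∑ i, |s i|

theorem sig_nonneg (s : ι → ℝ) : 0 ≤ sig s := Finset.sum_nonneg fun i _ => abs_nonneg _

theorem le_sig (s : ι → ℝ) (i : ι) : |s i| ≤ sig s :=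
  Finset.single_le_sum (f := fun i => |s i|) (fun i _ => abs_nonneg _) (Finset.mem_univ i)

theorem psd {κ : Type} [Fintype κ] (B : Matrix ι ι ℝ) (s : ι → ℝ) (t : ℝ) (U : Matrix ι κ ℤ) :
    (sg (dfm B s t) U - Real.exp (-(2 * |t| * sig s)) • sg (Bᵀ * B) U).PosSemidef := by
  set c := Real.exp (-(2 * |t| * sig s)) with hc
  have h1 : sg (dfm B s t) U - c • sg (Bᵀ * B) U =
      (B * rm U)ᵀ * Matrix.diagonal (fun i => Real.exp (2 * t * s i) - c) * (B * rm U) := by
    have h2 : Matrix.diagonal (fun i => Real.exp (2 * t * s i) - c) =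
        Matrix.diagonal (fun i => Real.exp (2 * t * s i)) - c • (1 : Matrix ι ι ℝ) := by
      rw [← Matrix.diagonal_one, ← Matrix.diagonal_smul, Matrix.diagonal_sub]
      congr 1
      funext i
      simp
    rw [h2, sg, sg, dfm, Matrix.transpose_mul, Matrix.mul_sub, Matrix.sub_mul, Matrix.mul_smul,
      Matrix.mul_one, Matrix.smul_mul]
    simp only [Matrix.mul_assoc]
  rw [h1]
  have h3 : (Matrix.diagonal (fun i => Real.exp (2 * t * s i) - c)).PosSemidef := by
    refine Matrix.PosSemidef.diagonal fun i => ?_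
    rw [Pi.zero_apply, sub_nonneg, hc]
    refine Real.exp_le_exp.2 ?_
    have h4 : |2 * t * s i| ≤ 2 * |t| * sig s := by
      rw [abs_mul, abs_mul, abs_two]
      exact mul_le_mul_of_nonneg_left (le_sig s i) (by positivity)
    have h5 := neg_abs_le (2 * t * s i)
    linarith
  have h6 := h3.conjTranspose_mul_mul_same (B * rm U)
  rwa [Matrix.conjTranspose_eq_transpose_of_trivial] at h6

end DEFM

open DEFM in
theorem specDEF (hINJ : SpecINJ) (hFNV : SpecFNV) (hDMO : SpecDMO) : SpecDEF := by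
  intro ι _ _ B s hS hdet hno hs
  have hB : B.det ≠ 0 := by
    intro h
    rw [Matrix.det_mul, Matrix.det_transpose, h] at hdet
    norm_num at hdet
  have hdet' : ∀ t, (dfm B s t).det = 1 := by
    intro t
    rw [det_dfm B s t hs, ← hdet, Matrix.det_mul, Matrix.det_transpose]
    ring
  obtain ⟨ε, hε, hF⟩ := hFNV (Bᵀ * B) hS.1
  set D : ℝ := 2 * sig s * Fintype.card ι + 1 with hD
  have hD0 : 0 < D := by have := sig_nonneg s; positivity
  have hlog : 0 < Real.log (1 + ε) := Real.log_pos (by linarith)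
  refine ⟨Real.log (1 + ε) / D, div_pos hlog hD0, fun t ht => ⟨⟨dfm_pd hB s t, ?_⟩, hdet' t⟩⟩
  intro m U hU
  rcases Nat.eq_zero_or_pos m with rfl | hm
  · simp
  have hle : m ≤ Fintype.card ι := by simpa using hINJ.card hU
  rcases hle.eq_or_lt with heq | hlt
  · obtain ⟨d, hd⟩ := square hINJ (Bᵀ * B) U heq
    have h := hS.2 m U hU
    rw [hd, hdet] at h
    rw [hd, hdet']
    exact h
  · have h1 : 1 < (sg (Bᵀ * B) U).det :=
      lt_of_le_of_ne (hS.2 m U hU) fun h => hno ⟨m, U, hm, hlt, hU, h.symm⟩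
    have h2 := hF m U hU h1
    have hpd := hINJ.pd hS.1 hU
    set c := Real.exp (-(2 * |t| * sig s)) with hc
    have hc0 : 0 < c := Real.exp_pos _
    have hc1 : c ≤ 1 := Real.exp_le_one_iff.2 (by
      have := sig_nonneg s
      have := abs_nonneg t
      have : 0 ≤ 2 * |t| * sig s := by positivity
      linarith)
    have h3 := hDMO (c • sg (Bᵀ * B) U) (sg (dfm B s t) U) (hpd.smul hc0) (psd B s t U)
    refine le_trans ?_ h3
    rw [Matrix.det_smul, Fintype.card_fin]
    have h4 : c ^ (Fintype.card ι) ≤ c ^ m := pow_le_pow_of_le_one hc0.le hc1 hle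
    have h5 : 1 ≤ c ^ (Fintype.card ι) * (1 + ε) := by
      rw [hc, ← Real.exp_nat_mul, ← Real.exp_log (show 0 < 1 + ε by linarith), ← Real.exp_add]
      refine Real.one_le_exp ?_
      rw [le_div_iff₀ hD0] at ht
      have h6 : |t| * D = 2 * |t| * sig s * Fintype.card ι + |t| := by rw [hD]; ring
      have h7 := abs_nonneg t
      nlinarith
    calc (1 : ℝ) ≤ c ^ (Fintype.card ι) * (1 + ε) := h5
      _ ≤ c ^ m * (sg (Bᵀ * B) U).det :=
        mul_le_mul h4 h2 (by linarith) (pow_nonneg hc0.le _)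

end Pool.Agent.Lib.MP_cb8a44_nt.RM
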