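import Pool.Agent.Lib.MP_cb8a44_nt.RM.SpecM

set_option autoImplicit false
set_option linter.unusedSectionVars false

open MeasureTheory Matrix Set
open scoped ENNReal

namespace Pool.Agent.Lib.MP_cb8a44_nt.RM

namespace NM1M

variable {ι : Type} [Fintype ι] {p : (ι → ℝ) → ℝ}

lemma zero (h : Nm p) : p 0 = 0 := by
  have := h.smul 0 0
  simpa using this

lemma nonneg (h : Nm p) (x : ι → ℝ) : 0 ≤ p x := by
  by_cases hx : x = 0
  · rw [hx, zero h]
  · exact (h.pos x hx).le

lemma neg (h : Nm p) (x : ι → ℝ) : p (-x) = p x := by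
  have := h.smul (-1) x
  simpa using this

lemma sum_le (h : Nm p) {κ : Type} (s : Finset κ) (f : κ → ι → ℝ) : p (∑ i ∈ s, f i) ≤ ∑ i ∈ s, p (f i) := by
  classical
  induction s using Finset.induction_on with
  | empty => simp [zero h]
  | insert a s ha ih =>
    rw [Finset.sum_insert ha, Finset.sum_insert ha]
    exact (h.add _ _).trans (by linarith)

/-- the constant in the upper bound -/
noncomputable def K (p : (ι → ℝ) → ℝ) : ℝ := by
  classical
  exact ∑ i, p (Pi.single i 1)

lemma K_nonneg (h : Nm p) : 0 ≤ K p := by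
  classical
  unfold K
  exact Finset.sum_nonneg fun i _ => nonneg h _

lemma le_K (h : Nm p) (x : ι → ℝ) : p x ≤ K p * ‖x‖ := by
  classical
  have hx : x = ∑ i, x i • (Pi.single i (1 : ℝ) : ι → ℝ) := by
    ext j
    simp [Finset.sum_apply, Pi.single_apply]
  calc p x = p (∑ i, x i • (Pi.single i (1 : ℝ) : ι → ℝ)) := by rw [← hx]
    _ ≤ ∑ i, p (x i • (Pi.single i (1 : ℝ) : ι → ℝ)) := sum_le h _ _
    _ ≤ ∑ i, ‖x‖ * p (Pi.single i (1 : ℝ) : ι → ℝ) := by
        refine Finset.sum_le_sum fun i _ => ?_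
        rw [h.smul]
        exact mul_le_mul_of_nonneg_right (by simpa using norm_le_pi_norm x i) (nonneg h _)
    _ = K p * ‖x‖ := by
        rw [← Finset.mul_sum, mul_comm]
        unfold K
        rfl

lemma sub_le (h : Nm p) (x y : ι → ℝ) : p x - p y ≤ p (x - y) := by
  have := h.add (x - y) y
  rw [sub_add_cancel] at this
  linarith

lemma cont (h : Nm p) : Continuous p := by
  have : LipschitzWith (K p).toNNReal p := by
    apply LipschitzWith.of_dist_le_mul
    intro x y
    rw [Real.dist_eq, Real.coe_toNNReal _ (K_nonneg h), dist_eq_norm]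
    rw [abs_le]
    have h1 := sub_le h x y
    have h2 := sub_le h y x
    have h3 := le_K h (x - y)
    have h4 : p (y - x) = p (x - y) := by rw [← neg h (x - y), neg_sub]
    constructor <;> linarith
  exact this.continuous

lemma norm_le_eu (x : ι → ℝ) : ‖x‖ ≤ eu x := by
  have h0 : 0 ≤ eu x := Real.sqrt_nonneg _
  rw [pi_norm_le_iff_of_nonneg h0]
  intro i
  unfold eu
  rw [Real.norm_eq_abs, ← Real.sqrt_sq_eq_abs]
  apply Real.sqrt_le_sqrt
  exact Finset.single_le_sum (f := fun i => x i ^ 2) (fun j _ => sq_nonneg _) (Finset.mem_univ i)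

lemma eu_eq (x : ι → ℝ) : eu x = ‖(WithLp.toLp 2 x : EuclideanSpace ℝ ι)‖ := by
  rw [EuclideanSpace.norm_eq]
  simp [eu]

lemma euc : Nm (eu : (ι → ℝ) → ℝ) where
  add x y := by
    rw [eu_eq, eu_eq, eu_eq, WithLp.toLp_add]
    exact norm_add_le _ _
  smul c x := by
    rw [eu_eq, eu_eq, WithLp.toLp_smul, norm_smul, Real.norm_eq_abs]
  pos x hx := by
    have := norm_le_eu x
    exact lt_of_lt_of_le (norm_pos_iff.mpr hx) this

lemma lower (h : Nm p) : ∃ m : ℝ, 0 < m ∧ ∀ x, m * ‖x‖ ≤ p x := by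
  obtain ⟨m, hm, hb⟩ := (isCompact_sphere (0 : ι → ℝ) 1).exists_forall_le' (cont h).continuousOn (a := 0)
    (fun b hb => h.pos b (by
      rintro rfl
      simp at hb))
  refine ⟨m, hm, fun x => ?_⟩
  by_cases hx : x = 0
  · rw [hx, zero h]; simp
  · have hn : 0 < ‖x‖ := norm_pos_iff.mpr hx
    have h1 := hb (‖x‖⁻¹ • x) (by
      rw [mem_sphere_zero_iff_norm, norm_smul, norm_inv, norm_norm, inv_mul_cancel₀ hn.ne'])
    rw [h.smul, abs_of_pos (inv_pos.mpr hn)] at h1
    have := mul_le_mul_of_nonneg_right h1 hn.le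
    calc m * ‖x‖ ≤ ‖x‖⁻¹ * p x * ‖x‖ := this
      _ = p x := by field_simp

lemma bd (h : Nm p) : ∃ C : ℝ, 0 < C ∧ ∀ x, p x ≤ C * eu x ∧ eu x ≤ C * p x := by
  obtain ⟨m, hm, hb⟩ := lower h
  refine ⟨K p + K (eu : (ι → ℝ) → ℝ) / m + 1, by
    have := K_nonneg h
    have := K_nonneg (euc (ι := ι))
    positivity, fun x => ⟨?_, ?_⟩⟩
  · have h1 := le_K h x
    have h2 := norm_le_eu x
    have h3 := K_nonneg h
    have h4 := K_nonneg (euc (ι := ι))
    have h5 : 0 ≤ eu x := nonneg euc x
    calc p x ≤ K p * ‖x‖ := h1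
      _ ≤ K p * eu x := mul_le_mul_of_nonneg_left h2 h3
      _ ≤ _ := by
        apply mul_le_mul_of_nonneg_right _ h5
        have : 0 ≤ K (eu : (ι → ℝ) → ℝ) / m := by positivity
        linarith
  · have h1 := le_K (euc (ι := ι)) x
    have h2 := hb x
    have h3 := K_nonneg h
    have h4 := K_nonneg (euc (ι := ι))
    have h5 : 0 ≤ p x := nonneg h x
    calc eu x ≤ K (eu : (ι → ℝ) → ℝ) * ‖x‖ := h1
      _ = K (eu : (ι → ℝ) → ℝ) / m * (m * ‖x‖) := by field_simp
      _ ≤ K (eu : (ι → ℝ) → ℝ) / m * p x := mul_le_mul_of_nonneg_left h2 (by positivity)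
      _ ≤ _ := by
        apply mul_le_mul_of_nonneg_right _ h5
        linarith

lemma cpt (h : Nm p) : IsCompact (bl p) := by
  obtain ⟨m, hm, hb⟩ := lower h
  refine Metric.isCompact_of_isClosed_isBounded (isClosed_le (cont h) continuous_const) ?_
  rw [isBounded_iff_forall_norm_le]
  refine ⟨1 / m, fun x hx => ?_⟩
  have h1 : p x ≤ 1 := hx
  rw [le_div_iff₀ hm]
  nlinarith [hb x]

lemma sc (h : Nm p) : SC (bl p) where
  conv := by
    intro x hx y hy a b ha hb hab
    have hx1 : p x ≤ 1 := hx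
    have hy1 : p y ≤ 1 := hy
    change p (a • x + b • y) ≤ 1
    have h1 := h.add (a • x) (b • y)
    rw [h.smul, h.smul, abs_of_nonneg ha, abs_of_nonneg hb] at h1
    nlinarith
  symm x hx := by
    change p (-x) ≤ 1
    rw [neg h]
    exact hx
  meas := (cpt h).isClosed.measurableSet

lemma vpos (h : Nm p) : 0 < vol p := by
  have h0 := K_nonneg h
  have hsub : Metric.ball (0 : ι → ℝ) (1 / (K p + 1)) ⊆ bl p := by
    intro x hx
    rw [mem_ball_zero_iff] at hx
    have h1 := le_K h x
    have h2 : ‖x‖ * (K p + 1) < 1 := by rwa [lt_div_iff₀ (by positivity)] at hx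
    change p x ≤ 1
    nlinarith [norm_nonneg x]
  have h1 : 0 < volume (bl p) :=
    lt_of_lt_of_le (Metric.measure_ball_pos volume (0 : ι → ℝ) (by positivity)) (measure_mono hsub)
  exact ENNReal.toReal_pos h1.ne' (cpt h).measure_lt_top.ne

instance : IsProbabilityMeasure (gm ι) := by
  unfold gm
  infer_instance

lemma int_coord (i : ι) : Integrable (fun x : ι → ℝ => x i) (gm ι) := by
  have h1 : MeasurePreserving (Function.eval i) (gm ι) (ProbabilityTheory.gaussianReal 0 1) :=
    measurePreserving_eval (fun _ : ι => ProbabilityTheory.gaussianReal 0 1) i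
  have h2 : Integrable (id : ℝ → ℝ) (ProbabilityTheory.gaussianReal 0 1) :=
    (ProbabilityTheory.memLp_id_gaussianReal 1).integrable (by norm_num)
  exact h1.integrable_comp_of_integrable h2

lemma int (h : Nm p) : Integrable p (gm ι) := by
  have h1 : Integrable (fun x : ι → ℝ => K p * ∑ i, |x i|) (gm ι) := by
    apply Integrable.const_mul
    exact integrable_finsetSum _ fun i _ => (int_coord i).abs
  refine h1.mono' (cont h).aestronglyMeasurable (Filter.Eventually.of_forall fun x => ?_)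
  rw [Real.norm_eq_abs, abs_of_nonneg (nonneg h x)]
  refine (le_K h x).trans (mul_le_mul_of_nonneg_left ?_ (K_nonneg h))
  rw [pi_norm_le_iff_of_nonneg (Finset.sum_nonneg fun i _ => abs_nonneg _)]
  intro i
  exact Finset.single_le_sum (f := fun i => |x i|) (fun j _ => abs_nonneg _) (Finset.mem_univ i)

lemma el [Nonempty ι] (h : Nm p) : 0 < ell p := by
  unfold ell
  rw [integral_pos_iff_support_of_nonneg (fun x => nonneg h x) (int h)]
  have hs : ({0} : Set (ι → ℝ))ᶜ ⊆ Function.support p := by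
    intro x hx
    exact (h.pos x hx).ne'
  refine lt_of_lt_of_le ?_ (measure_mono hs)
  have hz : gm ι ({0} : Set (ι → ℝ)) = 0 := by
    obtain ⟨i⟩ := (inferInstance : Nonempty ι)
    have h1 : gm ι (Function.eval i ⁻¹' ({0} : Set ℝ)) = 0 := by
      unfold gm
      apply Measure.pi_eval_preimage_null
      have := ProbabilityTheory.nullSingletonClass_gaussianReal (μ := 0) (v := 1) one_ne_zero
      exact measure_singleton 0
    refine measure_mono_null ?_ h1
    intro x hx
    rw [mem_singleton_iff] at hx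
    simp [hx]
  rw [measure_compl (measurableSet_singleton 0) (by rw [hz]; exact ENNReal.zero_ne_top), hz, measure_univ]
  simp

lemma comp [DecidableEq ι] {A : Matrix ι ι ℝ} (h : Nm p) (hA : A.det ≠ 0) : Nm (fun x => p (A *ᵥ x)) where
  add x y := by
    simp only [Matrix.mulVec_add]
    exact h.add _ _
  smul c x := by
    simp only [Matrix.mulVec_smul]
    exact h.smul _ _
  pos x hx := h.pos _ fun h0 => hx (Matrix.eq_zero_of_mulVec_eq_zero hA h0)

lemma mx {q : (ι → ℝ) → ℝ} (h : Nm p) (hq : Nm q) : Nm (fun x => max (p x) (q x)) where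
  add x y := by
    apply max_le
    · exact (h.add x y).trans (add_le_add (le_max_left _ _) (le_max_left _ _))
    · exact (hq.add x y).trans (add_le_add (le_max_right _ _) (le_max_right _ _))
  smul c x := by
    simp only [h.smul, hq.smul]
    rw [mul_max_of_nonneg _ _ (abs_nonneg c)]
  pos x hx := lt_of_lt_of_le (h.pos x hx) (le_max_left _ _)

lemma sca {c : ℝ} (h : Nm p) (hc : 0 < c) : Nm (fun x => c * p x) where
  add x y := by
    have := h.add x y
    nlinarith
  smul d x := by
    simp only [h.smul]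
    ring
  pos x hx := mul_pos hc (h.pos x hx)

end NM1M

theorem specNM1 : SpecNM1 where
  cont := NM1M.cont
  zero := NM1M.zero
  nonneg := NM1M.nonneg
  bd := NM1M.bd
  cpt := NM1M.cpt
  sc := NM1M.sc
  vpos := NM1M.vpos
  int := NM1M.int
  el := NM1M.el
  euc := NM1M.euc
  comp := NM1M.comp
  mx := NM1M.mx
  sca := NM1M.sca

end Pool.Agent.Lib.MP_cb8a44_nt.RM
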