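import Pool.Agent.Lib.MP_cb8a44_nt.RM.SpecL

section
set_option autoImplicit false

/-!
# MP_cb8a44_nt, block RM, module CRI: the cell of a minimiser is critical
-/

open MeasureTheory Matrix Set Filter Topology
open scoped ENNReal

namespace Pool.Agent.Lib.MP_cb8a44_nt.RM

namespace CRIM

theorem dfm_eq {ι : Type} [Fintype ι] [DecidableEq ι] (B : Matrix ι ι ℝ) (s : ι → ℝ) (t : ℝ) :
    dfm B s t = (Matrix.diagonal (fun i => Real.exp (t * s i)) * B)ᵀ *
      (Matrix.diagonal (fun i => Real.exp (t * s i)) * B) := by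
  rw [dfm, Matrix.transpose_mul, Matrix.diagonal_transpose, Matrix.mul_assoc Bᵀ,
    Matrix.mul_assoc Bᵀ, ← Matrix.mul_assoc (Matrix.diagonal _) (Matrix.diagonal _) B,
    Matrix.diagonal_mul_diagonal]
  congr 3
  funext i
  rw [← Real.exp_add]
  congr 1
  ring

end CRIM

open CRIM in
theorem specCRI (hVBM : SpecVBM) (hDEF : SpecDEF) (hLDF : SpecLDF) (hCRT : SpecCRT) : SpecCRI := by
  intro ι _ _ B s hS hdet hno hmin hs
  have hB : B.det ≠ 0 := by
    intro h
    rw [Matrix.det_mul, Matrix.det_transpose, h] at hdet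
    norm_num at hdet
  obtain ⟨hHD, -⟩ := hVBM.hd hB
  rw [← hHD]
  refine hCRT (VB B) s ⟨hVBM.conv hB, hVBM.symm, (hVBM.cpt hB).isClosed.measurableSet⟩ ?_ ?_
  · rw [hVBM.vol hB]
    exact ENNReal.ofReal_pos.2 (abs_pos.2 hB)
  · intro ε hε
    obtain ⟨t₀, ht₀, hd⟩ := hDEF B s hS hdet hno hs
    obtain ⟨δ, hδ, hl⟩ := hLDF B s hB hs ε hε
    refine ⟨min δ t₀, lt_min hδ ht₀, fun t ht => ?_⟩
    obtain ⟨h1, h2⟩ := hd t (ht.trans_le (min_le_right _ _)).le
    have h3 := hmin _ h1 h2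
    have h4 := hl t (ht.trans_le (min_le_left _ _))
    have h5 : Phi (dfm B s t) ≤ 1 := by
      rw [dfm_eq]
      refine (hVBM.hd ?_).2
      rw [Matrix.det_mul, Matrix.det_diagonal]
      exact mul_ne_zero (Finset.prod_ne_zero_iff.2 fun i _ => (Real.exp_pos _).ne') hB
    have h6 := ENNReal.toReal_mono (ne_top_of_le_ne_top ENNReal.one_ne_top h5) h3
    rw [← hHD] at h6
    linarith

end Pool.Agent.Lib.MP_cb8a44_nt.RM
end

section
set_option autoImplicit false

open MeasureTheory Matrix Set Filter Topology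
open scoped ENNReal MatrixOrder Matrix.Norms.L2Operator

namespace Pool.Agent.Lib.MP_cb8a44_nt.RM

namespace DMOM

/-- `det (1 + K) ≥ 1` for positive semidefinite `K`. -/
lemma one_le_det {ι : Type} [Fintype ι] [DecidableEq ι] {K : Matrix ι ι ℝ} (hK : K.PosSemidef) :
    1 ≤ (1 + K).det := by
  have hH : (1 + K).IsHermitian := isHermitian_one.add hK.1
  rw [hH.det_eq_prod_eigenvalues]
  refine Finset.one_le_prod fun i _ => ?_
  have h1 := hH.eigenvalues_eq i
  have h2 := hK.re_dotProduct_nonneg (⇑(hH.eigenvectorBasis i))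
  have h3 : (star ⇑(hH.eigenvectorBasis i)) ⬝ᵥ (⇑(hH.eigenvectorBasis i) : ι → ℝ) = 1 := by
    have h4 := hH.eigenvectorBasis.orthonormal.1 i
    have h5 : inner ℝ (hH.eigenvectorBasis i) (hH.eigenvectorBasis i) = 1 := by
      rw [real_inner_self_eq_norm_sq, h4]
      norm_num
    rw [EuclideanSpace.inner_eq_star_dotProduct] at h5
    rw [dotProduct_comm]
    exact h5
  rw [add_mulVec, one_mulVec, dotProduct_add, h3] at h1
  simp only [RCLike.ofReal_real_eq_id, id_eq]
  rw [h1]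
  simp only [RCLike.re_to_real] at h2 ⊢
  linarith

end DMOM

open DMOM in
theorem specDMO : SpecDMO := by
  intro ι _ _ A B hA hD
  obtain ⟨C, hC⟩ := CStarAlgebra.nonneg_iff_eq_star_mul_self.mp hA.posSemidef.nonneg
  have hC' : A = Cᵀ * C := by
    rw [hC, star_eq_conjTranspose, conjTranspose_eq_transpose_of_trivial]
  have hdet : A.det = C.det ^ 2 := by
    rw [hC', det_mul, det_transpose, sq]
  have hCd : C.det ≠ 0 := by
    intro h
    have := hA.det_pos
    rw [hdet, h] at this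
    norm_num at this
  have hCu : IsUnit C.det := isUnit_iff_ne_zero.2 hCd
  set K : Matrix ι ι ℝ := (C⁻¹)ᵀ * (B - A) * C⁻¹ with hKdef
  have hK : K.PosSemidef := by
    have h := hD.conjTranspose_mul_mul_same C⁻¹
    rwa [conjTranspose_eq_transpose_of_trivial] at h
  have hB : B = Cᵀ * (1 + K) * C := by
    have h1 : Cᵀ * (C⁻¹)ᵀ = 1 := by
      rw [← transpose_mul, nonsing_inv_mul _ hCu, transpose_one]
    have h2 : C⁻¹ * C = 1 := nonsing_inv_mul _ hCu
    calc B = A + (B - A) := by abel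
      _ = Cᵀ * C + (Cᵀ * (C⁻¹)ᵀ) * (B - A) * (C⁻¹ * C) := by
          rw [h1, h2, one_mul, mul_one, ← hC']
      _ = Cᵀ * (1 + K) * C := by
          rw [hKdef]
          noncomm_ring
  have h1 := one_le_det hK
  rw [hB, det_mul, det_mul, det_transpose, hdet]
  nlinarith [mul_le_mul_of_nonneg_left h1 (sq_nonneg C.det)]

end Pool.Agent.Lib.MP_cb8a44_nt.RM
end

section
set_option autoImplicit false

open MeasureTheory Matrix Set Filter Topology
open scoped ENNReal

namespace Pool.Agent.Lib.MP_cb8a44_nt.RM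

namespace FNVM

variable {ι : Type} [Fintype ι] [DecidableEq ι]

lemma det_sq {m : ℕ} {T S : Matrix (Fin m) (Fin m) ℤ} (h : T * S = 1) : ((T.det : ℤ) : ℝ) ^ 2 = 1 := by
  have h1 : T.det * S.det = 1 := by
    rw [← Matrix.det_mul, h, Matrix.det_one]
  have h2 : T.det = 1 ∨ T.det = -1 := Int.isUnit_iff.1 (IsUnit.of_mul_eq_one _ h1)
  rcases h2 with h2 | h2
  · rw [h2]; norm_num
  · rw [h2]; norm_num

lemma diag_eq (G : Matrix ι ι ℝ) {m : ℕ} (V : Matrix ι (Fin m) ℤ) (j : Fin m) :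
    sg G V j j = Q G (fun i => ((V i j : ℤ) : ℝ)) := by
  simp only [sg, Q, Matrix.mul_apply, Matrix.transpose_apply, dotProduct, Matrix.mulVec, rm,
    Matrix.map_apply, Finset.sum_mul, Finset.mul_sum]
  rw [Finset.sum_comm]
  refine Finset.sum_congr rfl fun x _ => Finset.sum_congr rfl fun y _ => ?_
  ring

lemma fin_m (hINJ : SpecINJ) (hQPD : SpecQPD) (hRED : SpecRED) {G : Matrix ι ι ℝ} (hG : G.PosDef)
    (m : ℕ) : {d : ℝ | ∃ U : Matrix ι (Fin m) ℤ, Inj U ∧ (sg G U).det = d ∧ d ≤ 2}.Finite := by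
  obtain ⟨a, ha, hlow⟩ := hQPD.low hG
  obtain ⟨R, hR⟩ := hRED m a 2 ha
  have hfin : {V : Matrix ι (Fin m) ℤ | ∀ j, Q G (fun i => ((V i j : ℤ) : ℝ)) ≤ R}.Finite := by
    have h1 : {W : Fin m → ι → ℤ | ∀ j, Q G (fun i => ((W j i : ℤ) : ℝ)) ≤ R}.Finite := by
      have h2 := Set.Finite.pi (t := fun _ : Fin m => {y : ι → ℤ | Q G (fun i => (y i : ℝ)) ≤ R})
        (fun _ => hQPD.fin hG R)
      refine h2.subset ?_
      intro W hW j _
      exact hW j
    have h3 := h1.image (fun W : Fin m → ι → ℤ => (Matrix.of fun i j => W j i : Matrix ι (Fin m) ℤ))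
    refine h3.subset ?_
    intro V hV
    exact ⟨fun j i => V i j, hV, rfl⟩
  refine (hfin.image (fun V => (sg G V).det)).subset ?_
  rintro d ⟨U, hU, rfl, hd⟩
  have hpd : (sg G U).PosDef := hINJ.pd hG hU
  have hlow' : ∀ y : Fin m → ℤ, y ≠ 0 → a ≤ Q (sg G U) (fun i => (y i : ℝ)) := by
    intro y hy
    rw [hQPD.comp]
    have h1 : rm U *ᵥ (fun i => (y i : ℝ)) = fun i => (((U *ᵥ y) i : ℤ) : ℝ) := by
      funext i
      simp [Matrix.mulVec, dotProduct, rm]
    rw [h1]
    apply hlow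
    intro h0
    apply hy
    apply hU
    change U *ᵥ y = U *ᵥ 0
    rw [h0, Matrix.mulVec_zero]
  obtain ⟨T, S, hTS, -, hb⟩ := hR (sg G U) hpd hlow' hd
  refine ⟨U * T, ?_, ?_⟩
  · intro j
    rw [← diag_eq]
    have h1 := hb j j
    rw [← hINJ.comp] at h1
    exact (le_abs_self _).trans h1
  · change (sg G (U * T)).det = (sg G U).det
    rw [hINJ.sq, det_sq hTS, one_mul]

end FNVM

open FNVM in
theorem specFNV (hINJ : SpecINJ) (hQPD : SpecQPD) (hRED : SpecRED) : SpecFNV := by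
  intro ι _ _ G hG
  set A : Set ℝ := ⋃ m ∈ Finset.range (Fintype.card ι + 1),
    {d : ℝ | ∃ U : Matrix ι (Fin m) ℤ, Inj U ∧ (sg G U).det = d ∧ d ≤ 2} with hA
  have hAfin : A.Finite :=
    Set.Finite.biUnion (Finset.finite_toSet _) (fun m _ => fin_m hINJ hQPD hRED hG m)
  have hBfin : (A ∩ Set.Ioi 1).Finite := hAfin.inter_of_left _
  have key : ∃ d₀ : ℝ, 1 < d₀ ∧ ∀ d ∈ A ∩ Set.Ioi 1, d₀ ≤ d := by
    rcases (A ∩ Set.Ioi 1).eq_empty_or_nonempty with h | h
    · refine ⟨2, by norm_num, ?_⟩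
      rw [h]
      intro d hd
      exact absurd hd (Set.notMem_empty d)
    · obtain ⟨d₀, hd₀, hmin⟩ := hBfin.exists_minimal h
      refine ⟨d₀, hd₀.2, ?_⟩
      intro d hd
      rcases le_total d₀ d with h1 | h1
      · exact h1
      · exact hmin hd h1
  obtain ⟨d₀, hd₀, hmin⟩ := key
  refine ⟨min 1 (d₀ - 1), lt_min one_pos (sub_pos.2 hd₀), ?_⟩
  intro m U hU h1
  by_cases h2 : (sg G U).det ≤ 2
  · have hm : m ≤ Fintype.card ι := by
      have := hINJ.card hU
      rwa [Fintype.card_fin] at this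
    have hmem : (sg G U).det ∈ A ∩ Set.Ioi 1 := by
      refine ⟨?_, h1⟩
      rw [hA]
      simp only [Set.mem_iUnion]
      exact ⟨m, Finset.mem_range.2 (Nat.lt_succ_of_le hm), U, hU, rfl, h2⟩
    have h3 := hmin _ hmem
    have h4 : min 1 (d₀ - 1) ≤ d₀ - 1 := min_le_right _ _
    linarith
  · have h4 : min 1 (d₀ - 1) ≤ 1 := min_le_left _ _
    push Not at h2
    linarith

end Pool.Agent.Lib.MP_cb8a44_nt.RM
end

section
/-!
# GNI: the Gaussian integral of a positive definite form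
-/
set_option autoImplicit false

open MeasureTheory Matrix Set Filter Topology
open scoped ENNReal MatrixOrder

namespace Pool.Agent.Lib.MP_cb8a44_nt.RM

namespace GNIM

variable {ι : Type} [Fintype ι]

theorem exists_root [DecidableEq ι] {G : Matrix ι ι ℝ} (hG : G.PosDef) :
    ∃ B : Matrix ι ι ℝ, G = Bᵀ * B ∧ B.det ≠ 0 ∧ G.det = B.det ^ 2 := by
  obtain ⟨B, hB⟩ : ∃ B : Matrix ι ι ℝ, G = Bᵀ * B := by
    refine ⟨CFC.sqrt G, ?_⟩
    have h1 := CFC.sqrt_mul_sqrt_self G (ha := hG.posSemidef.nonneg)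
    have h2 : (CFC.sqrt G)ᴴ = CFC.sqrt G := (CFC.sqrt_nonneg G).posSemidef.isHermitian
    rw [conjTranspose_eq_transpose_of_trivial] at h2
    rw [h2, h1]
  have hdet : G.det = B.det ^ 2 := by rw [hB, det_mul, det_transpose, sq]
  refine ⟨B, hB, ?_, hdet⟩
  intro h
  have h3 := hG.det_pos
  rw [hdet, h] at h3
  simp at h3

theorem std : ∫⁻ x : ι → ℝ, ENNReal.ofReal (Real.exp (-(Real.pi * ∑ i, x i ^ 2))) = 1 := by
  have h1 : ∀ x : ι → ℝ, Real.exp (-(Real.pi * ∑ i, x i ^ 2)) =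
      ∏ i, Real.exp (-Real.pi * x i ^ 2) := by
    intro x
    rw [← Real.exp_sum, Finset.mul_sum, ← Finset.sum_neg_distrib]
    simp only [neg_mul]
  rw [← ofReal_integral_eq_lintegral_ofReal]
  · simp only [h1]
    rw [integral_fintype_prod_volume_eq_pow (fun x : ℝ => Real.exp (-Real.pi * x ^ 2)),
      integral_gaussian, div_self Real.pi_ne_zero]
    simp
  · simp only [h1]
    exact Integrable.fintype_prod (fun _ => integrable_exp_neg_mul_sq Real.pi_pos)
  · exact Eventually.of_forall fun x => (Real.exp_pos _).le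

end GNIM

theorem specGNI (hQPD : SpecQPD) : SpecGNI := by
  intro ι _ _ G hG
  obtain ⟨B, hB, hB0, hdet⟩ := GNIM.exists_root hG
  have h1 : ∀ x : ι → ℝ, gs G x =
      (fun y : ι → ℝ => ENNReal.ofReal (Real.exp (-(Real.pi * ∑ i, y i ^ 2)))) (toLin' B x) := by
    intro x
    unfold gs
    rw [hB, hQPD.sq]
    rfl
  have hmeas : Measurable (toLin' B : (ι → ℝ) → ι → ℝ) :=
    (LinearMap.continuous_on_pi (toLin' B)).measurable
  have hF : Measurable (fun y : ι → ℝ => ENNReal.ofReal (Real.exp (-(Real.pi * ∑ i, y i ^ 2)))) := by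
    fun_prop
  rw [lintegral_congr h1, ← lintegral_map hF hmeas, Real.map_matrix_volume_pi_eq_smul_volume_pi hB0,
    lintegral_smul_measure, GNIM.std, smul_eq_mul, mul_one]
  congr 1
  rw [hdet, Real.sqrt_sq_eq_abs, abs_inv, one_div]

end Pool.Agent.Lib.MP_cb8a44_nt.RM
end

section
set_option autoImplicit false
set_option linter.unusedSectionVars false

/-!
# MP_cb8a44_nt, block RM, module INJ: linear algebra of integral matrices
-/

open MeasureTheory Matrix Set Filter Topology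
open scoped ENNReal

namespace Pool.Agent.Lib.MP_cb8a44_nt.RM

namespace INJM

variable {ι κ μ : Type} [Fintype ι] [Fintype κ] [Fintype μ]

theorem rm_mul (U : Matrix ι κ ℤ) (W : Matrix κ μ ℤ) : rm (U * W) = rm U * rm W := by
  unfold rm
  exact Matrix.map_mul (f := Int.castRingHom ℝ)

theorem comp (G : Matrix ι ι ℝ) (U : Matrix ι κ ℤ) (W : Matrix κ μ ℤ) :
    sg G (U * W) = sg (sg G U) W := by
  unfold sg
  rw [rm_mul, Matrix.transpose_mul]
  simp only [Matrix.mul_assoc]

theorem inj_zero {U : Matrix ι κ ℤ} (h : Inj U) {v : κ → ℤ} (hv : U *ᵥ v = 0) : v = 0 :=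
  h (show U *ᵥ v = U *ᵥ 0 by rw [hv, Matrix.mulVec_zero])

theorem inj_of_zero {U : Matrix ι κ ℤ} (h : ∀ v : κ → ℤ, U *ᵥ v = 0 → v = 0) : Inj U := by
  intro v w hvw
  have h1 : U *ᵥ (v - w) = 0 := by
    rw [Matrix.mulVec_sub]
    exact sub_eq_zero.2 hvw
  exact sub_eq_zero.1 (h _ h1)

theorem det_gram [DecidableEq κ] {U : Matrix ι κ ℤ} (h : Inj U) : (Uᵀ * U).det ≠ 0 := by
  intro hd
  obtain ⟨v, hv, h0⟩ := Matrix.exists_mulVec_eq_zero_iff.2 hd
  apply hv
  apply inj_zero h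
  have h1 : (U *ᵥ v) ⬝ᵥ (U *ᵥ v) = 0 := by
    rw [Matrix.dotProduct_mulVec, ← Matrix.mulVec_transpose, Matrix.mulVec_mulVec, h0,
      zero_dotProduct]
  exact dotProduct_self_eq_zero.1 h1

theorem real {U : Matrix ι κ ℤ} (h : Inj U) :
    Function.Injective (fun v : κ → ℝ => rm U *ᵥ v) := by
  classical
  have h1 : ((rm U)ᵀ * rm U).det ≠ 0 := by
    have h2 : (rm U)ᵀ * rm U = (Uᵀ * U).map (Int.castRingHom ℝ) := by
      rw [Matrix.map_mul, Matrix.transpose_map]
      rfl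
    rw [h2, ← RingHom.mapMatrix_apply, ← RingHom.map_det]
    simpa using det_gram h
  have h3 : Function.Injective ((rm U)ᵀ * rm U).mulVec :=
    Matrix.mulVec_injective_iff_isUnit.2 ((Matrix.isUnit_iff_isUnit_det _).2
      (isUnit_iff_ne_zero.2 h1))
  intro v w hvw
  apply h3
  have hvw' : rm U *ᵥ v = rm U *ᵥ w := hvw
  rw [← Matrix.mulVec_mulVec, hvw', Matrix.mulVec_mulVec]

theorem det_rm [DecidableEq κ] (R : Matrix κ κ ℤ) : (rm R).det = (R.det : ℝ) := by
  have h : rm R = (Int.castRingHom ℝ).mapMatrix R := rfl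
  rw [h, ← RingHom.map_det]
  simp

theorem sq [DecidableEq κ] (G : Matrix ι ι ℝ) (U : Matrix ι κ ℤ) (R : Matrix κ κ ℤ) :
    (sg G (U * R)).det = (R.det : ℝ) ^ 2 * (sg G U).det := by
  rw [comp, sg, Matrix.det_mul, Matrix.det_mul, Matrix.det_transpose, det_rm]
  ring

theorem injsq [DecidableEq κ] {R : Matrix κ κ ℤ} : Inj R ↔ R.det ≠ 0 := by
  constructor
  · intro h hd
    obtain ⟨v, hv, h0⟩ := Matrix.exists_mulVec_eq_zero_iff.2 hd
    exact hv (inj_zero h h0)
  · intro hd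
    refine inj_of_zero fun v hv => ?_
    by_contra hne
    exact hd (Matrix.exists_mulVec_eq_zero_iff.1 ⟨v, hne, hv⟩)

theorem sg_submatrix [DecidableEq κ] [DecidableEq μ] (G : Matrix ι ι ℝ) (U : Matrix ι κ ℤ)
    (e : μ ≃ κ) : (sg G (U.submatrix id e)).det = (sg G U).det := by
  rw [← Matrix.det_submatrix_equiv_self e (sg G U)]
  congr 1

theorem inj_submatrix {U : Matrix ι κ ℤ} (h : Inj U) (e : μ ≃ κ) : Inj (U.submatrix id e) := by
  refine inj_of_zero fun v hv => ?_
  have h1 : U *ᵥ (v ∘ e.symm) = 0 := by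
    rw [← hv]
    funext i
    simp only [Matrix.mulVec, dotProduct, Matrix.submatrix_apply, id, Function.comp]
    rw [← e.sum_comp]
    simp
  have h2 := inj_zero h h1
  funext j
  have := congrFun h2 (e j)
  simpa using this

end INJM

open INJM in
theorem specINJ : SpecINJ where
  real := INJM.real
  pd := by
    intro ι κ _ _ G U hG hU
    have := hG.conjTranspose_mul_mul_same (B := rm U) (INJM.real hU)
    rwa [Matrix.conjTranspose_eq_transpose_of_trivial] at this
  comp := INJM.comp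
  injc := by
    intro ι κ μ _ _ _ U W hU hW
    refine inj_of_zero fun v hv => ?_
    rw [← Matrix.mulVec_mulVec] at hv
    exact inj_zero hW (inj_zero hU hv)
  sq := INJM.sq
  injsq := INJM.injsq
  card := by
    intro ι κ _ _ U hU
    have h := LinearMap.finrank_le_finrank_of_injective (f := (rm U).mulVecLin) (INJM.real hU)
    simpa using h
  semi := by
    intro ι κ _ _ _ G U hG hU
    have e : Fin (Fintype.card κ) ≃ κ := (Fintype.equivFin κ).symm
    have h := hG.2 _ (U.submatrix id e) (inj_submatrix hU e)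
    rwa [sg_submatrix] at h

end Pool.Agent.Lib.MP_cb8a44_nt.RM
end

section
set_option autoImplicit false

open MeasureTheory Matrix Set Filter Topology
open scoped ENNReal

namespace Pool.Agent.Lib.MP_cb8a44_nt.RM

namespace LSCM

lemma meas_gs {ι : Type} [Fintype ι] (G : Matrix ι ι ℝ) : Measurable (gs G) := by
  unfold gs
  refine ENNReal.measurable_ofReal.comp ?_
  refine Real.measurable_exp.comp ?_
  refine Measurable.neg (Measurable.const_mul ?_ _)
  refine Continuous.measurable ?_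
  unfold Q
  fun_prop

lemma meas_sup0 {ι : Type} [Fintype ι] (G : Matrix ι ι ℝ) : Measurable (sup0 G) := by
  unfold sup0
  refine Measurable.iSup fun y => (meas_gs G).comp ?_
  fun_prop

lemma tendsto_gs {ι : Type} [Fintype ι] {G : ℕ → Matrix ι ι ℝ} {G₀ : Matrix ι ι ℝ}
    (h : Tendsto G atTop (𝓝 G₀)) (x : ι → ℝ) :
    Tendsto (fun k => gs (G k) x) atTop (𝓝 (gs G₀ x)) := by
  have hc : Continuous (fun M : Matrix ι ι ℝ => gs M x) := by
    unfold gs Q
    refine ENNReal.continuous_ofReal.comp ?_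
    fun_prop
  exact (hc.tendsto G₀).comp h

lemma sup0_le {ι : Type} [Fintype ι] {G : ℕ → Matrix ι ι ℝ} {G₀ : Matrix ι ι ℝ}
    (h : Tendsto G atTop (𝓝 G₀)) (x : ι → ℝ) :
    sup0 G₀ x ≤ liminf (fun k => sup0 (G k) x) atTop := by
  unfold sup0
  refine iSup_le fun y => ?_
  rw [← (tendsto_gs h (fun i => x i - (y i : ℝ))).liminf_eq]
  refine liminf_le_liminf (Eventually.of_forall fun k => ?_)
  exact le_iSup (fun y : ι → ℤ => gs (G k) (fun i => x i - (y i : ℝ))) y

end LSCM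

open LSCM in
theorem specLSC : SpecLSC := by
  intro ι _ _ G G₀ h
  unfold Phi
  have hd : Tendsto (fun k => ENNReal.ofReal (Real.sqrt (G k).det)) atTop
      (𝓝 (ENNReal.ofReal (Real.sqrt G₀.det))) := by
    have hc : Continuous (fun M : Matrix ι ι ℝ => ENNReal.ofReal (Real.sqrt M.det)) := by
      have : Continuous (fun M : Matrix ι ι ℝ => M.det) := Continuous.matrix_det continuous_id
      exact ENNReal.continuous_ofReal.comp (Real.continuous_sqrt.comp this)
    exact (hc.tendsto G₀).comp h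
  have h1 : ∫⁻ x in cube ι, sup0 G₀ x ≤
      liminf (fun k => ∫⁻ x in cube ι, sup0 (G k) x) atTop := by
    refine le_trans (lintegral_mono fun x => sup0_le h x) ?_
    exact lintegral_liminf_le fun k => meas_sup0 (G k)
  calc ENNReal.ofReal (Real.sqrt G₀.det) * ∫⁻ x in cube ι, sup0 G₀ x
      ≤ liminf (fun k => ENNReal.ofReal (Real.sqrt (G k).det)) atTop *
        liminf (fun k => ∫⁻ x in cube ι, sup0 (G k) x) atTop := by
        rw [hd.liminf_eq]
        exact mul_le_mul' le_rfl h1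
    _ ≤ _ := ENNReal.le_liminf_mul

end Pool.Agent.Lib.MP_cb8a44_nt.RM
end

section
set_option autoImplicit false
set_option linter.unusedSectionVars false
set_option linter.unusedVariables false

/-!
# MP_cb8a44_nt, block RM, module LDF: first variation of the Gaussian mass of the Voronoi cell
-/

open MeasureTheory Matrix Set Filter Topology
open scoped ENNReal

namespace Pool.Agent.Lib.MP_cb8a44_nt.RM

namespace LDFM

/-! ### real inequalities -/

theorem exp_step {w r : ℝ} (_hw : 0 ≤ w) (hr : 1 ≤ r) :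
    Real.exp (-w) ≤ Real.exp (-(w * r)) + (r - 1) := by
  have h1 : 1 - Real.exp (-(w * (r - 1))) ≤ w * (r - 1) := by
    have := Real.add_one_le_exp (-(w * (r - 1)))
    linarith
  have h2 : Real.exp (-(w * r)) = Real.exp (-w) * Real.exp (-(w * (r - 1))) := by
    rw [← Real.exp_add]; congr 1; ring
  have h3 : w * Real.exp (-w) ≤ 1 := by
    rw [Real.exp_neg, ← div_eq_mul_inv, div_le_one (Real.exp_pos w)]
    have := Real.add_one_le_exp w
    linarith
  have h4 : Real.exp (-w) * (1 - Real.exp (-(w * (r - 1)))) ≤ r - 1 := by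
    calc Real.exp (-w) * (1 - Real.exp (-(w * (r - 1))))
        ≤ Real.exp (-w) * (w * (r - 1)) := mul_le_mul_of_nonneg_left h1 (Real.exp_pos _).le
      _ = (w * Real.exp (-w)) * (r - 1) := by ring
      _ ≤ 1 * (r - 1) := mul_le_mul_of_nonneg_right h3 (by linarith)
      _ = r - 1 := one_mul _
  rw [h2]
  linarith

theorem exp_step' {w r : ℝ} (hw : 0 ≤ w) (hr : 1 ≤ r) :
    Real.exp (-(w / r)) ≤ Real.exp (-w) + (r - 1) := by
  have h := exp_step (w := w / r) (div_nonneg hw (by linarith)) hr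
  rwa [div_mul_cancel₀ w (by linarith : r ≠ 0)] at h

theorem exp_sub_one {a b : ℝ} (ha : 0 ≤ a) (hab : a ≤ b) : Real.exp a - 1 ≤ a * Real.exp b := by
  have h1 := Real.add_one_le_exp (-a)
  have h2 : Real.exp a * Real.exp (-a) = 1 := by rw [← Real.exp_add]; simp
  have h3 : Real.exp a * (-a + 1) ≤ Real.exp a * Real.exp (-a) :=
    mul_le_mul_of_nonneg_left h1 (Real.exp_pos _).le
  have h4 : a * Real.exp a ≤ a * Real.exp b :=
    mul_le_mul_of_nonneg_left (Real.exp_le_exp.2 hab) ha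
  linarith

variable {ι : Type} [Fintype ι] [DecidableEq ι]

theorem Q_dfm (B : Matrix ι ι ℝ) (s : ι → ℝ) (t : ℝ) (x : ι → ℝ) :
    Q (dfm B s t) x = ∑ i, Real.exp (2 * t * s i) * (B *ᵥ x) i ^ 2 := by
  rw [Q, dfm, ← Matrix.mulVec_mulVec, ← Matrix.mulVec_mulVec, Matrix.dotProduct_mulVec,
    Matrix.vecMul_transpose]
  simp only [dotProduct, Matrix.mulVec_diagonal]
  refine Finset.sum_congr rfl fun i _ => ?_
  ring

theorem det_dfm (B : Matrix ι ι ℝ) (s : ι → ℝ) (t : ℝ) (hs : ∑ i, s i = 0) :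
    (dfm B s t).det = B.det ^ 2 := by
  rw [dfm, Matrix.det_mul, Matrix.det_mul, Matrix.det_transpose, Matrix.det_diagonal,
    ← Real.exp_sum, ← Finset.mul_sum, hs, mul_zero, Real.exp_zero]
  ring

/-- the size of `s` -/
noncomputable def sig (s : ι → ℝ) : ℝ := ∑ i, |s i|

theorem sig_nonneg (s : ι → ℝ) : 0 ≤ sig s := Finset.sum_nonneg fun i _ => abs_nonneg _

theorem le_sig (s : ι → ℝ) (i : ι) : |s i| ≤ sig s :=
  Finset.single_le_sum (f := fun i => |s i|) (fun i _ => abs_nonneg _) (Finset.mem_univ i)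

/-- the ratio -/
noncomputable def rat (s : ι → ℝ) (t : ℝ) : ℝ := Real.exp (2 * |t| * sig s)

theorem one_le_rat (s : ι → ℝ) (t : ℝ) : 1 ≤ rat s t :=
  Real.one_le_exp (by have := sig_nonneg s; positivity)

theorem abs_le_rat (s : ι → ℝ) (t : ℝ) (i : ι) : |2 * t * s i| ≤ 2 * |t| * sig s := by
  rw [abs_mul, abs_mul, abs_two]
  exact mul_le_mul_of_nonneg_left (le_sig s i) (by positivity)

theorem Q_hi (h : SpecQPD) (B : Matrix ι ι ℝ) (s : ι → ℝ) (t : ℝ) (x : ι → ℝ) :
    Q (dfm B s t) x ≤ Q (Bᵀ * B) x * rat s t := by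
  rw [Q_dfm, h.sq, Finset.sum_mul]
  refine Finset.sum_le_sum fun i _ => ?_
  rw [mul_comm]
  exact mul_le_mul_of_nonneg_left (Real.exp_le_exp.2 ((le_abs_self _).trans (abs_le_rat s t i)))
    (sq_nonneg _)

theorem Q_lo (h : SpecQPD) (B : Matrix ι ι ℝ) (s : ι → ℝ) (t : ℝ) (x : ι → ℝ) :
    Q (Bᵀ * B) x / rat s t ≤ Q (dfm B s t) x := by
  rw [Q_dfm, h.sq, Finset.sum_div]
  refine Finset.sum_le_sum fun i _ => ?_
  rw [rat, div_eq_mul_inv, ← Real.exp_neg, mul_comm]
  refine mul_le_mul_of_nonneg_right (Real.exp_le_exp.2 ?_) (sq_nonneg _)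
  have h1 := abs_le_rat s t i
  have h2 := neg_abs_le (2 * t * s i)
  linarith

theorem Q_nonneg (h : SpecQPD) (B : Matrix ι ι ℝ) (x : ι → ℝ) : 0 ≤ Q (Bᵀ * B) x := by
  rw [h.sq]; exact Finset.sum_nonneg fun i _ => sq_nonneg _

/-! ### measurability and periodicity -/

theorem gs_meas (h : SpecQPD) (G : Matrix ι ι ℝ) : Measurable (gs G) :=
  ENNReal.measurable_ofReal.comp (Real.continuous_exp.comp
    ((continuous_const.mul (h.cont G)).neg)).measurable

theorem sup0_meas (h : SpecQPD) (G : Matrix ι ι ℝ) : Measurable (sup0 G) := by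
  refine Measurable.iSup fun y => (gs_meas h G).comp ?_
  exact measurable_pi_iff.2 fun i => (measurable_pi_apply i).sub_const _

theorem sup0_per (G : Matrix ι ι ℝ) (x : ι → ℝ) (y : ι → ℤ) :
    sup0 G (fun i => x i - (y i : ℝ)) = sup0 G x := by
  unfold sup0
  rw [← (Equiv.addLeft y).iSup_comp (g := fun z : ι → ℤ => gs G (fun i => x i - (z i : ℝ)))]
  refine iSup_congr fun z => ?_
  congr 1
  funext i
  simp only [Equiv.coe_addLeft, Pi.add_apply, Int.cast_add]
  ring

/-! ### the two bounds -/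

theorem bound (h : SpecQPD) (B : Matrix ι ι ℝ) (s : ι → ℝ) (t : ℝ) {x : ι → ℝ}
    (hx : x ∈ Vor (Bᵀ * B)) :
    sup0 (dfm B s t) x ≤ gs (dfm B s t) x + ENNReal.ofReal (2 * (rat s t - 1)) := by
  have hr := one_le_rat s t
  refine iSup_le fun y => ?_
  rw [gs, gs, ← ENNReal.ofReal_add (Real.exp_pos _).le (by linarith)]
  refine ENNReal.ofReal_le_ofReal ?_
  have hpi := Real.pi_pos
  have h0 : 0 ≤ Real.pi * Q (Bᵀ * B) (fun i => x i - (y i : ℝ)) :=
    mul_nonneg hpi.le (Q_nonneg h B _)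
  have h0' : 0 ≤ Real.pi * Q (Bᵀ * B) x := mul_nonneg hpi.le (Q_nonneg h B _)
  have h1 : Real.exp (-(Real.pi * Q (dfm B s t) fun i => x i - (y i : ℝ))) ≤
      Real.exp (-(Real.pi * Q (Bᵀ * B) (fun i => x i - (y i : ℝ)) / rat s t)) := by
    refine Real.exp_le_exp.2 (neg_le_neg ?_)
    rw [mul_div_assoc]
    exact mul_le_mul_of_nonneg_left (Q_lo h B s t _) hpi.le
  have h2 := exp_step' h0 hr
  have h3 : Real.exp (-(Real.pi * Q (Bᵀ * B) (fun i => x i - (y i : ℝ)))) ≤
      Real.exp (-(Real.pi * Q (Bᵀ * B) x)) :=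
    Real.exp_le_exp.2 (neg_le_neg (mul_le_mul_of_nonneg_left (hx y) hpi.le))
  have h4 := exp_step h0' hr
  have h5 : Real.exp (-(Real.pi * Q (Bᵀ * B) x * rat s t)) ≤
      Real.exp (-(Real.pi * Q (dfm B s t) x)) := by
    refine Real.exp_le_exp.2 (neg_le_neg ?_)
    rw [mul_assoc]
    exact mul_le_mul_of_nonneg_left (Q_hi h B s t _) hpi.le
  linarith

theorem rat_lin (s : ι → ℝ) {t : ℝ} (ht : |t| ≤ 1) :
    2 * (rat s t - 1) ≤ (4 * sig s * Real.exp (2 * sig s)) * |t| := by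
  have h0 := sig_nonneg s
  have h1 : 2 * |t| * sig s ≤ 2 * sig s := by nlinarith [abs_nonneg t]
  have h2 := exp_sub_one (a := 2 * |t| * sig s) (by positivity) h1
  rw [rat]
  linarith

theorem gap {f : (ι → ℤ) → ℝ} {a b : ℝ} (hab : a < b) (hfin : {y | f y ≤ b}.Finite)
    (hf : ∀ y, y ≠ 0 → a < f y) : ∃ m, a < m ∧ ∀ y, y ≠ 0 → m ≤ f y := by
  have h1 : ∀ᶠ m in 𝓝[>] a, ∀ y ∈ {y | f y ≤ b}, y ≠ 0 → m ≤ f y := by
    rw [eventually_all_finite hfin]
    intro y _
    by_cases hy : y = 0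
    · exact Eventually.of_forall fun m h => absurd hy h
    · filter_upwards [mem_nhdsWithin_of_mem_nhds (Iio_mem_nhds (hf y hy))] with m hm _
      exact le_of_lt hm
  have h2 : ∀ᶠ m in 𝓝[>] a, m < b := mem_nhdsWithin_of_mem_nhds (Iio_mem_nhds hab)
  have h3 : ∀ᶠ m in 𝓝[>] a, a < m := self_mem_nhdsWithin
  obtain ⟨m, k1, k2, k3⟩ := (h1.and (h2.and h3)).exists
  refine ⟨m, k3, fun y hy => ?_⟩
  by_cases h : f y ≤ b
  · exact k1 y h hy
  · exact k2.le.trans (not_le.1 h).le

theorem ev_zero (h : SpecQPD) (B : Matrix ι ι ℝ) (hB : (Bᵀ * B).PosDef) (s : ι → ℝ) {x : ι → ℝ}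
    (hx : ∀ y : ι → ℤ, y ≠ 0 → Q (Bᵀ * B) x < Q (Bᵀ * B) (fun i => x i - (y i : ℝ))) :
    ∀ᶠ t in 𝓝 (0 : ℝ), sup0 (dfm B s t) x ≤ gs (dfm B s t) x := by
  obtain ⟨m, hm, hmy⟩ := gap (f := fun y : ι → ℤ => Q (Bᵀ * B) (fun i => x i - (y i : ℝ)))
    (a := Q (Bᵀ * B) x) (b := Q (Bᵀ * B) x + 1) (by linarith) (by
      refine (h.fin hB (4 * Q (Bᵀ * B) x + 2)).subset fun y hy => ?_
      have h1 := h.para (Bᵀ * B) x (fun i => x i - (y i : ℝ))
      have h2 := Q_nonneg h B (x + fun i => x i - (y i : ℝ))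
      have h3 : (x - fun i => x i - (y i : ℝ)) = fun i => (y i : ℝ) := by
        funext i; simp
      rw [h3] at h1
      simp only [mem_ofPred_eq] at hy ⊢
      linarith) hx
  have hc : ContinuousAt (fun t : ℝ => Q (Bᵀ * B) x * rat s t * rat s t) 0 := by
    have : Continuous (fun t : ℝ => Q (Bᵀ * B) x * rat s t * rat s t) := by
      unfold rat; fun_prop
    exact this.continuousAt
  have h0 : Q (Bᵀ * B) x * rat s 0 * rat s 0 < m := by simpa [rat] using hm
  filter_upwards [hc.eventually_lt_const h0] with t ht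
  have hr := one_le_rat s t
  refine iSup_le fun y => ?_
  refine ENNReal.ofReal_le_ofReal (Real.exp_le_exp.2 (neg_le_neg
    (mul_le_mul_of_nonneg_left ?_ Real.pi_pos.le)))
  by_cases hy : y = 0
  · subst hy
    have : (fun i => x i - (((0 : ι → ℤ) i : ℤ) : ℝ)) = x := by funext i; simp
    rw [this]
  · calc Q (dfm B s t) x ≤ Q (Bᵀ * B) x * rat s t := Q_hi h B s t x
      _ ≤ m / rat s t := by rw [le_div_iff₀ (by linarith)]; exact ht.le
      _ ≤ Q (Bᵀ * B) (fun i => x i - (y i : ℝ)) / rat s t :=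
        div_le_div_of_nonneg_right (hmy y hy) (by linarith)
      _ ≤ _ := Q_lo h B s t _

/-! ### change of variables -/

theorem mulVec_inj {B : Matrix ι ι ℝ} (hB : B.det ≠ 0) : Function.Injective (fun x => B *ᵥ x) :=
  Matrix.mulVec_injective_iff_isUnit.2 ((Matrix.isUnit_iff_isUnit_det B).2 (isUnit_iff_ne_zero.2 hB))

theorem pd {B : Matrix ι ι ℝ} (hB : B.det ≠ 0) : (Bᵀ * B).PosDef := by
  have := Matrix.PosDef.conjTranspose_mul_self B (mulVec_inj hB)
  rwa [Matrix.conjTranspose_eq_transpose_of_trivial] at this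

theorem cov {B : Matrix ι ι ℝ} (hB : B.det ≠ 0) (hm : MeasurableSet (Vor (Bᵀ * B)))
    (g : (ι → ℝ) → ℝ≥0∞) :
    ∫⁻ x in VB B, g x = ENNReal.ofReal |B.det| * ∫⁻ x in Vor (Bᵀ * B), g (B *ᵥ x) := by
  have h := lintegral_image_eq_lintegral_abs_det_fderiv_mul (volume : Measure (ι → ℝ)) hm
    (f := fun x => B *ᵥ x) (f' := fun _ => LinearMap.toContinuousLinearMap (Matrix.toLin' B))
    (fun x _ => (LinearMap.toContinuousLinearMap (Matrix.toLin' B)).hasFDerivAt.hasFDerivWithinAt)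
    (mulVec_inj hB).injOn g
  rw [VB, h, ← lintegral_const_mul' _ _ ENNReal.ofReal_ne_top]
  have hd : (LinearMap.toContinuousLinearMap (Matrix.toLin' B)).det = B.det := by
    rw [LinearMap.det_toContinuousLinearMap, LinearMap.det_toLin']
  rw [hd]

theorem HD_eq (V : Set (ι → ℝ)) (a : ι → ℝ) :
    HD V a = (∫⁻ x in V, ENNReal.ofReal (Real.exp (-(Real.pi * ∑ i, a i * x i ^ 2)))).toReal := by
  rw [HD, integral_eq_lintegral_of_nonneg_ae]
  · exact Eventually.of_forall fun x => (Real.exp_pos _).le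
  · have : Continuous fun x : ι → ℝ => Real.exp (-(Real.pi * ∑ i, a i * x i ^ 2)) := by fun_prop
    exact this.aestronglyMeasurable

end LDFM

open LDFM in
theorem specLDF (hQPD : SpecQPD) (hVO1 : SpecVO1) (hVO2 : SpecVO2) (hVBM : SpecVBM) :
    SpecLDF := by
  intro ι _ _ B s hB hs ε hε
  have hpd := pd hB
  have hmV : MeasurableSet (Vor (Bᵀ * B)) := (hVO1.cpt hpd).isClosed.measurableSet
  have hdet : 0 < |B.det| := abs_pos.2 hB
  set K : ℝ := 4 * sig s * Real.exp (2 * sig s) with hK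
  have hK0 : 0 ≤ K := by have := sig_nonneg s; positivity
  -- dominated convergence
  have hlim : Tendsto (fun t : ℝ => ∫⁻ x in Vor (Bᵀ * B),
      (sup0 (dfm B s t) x - gs (dfm B s t) x) / ENNReal.ofReal |t|) (𝓝[≠] 0) (𝓝 0) := by
    have h := tendsto_lintegral_filter_of_dominated_convergence
      (μ := volume.restrict (Vor (Bᵀ * B))) (l := 𝓝[≠] (0 : ℝ))
      (F := fun t x => (sup0 (dfm B s t) x - gs (dfm B s t) x) / ENNReal.ofReal |t|)
      (f := fun _ => 0) (fun _ => ENNReal.ofReal K) ?_ ?_ ?_ ?_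
    · simpa using h
    · exact Eventually.of_forall fun t =>
        ((sup0_meas hQPD _).sub (gs_meas hQPD _)).div_const _
    · have h1 : ∀ᶠ t in 𝓝[≠] (0 : ℝ), |t| ≤ 1 := by
        refine mem_nhdsWithin_of_mem_nhds ?_
        filter_upwards [Metric.ball_mem_nhds (0 : ℝ) one_pos] with t ht
        rw [mem_ball_zero_iff, Real.norm_eq_abs] at ht
        exact ht.le
      filter_upwards [h1] with t ht
      refine ae_restrict_of_forall_mem hmV fun x hx => ?_
      refine ENNReal.div_le_of_le_mul ?_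
      rw [tsub_le_iff_left, ← ENNReal.ofReal_mul hK0]
      exact (bound hQPD B s t hx).trans
        (add_le_add le_rfl (ENNReal.ofReal_le_ofReal (rat_lin s ht)))
    · rw [lintegral_const, Measure.restrict_apply_univ, hVO2.vol hpd, mul_one]
      exact ENNReal.ofReal_ne_top
    · filter_upwards [hVO2.strict hpd] with x hx
      refine tendsto_nhds_of_eventually_eq ?_
      refine mem_nhdsWithin_of_mem_nhds ?_
      filter_upwards [ev_zero hQPD B hpd s hx] with t ht
      simp only [tsub_eq_zero_of_le ht, ENNReal.zero_div]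
  have hε' : 0 < ε / |B.det| := div_pos hε hdet
  have hev := (ENNReal.tendsto_nhds_zero.1 hlim) (ENNReal.ofReal (ε / |B.det|))
    (ENNReal.ofReal_pos.2 hε')
  rw [eventually_nhdsWithin_iff, Metric.eventually_nhds_iff] at hev
  obtain ⟨δ, hδ, hev⟩ := hev
  refine ⟨δ, hδ, fun t ht => ?_⟩
  -- the estimate on the cell
  have hcell : ∫⁻ x in Vor (Bᵀ * B), sup0 (dfm B s t) x ≤
      (∫⁻ x in Vor (Bᵀ * B), gs (dfm B s t) x) + ENNReal.ofReal (|t| * (ε / |B.det|)) := by
    by_cases ht0 : t = 0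
    · subst ht0
      refine le_trans ?_ le_self_add
      refine setLIntegral_mono' hmV fun x hx => ?_
      have h1 := bound hQPD B s 0 hx
      have h2 : 2 * (rat s 0 - 1) = 0 := by simp [rat]
      rwa [h2, ENNReal.ofReal_zero, add_zero] at h1
    · have h1 := hev (y := t) (by rw [Real.dist_eq, sub_zero]; exact ht) ht0
      have htp : ENNReal.ofReal |t| ≠ 0 := (ENNReal.ofReal_pos.2 (abs_pos.2 ht0)).ne'
      calc ∫⁻ x in Vor (Bᵀ * B), sup0 (dfm B s t) x
          ≤ ∫⁻ x in Vor (Bᵀ * B), (gs (dfm B s t) x + ENNReal.ofReal |t| *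
              ((sup0 (dfm B s t) x - gs (dfm B s t) x) / ENNReal.ofReal |t|)) := by
            refine lintegral_mono fun x => ?_
            rw [ENNReal.mul_div_cancel htp ENNReal.ofReal_ne_top]
            exact le_add_tsub
        _ = (∫⁻ x in Vor (Bᵀ * B), gs (dfm B s t) x) + ENNReal.ofReal |t| *
              ∫⁻ x in Vor (Bᵀ * B),
                (sup0 (dfm B s t) x - gs (dfm B s t) x) / ENNReal.ofReal |t| := by
            have hmm : Measurable fun x =>
                (sup0 (dfm B s t) x - gs (dfm B s t) x) / ENNReal.ofReal |t| :=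
              ((sup0_meas hQPD _).sub (gs_meas hQPD _)).div_const _
            rw [lintegral_add_left (gs_meas hQPD _), lintegral_const_mul _ hmm]
        _ ≤ _ := by
            rw [ENNReal.ofReal_mul (abs_nonneg t)]
            exact add_le_add le_rfl (mul_le_mul_right h1 _)
  -- transfer
  have hA : ENNReal.ofReal |B.det| * (∫⁻ x in Vor (Bᵀ * B), gs (dfm B s t) x) =
      ∫⁻ x in VB B, ENNReal.ofReal (Real.exp (-(Real.pi * ∑ i, Real.exp (2 * t * s i) * x i ^ 2))) := by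
    rw [cov hB hmV]
    congr 1
    refine lintegral_congr fun x => ?_
    rw [gs, Q_dfm]
  have hAfin : (∫⁻ x in VB B, ENNReal.ofReal
      (Real.exp (-(Real.pi * ∑ i, Real.exp (2 * t * s i) * x i ^ 2)))) ≠ ⊤ := by
    refine ne_top_of_le_ne_top (b := ENNReal.ofReal |B.det|) ENNReal.ofReal_ne_top ?_
    rw [← hVBM.vol hB, ← setLIntegral_one]
    refine lintegral_mono fun x => ?_
    rw [← ENNReal.ofReal_one]
    refine ENNReal.ofReal_le_ofReal (Real.exp_le_one_iff.2 (neg_nonpos.2 ?_))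
    exact mul_nonneg Real.pi_pos.le (Finset.sum_nonneg fun i _ =>
      mul_nonneg (Real.exp_pos _).le (sq_nonneg _))
  have hPhi : Phi (dfm B s t) ≤ (∫⁻ x in VB B, ENNReal.ofReal
      (Real.exp (-(Real.pi * ∑ i, Real.exp (2 * t * s i) * x i ^ 2)))) + ENNReal.ofReal (ε * |t|) := by
    rw [Phi, det_dfm B s t hs, Real.sqrt_sq_eq_abs,
      hVO2.per hpd (sup0_meas hQPD _) (sup0_per _)]
    refine (mul_le_mul_right hcell _).trans ?_
    rw [mul_add, hA, ← ENNReal.ofReal_mul hdet.le]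
    refine add_le_add le_rfl (ENNReal.ofReal_le_ofReal (le_of_eq ?_))
    field_simp
  rw [HD_eq]
  have h1 := ENNReal.toReal_mono (ENNReal.add_ne_top.2 ⟨hAfin, ENNReal.ofReal_ne_top⟩) hPhi
  rwa [ENNReal.toReal_add hAfin ENNReal.ofReal_ne_top,
    ENNReal.toReal_ofReal (mul_nonneg hε.le (abs_nonneg t))] at h1

end Pool.Agent.Lib.MP_cb8a44_nt.RM
end

section
set_option autoImplicit false

/-!
# MP_cb8a44_nt, block RM, module MAS: `rho G * Phi G ≤ 1`
-/

open MeasureTheory Matrix Set Filter Topology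
open scoped ENNReal

namespace Pool.Agent.Lib.MP_cb8a44_nt.RM

namespace MASM

variable {ι : Type} [Fintype ι]

/-- the real point of an integral vector -/
noncomputable def zr (y : ι → ℤ) : ι → ℝ := fun i => (y i : ℝ)

omit [Fintype ι] in
lemma zr_neg (y : ι → ℤ) : zr (-y) = -zr y := by
  funext i; simp [zr]

omit [Fintype ι] in
lemma zr_sub (y z : ι → ℤ) : zr (y - z) = zr y - zr z := by
  funext i; simp [zr]

omit [Fintype ι] in
lemma zr_add (y z : ι → ℤ) : zr (y + z) = zr y + zr z := by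
  funext i; simp [zr]

lemma gs_key (h : SpecQPD) (G : Matrix ι ι ℝ) (w y : ι → ℝ) :
    2 * (gs G w * gs G y) ≤ gs G (w - y) + gs G (w + y) := by
  have hp := h.para G w y
  unfold gs
  rw [← ENNReal.ofReal_mul (Real.exp_pos _).le, ← Real.exp_add,
    ← ENNReal.ofReal_add (Real.exp_pos _).le (Real.exp_pos _).le]
  rw [show (2 : ℝ≥0∞) = ENNReal.ofReal 2 by simp, ← ENNReal.ofReal_mul (by norm_num)]
  apply ENNReal.ofReal_le_ofReal
  set a := -(Real.pi * Q G (w - y)) with ha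
  set b := -(Real.pi * Q G (w + y)) with hb
  have hab : -(Real.pi * Q G w) + -(Real.pi * Q G y) = a / 2 + b / 2 := by
    rw [ha, hb]; linear_combination (Real.pi / 2) * hp
  rw [hab, Real.exp_add]
  have h1 : Real.exp a = Real.exp (a / 2) ^ 2 := by
    rw [← Real.exp_nat_mul]; congr 1; push_cast; ring
  have h2 : Real.exp b = Real.exp (b / 2) ^ 2 := by
    rw [← Real.exp_nat_mul]; congr 1; push_cast; ring
  rw [h1, h2]
  nlinarith [sq_nonneg (Real.exp (a / 2) - Real.exp (b / 2))]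

lemma rho_le (h : SpecQPD) (G : Matrix ι ι ℝ) (w : ι → ℝ) :
    gs G w * rho G ≤ ∑' y : ι → ℤ, gs G (w - zr y) := by
  have h1 : 2 * (gs G w * rho G) ≤ 2 * ∑' y : ι → ℤ, gs G (w - zr y) := by
    have e1 : 2 * (gs G w * rho G) = ∑' y : ι → ℤ, 2 * (gs G w * gs G (zr y)) := by
      rw [ENNReal.tsum_mul_left, ENNReal.tsum_mul_left]; rfl
    have e2 : ∑' y : ι → ℤ, gs G (w + zr y) = ∑' y : ι → ℤ, gs G (w - zr y) := by
      rw [← (Equiv.neg (ι → ℤ)).tsum_eq (fun y => gs G (w - zr y))]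
      refine tsum_congr fun y => ?_
      rw [Equiv.neg_apply, zr_neg, sub_neg_eq_add]
    rw [e1, two_mul (∑' y : ι → ℤ, gs G (w - zr y))]
    calc ∑' y : ι → ℤ, 2 * (gs G w * gs G (zr y))
        ≤ ∑' y : ι → ℤ, (gs G (w - zr y) + gs G (w + zr y)) :=
          ENNReal.tsum_le_tsum fun y => gs_key h G w (zr y)
      _ = ∑' y : ι → ℤ, gs G (w - zr y) + ∑' y : ι → ℤ, gs G (w + zr y) := ENNReal.tsum_add
      _ = _ := by rw [e2]
  exact (ENNReal.mul_le_mul_iff_right (by norm_num) (by norm_num)).1 h1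

lemma rho_sup (h : SpecQPD) (G : Matrix ι ι ℝ) (x : ι → ℝ) :
    rho G * sup0 G x ≤ ∑' y : ι → ℤ, gs G (x - zr y) := by
  unfold sup0
  rw [ENNReal.mul_iSup]
  refine iSup_le fun z => ?_
  rw [mul_comm]
  refine (rho_le h G _).trans (le_of_eq ?_)
  rw [← (Equiv.subRight z).tsum_eq (fun y => gs G ((fun i => x i - (z i : ℝ)) - zr y))]
  refine tsum_congr fun y => ?_
  congr 1
  funext i
  simp [zr]

lemma meas_gs (h : SpecQPD) (G : Matrix ι ι ℝ) : Measurable (gs G) := by
  unfold gs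
  exact (Real.continuous_exp.comp ((continuous_const.mul (h.cont G)).neg)).measurable.ennreal_ofReal

/-- integral over the space as a sum over the integral translates of the cube -/
lemma lint_tsum (f : (ι → ℝ) → ℝ≥0∞) :
    ∫⁻ x, f x = ∑' y : ι → ℤ, ∫⁻ x in cube ι, f (x - zr y) := by
  classical
  have hd := ZSpan.isAddFundamentalDomain' (Pi.basisFun ℝ ι) (volume : Measure (ι → ℝ))
  have hc : ZSpan.fundamentalDomain (Pi.basisFun ℝ ι) = cube ι := by
    ext x
    simp [ZSpan.mem_fundamentalDomain, cube]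
  let e : (Submodule.span ℤ (Set.range (Pi.basisFun ℝ ι))).toAddSubgroup ≃ (ι → ℤ) :=
    (((Pi.basisFun ℝ ι).restrictScalars ℤ).equivFun).toEquiv
  have : Countable (Submodule.span ℤ (Set.range (Pi.basisFun ℝ ι))).toAddSubgroup :=
    Countable.of_equiv (ι → ℤ) e.symm
  rw [hd.lintegral_eq_tsum' f, hc]
  rw [← e.symm.tsum_eq]
  refine tsum_congr fun y => ?_
  refine lintegral_congr fun x => ?_
  congr 1
  have he : ((e.symm y : (Submodule.span ℤ (Set.range (Pi.basisFun ℝ ι))).toAddSubgroup) : ι → ℝ) = zr y := by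
    show (((((Pi.basisFun ℝ ι).restrictScalars ℤ).equivFun).symm y : Submodule.span ℤ (Set.range (Pi.basisFun ℝ ι))) : ι → ℝ) = zr y
    rw [Module.Basis.equivFun_symm_apply]
    funext i
    simp [zr, Finset.sum_apply, Pi.single_apply]
  show ((-(e.symm y) : (Submodule.span ℤ (Set.range (Pi.basisFun ℝ ι))).toAddSubgroup) : ι → ℝ) + x = x - zr y
  rw [AddSubgroup.coe_neg, he, sub_eq_neg_add]

end MASM

open MASM in
/-- **MAS**. -/
theorem specMAS (hQPD : SpecQPD) (hGNI : SpecGNI) : SpecMAS := by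
  intro ι _ _ G hG
  have h1 : rho G * ∫⁻ x in cube ι, sup0 G x ≤ ENNReal.ofReal (1 / Real.sqrt G.det) := by
    rw [← hGNI G hG, lint_tsum (gs G)]
    calc rho G * ∫⁻ x in cube ι, sup0 G x
        ≤ ∫⁻ x in cube ι, rho G * sup0 G x := lintegral_const_mul_le _ _
      _ ≤ ∫⁻ x in cube ι, ∑' y : ι → ℤ, gs G (x - zr y) :=
          lintegral_mono fun x => rho_sup hQPD G x
      _ = ∑' y : ι → ℤ, ∫⁻ x in cube ι, gs G (x - zr y) := by
          rw [lintegral_tsum]
          intro y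
          exact ((meas_gs hQPD G).comp (measurable_id.sub_const _)).aemeasurable
  have hdet : 0 < G.det := hG.det_pos
  unfold Phi
  calc rho G * (ENNReal.ofReal (Real.sqrt G.det) * ∫⁻ x in cube ι, sup0 G x)
      = ENNReal.ofReal (Real.sqrt G.det) * (rho G * ∫⁻ x in cube ι, sup0 G x) := by ring
    _ ≤ ENNReal.ofReal (Real.sqrt G.det) * ENNReal.ofReal (1 / Real.sqrt G.det) := by gcongr
    _ = 1 := by
        rw [← ENNReal.ofReal_mul (Real.sqrt_nonneg _), mul_one_div_cancel (Real.sqrt_pos.2 hdet).ne',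
          ENNReal.ofReal_one]

end Pool.Agent.Lib.MP_cb8a44_nt.RM
end

section
set_option autoImplicit false

open MeasureTheory Matrix Set Filter Topology
open scoped ENNReal

namespace Pool.Agent.Lib.MP_cb8a44_nt.RM

namespace MNMM

lemma semi_one (hINJ : SpecINJ) (n : ℕ) : Semi (1 : Matrix (Fin n) (Fin n) ℝ) := by
  refine ⟨Matrix.PosDef.one, ?_⟩
  intro m U hU
  have hpd : (sg (1 : Matrix (Fin n) (Fin n) ℝ) U).PosDef := hINJ.pd Matrix.PosDef.one hU
  have hpos : 0 < (sg (1 : Matrix (Fin n) (Fin n) ℝ) U).det := hpd.det_pos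
  have hint : (sg (1 : Matrix (Fin n) (Fin n) ℝ) U).det = (((Uᵀ * U).det : ℤ) : ℝ) := by
    have h1 : sg (1 : Matrix (Fin n) (Fin n) ℝ) U = (Uᵀ * U).map (fun z : ℤ => (z : ℝ)) := by
      rw [sg, Matrix.mul_one, rm]
      ext i j
      simp [Matrix.mul_apply, Matrix.map_apply]
    rw [h1]
    exact ((Int.castRingHom ℝ).map_det (Uᵀ * U)).symm
  rw [hint] at hpos ⊢
  have h2 : 0 < (Uᵀ * U).det := by exact_mod_cast hpos
  exact_mod_cast h2

lemma continuous_sg {n m : ℕ} (U : Matrix (Fin n) (Fin m) ℤ) :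
    Continuous (fun G : Matrix (Fin n) (Fin n) ℝ => (sg G U).det) := by
  unfold sg
  exact ((continuous_const.matrix_mul continuous_id).matrix_mul continuous_const).matrix_det

end MNMM

open MNMM in
theorem specMNM (hINJ : SpecINJ) (hQPD : SpecQPD) (hUNI : SpecUNI) (hRED : SpecRED)
    (hLSC : SpecLSC) : SpecMNM := by
  intro n
  let 𝒢 : Set (Matrix (Fin n) (Fin n) ℝ) := {G | Semi G ∧ G.det = 1}
  have hne : (Phi '' 𝒢).Nonempty := ⟨_, ⟨1, ⟨semi_one hINJ n, Matrix.det_one⟩, rfl⟩⟩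
  obtain ⟨u, -, hu, hmem⟩ := exists_seq_tendsto_sInf hne (OrderBot.bddBelow _)
  choose G hG hGu using hmem
  obtain ⟨R, hR⟩ := hRED n 1 1 one_pos
  have hex : ∀ k, ∃ T S : Matrix (Fin n) (Fin n) ℤ, T * S = 1 ∧ S * T = 1 ∧
      ∀ i j, |sg (G k) T i j| ≤ R := by
    intro k
    exact hR (G k) (hG k).1.1 (hQPD.one (hG k).1) (hG k).2.le
  choose T S hTS hST hb using hex
  let G' : ℕ → Matrix (Fin n) (Fin n) ℝ := fun k => sg (G k) (T k)
  have hG'semi : ∀ k, Semi (G' k) := fun k => hUNI.semi (hTS k) (hST k) (hG k).1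
  have hG'det : ∀ k, (G' k).det = 1 := fun k => by
    rw [← (hG k).2]
    exact hUNI.det (hTS k) (hST k)
  have hG'phi : ∀ k, Phi (G' k) = u k := fun k => by
    rw [← hGu k]
    exact hUNI.phi (hTS k) (hST k) (hG k).1.1
  have hcomp : IsCompact (Set.pi (Set.univ : Set (Fin n))
      (fun _ => Set.pi (Set.univ : Set (Fin n)) (fun _ => Set.Icc (-R) R))) :=
    isCompact_univ_pi (fun _ => isCompact_univ_pi (fun _ => isCompact_Icc))
  have hin : ∀ k, (G' k : Fin n → Fin n → ℝ) ∈ Set.pi (Set.univ : Set (Fin n))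
      (fun _ => Set.pi (Set.univ : Set (Fin n)) (fun _ => Set.Icc (-R) R)) := by
    intro k i _ j _
    exact abs_le.1 (hb k i j)
  obtain ⟨G₀', -, φ, hφ, hlim⟩ := hcomp.tendsto_subseq hin
  let G₀ : Matrix (Fin n) (Fin n) ℝ := G₀'
  have hlim' : Tendsto (fun k => G' (φ k)) atTop (𝓝 G₀) := hlim
  have hdet : G₀.det = 1 := by
    have h1 : Tendsto (fun k => (G' (φ k)).det) atTop (𝓝 G₀.det) :=
      (continuous_id.matrix_det.tendsto G₀).comp hlim'
    have h2 : (fun k => (G' (φ k)).det) = fun _ => (1 : ℝ) := by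
      funext k
      exact hG'det _
    rw [h2] at h1
    exact (tendsto_nhds_unique h1 tendsto_const_nhds)
  have hsemidef : G₀.PosSemidef := by
    rw [Matrix.posSemidef_iff_dotProduct_mulVec]
    constructor
    · ext i j
      have hc : ∀ a b : Fin n, Continuous (fun M : Matrix (Fin n) (Fin n) ℝ => M a b) :=
        fun a b => continuous_id.matrix_elem a b
      have h1 : Tendsto (fun k => G' (φ k) i j) atTop (𝓝 (G₀ i j)) :=
        ((hc i j).tendsto G₀).comp hlim'
      have h2 : Tendsto (fun k => G' (φ k) j i) atTop (𝓝 (G₀ j i)) :=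
        ((hc j i).tendsto G₀).comp hlim'
      have h3 : (fun k => G' (φ k) j i) = fun k => G' (φ k) i j := by
        funext k
        have := (hG'semi (φ k)).1.isHermitian.apply i j
        simpa using this
      rw [h3] at h2
      have h4 := tendsto_nhds_unique h1 h2
      simpa [Matrix.conjTranspose_apply] using h4.symm
    · intro x
      have hc : Continuous (fun M : Matrix (Fin n) (Fin n) ℝ => star x ⬝ᵥ (M *ᵥ x)) :=
        continuous_const.dotProduct (continuous_id.matrix_mulVec continuous_const)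
      have h1 : Tendsto (fun k => star x ⬝ᵥ (G' (φ k) *ᵥ x)) atTop (𝓝 (star x ⬝ᵥ (G₀ *ᵥ x))) :=
        (hc.tendsto G₀).comp hlim'
      refine ge_of_tendsto' h1 (fun k => ?_)
      exact ((Matrix.posSemidef_iff_dotProduct_mulVec.1 (hG'semi (φ k)).1.posSemidef).2 x)
  have hpd : G₀.PosDef := by
    rw [hsemidef.posDef_iff_det_ne_zero, hdet]
    exact one_ne_zero
  refine ⟨G₀, ⟨hpd, ?_⟩, hdet, ?_⟩
  · intro m U hU
    have h1 : Tendsto (fun k => (sg (G' (φ k)) U).det) atTop (𝓝 (sg G₀ U).det) :=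
      ((continuous_sg U).tendsto G₀).comp hlim'
    exact ge_of_tendsto' h1 (fun k => (hG'semi (φ k)).2 m U hU)
  · intro G1 hG1 hG1d
    have h1 : Phi G₀ ≤ liminf (fun k => Phi (G' (φ k))) atTop := hLSC _ _ hlim'
    have h2 : Tendsto (fun k => Phi (G' (φ k))) atTop (𝓝 (sInf (Phi '' 𝒢))) := by
      have h3 : (fun k => Phi (G' (φ k))) = u ∘ φ := by
        funext k
        exact hG'phi (φ k)
      rw [h3]
      exact hu.comp hφ.tendsto_atTop
    rw [h2.liminf_eq] at h1
    exact h1.trans (sInf_le ⟨G1, ⟨hG1, hG1d⟩, rfl⟩)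

end Pool.Agent.Lib.MP_cb8a44_nt.RM
end

section
set_option autoImplicit false

/-!
# MP_cb8a44_nt, block RM, module PRM: completion of a primitive closure to a basis
-/

open MeasureTheory Matrix Set Filter Topology
open scoped ENNReal

namespace Pool.Agent.Lib.MP_cb8a44_nt.RM

namespace PRMM

variable {ι : Type} [Fintype ι] [DecidableEq ι]

omit [Fintype ι] [DecidableEq ι] in
lemma det_ne {m : ℕ} (U : Matrix ι (Fin m) ℤ) (hU : Inj U) (T : Matrix ι (Fin m) ℤ)
    (R : Matrix (Fin m) (Fin m) ℤ) (h : U = T * R) : R.det ≠ 0 := by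
  intro h0
  obtain ⟨v, hv, hR⟩ := Matrix.exists_mulVec_eq_zero_iff.2 h0
  apply hv
  apply hU
  show U *ᵥ v = U *ᵥ 0
  rw [h, ← Matrix.mulVec_mulVec, hR, Matrix.mulVec_zero, Matrix.mulVec_zero]

lemma main {m : ℕ} (U : Matrix ι (Fin m) ℤ) (hU : Inj U)
    (L : (Fin m → ℤ) →ₗ[ℤ] (ι → ℤ)) (hL : L = U.mulVecLin)
    (s : Module.Basis.SmithNormalForm (LinearMap.range L) ι m) :
    ∃ (k : ℕ) (T : Matrix ι (Fin m ⊕ Fin k) ℤ) (S : Matrix (Fin m ⊕ Fin k) ι ℤ) (R : Matrix (Fin m) (Fin m) ℤ),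
    m + k = Fintype.card ι ∧ T * S = 1 ∧ S * T = 1 ∧ R.det ≠ 0 ∧ U = (T.submatrix id Sum.inl) * R := by
  classical
  let σ : Fin m ⊕ Fin (Fintype.card ↥(Set.range s.f)ᶜ) ≃ ι :=
    ((Equiv.ofInjective s.f s.f.injective).sumCongr (Fintype.equivFin (↥(Set.range s.f)ᶜ)).symm).trans
      (Equiv.Set.sumCompl (Set.range s.f))
  have hσ : ∀ i : Fin m, σ (Sum.inl i) = s.f i := fun i => rfl
  let b' := s.bM.reindex σ.symm
  have hb' : ∀ i : Fin m, b' (Sum.inl i) = s.bM (s.f i) := fun i => by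
    show (s.bM.reindex σ.symm) (Sum.inl i) = _
    rw [Module.Basis.reindex_apply, Equiv.symm_symm, hσ]
  let T := (Pi.basisFun ℤ ι).toMatrix b'
  let S := b'.toMatrix (Pi.basisFun ℤ ι)
  let R : Matrix (Fin m) (Fin m) ℤ := Matrix.of fun i c =>
    s.bN.repr ⟨L (Pi.single c 1), LinearMap.mem_range_self L _⟩ i * s.a i
  have hTR : U = (T.submatrix id Sum.inl) * R := by
    ext i c
    have h1 := s.bN.sum_repr ⟨L (Pi.single c 1), LinearMap.mem_range_self L _⟩
    have h2 := congrArg (fun v : LinearMap.range L => (v : ι → ℤ) i) h1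
    simp only [Submodule.coe_sum, Submodule.coe_smul, Finset.sum_apply, Pi.smul_apply, s.snf, smul_eq_mul] at h2
    rw [Matrix.mul_apply]
    have h3 : L (Pi.single c 1) i = U i c := by
      rw [hL, Matrix.mulVecLin_apply, Matrix.mulVec_single_one]; rfl
    rw [h3] at h2
    rw [← h2]
    refine Finset.sum_congr rfl fun j _ => ?_
    have h4 : T.submatrix id Sum.inl i j = s.bM (s.f j) i := by
      show (Pi.basisFun ℤ ι).toMatrix b' i (Sum.inl j) = _
      rw [Module.Basis.toMatrix_apply, hb', Pi.basisFun_repr]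
    rw [h4]
    show _ = s.bM (s.f j) i * (s.bN.repr ⟨L (Pi.single c 1), LinearMap.mem_range_self L _⟩ j * s.a j)
    ring
  refine ⟨_, T, S, R, ?_, ?_, ?_, ?_, hTR⟩
  · have := Fintype.card_congr σ
    rw [Fintype.card_sum, Fintype.card_fin, Fintype.card_fin] at this
    exact this
  · exact Module.Basis.toMatrix_mul_toMatrix_flip _ _
  · exact Module.Basis.toMatrix_mul_toMatrix_flip _ _
  · exact det_ne U hU _ R hTR

end PRMM

open PRMM in
/-- **PRM**. -/
theorem specPRM : SpecPRM := by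
  intro ι _ _ m U hU
  let L : (Fin m → ℤ) →ₗ[ℤ] (ι → ℤ) := U.mulVecLin
  have hL : Function.Injective L := hU
  obtain ⟨n, s⟩ := Submodule.smithNormalForm (Pi.basisFun ℤ ι) (LinearMap.range L)
  have hn : n = m := by
    have h1 := Module.finrank_eq_card_basis s.bN
    have h2 := (LinearEquiv.ofInjective L hL).finrank_eq
    rw [h1] at h2
    simpa using h2.symm
  subst hn
  exact main U hU L rfl s

end Pool.Agent.Lib.MP_cb8a44_nt.RM
end

section
set_option autoImplicit false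
set_option linter.unusedSectionVars false

open MeasureTheory Matrix Set
open scoped ENNReal

namespace Pool.Agent.Lib.MP_cb8a44_nt.RM

namespace QPDM

variable {ι κ : Type} [Fintype ι] [Fintype κ]

lemma cont (G : Matrix ι ι ℝ) : Continuous (Q G) := by
  unfold Q dotProduct mulVec dotProduct
  fun_prop

lemma cont2 : Continuous (fun p : Matrix ι ι ℝ × (ι → ℝ) => Q p.1 p.2) := by
  unfold Q dotProduct mulVec dotProduct
  refine continuous_finsetSum _ fun i _ => ?_
  refine Continuous.mul ((continuous_apply i).comp continuous_snd) ?_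
  refine continuous_finsetSum _ fun j _ => ?_
  exact Continuous.mul ((continuous_apply j).comp ((continuous_apply i).comp continuous_fst))
    ((continuous_apply j).comp continuous_snd)

lemma even (G : Matrix ι ι ℝ) (x : ι → ℝ) : Q G (-x) = Q G x := by
  unfold Q
  rw [mulVec_neg, neg_dotProduct, dotProduct_neg, neg_neg]

lemma scal (G : Matrix ι ι ℝ) (c : ℝ) (x : ι → ℝ) : Q G (c • x) = c ^ 2 * Q G x ∧ Q (c • G) x = c * Q G x := by
  unfold Q
  constructor
  · rw [mulVec_smul, smul_dotProduct, dotProduct_smul, smul_eq_mul, smul_eq_mul]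
    ring
  · rw [smul_mulVec, dotProduct_smul, smul_eq_mul]

lemma para (G : Matrix ι ι ℝ) (x y : ι → ℝ) : Q G (x + y) + Q G (x - y) = 2 * Q G x + 2 * Q G y := by
  unfold Q
  simp only [mulVec_add, mulVec_sub, add_dotProduct, sub_dotProduct, dotProduct_add, dotProduct_sub]
  ring

lemma norm_sq_le (x : ι → ℝ) : ‖x‖ ^ 2 ≤ ∑ i, x i ^ 2 := by
  have h1 : ‖x‖ ≤ Real.sqrt (∑ i, x i ^ 2) := by
    rw [pi_norm_le_iff_of_nonneg (Real.sqrt_nonneg _)]
    intro i
    rw [Real.norm_eq_abs, ← Real.sqrt_sq_eq_abs]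
    apply Real.sqrt_le_sqrt
    exact Finset.single_le_sum (f := fun i => x i ^ 2) (fun j _ => sq_nonneg _) (Finset.mem_univ i)
  have h2 : 0 ≤ ∑ i, x i ^ 2 := Finset.sum_nonneg fun i _ => sq_nonneg _
  calc ‖x‖ ^ 2 ≤ Real.sqrt (∑ i, x i ^ 2) ^ 2 := by gcongr
    _ = _ := Real.sq_sqrt h2

lemma sum_sq_le (x : ι → ℝ) : ∑ i, x i ^ 2 ≤ Fintype.card ι * ‖x‖ ^ 2 := by
  calc ∑ i, x i ^ 2 ≤ ∑ _i : ι, ‖x‖ ^ 2 := by
        refine Finset.sum_le_sum fun i _ => ?_
        rw [← sq_abs (x i)]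
        have := norm_le_pi_norm x i
        rw [Real.norm_eq_abs] at this
        gcongr
    _ = _ := by simp

lemma zero (G : Matrix ι ι ℝ) : Q G 0 = 0 := by simp [Q]

lemma bd {G : Matrix ι ι ℝ} (h : G.PosDef) :
    ∃ c C : ℝ, 0 < c ∧ 0 < C ∧ ∀ x, c * ∑ i, x i ^ 2 ≤ Q G x ∧ Q G x ≤ C * ∑ i, x i ^ 2 := by
  obtain ⟨m, hm, hb⟩ := (isCompact_sphere (0 : ι → ℝ) 1).exists_forall_le' (cont G).continuousOn (a := 0)
    (fun b hb => by
      have hb0 : b ≠ 0 := by
        rintro rfl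
        simp at hb
      have := h.dotProduct_mulVec_pos hb0
      simpa [Q] using this)
  obtain ⟨M, hM⟩ := (isCompact_sphere (0 : ι → ℝ) 1).exists_bound_of_continuousOn (cont G).continuousOn
  refine ⟨m / (Fintype.card ι + 1), |M| + 1, by positivity, by positivity, fun x => ?_⟩
  by_cases hx : x = 0
  · subst hx
    rw [zero]
    simp
  have hn : 0 < ‖x‖ := norm_pos_iff.mpr hx
  have hmem : ‖x‖⁻¹ • x ∈ Metric.sphere (0 : ι → ℝ) 1 := by
    rw [mem_sphere_zero_iff_norm, norm_smul, norm_inv, norm_norm, inv_mul_cancel₀ hn.ne']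
  have h1 := hb _ hmem
  have h2 := hM _ hmem
  rw [Real.norm_eq_abs] at h2
  have h3 := le_abs_self (Q G (‖x‖⁻¹ • x))
  have h4 := le_abs_self M
  rw [(scal G _ x).1] at h1 h3
  have hQ : Q G x = ‖x‖ ^ 2 * (‖x‖⁻¹ ^ 2 * Q G x) := by
    field_simp
  have h5 : m * ‖x‖ ^ 2 ≤ Q G x := by
    rw [hQ, mul_comm]
    gcongr
  have h6 : Q G x ≤ (|M| + 1) * ‖x‖ ^ 2 := by
    rw [hQ, mul_comm (|M| + 1)]
    gcongr
    rw [(scal G _ x).1] at h2
    linarith
  have h7 := norm_sq_le x
  have h8 := sum_sq_le x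
  constructor
  · calc m / (Fintype.card ι + 1) * ∑ i, x i ^ 2 ≤ m / (Fintype.card ι + 1) * (Fintype.card ι * ‖x‖ ^ 2) := by
          gcongr
      _ ≤ m / (Fintype.card ι + 1) * ((Fintype.card ι + 1) * ‖x‖ ^ 2) := by
          gcongr
          linarith
      _ = m * ‖x‖ ^ 2 := by field_simp
      _ ≤ _ := h5
  · calc Q G x ≤ (|M| + 1) * ‖x‖ ^ 2 := h6
      _ ≤ _ := by gcongr

lemma fin {G : Matrix ι ι ℝ} (h : G.PosDef) (R : ℝ) : {y : ι → ℤ | Q G (fun i => (y i : ℝ)) ≤ R}.Finite := by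
  classical
  obtain ⟨c, C, hc, hC, hb⟩ := bd h
  refine (Set.finite_Icc (fun _ : ι => -⌈R / c⌉) (fun _ : ι => ⌈R / c⌉)).subset ?_
  intro y hy
  have hy1 : Q G (fun i => (y i : ℝ)) ≤ R := hy
  have h1 := (hb (fun i => (y i : ℝ))).1
  have h2 : ∑ i, (y i : ℝ) ^ 2 ≤ R / c := by
    rw [le_div_iff₀ hc]
    linarith
  have h3 : ∀ i, |y i| ≤ ⌈R / c⌉ := by
    intro i
    have h4 : (y i : ℝ) ^ 2 ≤ ∑ i, (y i : ℝ) ^ 2 :=
      Finset.single_le_sum (f := fun i => (y i : ℝ) ^ 2) (fun j _ => sq_nonneg _) (Finset.mem_univ i)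
    have h5 : ((y i ^ 2 : ℤ) : ℝ) ≤ (⌈R / c⌉ : ℝ) := by
      push_cast
      exact (h4.trans h2).trans (Int.le_ceil _)
    have h6 : y i ^ 2 ≤ ⌈R / c⌉ := by exact_mod_cast h5
    have h7 : |y i| ≤ y i ^ 2 := by
      rw [← sq_abs]
      rcases eq_or_lt_of_le (abs_nonneg (y i)) with h | h
      · rw [← h]; simp
      · nlinarith
    exact h7.trans h6
  constructor
  · intro i
    exact (abs_le.mp (h3 i)).1
  · intro i
    exact (abs_le.mp (h3 i)).2

lemma low {G : Matrix ι ι ℝ} (h : G.PosDef) : ∃ a : ℝ, 0 < a ∧ ∀ y : ι → ℤ, y ≠ 0 → a ≤ Q G (fun i => (y i : ℝ)) := by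
  obtain ⟨c, C, hc, hC, hb⟩ := bd h
  refine ⟨c, hc, fun y hy => ?_⟩
  have h1 := (hb (fun i => (y i : ℝ))).1
  obtain ⟨i, hi⟩ : ∃ i, y i ≠ 0 := by
    by_contra hcon
    push Not at hcon
    exact hy (funext hcon)
  have h4 : (y i : ℝ) ^ 2 ≤ ∑ i, (y i : ℝ) ^ 2 :=
    Finset.single_le_sum (f := fun i => (y i : ℝ) ^ 2) (fun j _ => sq_nonneg _) (Finset.mem_univ i)
  have h5 : (1 : ℝ) ≤ (y i : ℝ) ^ 2 := by
    have : 1 ≤ y i ^ 2 := by
      have := sq_pos_of_ne_zero hi
      omega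
    exact_mod_cast this
  nlinarith

lemma comp (G : Matrix ι ι ℝ) (U : Matrix ι κ ℤ) (x : κ → ℝ) : Q (sg G U) x = Q G (rm U *ᵥ x) := by
  unfold Q sg
  rw [← mulVec_mulVec, ← mulVec_mulVec, dotProduct_mulVec, vecMul_transpose]

lemma one {G : Matrix ι ι ℝ} (h : Semi G) (y : ι → ℤ) (hy : y ≠ 0) : 1 ≤ Q G (fun i => (y i : ℝ)) := by
  have h1 := h.2 1 (Matrix.of fun i _ => y i) (by
    intro v w hvw
    obtain ⟨i, hi⟩ : ∃ i, y i ≠ 0 := by
      by_contra hcon
      push Not at hcon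
      exact hy (funext hcon)
    have h2 := congrFun hvw i
    simp [mulVec, dotProduct] at h2
    ext j
    rw [Subsingleton.elim j 0]
    rcases h2 with h2 | h2
    · exact h2
    · exact absurd h2 hi)
  rw [det_fin_one] at h1
  have h3 : sg G (Matrix.of fun i (_ : Fin 1) => y i) 0 0 = Q G (fun i => (y i : ℝ)) := by
    have h4 := comp G (Matrix.of fun i (_ : Fin 1) => y i) (fun _ => 1)
    have h5 : rm (Matrix.of fun i (_ : Fin 1) => y i) *ᵥ (fun _ => (1 : ℝ)) = (fun i => (y i : ℝ)) := by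
      ext i
      simp [rm, mulVec, dotProduct]
    rw [h5] at h4
    rw [← h4]
    simp [Q, mulVec, dotProduct]
  rw [h3] at h1
  exact h1

lemma sq (B : Matrix ι ι ℝ) (x : ι → ℝ) : Q (Bᵀ * B) x = ∑ i, (B *ᵥ x) i ^ 2 := by
  unfold Q
  rw [← mulVec_mulVec, dotProduct_mulVec, vecMul_transpose]
  simp [dotProduct, pow_two]

end QPDM

theorem specQPD : SpecQPD where
  bd := QPDM.bd
  cont := QPDM.cont
  cont2 := QPDM.cont2
  even := QPDM.even
  scal := QPDM.scal
  para := QPDM.para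
  fin := QPDM.fin
  low := QPDM.low
  one := QPDM.one
  comp := QPDM.comp
  sq := QPDM.sq

end Pool.Agent.Lib.MP_cb8a44_nt.RM
end

section
set_option autoImplicit false

/-!
# MP_cb8a44_nt, block RM, module RED: reduction theory (helper76)
-/

open MeasureTheory Matrix Set Filter Topology
open scoped ENNReal

namespace Pool.Agent.Lib.MP_cb8a44_nt.RM

namespace REDM

/-- real coordinates of an integral vector -/
def rc {κ : Type} (y : κ → ℤ) : κ → ℝ := fun i => (y i : ℝ)

theorem rm_mulVec {ι κ : Type} [Fintype ι] [Fintype κ] (T : Matrix ι κ ℤ) (y : κ → ℤ) :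
    rm T *ᵥ rc y = rc (T *ᵥ y) := by
  funext i
  simp [rm, rc, Matrix.mulVec, dotProduct]

theorem rm_one {ι : Type} [Fintype ι] [DecidableEq ι] : rm (1 : Matrix ι ι ℤ) = 1 := by
  unfold rm
  exact Matrix.map_one _ Int.cast_zero Int.cast_one

theorem sg_one {ι : Type} [Fintype ι] [DecidableEq ι] (G : Matrix ι ι ℝ) :
    sg G (1 : Matrix ι ι ℤ) = G := by
  unfold sg
  rw [rm_one]
  simp

theorem inj_of {ι κ : Type} [Fintype ι] [Fintype κ] [DecidableEq κ] {T : Matrix ι κ ℤ}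
    {S : Matrix κ ι ℤ} (h : S * T = 1) : Inj T := by
  intro v w hvw
  have h1 : T *ᵥ v = T *ᵥ w := hvw
  have h2 := congrArg (fun u => S *ᵥ u) h1
  simpa [Matrix.mulVec_mulVec, h] using h2

theorem ne_zero {ι κ : Type} [Fintype ι] [Fintype κ] [DecidableEq κ] {T : Matrix ι κ ℤ}
    {S : Matrix κ ι ℤ} (h : S * T = 1) {w : κ → ℤ} (hw : w ≠ 0) : T *ᵥ w ≠ 0 := by
  intro h0
  apply hw
  have h1 : T *ᵥ w = T *ᵥ 0 := by rw [h0, Matrix.mulVec_zero]
  exact inj_of h h1

theorem rm_submatrix {ι κ κ' : Type} [Fintype ι] [Fintype κ] [Fintype κ'] (T : Matrix ι κ ℤ)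
    (e : κ' → κ) : rm (T.submatrix id e) = (rm T).submatrix id e := by
  unfold rm
  rfl

theorem sg_submatrix {ι κ κ' : Type} [Fintype ι] [Fintype κ] [Fintype κ'] (G : Matrix ι ι ℝ)
    (T : Matrix ι κ ℤ) (e : κ' → κ) : sg G (T.submatrix id e) = (sg G T).submatrix e e := by
  unfold sg
  rw [rm_submatrix]
  ext i j
  simp [Matrix.mul_apply]

theorem det_uni (hINJ : SpecINJ) {ι κ : Type} [Fintype ι] [Fintype κ] [DecidableEq ι]
    [DecidableEq κ] (e : ι ≃ κ) (G : Matrix ι ι ℝ) (T : Matrix ι κ ℤ) (S : Matrix κ ι ℤ)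
    (hTS : T * S = 1) : (sg G T).det = G.det := by
  have h1 : T.submatrix id e * S.submatrix e id = 1 := by
    rw [Matrix.submatrix_mul_equiv, hTS, Matrix.submatrix_id_id]
  have h2 : (T.submatrix id e).det * (S.submatrix e id).det = 1 := by
    rw [← Matrix.det_mul, h1, Matrix.det_one]
  have h3 : (T.submatrix id e).det ^ 2 = 1 := by
    rcases Int.isUnit_iff.1 (IsUnit.of_mul_eq_one _ h2) with h | h <;> rw [h] <;> norm_num
  have h4 := hINJ.sq G (1 : Matrix ι ι ℤ) (T.submatrix id e)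
  rw [Matrix.one_mul, sg_one] at h4
  rw [sg_submatrix, Matrix.det_submatrix_equiv_self] at h4
  rw [h4]
  have h5 : (((T.submatrix id e).det : ℤ) : ℝ) ^ 2 = 1 := by exact_mod_cast h3
  rw [h5, one_mul]

/-- a vector of minimal length -/
theorem ex_min (hQPD : SpecQPD) {n : ℕ} {G : Matrix (Fin (n + 1)) (Fin (n + 1)) ℝ}
    (hG : G.PosDef) : ∃ y : Fin (n + 1) → ℤ, y ≠ 0 ∧ ∀ w : Fin (n + 1) → ℤ, w ≠ 0 →
      Q G (rc y) ≤ Q G (rc w) := by
  set y₀ : Fin (n + 1) → ℤ := Pi.single 0 1 with hy₀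
  have hy₀' : y₀ ≠ 0 := by
    intro h
    have := congrFun h 0
    simp [hy₀] at this
  have hfin : {y : Fin (n + 1) → ℤ | y ≠ 0 ∧ Q G (rc y) ≤ Q G (rc y₀)}.Finite := by
    refine (hQPD.fin hG (Q G (rc y₀))).subset ?_
    intro y hy
    exact hy.2
  obtain ⟨y, hy, hmin⟩ := Set.exists_min_image _ (fun y => Q G (rc y)) hfin
    ⟨y₀, hy₀', le_refl _⟩
  refine ⟨y, hy.1, fun w hw => ?_⟩
  by_cases h : Q G (rc w) ≤ Q G (rc y₀)
  · exact hmin w ⟨hw, h⟩
  · exact hy.2.trans (not_le.1 h).le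

theorem Q_single {κ : Type} [Fintype κ] [DecidableEq κ] (M : Matrix κ κ ℝ) (a : κ) :
    Q M (rc (Pi.single a 1)) = M a a := by
  have h : rc (Pi.single a 1) = (Pi.single a 1 : κ → ℝ) := by
    funext i
    unfold rc
    by_cases hi : i = a
    · subst hi
      simp
    · simp [Pi.single_eq_of_ne hi]
  rw [h]
  unfold Q
  simp

theorem Q_one (m : ℝ) (x : Fin 1 → ℝ) : Q (m • (1 : Matrix (Fin 1) (Fin 1) ℝ)) x = m * x 0 ^ 2 := by
  unfold Q
  simp [Matrix.smul_mulVec, dotProduct]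
  ring

/-- first step of the reduction -/
theorem dec (hINJ : SpecINJ) (hQPD : SpecQPD) (hPRM : SpecPRM) (hSPB : SpecSPB) {n : ℕ}
    (G : Matrix (Fin (n + 1)) (Fin (n + 1)) ℝ) (hG : G.PosDef) :
    ∃ (μ : ℝ) (y : Fin (n + 1) → ℤ) (T : Matrix (Fin (n + 1)) (Fin 1 ⊕ Fin n) ℤ)
      (S : Matrix (Fin 1 ⊕ Fin n) (Fin (n + 1)) ℤ), 0 < μ ∧ y ≠ 0 ∧ Q G (rc y) = μ ∧
      T * S = 1 ∧ S * T = 1 ∧ (sg G T).PosDef ∧ (sg G T).toBlocks₁₁ = μ • 1 ∧
      (sch (sg G T)).PosDef ∧ G.det = μ * (sch (sg G T)).det ∧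
      (∀ z : Fin n → ℤ, z ≠ 0 → 3 / 4 * μ ≤ Q (sch (sg G T)) (rc z)) ∧
      ∀ w : Fin (n + 1) → ℤ, w ≠ 0 → μ ≤ Q G (rc w) := by
  obtain ⟨y, hy0, hmin⟩ := ex_min hQPD hG
  obtain ⟨a₀, ha₀, hlow⟩ := hQPD.low hG
  set μ : ℝ := Q G (rc y) with hμ
  have hμ0 : 0 < μ := ha₀.trans_le (hlow y hy0)
  have hU : Inj (Matrix.of fun (i : Fin (n + 1)) (_ : Fin 1) => y i) := by
    intro v w hvw
    obtain ⟨i, hi⟩ := Function.ne_iff.1 hy0
    have h1 := congrFun hvw i
    simp only [Matrix.mulVec, dotProduct, Matrix.of_apply, Finset.univ_unique, Fin.default_eq_zero,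
      Finset.sum_singleton] at h1
    funext j
    have hj : j = 0 := Subsingleton.elim _ _
    rw [hj]
    exact mul_left_cancel₀ hi h1
  obtain ⟨k, T, S, R, hk, hTS, hST, hR, hUT⟩ := hPRM 1 _ hU
  rw [Fintype.card_fin] at hk
  obtain rfl : k = n := by omega
  set y' : Fin (k + 1) → ℤ := fun i => T i (Sum.inl 0) with hy'
  have hyy : ∀ i, y i = R 0 0 * y' i := by
    intro i
    have h1 := congrFun (congrFun hUT i) 0
    simp only [Matrix.of_apply, Matrix.mul_apply, Matrix.submatrix_apply, id_eq,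
      Finset.univ_unique, Fin.default_eq_zero, Finset.sum_singleton] at h1
    rw [h1, mul_comm]
  have hR0 : R 0 0 ≠ 0 := by
    rwa [Matrix.det_fin_one] at hR
  have hy'0 : y' ≠ 0 := by
    intro h
    apply hy0
    funext i
    rw [hyy i, h]
    simp
  have hQ : μ = (R 0 0 : ℝ) ^ 2 * Q G (rc y') := by
    rw [← (hQPD.scal G (R 0 0 : ℝ) (rc y')).1, hμ]
    congr 1
    funext i
    unfold rc
    rw [hyy i]
    push_cast
    rfl
  have hR1 : (1 : ℝ) ≤ (R 0 0 : ℝ) ^ 2 := by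
    have h1 : 1 ≤ (R 0 0) ^ 2 := by
      have := Int.one_le_abs hR0
      nlinarith [sq_abs (R 0 0)]
    exact_mod_cast h1
  have hQ' : Q G (rc y') = μ := by
    have h1 : μ ≤ Q G (rc y') := hmin y' hy'0
    refine le_antisymm ?_ h1
    rw [hQ]
    nlinarith
  have hpd : (sg G T).PosDef := hINJ.pd hG (inj_of hST)
  have h11 : (sg G T).toBlocks₁₁ = μ • 1 := by
    ext i j
    have hi : i = 0 := Subsingleton.elim _ _
    have hj : j = 0 := Subsingleton.elim _ _
    rw [hi, hj]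
    have h1 : Q (sg G T) (rc (Pi.single (Sum.inl 0) 1)) = μ := by
      rw [hQPD.comp, rm_mulVec]
      rw [← hQ']
      congr 2
      funext i
      simp [hy']
    rw [Q_single] at h1
    simp only [Matrix.toBlocks₁₁, Matrix.of_apply, Matrix.smul_apply, Matrix.one_apply_eq, smul_eq_mul,
      mul_one]
    exact h1
  obtain ⟨_, hsch, hdet⟩ := hSPB.pd hpd
  refine ⟨μ, y, T, S, hμ0, hy0, rfl, hTS, hST, hpd, h11, hsch, ?_, ?_, hmin⟩
  · have e : Fin (k + 1) ≃ Fin 1 ⊕ Fin k :=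
      (finCongr (Nat.add_comm k 1)).trans finSumFinEquiv.symm
    rw [det_uni hINJ e G T S hTS, h11] at hdet
    rw [hdet, Matrix.det_fin_one]
    simp
  · intro z hz
    set c : ℝ := (((sg G T).toBlocks₁₁⁻¹ * (sg G T).toBlocks₁₂) *ᵥ rc z) 0 with hc
    set w : Fin 1 ⊕ Fin k → ℤ := Sum.elim (fun _ => - round c) z with hw
    have hw0 : w ≠ 0 := by
      intro h
      apply hz
      funext i
      exact congrFun h (Sum.inr i)
    have h1 : μ ≤ Q (sg G T) (rc w) := by
      rw [hQPD.comp, rm_mulVec]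
      exact hmin _ (ne_zero hST hw0)
    have h2 : rc w = Sum.elim (fun _ => ((- round c : ℤ) : ℝ)) (rc z) := by
      funext i
      rcases i with i | i <;> rfl
    rw [h2, hSPB.form hpd, h11, Q_one] at h1
    have h3 : ((fun _ => ((- round c : ℤ) : ℝ)) + ((μ • (1 : Matrix (Fin 1) (Fin 1) ℝ))⁻¹ *
        (sg G T).toBlocks₁₂) *ᵥ rc z : Fin 1 → ℝ) 0 = c - round c := by
      rw [Pi.add_apply, hc, h11]
      push_cast
      ring
    rw [h3] at h1
    have h4 := abs_sub_round c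
    have h5 : (c - round c) ^ 2 ≤ 1 / 4 := by
      rw [← sq_abs]
      nlinarith [abs_nonneg (c - round c)]
    nlinarith

/-- lower bound for the determinant -/
def HH (n : ℕ) : Prop := ∃ c : ℝ, 0 < c ∧ ∀ G : Matrix (Fin n) (Fin n) ℝ, G.PosDef →
  ∀ m : ℝ, 0 < m → (∀ y : Fin n → ℤ, y ≠ 0 → m ≤ Q G (rc y)) → c * m ^ n ≤ G.det

theorem hh (hINJ : SpecINJ) (hQPD : SpecQPD) (hPRM : SpecPRM) (hSPB : SpecSPB) (n : ℕ) :
    HH n := by
  induction n with
  | zero =>
    refine ⟨1, one_pos, fun G _ m _ _ => ?_⟩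
    rw [Matrix.det_isEmpty]
    simp
  | succ n ih =>
    obtain ⟨c, hc, h⟩ := ih
    refine ⟨c * (3 / 4) ^ n, by positivity, fun G hG m hm hGm => ?_⟩
    obtain ⟨μ, y, T, S, hμ, hy, hQ, _, _, _, _, hsch, hdet, hz, _⟩ :=
      dec hINJ hQPD hPRM hSPB G hG
    have h1 : m ≤ μ := by rw [← hQ]; exact hGm y hy
    have h2 := h _ hsch (3 / 4 * μ) (by positivity) hz
    rw [hdet]
    calc c * (3 / 4) ^ n * m ^ (n + 1) ≤ c * (3 / 4) ^ n * μ ^ (n + 1) := by
          gcongr
      _ = μ * (c * (3 / 4 * μ) ^ n) := by rw [mul_pow]; ring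
      _ ≤ μ * (sch (sg G T)).det := by gcongr

/-- the lifted basis -/
theorem lift {n : ℕ} (G' : Matrix (Fin 1 ⊕ Fin n) (Fin 1 ⊕ Fin n) ℝ) (hs : G'.IsHermitian) (μ : ℝ)
    (hμ : 0 < μ) (h11 : G'.toBlocks₁₁ = μ • 1) (T₂ S₂ : Matrix (Fin n) (Fin n) ℤ)
    (h1 : T₂ * S₂ = 1) (h2 : S₂ * T₂ = 1) (R : ℝ) (hR : ∀ i j, |sg (sch G') T₂ i j| ≤ R) :
    ∃ W V : Matrix (Fin 1 ⊕ Fin n) (Fin 1 ⊕ Fin n) ℤ, W * V = 1 ∧ V * W = 1 ∧
      ∀ i j, |sg G' W i j| ≤ |R| + μ := by
  set B : Matrix (Fin 1) (Fin n) ℝ := G'.toBlocks₁₂ with hB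
  set X : Matrix (Fin 1) (Fin n) ℤ := Matrix.of fun _ j => - round ((B * rm T₂) 0 j / μ) with hX
  have h21 : G'.toBlocks₂₁ = Bᵀ := by
    ext i j
    have := hs.apply (Sum.inr i) (Sum.inl j)
    simp only [Matrix.toBlocks₂₁, Matrix.toBlocks₁₂, hB, Matrix.of_apply, Matrix.transpose_apply]
    rw [← this]
    simp
  have hG' : G' = Matrix.fromBlocks (μ • 1) B Bᵀ G'.toBlocks₂₂ := by
    rw [← h11, ← h21, hB]
    exact (Matrix.fromBlocks_toBlocks G').symm
  set W : Matrix (Fin 1 ⊕ Fin n) (Fin 1 ⊕ Fin n) ℤ := Matrix.fromBlocks 1 X 0 T₂ with hW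
  set V : Matrix (Fin 1 ⊕ Fin n) (Fin 1 ⊕ Fin n) ℤ := Matrix.fromBlocks 1 (-(X * S₂)) 0 S₂ with hV
  refine ⟨W, V, ?_, ?_, ?_⟩
  · rw [hW, hV, Matrix.fromBlocks_multiply]
    simp [h1]
  · rw [hW, hV, Matrix.fromBlocks_multiply]
    simp [h2, Matrix.mul_assoc]
  · have hrW : rm W = Matrix.fromBlocks 1 (rm X) 0 (rm T₂) := by
      unfold rm
      rw [hW, Matrix.fromBlocks_map]
      congr 1
      · exact Matrix.map_one _ Int.cast_zero Int.cast_one
      · exact Matrix.map_zero _ Int.cast_zero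
    set Y : Matrix (Fin 1) (Fin n) ℝ := μ • rm X + B * rm T₂ with hY
    have hYb : ∀ j, |Y 0 j| ≤ μ / 2 := by
      intro j
      have e1 : Y 0 j = μ * ((B * rm T₂) 0 j / μ - round ((B * rm T₂) 0 j / μ)) := by
        rw [hY, Matrix.add_apply, Matrix.smul_apply, hX]
        simp only [rm, Matrix.map_apply, Matrix.of_apply, smul_eq_mul]
        push_cast
        field_simp
        ring
      rw [e1, abs_mul, abs_of_pos hμ]
      have := abs_sub_round ((B * rm T₂) 0 j / μ)
      nlinarith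
    have hsch : sch G' = G'.toBlocks₂₂ - μ⁻¹ • (Bᵀ * B) := by
      unfold sch
      rw [h11, h21, ← hB]
      have : (μ • (1 : Matrix (Fin 1) (Fin 1) ℝ))⁻¹ = μ⁻¹ • 1 := by
        refine Matrix.inv_eq_left_inv ?_
        rw [Matrix.smul_mul, Matrix.one_mul, smul_smul, inv_mul_cancel₀ hμ.ne', one_smul]
      rw [this, Matrix.mul_smul, Matrix.mul_one, Matrix.smul_mul]
    have hmain : sg G' W = Matrix.fromBlocks (μ • 1) Y Yᵀ
        (sg (sch G') T₂ + μ⁻¹ • (Yᵀ * Y)) := by
      have e0 : sg G' W = (rm W)ᵀ * G' * rm W := rfl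
      rw [e0, hrW]
      conv_lhs => rw [hG']
      rw [Matrix.fromBlocks_transpose, Matrix.fromBlocks_multiply, Matrix.fromBlocks_multiply]
      congr 1
      · simp
      · simp [hY]
      · simp [hY, Matrix.transpose_add, Matrix.transpose_mul]
      · have e1 : sg (sch G') T₂ = (rm T₂)ᵀ * sch G' * rm T₂ := rfl
        rw [e1, hsch, hY]
        simp only [Matrix.transpose_add, Matrix.transpose_mul, Matrix.transpose_smul, Matrix.mul_add,
          Matrix.add_mul, Matrix.mul_sub, Matrix.sub_mul, Matrix.smul_mul, Matrix.mul_smul, smul_add,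
          smul_smul, inv_mul_cancel₀ hμ.ne', one_smul, Matrix.mul_assoc, Matrix.mul_one]
        have e2 : μ⁻¹ * (μ * μ) = μ := by field_simp
        rw [e2]
        abel
    rw [hmain]
    intro i j
    have hR0 : R ≤ |R| := le_abs_self R
    have hR1 : 0 ≤ |R| := abs_nonneg R
    rcases i with i | i <;> rcases j with j | j
    · have hi : i = 0 := Subsingleton.elim _ _
      have hj : j = 0 := Subsingleton.elim _ _
      rw [hi, hj]
      simp only [Matrix.fromBlocks_apply₁₁, Matrix.smul_apply, Matrix.one_apply_eq, smul_eq_mul, mul_one]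
      rw [abs_of_pos hμ]
      linarith
    · have hi : i = 0 := Subsingleton.elim _ _
      rw [hi, Matrix.fromBlocks_apply₁₂]
      linarith [hYb j]
    · have hj : j = 0 := Subsingleton.elim _ _
      rw [hj, Matrix.fromBlocks_apply₂₁, Matrix.transpose_apply]
      linarith [hYb i]
    · rw [Matrix.fromBlocks_apply₂₂, Matrix.add_apply, Matrix.smul_apply]
      have e1 : (Yᵀ * Y) i j = Y 0 i * Y 0 j := by
        simp [Matrix.mul_apply]
      rw [e1, smul_eq_mul]
      have e2 : |μ⁻¹ * (Y 0 i * Y 0 j)| ≤ μ := by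
        rw [abs_mul, abs_mul, abs_of_pos (inv_pos.2 hμ)]
        have a1 := hYb i
        have a2 := hYb j
        have a3 : |Y 0 i| * |Y 0 j| ≤ μ / 2 * (μ / 2) :=
          mul_le_mul a1 a2 (abs_nonneg _) (by positivity)
        rw [inv_mul_le_iff₀ hμ]
        nlinarith
      have e3 := abs_add_le (sg (sch G') T₂ i j) (μ⁻¹ * (Y 0 i * Y 0 j))
      have e4 := hR i j
      linarith

end REDM

open REDM in
theorem specRED (hINJ : SpecINJ) (hQPD : SpecQPD) (hPRM : SpecPRM) (hSPB : SpecSPB) : SpecRED := by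
  intro n
  induction n with
  | zero =>
    intro a D _
    exact ⟨0, fun G _ _ _ => ⟨1, 1, by simp, by simp, fun i => i.elim0⟩⟩
  | succ n ih =>
    intro a D ha
    obtain ⟨R, hR⟩ := ih (3 / 4 * a) (D / a) (by positivity)
    obtain ⟨c, hc, hdet⟩ := hh hINJ hQPD hPRM hSPB (n + 1)
    refine ⟨|R| + max 1 (D / c), fun G hG hGa hGD => ?_⟩
    obtain ⟨μ, y, T, S, hμ, hy, hQ, hTS, hST, hpd, h11, hsch, hdet', hz, hmin⟩ :=
      dec hINJ hQPD hPRM hSPB G hG
    have hμa : a ≤ μ := by rw [← hQ]; exact hGa y hy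
    have hD : 0 < D := hG.det_pos.trans_le hGD
    have hμD : μ ≤ max 1 (D / c) := by
      rcases le_or_gt μ 1 with h | h
      · exact h.trans (le_max_left _ _)
      · refine le_trans ?_ (le_max_right _ _)
        rw [le_div_iff₀ hc]
        have h2 := hdet G hG μ hμ hmin
        have h3 : μ ≤ μ ^ (n + 1) := le_self_pow₀ h.le (Nat.succ_ne_zero n)
        have h4 : μ * c ≤ c * μ ^ (n + 1) := by
          rw [mul_comm]
          exact mul_le_mul_of_nonneg_left h3 hc.le
        linarith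
    have hschdet : (sch (sg G T)).det ≤ D / a := by
      rw [le_div_iff₀ ha]
      have h1 : (sch (sg G T)).det * a ≤ (sch (sg G T)).det * μ := by
        have := hsch.det_pos
        nlinarith
      have h2 : (sch (sg G T)).det * μ = G.det := by rw [hdet']; ring
      linarith
    obtain ⟨T₂, S₂, h1, h2, hb⟩ := hR (sch (sg G T)) hsch
      (fun z hz0 => (mul_le_mul_of_nonneg_left hμa (by norm_num)).trans (hz z hz0)) hschdet
    obtain ⟨W, V, hWV, hVW, hWb⟩ := lift (sg G T) hpd.isHermitian μ hμ h11 T₂ S₂ h1 h2 R hb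
    let e : Fin (n + 1) ≃ Fin 1 ⊕ Fin n := (finCongr (Nat.add_comm n 1)).trans finSumFinEquiv.symm
    refine ⟨(T * W).submatrix id e, (V * S).submatrix e id, ?_, ?_, ?_⟩
    · rw [Matrix.submatrix_mul_equiv]
      have : T * W * (V * S) = 1 := by
        rw [Matrix.mul_assoc, ← Matrix.mul_assoc W, hWV, Matrix.one_mul, hTS]
      rw [this, Matrix.submatrix_id_id]
    · have : V * S * (T * W) = 1 := by
        rw [Matrix.mul_assoc, ← Matrix.mul_assoc S, hST, Matrix.one_mul, hVW]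
      have h3 : (V * S).submatrix e id * (T * W).submatrix id e = (V * S * (T * W)).submatrix e e := by
        ext i j
        simp [Matrix.mul_apply]
      rw [h3, this, Matrix.submatrix_one_equiv]
    · intro i j
      rw [sg_submatrix, hINJ.comp, Matrix.submatrix_apply]
      refine (hWb (e i) (e j)).trans ?_
      linarith

end Pool.Agent.Lib.MP_cb8a44_nt.RM
end

section
/-!
# MP_cb8a44_nt, block RM, module RMM: the induction
-/
set_option autoImplicit false

open MeasureTheory Matrix Set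
open scoped ENNReal

namespace Pool.Agent.Lib.MP_cb8a44_nt.RM

namespace RMMM

open scoped MatrixOrder ComplexOrder in
theorem exists_sqrt {n : ℕ} {G : Matrix (Fin n) (Fin n) ℝ} (hG : G.PosDef) :
    ∃ B : Matrix (Fin n) (Fin n) ℝ, G = Bᵀ * B := by
  obtain ⟨B, hB⟩ := CStarAlgebra.nonneg_iff_eq_star_mul_self.mp hG.posSemidef.nonneg
  exact ⟨B, by rw [hB, Matrix.star_eq_conjTranspose, Matrix.conjTranspose_eq_transpose_of_trivial]⟩

theorem phi_zero (G : Matrix (Fin 0) (Fin 0) ℝ) : Phi G = 1 := by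
  unfold Phi
  have h1 : ∀ x : Fin 0 → ℝ, sup0 G x = 1 := by
    intro x
    unfold sup0 gs Q
    have : ∀ y : Fin 0 → ℤ, ENNReal.ofReal (Real.exp (-(Real.pi *
        ((fun i => x i - (y i : ℝ)) ⬝ᵥ (G *ᵥ (fun i => x i - (y i : ℝ))))))) = 1 := by
      intro y
      simp [dotProduct]
    simp only [this, iSup_const]
  simp only [h1]
  rw [Matrix.det_fin_zero, Real.sqrt_one, ENNReal.ofReal_one, one_mul, setLIntegral_const, one_mul]
  unfold cube
  rw [volume_pi, Measure.pi_pi]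
  simp

/-- The change of variables for an orthogonal matrix. -/
theorem rot_integral {n : ℕ} (O : Matrix (Fin n) (Fin n) ℝ) (hO : Oᵀ * O = 1) (V : Set (Fin n → ℝ))
    (f : (Fin n → ℝ) → ℝ) :
    ∫ y in (fun x => O *ᵥ x) '' V, f y = ∫ x in V, f (O *ᵥ x) := by
  have hdet : |O.det| = 1 := by
    have h := congrArg Matrix.det hO
    rw [Matrix.det_mul, Matrix.det_transpose, Matrix.det_one] at h
    have h2 : |O.det| * |O.det| = 1 := by rw [abs_mul_abs_self]; exact h
    nlinarith [abs_nonneg O.det]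
  have hdet0 : O.det ≠ 0 := by
    intro h; rw [h, abs_zero] at hdet; exact zero_ne_one hdet
  have hmap : Measure.map (Matrix.toLin' O) volume = volume := by
    rw [Real.map_matrix_volume_pi_eq_smul_volume_pi hdet0, abs_inv, hdet]
    simp
  have hO2 : O * Oᵀ = 1 := mul_eq_one_comm.1 hO
  have hmp : MeasurePreserving (fun x : Fin n → ℝ => O *ᵥ x) volume volume :=
    ⟨(LinearMap.continuous_of_finiteDimensional (Matrix.toLin' O)).measurable, hmap⟩
  have hcont : ∀ M : Matrix (Fin n) (Fin n) ℝ, Continuous (fun x : Fin n → ℝ => M *ᵥ x) :=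
    fun M => LinearMap.continuous_of_finiteDimensional (Matrix.toLin' M)
  let e : (Fin n → ℝ) ≃ₜ (Fin n → ℝ) :=
    { toFun := fun x => O *ᵥ x
      invFun := fun x => Oᵀ *ᵥ x
      left_inv := fun x => by
        change Oᵀ *ᵥ (O *ᵥ x) = x
        rw [Matrix.mulVec_mulVec, hO, Matrix.one_mulVec]
      right_inv := fun x => by
        change O *ᵥ (Oᵀ *ᵥ x) = x
        rw [Matrix.mulVec_mulVec, hO2, Matrix.one_mulVec]
      continuous_toFun := hcont O
      continuous_invFun := hcont Oᵀ }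
  have hemb : MeasurableEmbedding (fun x : Fin n → ℝ => O *ᵥ x) := e.measurableEmbedding
  exact hmp.setIntegral_image_emb hemb f V

end RMMM

open RMMM in
theorem specRMM (hVBM : SpecVBM) (hSPL : SpecSPL) (hMNM : SpecMNM)
    (hCRI : SpecCRI) (hSCL : SpecSCL) (hMPO : SpecMPO) : SpecRMM := by
  obtain ⟨c₀, hc0, hc1, hM⟩ := hMPO
  refine ⟨c₀, hc0, hc1, ?_⟩
  intro n
  induction n using Nat.strong_induction_on with
  | _ n ih =>
  intro G hG
  rcases Nat.eq_zero_or_pos n with hn | hn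
  · subst hn
    rw [phi_zero, pow_zero, ENNReal.ofReal_one]
  have : Nonempty (Fin n) := ⟨⟨0, hn⟩⟩
  -- the splitting step
  have split : ∀ G' : Matrix (Fin n) (Fin n) ℝ, Semi G' → HasOne G' →
      ENNReal.ofReal (c₀ ^ n) ≤ Phi G' := by
    intro G' hG' h1
    obtain ⟨m, k, A, S, hm, hk, hmk, hA, hS, hle⟩ := hSPL G' hG' h1
    rw [Fintype.card_fin] at hmk
    have hA' := ih m (by omega) A hA
    have hS' := ih k (by omega) S hS
    calc ENNReal.ofReal (c₀ ^ n) = ENNReal.ofReal (c₀ ^ m) * ENNReal.ofReal (c₀ ^ k) := by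
          rw [← ENNReal.ofReal_mul (pow_nonneg hc0.le _), ← pow_add, hmk]
      _ ≤ Phi A * Phi S := mul_le_mul' hA' hS'
      _ ≤ Phi G' := hle
  obtain ⟨s, hs0, hs1, hsG, hPhi, hor⟩ := hSCL G hG
  refine le_trans ?_ hPhi
  rcases hor with h1 | hdet
  · exact split _ hsG h1
  obtain ⟨G₀, hG₀, hG₀d, hmin⟩ := hMNM n
  refine le_trans ?_ (hmin _ hsG hdet)
  by_cases h1 : HasOne G₀
  · exact split _ hG₀ h1
  obtain ⟨B, hB⟩ := exists_sqrt hG₀.1
  have hBd : |B.det| = 1 := by
    have h := hG₀d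
    rw [hB, Matrix.det_mul, Matrix.det_transpose] at h
    have h2 : |B.det| * |B.det| = 1 := by rw [abs_mul_abs_self]; exact h
    nlinarith [abs_nonneg B.det]
  have hBd0 : B.det ≠ 0 := by
    intro h; rw [h, abs_zero] at hBd; exact zero_ne_one hBd
  obtain ⟨O, t, hO, hsum, hle⟩ := hM (VB B) (hVBM.cpt hBd0) (hVBM.conv hBd0) hVBM.symm
    (hVBM.zero hBd0) (by rw [hVBM.vol hBd0, hBd, ENNReal.ofReal_one])
  have hOB : (O * B)ᵀ * (O * B) = G₀ := by
    rw [hB, Matrix.transpose_mul, Matrix.mul_assoc, ← Matrix.mul_assoc Oᵀ, hO, Matrix.one_mul]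
  have hcri := hCRI (O * B) t (by rw [hOB]; exact hG₀) (by rw [hOB]; exact hG₀d)
    (by rw [hOB]; exact h1) (by rw [hOB]; exact hmin) hsum
  rw [hOB] at hcri
  have hHD : HD (VB (O * B)) (fun i => Real.exp (2 * t i))
      = ∫ x in VB B, Real.exp (-(Real.pi * ∑ i, Real.exp (2 * t i) * (O *ᵥ x) i ^ 2)) := by
    unfold HD
    rw [hVBM.rot hO, rot_integral O hO]
  rw [← hHD, Fintype.card_fin] at hle
  exact ENNReal.ofReal_le_of_le_toReal (hle.trans hcri)

end Pool.Agent.Lib.MP_cb8a44_nt.RM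
end

section
set_option autoImplicit false
set_option linter.unusedSectionVars false

open MeasureTheory Matrix Set Filter Topology
open scoped ENNReal Pointwise

namespace Pool.Agent.Lib.MP_cb8a44_nt.RM

namespace SPAM

variable {ι κ : Type} [Fintype ι] [Fintype κ] [DecidableEq ι] [DecidableEq κ]

/-- integral of a periodic function over a translate of the cube -/
theorem per (F : (ι → ℝ) → ℝ≥0∞) (hF : ∀ (x : ι → ℝ) (y : ι → ℤ), F (fun i => x i - (y i : ℝ)) = F x) (c : ι → ℝ) :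
    ∫⁻ x in cube ι, F (x + c) = ∫⁻ x in cube ι, F x := by
  have hfd := ZSpan.isAddFundamentalDomain' (Pi.basisFun ℝ ι) (volume : Measure (ι → ℝ))
  rw [ZSpan.fundamentalDomain_pi_basisFun] at hfd
  change IsAddFundamentalDomain _ (cube ι) volume at hfd
  have hfd2 := hfd.vadd_of_comm c
  have h1 : ∫⁻ x in cube ι, F (x + c) = ∫⁻ x in c +ᵥ cube ι, F x := by
    have h2 := (measurePreserving_add_right (volume : Measure (ι → ℝ)) c).setLIntegral_comp_emb
      (measurableEmbedding_addRight c) F (cube ι)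
    rw [h2]
    congr 2
    ext x
    simp only [Set.mem_image, Set.mem_vadd_set, vadd_eq_add]
    constructor
    · rintro ⟨y, hy, rfl⟩; exact ⟨y, hy, add_comm _ _⟩
    · rintro ⟨y, hy, rfl⟩; exact ⟨y, hy, add_comm _ _⟩
  rw [h1]
  have : Countable (Submodule.span ℤ (Set.range (Pi.basisFun ℝ ι))).toAddSubgroup :=
    inferInstanceAs (Countable (Submodule.span ℤ (Set.range (Pi.basisFun ℝ ι))))
  refine hfd2.setLIntegral_eq hfd F ?_
  intro g x
  have hg : ∃ y : ι → ℤ, (g : ι → ℝ) = fun i => -(y i : ℝ) := by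
    have h3 : (g : ι → ℝ) ∈ Submodule.span ℤ (Set.range (Pi.basisFun ℝ ι)) := g.2
    rw [(Pi.basisFun ℝ ι).mem_span_iff_repr_mem ℤ] at h3
    choose z hz using h3
    refine ⟨fun i => -z i, ?_⟩
    ext i
    have := hz i
    simp only [Pi.basisFun_repr] at this
    rw [← this]
    simp
  obtain ⟨y, hy⟩ := hg
  rw [AddSubgroup.vadd_def, vadd_eq_add, hy]
  rw [← hF x y]
  congr 1
  ext i
  simp only [Pi.add_apply]
  ring

theorem gs_meas {G : Matrix ι ι ℝ} : Measurable (gs G) := by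
  have : Continuous (Q G) := by
    unfold Q
    fun_prop
  unfold gs
  fun_prop

theorem sup0_meas {G : Matrix ι ι ℝ} : Measurable (sup0 G) := by
  unfold sup0
  refine Measurable.iSup fun y => gs_meas.comp ?_
  fun_prop

theorem sup0_per (G : Matrix ι ι ℝ) (x : ι → ℝ) (y : ι → ℤ) : sup0 G (fun i => x i - (y i : ℝ)) = sup0 G x := by
  unfold sup0
  refine (Equiv.addRight y).iSup_congr ?_
  intro z
  congr 1
  ext i
  simp only [Equiv.coe_addRight, Pi.add_apply, Int.cast_add]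
  ring

/-- splitting of the Gaussian -/
theorem gs_split (hSPB : SpecSPB) {G : Matrix (ι ⊕ κ) (ι ⊕ κ) ℝ} (h : G.PosDef) (x : ι → ℝ) (y : κ → ℝ) :
    gs G (Sum.elim x y) = gs G.toBlocks₁₁ (x + (G.toBlocks₁₁⁻¹ * G.toBlocks₁₂) *ᵥ y) * gs (sch G) y := by
  unfold gs
  rw [hSPB.form h, ← ENNReal.ofReal_mul (Real.exp_pos _).le, ← Real.exp_add]
  congr 2
  ring

theorem low (hSPB : SpecSPB) {G : Matrix (ι ⊕ κ) (ι ⊕ κ) ℝ} (h : G.PosDef) (x : ι → ℝ) (y : κ → ℝ) (z : κ → ℤ) :
    gs (sch G) (fun i => y i - (z i : ℝ)) *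
      sup0 G.toBlocks₁₁ (x + (G.toBlocks₁₁⁻¹ * G.toBlocks₁₂) *ᵥ (fun i => y i - (z i : ℝ))) ≤ sup0 G (Sum.elim x y) := by
  conv_lhs => rw [sup0, ENNReal.mul_iSup]
  refine iSup_le fun w => ?_
  refine le_trans (le_of_eq ?_) (le_iSup _ (Sum.elim w z))
  have h1 := gs_split hSPB h (fun i => x i - (w i : ℝ)) (fun i => y i - (z i : ℝ))
  have h2 : (fun i : ι ⊕ κ => (Sum.elim x y i - ((Sum.elim w z i : ℤ) : ℝ))) =
      Sum.elim (fun i => x i - (w i : ℝ)) (fun i => y i - (z i : ℝ)) := by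
    ext i
    rcases i with i | i <;> rfl
  rw [h2, h1, mul_comm]
  congr 2
  ext i
  simp only [Pi.add_apply]
  ring

theorem cube_int (F : (ι ⊕ κ → ℝ) → ℝ≥0∞) (hF : Measurable F) :
    ∫⁻ x in cube (ι ⊕ κ), F x = ∫⁻ y in cube κ, ∫⁻ x in cube ι, F (Sum.elim x y) := by
  have h1 := (volume_measurePreserving_sumPiEquivProdPi_symm (fun _ : ι ⊕ κ => ℝ)).setLIntegral_comp_preimage_emb
    (MeasurableEquiv.sumPiEquivProdPi (fun _ : ι ⊕ κ => ℝ)).symm.measurableEmbedding F (cube (ι ⊕ κ))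
  rw [← h1]
  have h2 : (MeasurableEquiv.sumPiEquivProdPi (fun _ : ι ⊕ κ => ℝ)).symm ⁻¹' (cube (ι ⊕ κ)) = cube ι ×ˢ cube κ := by
    ext p
    simp only [cube, Set.mem_preimage, Set.mem_pi, Set.mem_univ, true_implies, Set.mem_prod, Sum.forall]
    rfl
  rw [h2, Measure.volume_eq_prod, setLIntegral_prod_symm]
  · rfl
  · exact (hF.comp (MeasurableEquiv.measurable _)).aemeasurable

end SPAM

theorem specSPA (hSPB : SpecSPB) : SpecSPA := by
  intro ι κ _ _ _ _ G hG
  set A := G.toBlocks₁₁ with hA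
  set S := sch G with hS
  obtain ⟨hpA, hpS, hdet⟩ := hSPB.pd hG
  have key : (∫⁻ x in cube ι, sup0 A x) * (∫⁻ y in cube κ, sup0 S y) ≤ ∫⁻ x in cube (ι ⊕ κ), sup0 G x := by
    rw [SPAM.cube_int _ SPAM.sup0_meas, ← lintegral_const_mul _ SPAM.sup0_meas]
    refine lintegral_mono fun y => ?_
    dsimp only
    rw [sup0, ENNReal.mul_iSup]
    refine iSup_le fun z => ?_
    have h1 : (∫⁻ x in cube ι, sup0 A x) * gs S (fun i => y i - (z i : ℝ)) =
        ∫⁻ x in cube ι, gs S (fun i => y i - (z i : ℝ)) *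
          sup0 A (x + (G.toBlocks₁₁⁻¹ * G.toBlocks₁₂) *ᵥ (fun i => y i - (z i : ℝ))) := by
      rw [lintegral_const_mul, SPAM.per _ (SPAM.sup0_per A), mul_comm]
      exact SPAM.sup0_meas.comp (measurable_add_const _)
    rw [h1]
    exact lintegral_mono fun x => SPAM.low hSPB hG x y z
  unfold Phi
  rw [← hA, ← hS] at *
  rw [hdet, Real.sqrt_mul hpA.det_pos.le, ENNReal.ofReal_mul (Real.sqrt_nonneg _)]
  calc _ = (ENNReal.ofReal √A.det * ENNReal.ofReal √S.det) * ((∫⁻ x in cube ι, sup0 A x) * (∫⁻ y in cube κ, sup0 S y)) := by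
        ring
    _ ≤ _ := by gcongr

end Pool.Agent.Lib.MP_cb8a44_nt.RM
end

section
set_option autoImplicit false
set_option linter.unusedSectionVars false

open MeasureTheory Matrix Set Filter Topology
open scoped ENNReal

namespace Pool.Agent.Lib.MP_cb8a44_nt.RM

namespace SPBM

variable {ι κ : Type} [Fintype ι] [Fintype κ] [DecidableEq ι] [DecidableEq κ]

theorem herm {G : Matrix ι ι ℝ} (h : G.PosDef) : Gᵀ = G := by
  have := h.isHermitian
  rwa [Matrix.IsHermitian, conjTranspose_eq_transpose_of_trivial] at this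

theorem pdA {G : Matrix (ι ⊕ κ) (ι ⊕ κ) ℝ} (h : G.PosDef) : G.toBlocks₁₁.PosDef :=
  h.submatrix (e := Sum.inl) Sum.inl_injective

theorem b21 {G : Matrix (ι ⊕ κ) (ι ⊕ κ) ℝ} (h : G.PosDef) : G.toBlocks₂₁ = G.toBlocks₁₂ᵀ := by
  have h1 := herm h
  ext i j
  have := congrFun (congrFun h1 (Sum.inr i)) (Sum.inl j)
  simp only [Matrix.toBlocks₂₁, Matrix.toBlocks₁₂, Matrix.of_apply, Matrix.transpose_apply] at this ⊢
  exact this.symm

theorem detG {G : Matrix (ι ⊕ κ) (ι ⊕ κ) ℝ} (h : IsUnit G.toBlocks₁₁) :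
    G.det = G.toBlocks₁₁.det * (sch G).det := by
  have := h.invertible
  conv_lhs => rw [← Matrix.fromBlocks_toBlocks G]
  rw [Matrix.det_fromBlocks₁₁, Matrix.invOf_eq_nonsing_inv]
  rfl

theorem form {G : Matrix (ι ⊕ κ) (ι ⊕ κ) ℝ} (h : G.PosDef) (x : ι → ℝ) (y : κ → ℝ) :
    Q G (Sum.elim x y) = Q G.toBlocks₁₁ (x + (G.toBlocks₁₁⁻¹ * G.toBlocks₁₂) *ᵥ y) + Q (sch G) y := by
  have := (pdA h).isUnit.invertible
  have h1 := Matrix.schur_complement_eq₁₁ G.toBlocks₁₂ G.toBlocks₂₂ x y (pdA h).isHermitian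
  rw [conjTranspose_eq_transpose_of_trivial, ← b21 h, Matrix.fromBlocks_toBlocks] at h1
  simp only [star_trivial, ← Matrix.dotProduct_mulVec] at h1
  exact h1

theorem pdS {G : Matrix (ι ⊕ κ) (ι ⊕ κ) ℝ} (h : G.PosDef) : (sch G).PosDef := by
  refine Matrix.PosDef.of_dotProduct_mulVec_pos ?_ ?_
  · rw [Matrix.IsHermitian, conjTranspose_eq_transpose_of_trivial, sch, b21 h]
    have h2 : G.toBlocks₂₂ᵀ = G.toBlocks₂₂ := by
      have h1 := herm h
      ext i j
      exact congrFun (congrFun h1 (Sum.inr i)) (Sum.inr j)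
    have h3 := herm (pdA h)
    rw [Matrix.transpose_sub, h2, Matrix.transpose_mul, Matrix.transpose_mul, Matrix.transpose_transpose,
      Matrix.transpose_nonsing_inv, h3, ← Matrix.mul_assoc]
  · intro y hy
    have h1 := form h (-((G.toBlocks₁₁⁻¹ * G.toBlocks₁₂) *ᵥ y)) y
    rw [neg_add_cancel] at h1
    have h2 : (Sum.elim (-((G.toBlocks₁₁⁻¹ * G.toBlocks₁₂) *ᵥ y)) y : ι ⊕ κ → ℝ) ≠ 0 := by
      intro h3
      apply hy
      ext i
      exact congrFun h3 (Sum.inr i)
    have h3 := h.dotProduct_mulVec_pos h2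
    rw [star_trivial] at h3 ⊢
    have h4 : Q G.toBlocks₁₁ 0 = 0 := by simp [Q]
    rw [h4, zero_add] at h1
    change 0 < Q (sch G) y
    rw [← h1]
    exact h3

variable {μ : Type} [Fintype μ] [DecidableEq μ]

/-- the block `(U; 0)` -/
def up (U : Matrix ι κ ℤ) (μ : Type) [Fintype μ] : Matrix (ι ⊕ μ) κ ℤ := fun i j => Sum.elim (fun i => U i j) (fun _ => 0) i

theorem sg_up (G : Matrix (ι ⊕ μ) (ι ⊕ μ) ℝ) (U : Matrix ι κ ℤ) :
    sg G (up U μ) = sg G.toBlocks₁₁ U := by
  ext i j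
  simp only [sg, Matrix.mul_apply, Matrix.transpose_apply, rm, Matrix.map_apply, up, Fintype.sum_sum_type, Sum.elim_inl,
    Sum.elim_inr, Int.cast_zero, mul_zero, zero_mul, Finset.sum_const_zero, add_zero, Matrix.toBlocks₁₁, Matrix.of_apply]

theorem inj_up {U : Matrix ι κ ℤ} (h : Inj U) : Inj (up U μ) := by
  intro v w hvw
  apply h
  ext i
  have := congrFun hvw (Sum.inl i)
  simpa [up, Matrix.mulVec, dotProduct] using this

/-- `diag (1, U)` -/
def wd (ι : Type) [DecidableEq ι] (U : Matrix κ μ ℤ) : Matrix (ι ⊕ κ) (ι ⊕ μ) ℤ := Matrix.fromBlocks 1 0 0 U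

theorem rm_wd (U : Matrix κ μ ℤ) : rm (wd ι U) = Matrix.fromBlocks 1 0 0 (rm U) := by
  ext i j
  rcases i with i | i <;> rcases j with j | j
  · by_cases h : i = j
    · simp [rm, wd, h]
    · simp [rm, wd, Matrix.one_apply_ne h]
  · simp [rm, wd]
  · simp [rm, wd]
  · simp [rm, wd]

theorem sg_wd (G : Matrix (ι ⊕ κ) (ι ⊕ κ) ℝ) (U : Matrix κ μ ℤ) :
    sg G (wd ι U) = Matrix.fromBlocks G.toBlocks₁₁ (G.toBlocks₁₂ * rm U) ((rm U)ᵀ * G.toBlocks₂₁)
      ((rm U)ᵀ * G.toBlocks₂₂ * rm U) := by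
  conv_lhs => rw [← Matrix.fromBlocks_toBlocks G]
  rw [sg, rm_wd, Matrix.fromBlocks_transpose, Matrix.fromBlocks_multiply, Matrix.fromBlocks_multiply]
  simp

theorem sch_wd (G : Matrix (ι ⊕ κ) (ι ⊕ κ) ℝ) (U : Matrix κ μ ℤ) : sch (sg G (wd ι U)) = sg (sch G) U := by
  rw [sg_wd]
  simp only [sch, sg, Matrix.toBlocks_fromBlocks₁₁, Matrix.toBlocks_fromBlocks₁₂, Matrix.toBlocks_fromBlocks₂₁,
    Matrix.toBlocks_fromBlocks₂₂, Matrix.mul_sub, Matrix.sub_mul, Matrix.mul_assoc]

theorem inj_wd {U : Matrix κ μ ℤ} (h : Inj U) : Inj (wd ι U) := by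
  intro v w hvw
  have hi : ∀ i, v (Sum.inl i) = w (Sum.inl i) := by
    intro i
    have := congrFun hvw (Sum.inl i)
    simpa [wd, Matrix.mulVec, dotProduct, Matrix.one_apply] using this
  have hj : (fun j => v (Sum.inr j)) = (fun j => w (Sum.inr j)) := by
    apply h
    ext i
    have := congrFun hvw (Sum.inr i)
    simpa [wd, Matrix.mulVec, dotProduct] using this
  ext i
  rcases i with i | i
  · exact hi i
  · exact congrFun hj i

end SPBM

theorem specSPB (hINJ : SpecINJ) : SpecSPB where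
  pd h := ⟨SPBM.pdA h, SPBM.pdS h, SPBM.detG (SPBM.pdA h).isUnit⟩
  form h x y := SPBM.form h x y
  semi := by
    intro ι κ _ _ _ _ G hG h1
    refine ⟨⟨SPBM.pdA hG.1, ?_⟩, ⟨SPBM.pdS hG.1, ?_⟩⟩
    · intro m U hU
      rw [← SPBM.sg_up G U]
      exact hG.2 m _ (SPBM.inj_up hU)
    · intro m U hU
      have h2 := hINJ.semi hG (SPBM.inj_wd (ι := ι) hU)
      have h3 : (sg G (SPBM.wd ι U)).toBlocks₁₁ = G.toBlocks₁₁ := by
        rw [SPBM.sg_wd, Matrix.toBlocks_fromBlocks₁₁]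
      rw [SPBM.detG (by rw [h3]; exact (SPBM.pdA hG.1).isUnit), h3, h1, one_mul, SPBM.sch_wd] at h2
      exact h2

end Pool.Agent.Lib.MP_cb8a44_nt.RM
end

section
set_option autoImplicit false
set_option linter.unusedSectionVars false

open MeasureTheory Matrix Set Filter Topology
open scoped ENNReal

namespace Pool.Agent.Lib.MP_cb8a44_nt.RM

theorem specSPL (hINJ : SpecINJ) (hUNI : SpecUNI) (hSPA : SpecSPA) (hSPB : SpecSPB) (hPRM : SpecPRM) : SpecSPL := by
  intro ι _ _ G hG hone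
  obtain ⟨m, U, hm0, hm, hU, hdet⟩ := hone
  obtain ⟨k, T, S, R, hk, hTS, hST, hR, hUR⟩ := hPRM m U hU
  have hG' : Semi (sg G T) := hUNI.semi hTS hST hG
  -- the first block
  have hblock : (sg G T).toBlocks₁₁ = sg G (T.submatrix id Sum.inl) := by
    ext i j
    simp only [Matrix.toBlocks₁₁, Matrix.of_apply, sg, Matrix.mul_apply, Matrix.transpose_apply, rm,
      Matrix.map_apply, Matrix.submatrix_apply, id]
  have hinj1 : Inj (T.submatrix id (Sum.inl : Fin m → Fin m ⊕ Fin k)) := by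
    intro v w hvw
    have h1 : T *ᵥ (Sum.elim v 0) = T *ᵥ (Sum.elim w 0) := by
      have e : ∀ v : Fin m → ℤ, T *ᵥ (Sum.elim v 0) = (T.submatrix id (Sum.inl : Fin m → Fin m ⊕ Fin k)) *ᵥ v := by
        intro v
        ext i
        simp [Matrix.mulVec, dotProduct]
      rw [e, e]
      exact hvw
    have h2 : S *ᵥ (T *ᵥ (Sum.elim v 0)) = S *ᵥ (T *ᵥ (Sum.elim w 0)) := by rw [h1]
    rw [Matrix.mulVec_mulVec, Matrix.mulVec_mulVec, hST, Matrix.one_mulVec, Matrix.one_mulVec] at h2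
    ext i
    exact congrFun h2 (Sum.inl i)
  have hdet1 : (sg G (T.submatrix id (Sum.inl : Fin m → Fin m ⊕ Fin k))).det = 1 := by
    have h1 := hINJ.sq G (T.submatrix id (Sum.inl : Fin m → Fin m ⊕ Fin k)) R
    rw [← hUR, hdet] at h1
    have h2 := hG.2 m _ hinj1
    have h3 : (1 : ℝ) ≤ (R.det : ℝ) ^ 2 := by
      have : (1 : ℤ) ≤ R.det ^ 2 := by
        have : 0 < R.det ^ 2 := by positivity
        omega
      exact_mod_cast this
    nlinarith
  have hA : (sg G T).toBlocks₁₁.det = 1 := by rw [hblock, hdet1]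
  obtain ⟨h1, h2⟩ := hSPB.semi hG' hA
  refine ⟨m, k, _, _, hm0, by omega, hk, h1, h2, ?_⟩
  rw [← hUNI.phi hTS hST hG.1]
  exact hSPA _ hG'.1

end Pool.Agent.Lib.MP_cb8a44_nt.RM
end

section
/-!
# UNI: unimodular invariance
-/
set_option autoImplicit false

open MeasureTheory Matrix Set Filter Topology
open scoped ENNReal

namespace Pool.Agent.Lib.MP_cb8a44_nt.RM

namespace UNIM

section

variable {ι κ : Type} [Fintype ι] [Fintype κ]

omit [Fintype ι] in
theorem rm_mulVec (T : Matrix ι κ ℤ) (y : κ → ℤ) :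
    rm T *ᵥ (fun j => (y j : ℝ)) = fun i => ((T *ᵥ y) i : ℝ) := by
  funext i
  simp [rm, Matrix.mulVec, dotProduct]

variable [DecidableEq ι] [DecidableEq κ]

theorem equivOf {T : Matrix ι κ ℤ} {S : Matrix κ ι ℤ} (h1 : T * S = 1) (h2 : S * T = 1) :
    Nonempty (κ ≃ ι) := by
  have e : (κ → ℤ) ≃ₗ[ℤ] (ι → ℤ) := Matrix.toLin'OfInv h2 h1
  have h3 := LinearEquiv.finrank_eq e
  rw [Module.finrank_fintype_fun_eq_card, Module.finrank_fintype_fun_eq_card] at h3
  exact ⟨Fintype.equivOfCardEq h3⟩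

omit [Fintype ι] in
theorem det_abs {T : Matrix ι κ ℤ} {S : Matrix κ ι ℤ} (h1 : T * S = 1) (e : κ ≃ ι) :
    |((rm T).submatrix e id).det| = 1 := by
  have h3 : (T.submatrix e id) * (S.submatrix id e) = 1 := by
    have h4 : (T.submatrix e id) * (S.submatrix id e) = (T * S).submatrix e e := by
      rw [Matrix.submatrix_mul T S e id e Function.bijective_id]
    rw [h4, h1, Matrix.submatrix_one_equiv]
  have h4 : (T.submatrix e id).det * (S.submatrix id e).det = 1 := by
    rw [← Matrix.det_mul, h3, Matrix.det_one]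
  have h5 : IsUnit (T.submatrix e id).det := IsUnit.of_mul_eq_one _ h4
  have h6 : ((rm T).submatrix e id).det = ((T.submatrix e id).det : ℝ) := by
    have h7 : (rm T).submatrix e id = (T.submatrix e id).map (fun n : ℤ => (n : ℝ)) := rfl
    rw [h7]
    exact ((Int.castRingHom ℝ).map_det (T.submatrix e id)).symm
  rw [h6, ← Int.cast_abs]
  rcases Int.isUnit_iff.1 h5 with h | h <;> rw [h] <;> simp

theorem det_eq (G : Matrix ι ι ℝ) {T : Matrix ι κ ℤ} {S : Matrix κ ι ℤ} (h1 : T * S = 1)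
    (h2 : S * T = 1) : (sg G T).det = G.det := by
  obtain ⟨e⟩ := equivOf h1 h2
  have h3 : sg G T = ((rm T).submatrix e id)ᵀ * G.submatrix e e * (rm T).submatrix e id := by
    unfold sg
    rw [Matrix.transpose_submatrix, ← Matrix.submatrix_mul _ _ id e e e.bijective,
      ← Matrix.submatrix_mul _ _ id e id e.bijective]
    rfl
  have h4 := det_abs (S := S) h1 e
  rw [h3, Matrix.det_mul, Matrix.det_mul, Matrix.det_transpose, Matrix.det_submatrix_equiv_self]
  have h5 : ((rm T).submatrix e id).det * ((rm T).submatrix e id).det = 1 := by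
    rw [← abs_mul_abs_self, h4, one_mul]
  calc ((rm T).submatrix e id).det * G.det * ((rm T).submatrix e id).det
      = G.det * (((rm T).submatrix e id).det * ((rm T).submatrix e id).det) := by ring
    _ = G.det := by rw [h5, mul_one]

/-- `x ↦ T x` preserves the volume. -/
theorem mp {T : Matrix ι κ ℤ} {S : Matrix κ ι ℤ} (h1 : T * S = 1) (h2 : S * T = 1) :
    MeasurePreserving (fun x : κ → ℝ => rm T *ᵥ x) volume volume := by
  obtain ⟨e⟩ := equivOf h1 h2
  have h4 := det_abs (S := S) h1 e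
  set M : Matrix κ κ ℝ := (rm T).submatrix e id with hM
  have hM0 : M.det ≠ 0 := by
    intro h0
    rw [h0] at h4
    simp at h4
  have hmp1 : MeasurePreserving (fun x : κ → ℝ => M *ᵥ x) volume volume := by
    have h5 := Real.map_matrix_volume_pi_eq_smul_volume_pi hM0
    rw [abs_inv, h4, inv_one, ENNReal.ofReal_one, one_smul] at h5
    refine ⟨?_, ?_⟩
    · exact (Continuous.matrix_mulVec continuous_const continuous_id).measurable
    · have h6 : (⇑(toLin' M) : (κ → ℝ) → (κ → ℝ)) = fun x => M *ᵥ x := by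
        funext x
        exact toLin'_apply M x
      rw [h6] at h5
      exact h5
  have hmp2 := volume_measurePreserving_piCongrLeft (fun _ : ι => ℝ) e
  have h6 : (fun x : κ → ℝ => rm T *ᵥ x) =
      (MeasurableEquiv.piCongrLeft (fun _ : ι => ℝ) e) ∘ (fun x : κ → ℝ => M *ᵥ x) := by
    funext x
    funext i
    obtain ⟨k, rfl⟩ := e.surjective i
    simp only [Function.comp_apply]
    rw [MeasurableEquiv.coe_piCongrLeft, Equiv.piCongrLeft_apply_apply]
    rfl
  rw [h6]
  exact hmp2.comp hmp1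

end

end UNIM

open UNIM in
theorem specUNI (hQPD : SpecQPD) (hINJ : SpecINJ) (hVO1 : SpecVO1) (hVO2 : SpecVO2) : SpecUNI := by
  have inj : ∀ {ι κ : Type} [Fintype ι] [Fintype κ] [DecidableEq ι] [DecidableEq κ]
      {T : Matrix ι κ ℤ} {S : Matrix κ ι ℤ}, S * T = 1 → Inj T := by
    intro ι κ _ _ _ _ T S h2 v w h
    have h3 : T *ᵥ v = T *ᵥ w := h
    have h4 := congrArg (fun z => S *ᵥ z) h3
    simpa [Matrix.mulVec_mulVec, h2] using h4
  refine ⟨?_, ?_, ?_⟩
  · intro ι κ _ _ _ _ G T S h1 h2 hG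
    have hG2 : (sg G T).PosDef := hINJ.pd hG (inj h2)
    rw [hVO2.phi hG2, hVO2.phi hG, det_eq G h1 h2]
    congr 1
    have hset : Vor (sg G T) = (fun x : κ → ℝ => rm T *ᵥ x) ⁻¹' Vor G := by
      ext x
      simp only [Vor, mem_ofPred_eq, mem_preimage]
      have hsub : ∀ y : κ → ℤ, Q (sg G T) (fun i => x i - (y i : ℝ)) =
          Q G (fun i => (rm T *ᵥ x) i - ((T *ᵥ y) i : ℝ)) := by
        intro y
        rw [hQPD.comp]
        congr 1
        have h3 : (fun i => x i - (y i : ℝ)) = x - fun i => (y i : ℝ) := rfl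
        rw [h3, Matrix.mulVec_sub, rm_mulVec]
        rfl
      constructor
      · intro h z
        have h3 := h (S *ᵥ z)
        rw [hsub, hQPD.comp, Matrix.mulVec_mulVec, h1, Matrix.one_mulVec] at h3
        exact h3
      · intro h y
        rw [hsub, hQPD.comp]
        exact h _
    have hgs : ∀ x : κ → ℝ, gs (sg G T) x = gs G (rm T *ᵥ x) := by
      intro x
      unfold gs
      rw [hQPD.comp]
    have hmeas : MeasurableSet (Vor G) := (hVO1.cpt hG).measurableSet
    have hgm : Measurable (gs G) := by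
      unfold gs
      exact ENNReal.measurable_ofReal.comp
        ((Real.continuous_exp.comp (continuous_const.mul (hQPD.cont G)).neg).measurable)
    rw [hset]
    have hmp := (mp h1 h2).restrict_preimage hmeas
    rw [← hmp.lintegral_comp hgm]
    refine lintegral_congr fun x => ?_
    exact hgs x
  · intro ι κ _ _ _ _ G T S h1 h2
    exact det_eq G h1 h2
  · intro ι κ _ _ _ _ G T S h1 h2 hG
    refine ⟨hINJ.pd hG.1 (inj h2), ?_⟩
    intro m U hU
    rw [← hINJ.comp]
    exact hG.2 m _ (hINJ.injc (inj h2) hU)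

end Pool.Agent.Lib.MP_cb8a44_nt.RM
end

section
/-!
# VO1: the Voronoi cell is a convex body, its translates cover
-/
set_option autoImplicit false

open MeasureTheory Matrix Set Filter Topology
open scoped ENNReal

namespace Pool.Agent.Lib.MP_cb8a44_nt.RM

namespace VO1M

variable {ι : Type} [Fintype ι]

theorem nonneg (hQPD : SpecQPD) {G : Matrix ι ι ℝ} (hG : G.PosDef) (x : ι → ℝ) : 0 ≤ Q G x := by
  obtain ⟨c, C, hc, -, h⟩ := hQPD.bd hG
  exact (mul_nonneg hc.le (Finset.sum_nonneg fun i _ => sq_nonneg _)).trans (h x).1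

/-- the parallelogram bound -/
theorem par (hQPD : SpecQPD) {G : Matrix ι ι ℝ} (hG : G.PosDef) (x y : ι → ℝ) :
    Q G y ≤ 2 * Q G x + 2 * Q G (fun i => x i - y i) := by
  have h1 := hQPD.para G x (fun i => x i - y i)
  have e1 : x - (fun i => x i - y i) = y := by
    funext i
    simp
  rw [e1] at h1
  have h2 := nonneg hQPD hG (x + fun i => x i - y i)
  linarith

/-- the difference is affine -/
theorem diff (G : Matrix ι ι ℝ) (x y : ι → ℝ) :
    Q G (fun i => x i - y i) - Q G x = y ⬝ᵥ (G *ᵥ y) - x ⬝ᵥ (G *ᵥ y) - y ⬝ᵥ (G *ᵥ x) := by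
  unfold Q
  have e1 : (fun i => x i - y i) = x - y := rfl
  rw [e1, mulVec_sub, dotProduct_sub, sub_dotProduct, sub_dotProduct]
  ring

theorem convex (G : Matrix ι ι ℝ) : Convex ℝ (Vor G) := by
  intro x hx z hz a b ha hb hab y
  have h1 := hx y
  have h2 := hz y
  have d0 := diff G (a • x + b • z) (fun i => (y i : ℝ))
  have d1 := diff G x (fun i => (y i : ℝ))
  have d2 := diff G z (fun i => (y i : ℝ))
  have h3 : Q G (fun i => (a • x + b • z) i - (y i : ℝ)) - Q G (a • x + b • z) =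
      a * (Q G (fun i => x i - (y i : ℝ)) - Q G x) + b * (Q G (fun i => z i - (y i : ℝ)) - Q G z) := by
    rw [d0, d1, d2, mulVec_add, mulVec_smul, mulVec_smul, dotProduct_add, add_dotProduct,
      dotProduct_smul, dotProduct_smul, smul_dotProduct, smul_dotProduct]
    simp only [smul_eq_mul]
    have hb' : b = 1 - a := by linarith
    rw [hb']
    ring
  have h4 : 0 ≤ a * (Q G (fun i => x i - (y i : ℝ)) - Q G x) := mul_nonneg ha (by linarith)
  have h5 : 0 ≤ b * (Q G (fun i => z i - (y i : ℝ)) - Q G z) := mul_nonneg hb (by linarith)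
  linarith

theorem closed (hQPD : SpecQPD) (G : Matrix ι ι ℝ) : IsClosed (Vor G) := by
  have h1 : Vor G = ⋂ y : ι → ℤ, {x | Q G x ≤ Q G (fun i => x i - (y i : ℝ))} := by
    apply Set.ext
    intro x
    rw [Set.mem_iInter]
    rfl
  rw [h1]
  refine isClosed_iInter fun y => isClosed_le (hQPD.cont G) ((hQPD.cont G).comp ?_)
  fun_prop

theorem compact (hQPD : SpecQPD) {G : Matrix ι ι ℝ} (hG : G.PosDef) : IsCompact (Vor G) := by
  obtain ⟨c, C, hc, hC, h⟩ := hQPD.bd hG
  refine Metric.isCompact_of_isClosed_isBounded (closed hQPD G) ?_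
  refine (Metric.isBounded_closedBall (x := (0 : ι → ℝ))
    (r := C * Fintype.card ι / c + 1)).subset fun x hx => ?_
  have hM : 0 ≤ C * Fintype.card ι / c := by positivity
  rw [mem_closedBall_zero_iff, pi_norm_le_iff_of_nonneg (by linarith)]
  intro i
  have h1 := hx (fun i => round (x i))
  have h2 := (h x).1
  have h3 := (h (fun i => x i - ((round (x i) : ℤ) : ℝ))).2
  have h4 : ∑ i, (x i - ((round (x i) : ℤ) : ℝ)) ^ 2 ≤ ∑ _i : ι, (1 : ℝ) := by
    refine Finset.sum_le_sum fun i _ => ?_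
    have h5 := abs_sub_round (x i)
    rw [sq_le_one_iff_abs_le_one]
    linarith
  rw [Finset.sum_const, Finset.card_univ, nsmul_eq_mul, mul_one] at h4
  have h6 : C * ∑ i, (x i - ((round (x i) : ℤ) : ℝ)) ^ 2 ≤ C * Fintype.card ι :=
    mul_le_mul_of_nonneg_left h4 hC.le
  have h7 : c * ∑ i, x i ^ 2 ≤ C * Fintype.card ι := by linarith
  have h8 : ∑ i, x i ^ 2 ≤ C * Fintype.card ι / c := by
    rw [le_div_iff₀ hc]
    linarith
  have h9 : x i ^ 2 ≤ ∑ i, x i ^ 2 :=
    Finset.single_le_sum (f := fun i => x i ^ 2) (fun i _ => sq_nonneg _) (Finset.mem_univ i)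
  rw [Real.norm_eq_abs]
  have h10 := sq_nonneg (|x i| - 1)
  have h11 := sq_abs (x i)
  have h12 := abs_nonneg (x i)
  have h13 : (|x i| - 1) ^ 2 = |x i| ^ 2 - 2 * |x i| + 1 := by ring
  have h14 : 0 ≤ |x i| ^ 2 - 2 * |x i| + 1 := by rw [← h13]; exact h10
  have h15 := sq_nonneg |x i|
  linarith

theorem symm (hQPD : SpecQPD) {G : Matrix ι ι ℝ} (x : ι → ℝ) (hx : x ∈ Vor G) : -x ∈ Vor G := by
  intro y
  have h1 := hx (fun i => -y i)
  rw [hQPD.even]
  refine h1.trans (le_of_eq ?_)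
  rw [← hQPD.even]
  congr 1
  funext i
  simp only [Pi.neg_apply, Int.cast_neg]
  ring

theorem zero_int (hQPD : SpecQPD) {G : Matrix ι ι ℝ} (hG : G.PosDef) :
    (0 : ι → ℝ) ∈ interior (Vor G) := by
  obtain ⟨a, ha, hlow⟩ := hQPD.low hG
  rw [mem_interior]
  refine ⟨{x | Q G x < a / 4}, ?_, isOpen_lt (hQPD.cont G) continuous_const, ?_⟩
  · intro x hx y
    have hx' : Q G x < a / 4 := hx
    by_cases hy : y = 0
    · rw [hy]
      simp
    · have h1 := hlow y hy
      have h2 := par hQPD hG x (fun i => (y i : ℝ))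
      linarith
  · change Q G 0 < a / 4
    have h1 : Q G (0 : ι → ℝ) = 0 := by
      unfold Q
      rw [zero_dotProduct]
    rw [h1]
    linarith

theorem cover (hQPD : SpecQPD) {G : Matrix ι ι ℝ} (hG : G.PosDef) (x : ι → ℝ) :
    ∃ y : ι → ℤ, (fun i => x i - (y i : ℝ)) ∈ Vor G := by
  have hfin : {y : ι → ℤ | Q G (fun i => x i - (y i : ℝ)) ≤ Q G x}.Finite := by
    refine (hQPD.fin hG (4 * Q G x)).subset fun y hy => ?_
    have hy' : Q G (fun i => x i - (y i : ℝ)) ≤ Q G x := hy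
    change Q G (fun i => (y i : ℝ)) ≤ 4 * Q G x
    have h2 := par hQPD hG x (fun i => (y i : ℝ))
    linarith
  obtain ⟨y, hy, hmin⟩ := Set.exists_min_image _ (fun y : ι → ℤ => Q G (fun i => x i - (y i : ℝ)))
    hfin ⟨0, by
      change Q G (fun i => x i - ((0 : ι → ℤ) i : ℝ)) ≤ Q G x
      simp⟩
  have hy' : Q G (fun i => x i - (y i : ℝ)) ≤ Q G x := hy
  refine ⟨y, fun z => ?_⟩
  have e1 : (fun i => (x i - (y i : ℝ)) - (z i : ℝ)) = fun i => x i - ((y + z) i : ℝ) := by
    funext i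
    rw [Pi.add_apply, Int.cast_add]
    ring
  rw [e1]
  by_cases hz : Q G (fun i => x i - ((y + z) i : ℝ)) ≤ Q G x
  · exact hmin (y + z) hz
  · exact hy'.trans (not_le.1 hz).le

end VO1M

theorem specVO1 (hQPD : SpecQPD) : SpecVO1 where
  cpt := fun hG => VO1M.compact hQPD hG
  conv := fun _ => VO1M.convex _
  symm := fun x hx => VO1M.symm hQPD x hx
  zero := fun hG => VO1M.zero_int hQPD hG
  cov := fun hG x => VO1M.cover hQPD hG x

end Pool.Agent.Lib.MP_cb8a44_nt.RM
end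

section
/-!
# VBM: the Voronoi cell in `ℝⁿ` with the standard form
-/
set_option autoImplicit false

open MeasureTheory Matrix Set Filter Topology
open scoped ENNReal

namespace Pool.Agent.Lib.MP_cb8a44_nt.RM

namespace VBMM

section

variable {ι : Type} [Fintype ι]

/-- The Gaussian integral. -/
theorem gauss_int : ∫ x : ι → ℝ, Real.exp (-(Real.pi * ∑ i, (1 : ℝ) * x i ^ 2)) = 1 := by
  have h1 : (fun x : ι → ℝ => Real.exp (-(Real.pi * ∑ i, (1 : ℝ) * x i ^ 2))) =
      fun x => ∏ i, (fun y : ℝ => Real.exp (-Real.pi * y ^ 2)) (x i) := by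
    funext x
    rw [← Real.exp_sum]
    congr 1
    rw [Finset.mul_sum, ← Finset.sum_neg_distrib]
    refine Finset.sum_congr rfl fun i _ => ?_
    ring
  rw [h1, integral_fintype_prod_volume_eq_prod (fun _ : ι => fun y : ℝ => Real.exp (-Real.pi * y ^ 2))]
  have h2 : ∫ y : ℝ, Real.exp (-Real.pi * y ^ 2) = 1 := by
    rw [integral_gaussian, div_self Real.pi_ne_zero, Real.sqrt_one]
  simp only [h2, Finset.prod_const_one]

theorem gauss_integrable :
    Integrable (fun x : ι → ℝ => Real.exp (-(Real.pi * ∑ i, (1 : ℝ) * x i ^ 2))) := by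
  by_contra hcon
  have h := gauss_int (ι := ι)
  rw [integral_undef hcon] at h
  exact zero_ne_one h

theorem gauss_cont :
    Continuous (fun x : ι → ℝ => Real.exp (-(Real.pi * ∑ i, (1 : ℝ) * x i ^ 2))) := by
  fun_prop

variable [DecidableEq ι] {B : Matrix ι ι ℝ}

theorem pd (hB : B.det ≠ 0) : (Bᵀ * B).PosDef := by
  have h1 : Function.Injective B.mulVec := by
    have h2 : IsUnit B := (Matrix.isUnit_iff_isUnit_det B).2 (isUnit_iff_ne_zero.2 hB)
    exact Matrix.mulVec_injective_of_isUnit h2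
  have h3 := Matrix.PosDef.conjTranspose_mul_self B h1
  rwa [Matrix.conjTranspose_eq_transpose_of_trivial] at h3

omit [DecidableEq ι] in
theorem cont_mulVec (B : Matrix ι ι ℝ) : Continuous (fun x : ι → ℝ => B *ᵥ x) :=
  Continuous.matrix_mulVec continuous_const continuous_id

theorem sqrt_det (B : Matrix ι ι ℝ) : Real.sqrt (Bᵀ * B).det = |B.det| := by
  rw [Matrix.det_mul, Matrix.det_transpose, Real.sqrt_mul_self_eq_abs]

/-- change of variables -/
theorem change (hB : B.det ≠ 0) (s : Set (ι → ℝ)) (hs : MeasurableSet s) (g : (ι → ℝ) → ℝ≥0∞) :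
    ∫⁻ x in (fun x => B *ᵥ x) '' s, g x = ENNReal.ofReal |B.det| * ∫⁻ x in s, g (B *ᵥ x) := by
  have hinj : Function.Injective (fun x : ι → ℝ => B *ᵥ x) := by
    have h2 : IsUnit B := (Matrix.isUnit_iff_isUnit_det B).2 (isUnit_iff_ne_zero.2 hB)
    exact Matrix.mulVec_injective_of_isUnit h2
  set L : (ι → ℝ) →L[ℝ] (ι → ℝ) := LinearMap.toContinuousLinearMap (Matrix.toLin' B) with hL
  have hLx : ∀ x, L x = B *ᵥ x := fun x => Matrix.toLin'_apply B x
  have hf : ∀ x ∈ s, HasFDerivWithinAt (fun x : ι → ℝ => B *ᵥ x) L s x := by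
    intro x _
    have h1 : (fun x : ι → ℝ => B *ᵥ x) = L := by
      funext y
      exact (hLx y).symm
    rw [h1]
    exact L.hasFDerivWithinAt
  have h3 := lintegral_image_eq_lintegral_abs_det_fderiv_mul volume hs hf hinj.injOn g
  have hdet : L.det = B.det := by
    have h4 : L.det = LinearMap.det (Matrix.toLin' B) := by
      rw [hL]
      rfl
    rw [h4, LinearMap.det_toLin']
  rw [h3, hdet, lintegral_const_mul']
  exact ENNReal.ofReal_ne_top

end

end VBMM

open VBMM in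
theorem specVBM (hQPD : SpecQPD) (hVO1 : SpecVO1) (hVO2 : SpecVO2) : SpecVBM := by
  refine ⟨?_, ?_, ?_, ?_, ?_, ?_, ?_⟩
  · intro ι _ _ B hB
    exact (hVO1.cpt (pd hB)).image (cont_mulVec B)
  · intro ι _ _ B hB
    have h := (hVO1.conv (pd hB)).linear_image (Matrix.toLin' B)
    have e : (⇑(Matrix.toLin' B) : (ι → ℝ) → (ι → ℝ)) = fun x => B *ᵥ x := by
      funext x
      exact Matrix.toLin'_apply B x
    rw [e] at h
    exact h
  · intro ι _ _ B x hx
    obtain ⟨y, hy, rfl⟩ := hx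
    exact ⟨-y, hVO1.symm y hy, Matrix.mulVec_neg y B⟩
  · intro ι _ _ B hB
    have h0 := hVO1.zero (pd hB)
    have hu : IsUnit B.det := isUnit_iff_ne_zero.2 hB
    -- the inverse image under the inverse
    have hcont : Continuous (fun x : ι → ℝ => B⁻¹ *ᵥ x) := cont_mulVec B⁻¹
    have hopen : IsOpen ((fun x : ι → ℝ => B⁻¹ *ᵥ x) ⁻¹' interior (Vor (Bᵀ * B))) :=
      isOpen_interior.preimage hcont
    refine mem_interior.2 ⟨_, ?_, hopen, ?_⟩
    · intro x hx
      refine ⟨B⁻¹ *ᵥ x, interior_subset hx, ?_⟩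
      show B *ᵥ (B⁻¹ *ᵥ x) = x
      rw [Matrix.mulVec_mulVec, Matrix.mul_nonsing_inv B hu, Matrix.one_mulVec]
    · show B⁻¹ *ᵥ (0 : ι → ℝ) ∈ interior (Vor (Bᵀ * B))
      rw [Matrix.mulVec_zero]
      exact h0
  · intro ι _ _ B hB
    have h := change hB (Vor (Bᵀ * B)) (hVO1.cpt (pd hB)).measurableSet (fun _ => 1)
    rw [setLIntegral_one, setLIntegral_one, hVO2.vol (pd hB), mul_one] at h
    exact h
  · intro ι _ _ B hB
    have hms : MeasurableSet (Vor (Bᵀ * B)) := (hVO1.cpt (pd hB)).measurableSet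
    have h := change hB (Vor (Bᵀ * B)) hms
      (fun x => ENNReal.ofReal (Real.exp (-(Real.pi * ∑ i, (1 : ℝ) * x i ^ 2))))
    have hgs : ∀ x : ι → ℝ, ENNReal.ofReal (Real.exp (-(Real.pi * ∑ i, (1 : ℝ) * (B *ᵥ x) i ^ 2))) =
        gs (Bᵀ * B) x := by
      intro x
      unfold gs
      rw [hQPD.sq]
      simp only [one_mul]
    simp only [hgs] at h
    have hphi : Phi (Bᵀ * B) = ∫⁻ x in VB B,
        ENNReal.ofReal (Real.exp (-(Real.pi * ∑ i, (1 : ℝ) * x i ^ 2))) := by
      rw [hVO2.phi (pd hB), sqrt_det]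
      exact h.symm
    constructor
    · unfold HD
      rw [hphi]
      rw [integral_eq_lintegral_of_nonneg_ae]
      · exact Eventually.of_forall fun x => (Real.exp_pos _).le
      · exact (gauss_cont (ι := ι)).aestronglyMeasurable
    · rw [hphi]
      calc ∫⁻ x in VB B, ENNReal.ofReal (Real.exp (-(Real.pi * ∑ i, (1 : ℝ) * x i ^ 2)))
          ≤ ∫⁻ x : ι → ℝ, ENNReal.ofReal (Real.exp (-(Real.pi * ∑ i, (1 : ℝ) * x i ^ 2))) :=
            setLIntegral_le_lintegral _ _
        _ = ENNReal.ofReal (∫ x : ι → ℝ, Real.exp (-(Real.pi * ∑ i, (1 : ℝ) * x i ^ 2))) := by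
            rw [ofReal_integral_eq_lintegral_ofReal gauss_integrable]
            exact Eventually.of_forall fun x => (Real.exp_pos _).le
        _ = 1 := by rw [gauss_int, ENNReal.ofReal_one]
        _ ≤ 1 := le_rfl
  · intro ι _ _ B O hO
    unfold VB
    have h1 : (O * B)ᵀ * (O * B) = Bᵀ * B := by
      rw [Matrix.transpose_mul, Matrix.mul_assoc, ← Matrix.mul_assoc Oᵀ O B, hO, Matrix.one_mul]
    rw [h1, Set.image_image]
    simp only [Matrix.mulVec_mulVec]

end Pool.Agent.Lib.MP_cb8a44_nt.RM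
end

section
/-!
# VO2: the Voronoi cell is a fundamental domain of `ℤⁿ`

Specs used: `SpecQPD`, `SpecVO1`. By helper65.
-/
set_option autoImplicit false

open MeasureTheory Matrix Set Filter Topology
open scoped ENNReal Pointwise

namespace Pool.Agent.Lib.MP_cb8a44_nt.RM

namespace VO2M

variable {ι : Type} [Fintype ι]

/-- A hyperplane is a null set. -/
theorem hyper (f : (ι → ℝ) →ₗ[ℝ] ℝ) (v : ι → ℝ) (hv : f v ≠ 0) (c : ℝ) :
    volume {x | f x = c} = 0 := by
  have hx0 : f ((c / f v) • v) = c := by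
    rw [map_smul, smul_eq_mul, div_mul_cancel₀ _ hv]
  have hset : {x | f x = c} =
      (AffineSubspace.mk' ((c / f v) • v) (LinearMap.ker f) : Set (ι → ℝ)) := by
    ext x
    rw [SetLike.mem_coe, AffineSubspace.mem_mk', LinearMap.mem_ker, vsub_eq_sub, map_sub, hx0,
      sub_eq_zero]
    rfl
  rw [hset]
  apply Measure.addHaar_affineSubspace
  intro h
  have h1 := congrArg AffineSubspace.direction h
  rw [AffineSubspace.direction_mk', AffineSubspace.direction_top] at h1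
  have h2 : v ∈ LinearMap.ker f := by
    rw [h1]
    exact Submodule.mem_top
  exact hv (LinearMap.mem_ker.1 h2)

/-- The difference is affine. -/
theorem diff (G : Matrix ι ι ℝ) (x y : ι → ℝ) :
    Q G (fun i => x i - y i) - Q G x = y ⬝ᵥ (G *ᵥ y) - (y ⬝ᵥ (G *ᵥ x) + x ⬝ᵥ (G *ᵥ y)) := by
  unfold Q
  have e1 : (fun i => x i - y i) = x - y := rfl
  rw [e1, mulVec_sub, dotProduct_sub, sub_dotProduct, sub_dotProduct]
  ring

/-- The linear functional. -/
noncomputable def fn (G : Matrix ι ι ℝ) (v : ι → ℝ) : (ι → ℝ) →ₗ[ℝ] ℝ where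
  toFun := fun x => v ⬝ᵥ (G *ᵥ x) + x ⬝ᵥ (G *ᵥ v)
  map_add' := by
    intro x y
    rw [mulVec_add, dotProduct_add, add_dotProduct]
    ring
  map_smul' := by
    intro c x
    rw [mulVec_smul, dotProduct_smul, smul_dotProduct]
    simp only [smul_eq_mul, RingHom.id_apply]
    ring

theorem null (hQPD : SpecQPD) {G : Matrix ι ι ℝ} (hG : G.PosDef) (y : ι → ℤ) (hy : y ≠ 0) :
    volume {x : ι → ℝ | Q G x = Q G (fun i => x i - (y i : ℝ))} = 0 := by
  have h1 : {x : ι → ℝ | Q G x = Q G (fun i => x i - (y i : ℝ))} =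
      {x | fn G (fun i => (y i : ℝ)) x = Q G (fun i => (y i : ℝ))} := by
    ext x
    rw [Set.mem_setOf_eq, Set.mem_setOf_eq]
    have h2 := diff G x (fun i => (y i : ℝ))
    have e : fn G (fun i => (y i : ℝ)) x =
      (fun i => (y i : ℝ)) ⬝ᵥ (G *ᵥ x) + x ⬝ᵥ (G *ᵥ (fun i => (y i : ℝ))) := rfl
    have e2 : Q G (fun i => (y i : ℝ)) =
      (fun i => (y i : ℝ)) ⬝ᵥ (G *ᵥ (fun i => (y i : ℝ))) := rfl
    rw [e, e2]
    constructor
    · intro h
      linarith
    · intro h
      linarith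
  rw [h1]
  refine hyper _ (fun i => (y i : ℝ)) ?_ _
  obtain ⟨a, ha, hlow⟩ := hQPD.low hG
  have h3 := hlow y hy
  have e : fn G (fun i => (y i : ℝ)) (fun i => (y i : ℝ)) =
    Q G (fun i => (y i : ℝ)) + Q G (fun i => (y i : ℝ)) := rfl
  rw [e]
  linarith

/-- The lattice. -/
abbrev GG (ι : Type) [Fintype ι] : AddSubgroup (ι → ℝ) :=
  (Submodule.span ℤ (Set.range (Pi.basisFun ℝ ι))).toAddSubgroup

theorem coe_GG (g : GG ι) : ∃ y : ι → ℤ, (g : ι → ℝ) = fun i => (y i : ℝ) := by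
  classical
  let b := (Pi.basisFun ℝ ι).restrictScalars ℤ
  let g' : Submodule.span ℤ (Set.range (Pi.basisFun ℝ ι)) := ⟨g.1, g.2⟩
  obtain ⟨y, hy⟩ : ∃ y, y = b.equivFun g' := ⟨_, rfl⟩
  refine ⟨y, ?_⟩
  have h1 : b.equivFun.symm (b.equivFun g') = g' := b.equivFun.symm_apply_apply g'
  rw [Module.Basis.equivFun_symm_apply, ← hy] at h1
  have h2 : (g : ι → ℝ) = (g' : ι → ℝ) := rfl
  rw [h2, ← h1]
  funext i
  simp [b, Finset.sum_apply, Pi.single_apply]

theorem mem_GG (y : ι → ℤ) : (fun i => (y i : ℝ)) ∈ GG ι := by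
  classical
  let b := (Pi.basisFun ℝ ι).restrictScalars ℤ
  have h1 : ((b.equivFun.symm y : Submodule.span ℤ (Set.range (Pi.basisFun ℝ ι))) : ι → ℝ) =
      fun i => (y i : ℝ) := by
    rw [Module.Basis.equivFun_symm_apply]
    funext i
    simp [b, Finset.sum_apply, Pi.single_apply]
  rw [← h1]
  exact (b.equivFun.symm y).2

theorem countable_GG : Countable (GG ι) := by
  have hs : Function.Surjective (fun y : ι → ℤ => (⟨_, mem_GG y⟩ : GG ι)) := by
    intro g
    obtain ⟨y, hy⟩ := coe_GG g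
    exact ⟨y, Subtype.ext hy.symm⟩
  exact hs.countable

theorem fd_cube : IsAddFundamentalDomain (GG ι) (cube ι) (volume : Measure (ι → ℝ)) := by
  have hd := ZSpan.isAddFundamentalDomain' (Pi.basisFun ℝ ι) (volume : Measure (ι → ℝ))
  have hc : ZSpan.fundamentalDomain (Pi.basisFun ℝ ι) = cube ι := by
    ext x
    simp [ZSpan.mem_fundamentalDomain, cube]
  rwa [hc] at hd

theorem fd_vor (hQPD : SpecQPD) (hVO1 : SpecVO1) {G : Matrix ι ι ℝ} (hG : G.PosDef) :
    IsAddFundamentalDomain (GG ι) (Vor G) (volume : Measure (ι → ℝ)) where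
  nullMeasurableSet := (hVO1.cpt hG).isClosed.measurableSet.nullMeasurableSet
  ae_covers := by
    refine Filter.Eventually.of_forall fun x => ?_
    obtain ⟨y, hy⟩ := hVO1.cov hG x
    refine ⟨⟨_, mem_GG (-y)⟩, ?_⟩
    have e : ((⟨_, mem_GG (-y)⟩ : GG ι) +ᵥ x) = fun i => x i - (y i : ℝ) := by
      funext i
      change (((-y) i : ℤ) : ℝ) + x i = x i - (y i : ℝ)
      rw [Pi.neg_apply, Int.cast_neg]
      ring
    rw [e]
    exact hy
  aedisjoint := by
    intro g h hgh
    change volume ((g +ᵥ Vor G) ∩ (h +ᵥ Vor G)) = 0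
    obtain ⟨y, hy⟩ := coe_GG g
    obtain ⟨z, hz⟩ := coe_GG h
    have hyz : z - y ≠ 0 := by
      intro h0
      apply hgh
      apply Subtype.ext
      rw [hy, hz, sub_eq_zero.1 h0]
    have hsub : ((g +ᵥ Vor G) ∩ (h +ᵥ Vor G)) ⊆
        g +ᵥ {x : ι → ℝ | Q G x = Q G (fun i => x i - ((z - y) i : ℝ))} := by
      rintro x ⟨hx1, hx2⟩
      rw [Set.mem_vadd_set_iff_neg_vadd_mem] at hx1 hx2 ⊢
      have e1 : -g +ᵥ x = fun i => x i - (y i : ℝ) := by
        funext i
        change -(g : ι → ℝ) i + x i = _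
        rw [hy]
        ring
      have e2 : -h +ᵥ x = fun i => x i - (z i : ℝ) := by
        funext i
        change -(h : ι → ℝ) i + x i = _
        rw [hz]
        ring
      rw [e1] at hx1 ⊢
      rw [e2] at hx2
      have h1 := hx1 (z - y)
      have h2 := hx2 (y - z)
      have e3 : (fun i => (x i - (y i : ℝ)) - ((z - y) i : ℝ)) = fun i => x i - (z i : ℝ) := by
        funext i
        simp
      have e4 : (fun i => (x i - (z i : ℝ)) - ((y - z) i : ℝ)) = fun i => x i - (y i : ℝ) := by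
        funext i
        simp
      change Q G (fun i => x i - (y i : ℝ)) = Q G (fun i => (x i - (y i : ℝ)) - ((z - y) i : ℝ))
      rw [e3]
      rw [e3] at h1
      rw [e4] at h2
      exact le_antisymm h1 h2
    refine measure_mono_null hsub ?_
    have h1 : (g +ᵥ {x : ι → ℝ | Q G x = Q G (fun i => x i - ((z - y) i : ℝ))}) =
        (g : ι → ℝ) +ᵥ {x : ι → ℝ | Q G x = Q G (fun i => x i - ((z - y) i : ℝ))} := rfl
    rw [h1, measure_vadd]
    exact null hQPD hG _ hyz

theorem per (hQPD : SpecQPD) (hVO1 : SpecVO1) {G : Matrix ι ι ℝ} {F : (ι → ℝ) → ℝ≥0∞}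
    (hG : G.PosDef) (hF : ∀ (x : ι → ℝ) (y : ι → ℤ), F (fun i => x i - (y i : ℝ)) = F x) :
    ∫⁻ x in cube ι, F x = ∫⁻ x in Vor G, F x := by
  have hc := countable_GG (ι := ι)
  refine fd_cube.setLIntegral_eq (fd_vor hQPD hVO1 hG) F ?_
  intro g x
  obtain ⟨y, hy⟩ := coe_GG g
  have e : g +ᵥ x = fun i => x i - ((-y) i : ℝ) := by
    funext i
    change (g : ι → ℝ) i + x i = x i - (((-y) i : ℤ) : ℝ)
    rw [hy, Pi.neg_apply, Int.cast_neg]
    ring
  rw [e]
  exact hF x (-y)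

theorem meas_gs (h : SpecQPD) (G : Matrix ι ι ℝ) : Measurable (gs G) := by
  unfold gs
  exact (Real.continuous_exp.comp ((continuous_const.mul (h.cont G)).neg)).measurable.ennreal_ofReal

theorem sup0_per (G : Matrix ι ι ℝ) (x : ι → ℝ) (y : ι → ℤ) :
    sup0 G (fun i => x i - (y i : ℝ)) = sup0 G x := by
  unfold sup0
  rw [← (Equiv.addLeft y).iSup_comp (g := fun z : ι → ℤ => gs G (fun i => x i - (z i : ℝ)))]
  congr 1
  funext z
  congr 1
  funext i
  change x i - (y i : ℝ) - (z i : ℝ) = x i - (((y + z) i : ℤ) : ℝ)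
  rw [Pi.add_apply, Int.cast_add]
  ring

theorem sup0_vor {G : Matrix ι ι ℝ} {x : ι → ℝ} (hx : x ∈ Vor G) : sup0 G x = gs G x := by
  apply le_antisymm
  · refine iSup_le fun y => ?_
    unfold gs
    apply ENNReal.ofReal_le_ofReal
    apply Real.exp_le_exp.2
    have h1 := mul_le_mul_of_nonneg_left (hx y) Real.pi_pos.le
    linarith
  · have h1 := le_iSup (fun y : ι → ℤ => gs G (fun i => x i - (y i : ℝ))) 0
    have e : (fun i => x i - ((0 : ι → ℤ) i : ℝ)) = x := by
      funext i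
      simp
    rw [e] at h1
    exact h1

end VO2M

open VO2M in
theorem specVO2 (hQPD : SpecQPD) (hVO1 : SpecVO1) : SpecVO2 where
  strict := by
    intro ι _ G hG
    have h1 : ∀ᵐ x ∂(volume.restrict (Vor G)), x ∈ Vor G :=
      ae_restrict_mem (hVO1.cpt hG).isClosed.measurableSet
    have h2 : ∀ᵐ x ∂(volume : Measure (ι → ℝ)), ∀ y : ι → ℤ, y ≠ 0 →
        Q G x ≠ Q G (fun i => x i - (y i : ℝ)) := by
      rw [ae_all_iff]
      intro y
      by_cases hy : y = 0
      · exact Filter.Eventually.of_forall fun x h => absurd hy h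
      · have h3 := null hQPD hG y hy
        rw [← compl_mem_ae_iff] at h3
        filter_upwards [h3] with x hx _
        exact hx
    filter_upwards [h1, ae_restrict_of_ae h2] with x hx1 hx2 y hy
    exact lt_of_le_of_ne (hx1 y) (hx2 y hy)
  per := fun hG _ hF => per hQPD hVO1 hG hF
  vol := by
    intro ι _ G hG
    have h1 := per (F := fun _ => 1) hQPD hVO1 hG (fun _ _ => rfl)
    rw [setLIntegral_one, setLIntegral_one] at h1
    rw [← h1]
    unfold cube
    rw [Real.volume_pi_Ico]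
    simp
  phi := by
    intro ι _ _ G hG
    unfold Phi
    congr 1
    rw [per hQPD hVO1 hG (sup0_per G)]
    exact setLIntegral_congr_fun (hVO1.cpt hG).isClosed.measurableSet (fun x hx => sup0_vor hx)

end Pool.Agent.Lib.MP_cb8a44_nt.RM
end

section
/-!
# MP_cb8a44_nt, block RM, module RMI: the interface
-/
set_option autoImplicit false

open MeasureTheory Matrix Set
open scoped ENNReal

namespace Pool.Agent.Lib.MP_cb8a44_nt.RM

namespace RMIM

variable {E : Type} [NormedAddCommGroup E] [InnerProductSpace ℝ E]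

/-- Gram matrix -/
noncomputable def gr {κ : Type} (b : κ → E) : Matrix κ κ ℝ := Matrix.of fun i j => (inner ℝ (b i) (b j) : ℝ)

lemma gr_apply {κ : Type} (b : κ → E) (i j : κ) : gr b i j = inner ℝ (b i) (b j) := rfl

lemma bil {κ : Type} [Fintype κ] (b : κ → E) (x y : κ → ℝ) :
    x ⬝ᵥ (gr b *ᵥ y) = inner ℝ (∑ i, x i • b i) (∑ j, y j • b j) := by
  rw [sum_inner]
  simp only [dotProduct, mulVec, gr_apply]
  refine Finset.sum_congr rfl fun i _ => ?_
  rw [inner_smul_left, inner_sum, conj_trivial]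
  congr 1
  refine Finset.sum_congr rfl fun j _ => ?_
  rw [inner_smul_right]
  ring

lemma Q_gr {κ : Type} [Fintype κ] (b : κ → E) (x : κ → ℝ) :
    Q (gr b) x = ‖∑ i, x i • b i‖ ^ 2 := by
  unfold Q
  rw [bil, real_inner_self_eq_norm_sq]

lemma pd {κ : Type} [Fintype κ] {b : κ → E} (hb : LinearIndependent ℝ b) : (gr b).PosDef := by
  refine Matrix.PosDef.of_dotProduct_mulVec_pos ?_ ?_
  · ext i j
    simp only [conjTranspose_apply, gr_apply, star_trivial]
    exact real_inner_comm _ _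
  · intro x hx
    have h1 : star x ⬝ᵥ (gr b *ᵥ x) = ‖∑ i, x i • b i‖ ^ 2 := by
      rw [← Q_gr]
      rfl
    rw [h1]
    have h2 : ∑ i, x i • b i ≠ 0 := by
      intro h
      apply hx
      funext i
      exact Fintype.linearIndependent_iff.1 hb x h i
    positivity

lemma sg_gr {ι κ : Type} [Fintype ι] [Fintype κ] (b : ι → E) (U : Matrix ι κ ℤ) :
    sg (gr b) U = gr (fun j => ∑ i, (U i j : ℝ) • b i) := by
  ext j k
  rw [gr_apply, ← bil]
  unfold sg
  rw [Matrix.mul_apply]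
  have h : ∀ i, ((rm U)ᵀ * gr b) j i = ∑ i', (U i' j : ℝ) * gr b i' i := by
    intro i
    rw [Matrix.mul_apply]
    rfl
  simp only [h]
  simp only [dotProduct, mulVec, rm, Matrix.map_apply, Finset.mul_sum, Finset.sum_mul]
  rw [Finset.sum_comm]
  refine Finset.sum_congr rfl fun i _ => Finset.sum_congr rfl fun i' _ => ?_
  ring

end RMIM

open RMIM

theorem specRMI (hINJ : SpecINJ) (hMAS : SpecMAS) (hRMM : SpecRMM) : SpecRMI := by
  obtain ⟨c₀, h0, h1, hR⟩ := hRMM
  refine ⟨1 / c₀, by rwa [le_div_iff₀ h0, one_mul], ?_⟩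
  intro E _ _ n b hb hdet
  have hpd := pd hb
  have hS : Semi (gr b) := by
    refine ⟨hpd, fun m U hU => ?_⟩
    rw [sg_gr]
    apply hdet
    · rw [Fintype.linearIndependent_iff]
      intro t ht
      have h2 : ∑ i, (rm U *ᵥ t) i • b i = 0 := by
        rw [← ht]
        simp only [Finset.smul_sum]
        rw [Finset.sum_comm]
        refine Finset.sum_congr rfl fun i _ => ?_
        simp only [mulVec, dotProduct, Finset.sum_smul, smul_smul]
        refine Finset.sum_congr rfl fun j _ => ?_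
        rw [mul_comm]
        rfl
      have h3 := Fintype.linearIndependent_iff.1 hb _ h2
      have h4 : rm U *ᵥ t = rm U *ᵥ 0 := by
        rw [mulVec_zero]
        funext i
        exact h3 i
      have h5 := hINJ.real hU h4
      intro i
      rw [h5]
      rfl
    · intro j
      apply Submodule.sum_mem
      intro i _
      have h2 : ((U i j : ℤ) : ℝ) • b i = (U i j) • b i := by
        rw [Int.cast_smul_eq_zsmul]
      rw [h2]
      exact Submodule.smul_mem _ _ (Submodule.subset_span ⟨i, rfl⟩)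
  have hΦ := hR n (gr b) hS
  have hM := hMAS (gr b) hpd
  have hcn : 0 < c₀ ^ n := pow_pos h0 n
  have hrho : rho (gr b) ≤ ENNReal.ofReal ((1 / c₀) ^ n) := by
    have h2 : rho (gr b) * ENNReal.ofReal (c₀ ^ n) ≤ 1 := (mul_le_mul_right hΦ _).trans hM
    have h3 : ENNReal.ofReal ((1 / c₀) ^ n) = (ENNReal.ofReal (c₀ ^ n))⁻¹ := by
      rw [← ENNReal.ofReal_inv_of_pos hcn, one_div, inv_pow]
    rw [h3, ENNReal.le_inv_iff_mul_le]
    exact h2
  have hgs : ∀ y : Fin n → ℤ, gs (gr b) (fun i => (y i : ℝ)) =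
      ENNReal.ofReal (Real.exp (-(Real.pi * ‖∑ i, (y i : ℝ) • b i‖ ^ 2))) := by
    intro y
    unfold gs
    rw [Q_gr]
  have hrho' : ∑' y : Fin n → ℤ,
      ENNReal.ofReal (Real.exp (-(Real.pi * ‖∑ i, (y i : ℝ) • b i‖ ^ 2))) ≤
        ENNReal.ofReal ((1 / c₀) ^ n) := by
    refine le_trans (le_of_eq ?_) hrho
    unfold rho
    exact tsum_congr fun y => (hgs y).symm
  have hsum : Summable fun y : Fin n → ℤ => Real.exp (-(Real.pi * ‖∑ i, (y i : ℝ) • b i‖ ^ 2)) := by
    have h2 := ENNReal.summable_toReal (ne_top_of_le_ne_top ENNReal.ofReal_ne_top hrho')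
    refine h2.congr fun y => ?_
    rw [ENNReal.toReal_ofReal (Real.exp_pos _).le]
  refine ⟨hsum, ?_⟩
  rw [← ENNReal.ofReal_tsum_of_nonneg (fun y => (Real.exp_pos _).le) hsum] at hrho'
  exact (ENNReal.ofReal_le_ofReal_iff (by positivity)).1 hrho'

end Pool.Agent.Lib.MP_cb8a44_nt.RM
end

section
/-!
# MP_cb8a44_nt, block RM, module SCL: scaling
-/
set_option autoImplicit false

open MeasureTheory Matrix Set Filter Topology
open scoped ENNReal Pointwise

namespace Pool.Agent.Lib.MP_cb8a44_nt.RM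

namespace SCLM

variable {ι : Type} [Fintype ι]

lemma sg_smul {κ : Type} [Fintype κ] (s : ℝ) (G : Matrix ι ι ℝ) (U : Matrix ι κ ℤ) :
    sg (s • G) U = s • sg G U := by
  unfold sg
  rw [Matrix.mul_smul, Matrix.smul_mul]

lemma det_sg_smul {m : ℕ} (s : ℝ) (G : Matrix ι ι ℝ) (U : Matrix ι (Fin m) ℤ) :
    (sg (s • G) U).det = s ^ m * (sg G U).det := by
  rw [sg_smul, Matrix.det_smul, Fintype.card_fin]

omit [Fintype ι] in
lemma pd_smul {s : ℝ} (hs : 0 < s) {G : Matrix ι ι ℝ} (hG : G.PosDef) : (s • G).PosDef :=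
  hG.smul hs

/-- full rank -/
lemma det_full [DecidableEq ι] (G : Matrix ι ι ℝ) {m : ℕ} (e : Fin m ≃ ι) (U : Matrix ι (Fin m) ℤ) :
    (sg G U).det = ((U.submatrix e id).det : ℝ) ^ 2 * G.det := by
  have h1 : sg G U = (rm (U.submatrix e id))ᵀ * G.submatrix e e * rm (U.submatrix e id) := by
    unfold sg
    have a1 : (rm (U.submatrix e id)) = (rm U).submatrix e id := rfl
    rw [a1, Matrix.transpose_submatrix, Matrix.submatrix_mul_equiv, Matrix.submatrix_mul_equiv,
      Matrix.submatrix_id_id]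
  have h2 : (rm (U.submatrix e id)).det = ((U.submatrix e id).det : ℝ) := by
    have := RingHom.map_det (Int.castRingHom ℝ) (U.submatrix e id)
    rw [eq_intCast] at this
    rw [this]
    rfl
  rw [h1, Matrix.det_mul, Matrix.det_mul, Matrix.det_transpose, Matrix.det_submatrix_equiv_self, h2]
  ring

lemma lint_smul {r : ℝ} (hr : 0 < r) {V : Set (ι → ℝ)} (hV : MeasurableSet V)
    {g : (ι → ℝ) → ℝ≥0∞} (hg : Measurable g) :
    ∫⁻ x in V, g (r • x) = ENNReal.ofReal ((r ^ Fintype.card ι)⁻¹) * ∫⁻ x in r • V, g x := by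
  have hm : Measurable (fun x : ι → ℝ => r • x) := measurable_const_smul r
  have h1 := setLIntegral_map (μ := (volume : Measure (ι → ℝ))) (hV.const_smul_of_ne_zero hr.ne')
    hg hm
  have h2 : (fun x : ι → ℝ => r • x) ⁻¹' (r • V) = V := by
    ext x
    simp only [Set.mem_preimage]
    exact Set.smul_mem_smul_set_iff₀ hr.ne' V x
  rw [h2] at h1
  rw [← h1]
  have h3 := Measure.map_addHaar_smul (volume : Measure (ι → ℝ)) hr.ne'
  change Measure.map (fun x : ι → ℝ => r • x) volume = _ at h3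
  rw [h3, Measure.restrict_smul, lintegral_smul_measure, Module.finrank_fintype_fun_eq_card,
    abs_of_pos (by positivity), smul_eq_mul]

end SCLM

open SCLM

theorem specSCL (hINJ : SpecINJ) (hQPD : SpecQPD) (hVO1 : SpecVO1) (hVO2 : SpecVO2)
    (hFNV : SpecFNV) : SpecSCL := by
  intro ι _ _ _ G hG
  set n := Fintype.card ι with hn
  have hn0 : 0 < n := Fintype.card_pos
  have hdetpos : 0 < G.det := hG.1.det_pos
  let S : Set ℝ := {s | 0 < s ∧ s ≤ 1 ∧ Semi (s • G)}
  have h1S : (1 : ℝ) ∈ S := ⟨one_pos, le_rfl, by rwa [one_smul]⟩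
  have hne : S.Nonempty := ⟨1, h1S⟩
  -- lower bound
  have hlow : ∀ s ∈ S, 1 / G.det ≤ s := by
    rintro s ⟨hs0, hs1, hsS⟩
    let e : Fin n ≃ ι := (Fintype.equivFin ι).symm
    have hU : Inj ((1 : Matrix ι ι ℤ).submatrix id e) := by
      intro v w hvw
      funext i
      have := congrFun hvw (e i)
      simp only [mulVec, dotProduct, Matrix.submatrix_apply, id, Matrix.one_apply,
        EmbeddingLike.apply_eq_iff_eq, ite_mul, one_mul, zero_mul, Finset.sum_ite_eq,
        Finset.mem_univ, if_true] at this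
      exact this
    have h2 := hsS.2 n _ hU
    rw [det_sg_smul, det_full G e] at h2
    have h3 : (((1 : Matrix ι ι ℤ).submatrix id e).submatrix e id) = 1 := by
      ext i j
      simp [Matrix.one_apply]
    rw [h3, Matrix.det_one] at h2
    have h4 : s ^ n ≤ s := by
      calc s ^ n ≤ s ^ 1 := pow_le_pow_of_le_one hs0.le hs1 hn0
        _ = s := pow_one s
    rw [div_le_iff₀ hdetpos]
    have h5 : s ^ n * (((1 : ℤ) : ℝ) ^ 2 * G.det) ≤ s * G.det := by
      push_cast
      rw [one_pow, one_mul]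
      exact mul_le_mul_of_nonneg_right h4 hdetpos.le
    linarith
  have hbdd : BddBelow S := ⟨1 / G.det, fun s hs => hlow s hs⟩
  set s₀ := sInf S with hs₀
  have hs₀pos : 0 < s₀ := lt_of_lt_of_le (by positivity) (le_csInf hne fun s hs => hlow s hs)
  have hs₀1 : s₀ ≤ 1 := csInf_le hbdd h1S
  have hcl : s₀ ∈ closure S := csInf_mem_closure hne hbdd
  have hSemi : Semi (s₀ • G) := by
    refine ⟨pd_smul hs₀pos hG.1, fun m U hU => ?_⟩
    rw [det_sg_smul]
    have hclosed : IsClosed {s : ℝ | 1 ≤ s ^ m * (sg G U).det} :=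
      isClosed_le continuous_const ((continuous_pow m).mul continuous_const)
    have hsub : S ⊆ {s : ℝ | 1 ≤ s ^ m * (sg G U).det} := by
      rintro s ⟨_, _, hsS⟩
      have := hsS.2 m U hU
      rwa [det_sg_smul] at this
    exact closure_minimal hsub hclosed hcl
  have hPhi : Phi (s₀ • G) ≤ Phi G := by
    have hpd := pd_smul hs₀pos hG.1
    rw [hVO2.phi hpd, hVO2.phi hG.1]
    have hVor : Vor (s₀ • G) = Vor G := by
      ext x
      simp only [Vor, Set.mem_ofPred_eq, (hQPD.scal G s₀ _).2]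
      constructor
      · intro h y
        exact le_of_mul_le_mul_left (h y) hs₀pos
      · intro h y
        exact mul_le_mul_of_nonneg_left (h y) hs₀pos.le
    set r := Real.sqrt s₀ with hr
    have hr0 : 0 < r := Real.sqrt_pos.2 hs₀pos
    have hr2 : r ^ 2 = s₀ := Real.sq_sqrt hs₀pos.le
    have hr1 : r ≤ 1 := by
      rw [hr, Real.sqrt_le_one]
      exact hs₀1
    have hgs : ∀ x, gs (s₀ • G) x = gs G (r • x) := by
      intro x
      unfold gs
      rw [(hQPD.scal G s₀ x).2, (hQPD.scal G r x).1, hr2]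
    have hmeas : Measurable (gs G) := by
      unfold gs
      exact (Real.measurable_exp.comp
        ((hQPD.cont G).measurable.const_mul Real.pi).neg).ennreal_ofReal
    rw [hVor]
    simp only [hgs]
    rw [lint_smul hr0 (hVO1.cpt hG.1).measurableSet hmeas]
    have hsub : r • Vor G ⊆ Vor G := by
      rintro _ ⟨x, hx, rfl⟩
      have h0 : (0 : ι → ℝ) ∈ Vor G := interior_subset (hVO1.zero hG.1)
      have := (hVO1.conv hG.1) hx h0 hr0.le (by linarith : (0 : ℝ) ≤ 1 - r) (by ring)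
      simpa using this
    have hdet : (s₀ • G).det = s₀ ^ n * G.det := by
      rw [Matrix.det_smul]
    have hsq : Real.sqrt (s₀ • G).det = r ^ n * Real.sqrt G.det := by
      rw [hdet, Real.sqrt_mul (by positivity)]
      congr 1
      rw [← hr2, ← pow_mul, mul_comm 2 n, pow_mul, Real.sqrt_sq (by positivity)]
    rw [hsq, ← mul_assoc, ← ENNReal.ofReal_mul (by positivity)]
    have h3 : r ^ n * Real.sqrt G.det * (r ^ Fintype.card ι)⁻¹ = Real.sqrt G.det := by
      rw [← hn]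
      field_simp
    rw [h3]
    exact mul_le_mul_right (lintegral_mono_set hsub) _
  refine ⟨s₀, hs₀pos, hs₀1, hSemi, hPhi, ?_⟩
  by_contra hcon
  push Not at hcon
  obtain ⟨hno, hd1⟩ := hcon
  obtain ⟨ε, hε, hF⟩ := hFNV (s₀ • G) hSemi.1
  -- all determinants in positive rank are at least `1 + ε`
  have hfull : 1 < (s₀ • G).det := by
    let e : Fin n ≃ ι := (Fintype.equivFin ι).symm
    have hU : Inj ((1 : Matrix ι ι ℤ).submatrix id e) := by
      intro v w hvw
      funext i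
      have := congrFun hvw (e i)
      simp only [mulVec, dotProduct, Matrix.submatrix_apply, id, Matrix.one_apply,
        EmbeddingLike.apply_eq_iff_eq, ite_mul, one_mul, zero_mul, Finset.sum_ite_eq,
        Finset.mem_univ, if_true] at this
      exact this
    have h2 := hSemi.2 n _ hU
    rw [det_full (s₀ • G) e] at h2
    have h3 : (((1 : Matrix ι ι ℤ).submatrix id e).submatrix e id) = 1 := by
      ext i j
      simp [Matrix.one_apply]
    rw [h3, Matrix.det_one] at h2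
    push_cast at h2
    rw [one_pow, one_mul] at h2
    exact lt_of_le_of_ne h2 (Ne.symm hd1)
  have hbig : ∀ (m : ℕ) (U : Matrix ι (Fin m) ℤ), Inj U → 0 < m →
      1 + ε ≤ (sg (s₀ • G) U).det := by
    intro m U hU hm
    apply hF m U hU
    have hge := hSemi.2 m U hU
    have hmn : m ≤ n := by
      have := hINJ.card hU
      rwa [Fintype.card_fin] at this
    rcases hmn.lt_or_eq with hlt | heq
    · refine lt_of_le_of_ne hge fun h => hno ⟨m, U, hm, hlt, hU, h.symm⟩
    · subst heq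
      let e : Fin (Fintype.card ι) ≃ ι := (Fintype.equivFin ι).symm
      rw [det_full (s₀ • G) e]
      have hU' : Inj (U.submatrix e id) := by
        intro v w hvw
        apply hU
        funext i
        have := congrFun hvw (e.symm i)
        simp only [mulVec, dotProduct, Matrix.submatrix_apply, id, Equiv.apply_symm_apply] at this
        exact this
      have h0 : (U.submatrix e id).det ≠ 0 := hINJ.injsq.1 hU'
      have h1 : (1 : ℝ) ≤ ((U.submatrix e id).det : ℝ) ^ 2 := by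
        have : (1 : ℤ) ≤ (U.submatrix e id).det ^ 2 := by
          have := Int.one_le_abs h0
          nlinarith [sq_abs (U.submatrix e id).det, abs_nonneg (U.submatrix e id).det]
        exact_mod_cast this
      nlinarith
  -- decrease `s₀`
  set η : ℝ := ε / (n * (1 + ε)) with hη
  have hnR : (1 : ℝ) ≤ n := by exact_mod_cast hn0
  have hη0 : 0 < η := by positivity
  have hnη : n * η = ε / (1 + ε) := by
    rw [hη]
    field_simp
  have hnη1 : n * η < 1 := by
    rw [hnη, div_lt_one (by linarith)]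
    linarith
  have hη1 : η < 1 := by nlinarith
  have hmem : (1 - η) * s₀ ∈ S := by
    refine ⟨mul_pos (by linarith) hs₀pos, ?_, ?_, ?_⟩
    · nlinarith
    · exact pd_smul (mul_pos (by linarith) hs₀pos) hG.1
    · intro m U hU
      rw [mul_smul, det_sg_smul]
      rcases Nat.eq_zero_or_pos m with hm | hm
      · subst hm
        simp
      · have h1 := hbig m U hU hm
        have hmn : m ≤ n := by
          have := hINJ.card hU
          rwa [Fintype.card_fin] at this
        have h2 : 1 - n * η ≤ (1 - η) ^ n := by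
          have := one_add_mul_le_pow (a := -η) (by linarith) n
          have h3 : (1 : ℝ) + n * -η = 1 - n * η := by ring
          have h4 : (1 : ℝ) + -η = 1 - η := by ring
          rw [h3, h4] at this
          exact this
        have h3 : (1 - η) ^ n ≤ (1 - η) ^ m :=
          pow_le_pow_of_le_one (by linarith) (by linarith) hmn
        have h4 : 1 ≤ (1 - n * η) * (1 + ε) := by
          rw [hnη]
          have : (1 - ε / (1 + ε)) * (1 + ε) = 1 := by
            field_simp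
            ring
          rw [this]
        have h5 : 0 ≤ 1 - n * η := by linarith
        calc (1 : ℝ) ≤ (1 - n * η) * (1 + ε) := h4
          _ ≤ (1 - η) ^ m * (1 + ε) := mul_le_mul_of_nonneg_right (h2.trans h3) (by linarith)
          _ ≤ (1 - η) ^ m * (sg (s₀ • G) U).det :=
              mul_le_mul_of_nonneg_left h1 (pow_nonneg (by linarith) _)
  have hle := csInf_le hbdd hmem
  rw [← hs₀] at hle
  nlinarith

end Pool.Agent.Lib.MP_cb8a44_nt.RM
end
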