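import Pool.Agent.Lib.MP_cb8a44_nt.RM.Defs

set_option autoImplicit false

/-!
# MP_cb8a44_nt, block RM, part M: every convex body has an `M`-position

`n` is `Fintype.card ι`, `g` is a standard Gaussian vector (measure `gm ι`), `V = bl p`, `B` the Euclidean unit ball, `V°` the ball of `du p`.
-/

open MeasureTheory Matrix Set
open scoped ENNReal

namespace Pool.Agent.Lib.MP_cb8a44_nt.RM

/-- **NM1** (120 lines).  Basic facts on norms.  `p (∑ x_i e_i) ≤ ∑ |x_i| p (e_i)` gives the upper bound and continuity; the lower bound by compactness of the Euclidean sphere (or `max |x_i|`-sphere).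
`vol`: `bl p` contains a small cube.  `int`: `p ≤ C eu ≤ C (1 + ∑ x_i²)`.  `el`: `p > 0` off `0`, and `gm ι {0} = 0` for nonempty `ι`. -/
structure SpecNM1 : Prop where
  cont : ∀ {ι : Type} [Fintype ι] {p : (ι → ℝ) → ℝ}, Nm p → Continuous p
  zero : ∀ {ι : Type} [Fintype ι] {p : (ι → ℝ) → ℝ}, Nm p → p 0 = 0
  nonneg : ∀ {ι : Type} [Fintype ι] {p : (ι → ℝ) → ℝ}, Nm p → ∀ x, 0 ≤ p x
  bd : ∀ {ι : Type} [Fintype ι] {p : (ι → ℝ) → ℝ}, Nm p → ∃ C : ℝ, 0 < C ∧ ∀ x, p x ≤ C * eu x ∧ eu x ≤ C * p x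
  cpt : ∀ {ι : Type} [Fintype ι] {p : (ι → ℝ) → ℝ}, Nm p → IsCompact (bl p)
  sc : ∀ {ι : Type} [Fintype ι] {p : (ι → ℝ) → ℝ}, Nm p → SC (bl p)
  vpos : ∀ {ι : Type} [Fintype ι] {p : (ι → ℝ) → ℝ}, Nm p → 0 < vol p
  int : ∀ {ι : Type} [Fintype ι] {p : (ι → ℝ) → ℝ}, Nm p → Integrable p (gm ι)
  el : ∀ {ι : Type} [Fintype ι] [Nonempty ι] {p : (ι → ℝ) → ℝ}, Nm p → 0 < ell p
  euc : ∀ {ι : Type} [Fintype ι], Nm (eu : (ι → ℝ) → ℝ)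
  comp : ∀ {ι : Type} [Fintype ι] [DecidableEq ι] {p : (ι → ℝ) → ℝ} {A : Matrix ι ι ℝ}, Nm p → A.det ≠ 0 → Nm (fun x => p (A *ᵥ x))
  mx : ∀ {ι : Type} [Fintype ι] {p q : (ι → ℝ) → ℝ}, Nm p → Nm q → Nm (fun x => max (p x) (q x))
  sca : ∀ {ι : Type} [Fintype ι] {p : (ι → ℝ) → ℝ} {c : ℝ}, Nm p → 0 < c → Nm (fun x => c * p x)

/-- **NM2** (from NM1; 120 lines).  The dual norm. -/
structure SpecNM2 : Prop where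
  nm : ∀ {ι : Type} [Fintype ι] {p : (ι → ℝ) → ℝ}, Nm p → Nm (du p)
  le : ∀ {ι : Type} [Fintype ι] {p : (ι → ℝ) → ℝ}, Nm p → ∀ x y, x ⬝ᵥ y ≤ p x * du p y
  att : ∀ {ι : Type} [Fintype ι] {p : (ι → ℝ) → ℝ}, Nm p → ∀ y, ∃ x, p x ≤ 1 ∧ x ⬝ᵥ y = du p y
  lin : ∀ {ι : Type} [Fintype ι] [DecidableEq ι] {p : (ι → ℝ) → ℝ} {A : Matrix ι ι ℝ}, Nm p → A.det ≠ 0 →
    ∀ y, du (fun x => p (A *ᵥ x)) y = du p ((A⁻¹)ᵀ *ᵥ y)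
  sca : ∀ {ι : Type} [Fintype ι] {p : (ι → ℝ) → ℝ} {c : ℝ}, Nm p → 0 < c → ∀ y, du (fun x => c * p x) y = du p y / c

/-- **NM3** (from NM1, NM2; 100 lines).  If `p x ≤ 1` then `du p g ≥ |⟨x, g⟩|`, and `E |⟨x, g⟩| ≥ eu x / 2`: `⟨x, g⟩` is a centred Gaussian of variance `|x|²`, or: `Y = ⟨x, g⟩`, `E Y² = |x|²`, `E Y⁴ = 3 |x|⁴`,
and `Y² ≤ c|Y| + Y⁴/c²`-type inequality (Hölder): `(E Y²)³ ≤ (E |Y|)² E Y⁴`.  Homogeneity gives the claim. -/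
def SpecNM3 : Prop := ∀ {ι : Type} [Fintype ι] {p : (ι → ℝ) → ℝ}, Nm p → ∀ x, eu x ≤ 2 * ell (du p) * p x

/-- **GAU** (80 lines).  The gauge of a convex body (`gauge V`; `gauge_le_one_iff_mem_closure`, `gauge_smul`, `gauge_add_le`, …). -/
def SpecGAU : Prop := ∀ {ι : Type} [Fintype ι] (V : Set (ι → ℝ)), IsCompact V → Convex ℝ V → (∀ x ∈ V, -x ∈ V) → (0 : ι → ℝ) ∈ interior V →
  ∃ p : (ι → ℝ) → ℝ, Nm p ∧ bl p = V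

/-- **GIN** (80 lines).  Invariance.  `bl (p ∘ A) = A⁻¹ (bl p)`, `vol (p ∘ A) = |det A|⁻¹ vol p` (`Real.map_matrix_volume_pi_eq_smul_volume_pi`, or `MeasureTheory.Measure.addHaar_image_linearMap`), `gmass (p ∘ A) C = gmass p (C A⁻¹)` (change of variables `integral_image_eq_…` or `setLIntegral`). -/
structure SpecGIN : Prop where
  good : ∀ {ι : Type} [Fintype ι] [DecidableEq ι] {p : (ι → ℝ) → ℝ} {A : Matrix ι ι ℝ} {c : ℝ}, Nm p → A.det ≠ 0 →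
    (Good (fun x => p (A *ᵥ x)) c ↔ Good p c)
  dist : ∀ {ι : Type} [Fintype ι] [DecidableEq ι] {p : (ι → ℝ) → ℝ} {A : Matrix ι ι ℝ} {D : ℝ}, A.det ≠ 0 →
    (Dist (fun x => p (A *ᵥ x)) D ↔ Dist p D)
  mono : ∀ {ι : Type} [Fintype ι] [DecidableEq ι] {p : (ι → ℝ) → ℝ} {D D' : ℝ}, Nm p → D ≤ D' → Dist p D → Dist p D'

/-- **LMN** (from NM1; 200 lines).  Lewis' lemma.  `f(T) = ∫ p (T g)` is a norm on matrices (`f(T) ≥ c max |T_ij|`, as `p ≥ c eu` and `E |∑_j T_ij g_j| > 0`), so it has a minimiser `T` on the closed set `det T = 1` (compactness of `{f ≤ f(1)}`), and `λ = f(T) > 0`.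
For every `B` and small `t > 0`: `det (T + tB) = det (1 + t T⁻¹B) > 0`; `(T + tB)/det^{1/n}` has determinant one, so `f(T) + t f(B) ≥ f(T + tB) ≥ λ det (1 + t T⁻¹ B)^{1/n}`; expand at `t = 0` (`Matrix.det_one_add_smul`): `f(B) ≥ (λ/n) tr (T⁻¹ B)`. -/
def SpecLMN : Prop := ∀ {ι : Type} [Fintype ι] [DecidableEq ι] [Nonempty ι] (p : (ι → ℝ) → ℝ), Nm p →
  ∃ T : Matrix ι ι ℝ, T.det = 1 ∧ 0 < ∫ x, p (T *ᵥ x) ∂(gm ι) ∧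
    ∀ B : Matrix ι ι ℝ, (T⁻¹ * B).trace * ∫ x, p (T *ᵥ x) ∂(gm ι) ≤ Fintype.card ι * ∫ x, p (B *ᵥ x) ∂(gm ι)

/-- **SEL** (from NM1, NM2; 80 lines).  A finitely valued selection: `X ⊆ bl p` a finite `ε`-net for `p` (compactness); `max_{x ∈ X} ⟨x, y⟩ ≥ (1 - ε) du p y` (if `⟨v, y⟩ = du p y`, `p (v - x) ≤ ε`, then `⟨v - x, y⟩ ≤ ε du p y`); `F y` = the first element of `X` attaining the maximum. -/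
def SpecSEL : Prop := ∀ {ι : Type} [Fintype ι] (p : (ι → ℝ) → ℝ) (ε : ℝ), Nm p → 0 < ε →
  ∃ F : (ι → ℝ) → (ι → ℝ), Measurable F ∧ (Set.range F).Finite ∧ (∀ y, p (F y) ≤ 1) ∧ ∀ y, (1 - ε) * du p y ≤ F y ⬝ᵥ y

/-- **MEA** (150 lines).  Semigroups of kernels.  `R_θ f (x) = ∫ N θ x y f y`.  By Fubini and the kernel identity `‖R_θ f‖² = ∫∫ f(y) f(z) N_{θ²}(y, z) = ⟨f, R_{θ²} f⟩ ≤ ‖f‖ ‖R_{θ²} f‖`.  So `a_k = ‖R_{θ^{2^k}} f‖ / ‖f‖` satisfies `a_k² ≤ a_{k+1}`,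
`a_0 ≤ a_k^{2^{-k}}`, and `a_k ≤ √C (θ^{2^k})³` for large `k` (Cauchy-Schwarz, Hilbert-Schmidt norm).  Hence `a_0 ≤ C^{2^{-k}/2} θ³ → θ³`. -/
def SpecMEA : Prop := ∀ {X : Type} [MeasurableSpace X] (μ : Measure X) [IsProbabilityMeasure μ] (N : ℝ → X → X → ℝ) (C : ℝ),
  (∀ θ ∈ Ioo (0:ℝ) 1, Measurable (Function.uncurry (N θ))) →
  (∀ θ ∈ Ioo (0:ℝ) 1, Integrable (fun z : X × X => N θ z.1 z.2 ^ 2) (μ.prod μ)) →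
  (∀ θ ∈ Ioo (0:ℝ) (1/2), ∫ z : X × X, N θ z.1 z.2 ^ 2 ∂(μ.prod μ) ≤ C * θ ^ 6) →
  (∀ θ ∈ Ioo (0:ℝ) 1, ∀ y z, ∫ x, N θ x y * N θ x z ∂μ = N (θ ^ 2) y z) →
  ∀ f : X → ℝ, Measurable f → (∃ K, ∀ x, |f x| ≤ K) → ∀ θ ∈ Ioo (0:ℝ) 1,
    ∫ x, (∫ y, N θ x y * f y ∂μ) ^ 2 ∂μ ≤ θ ^ 6 * ∫ x, f x ^ 2 ∂μ

/-- **MEB** (300 lines, may be split: one variable, products).  The kernel.  One variable: `m θ x y = (1-θ²)^{-1/2} exp ((2θxy - θ²(x²+y²)) / (2(1-θ²)))`, `|θ| < 1`: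
(a) `∫ h(θx + √(1-θ²) y) dγ(y) = ∫ h(y) m θ x y dγ(y)`; (b) `∫ m θ x y m φ x z dγ(x) = m (θφ) y z`; (c) `∫ m θ x y · y dγ(y) = θ x`; (d) `m θ x (-y) = m (-θ) x y`; (e) `∫ m φ y y dγ(y) = 1/(1-φ)`.  In `ℝⁿ`: `M θ x y = ∏ m θ x_i y_i` has the same properties (product measures, Fubini).
`N θ x y = (M θ x y - M (-θ) x y)/2 - θ ∑ x_i y_i`.  Then `∫ N θ x y N θ x z dγ(x) = N (θ²) y z` (expand: (b), (c), `∫ x_i x_j = δ_ij`), and `∫∫ N θ² = ∫ N (θ²) y y dγ(y) = ((1-θ²)^{-n} - (1+θ²)^{-n})/2 - nθ² ≤ C_n θ⁶` for `θ ≤ 1/2` (Taylor in `u = θ²` at `0`: the function and its first two derivatives vanish;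
`exists_taylor_mean_remainder_bound`).  The formula for `∫ N θ x y f y` is (a), (d). -/
def SpecMEB : Prop := ∀ (ι : Type) [Fintype ι], ∃ (N : ℝ → (ι → ℝ) → (ι → ℝ) → ℝ) (C : ℝ),
  (∀ θ ∈ Ioo (0:ℝ) 1, Measurable (Function.uncurry (N θ))) ∧
  (∀ θ ∈ Ioo (0:ℝ) 1, Integrable (fun z : (ι → ℝ) × (ι → ℝ) => N θ z.1 z.2 ^ 2) ((gm ι).prod (gm ι))) ∧
  (∀ θ ∈ Ioo (0:ℝ) (1/2), ∫ z : (ι → ℝ) × (ι → ℝ), N θ z.1 z.2 ^ 2 ∂((gm ι).prod (gm ι)) ≤ C * θ ^ 6) ∧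
  (∀ θ ∈ Ioo (0:ℝ) 1, ∀ y z, ∫ x, N θ x y * N θ x z ∂(gm ι) = N (θ ^ 2) y z) ∧
  ∀ f : (ι → ℝ) → ℝ, Measurable f → (∃ K, ∀ x, |f x| ≤ K) → ∀ θ ∈ Ioo (0:ℝ) 1, ∀ x,
    ∫ y, N θ x y * f y ∂(gm ι) = ((∫ y, f (θ • x + Real.sqrt (1 - θ ^ 2) • y) ∂(gm ι)) -
      ∫ y, f (-(θ • x) + Real.sqrt (1 - θ ^ 2) • y) ∂(gm ι)) / 2 - θ * ∑ i, x i * ∫ y, y i * f y ∂(gm ι)

/-- **KCV** (from NM1, MEA, MEB; 200 lines).  Weak `K`-convexity.  `A` from `Dist p D`, `θ = D^{-1/3}/2`.  `T_{±θ}F(x) = ∫ F(±θx + √(1-θ²) y) dγ(y)` satisfies `p (T_{±θ}F(x)) ≤ 1` (convexity).  `R(x) = (T_θF(x) - T_{-θ}F(x))/(2θ) - Bx`, `B_ij = ∫ F_i y_j`.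
`∫ p (Bx) ≤ 1/θ + ∫ p (R) ≤ 1/θ + ∫ eu (A R) ≤ 1/θ + (∫ eu (A R)²)^{1/2}`, and the components of `A R` are `(T_θf - T_{-θ}f)/(2θ) - ∑ x_j E[y_j f]` for the components `f` of `A F` (bounded): by MEA, MEB `∫ eu (AR)² ≤ θ⁴ ∫ eu (AF)² ≤ θ⁴ D²`.  Sum: `1/θ + θ² D ≤ 3 D^{1/3}`. -/
def SpecKCV : Prop := ∀ {ι : Type} [Fintype ι] [DecidableEq ι] (p : (ι → ℝ) → ℝ) (D : ℝ) (F : (ι → ℝ) → (ι → ℝ)), Nm p → 1 ≤ D → Dist p D →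
  Measurable F → (Set.range F).Finite → (∀ x, p (F x) ≤ 1) →
  ∫ x, p ((Matrix.of fun i j => ∫ y, F y i * y j ∂(gm ι)) *ᵥ x) ∂(gm ι) ≤ 3 * D ^ (1 / 3 : ℝ)

/-- **LPS** (from NM1, NM2, LMN, SEL, KCV, GIN; 100 lines).  The `ℓ`-position.  `T`, `λ` from LMN, `p' = p ∘ T`, `F` from SEL for `p'`, `B' = E F gᵀ`.  `(1-ε) ell (du p') ≤ E ⟨F(g), g⟩ = tr B' = tr (T⁻¹ (T B')) ≤ (n/λ) ∫ p (T B' x) = (n/λ) ∫ p' (B' x) ≤ (n/λ) 3 D^{1/3}` (`Dist p' D` by GIN),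
and `λ = ell p'`.  Let `ε → 0`. -/
def SpecLPS : Prop := ∀ {ι : Type} [Fintype ι] [DecidableEq ι] [Nonempty ι] (p : (ι → ℝ) → ℝ) (D : ℝ), Nm p → 1 ≤ D → Dist p D →
  ∃ A : Matrix ι ι ℝ, A.det ≠ 0 ∧ ell (fun x => p (A *ᵥ x)) * ell (du (fun x => p (A *ᵥ x))) ≤ 3 * D ^ (1 / 3 : ℝ) * Fintype.card ι

/-- **DSU** (from NM1; 150 lines).  Dual Sudakov by packing.  Let `x_1 … x_N ∈ B` with `p (x_i - x_j) > s` for `i ≠ j`.  `λ = 4 ell p / s`; the sets `U_i = {x | p (x - λ x_i) < 2 ell p}` are disjoint; `gm U_0 ≥ 1/2` (Markov), `gm (a + U) ≥ exp (-|a|²/2) gm U` for symmetric `U`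
(`∫_U exp (-⟨x, a⟩) dγ ≥ gm U` as `cosh ≥ 1`), so `N ≤ 2 exp (λ²/2) = 2 exp (8 ell² / s²)`.  A separated set of maximal cardinality covers.  (`ι` empty: trivial, `X = {0}`.) -/
def SpecDSU : Prop := ∀ {ι : Type} [Fintype ι] (p : (ι → ℝ) → ℝ) (s : ℝ), Nm p → 0 < s →
  ∃ X : Finset (ι → ℝ), (∀ x ∈ X, eu x ≤ 1) ∧ (X.card : ℝ) ≤ 2 * Real.exp (8 * ell p ^ 2 / s ^ 2) ∧ ∀ x, eu x ≤ 1 → ∃ y ∈ X, p (x - y) ≤ s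

/-- **VST** (from NM1, NM2, DSU, AND; 120 lines).  `V ∩ 2uB` is covered by the sets `2u y + u² V°`, `y ∈ X` (DSU for `du p`, `s = u/2`).  Each piece `(V ∩ 2uB) ∩ (2u y + u²V°)` has volume `≤ vol (V ∩ 2uB ∩ u²V°)` (Anderson, indicator), and `V ∩ u²V° ⊆ uB` because `|x|² ≤ p(x) du p (x)`. -/
def SpecVST : Prop := ∀ {ι : Type} [Fintype ι] (p : (ι → ℝ) → ℝ) (u : ℝ), Nm p → 0 < u →
  vol (fun x => max (p x) (eu x / (2 * u))) ≤ 2 * Real.exp (32 * ell (du p) ^ 2 / u ^ 2) * vol (fun x => max (p x) (eu x / u))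

/-- **VOL** (from NM1, NM2, NM3, VST; 100 lines).  `eu x ≤ 2 b √n p x` (NM3).  `J` minimal with `2^J t ≥ 2 b √n`: `2^J ≤ 4 √n`, `V ⊆ 2^J t B`.  Apply VST for `u = 2^j t`, `j < J`: the exponents sum to at most `(4/3) 32 n b²/t² ≤ 43 n b²/t²`. -/
def SpecVOL : Prop := ∀ {ι : Type} [Fintype ι] [Nonempty ι] (p : (ι → ℝ) → ℝ) (b t : ℝ), Nm p → 0 < b → b ≤ t →
  ell (du p) ≤ b * Real.sqrt (Fintype.card ι) →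
  vol p ≤ 4 * Real.sqrt (Fintype.card ι) * Real.exp (43 * Fintype.card ι * b ^ 2 / t ^ 2) * vol (fun x => max (p x) (eu x / t))

/-- **WST** (from NM1, DSU, GAU, AND; 180 lines).  The body `W = V + rB` (compact, convex, symmetric, contains `rB`), `w` its norm (GAU).  Covering: `X` from DSU with `s = δ/r`; `W ⊆ ⋃_{y ∈ X} (r y + (1+δ)V)`.  `∫_{ry + (1+δ)V} exp(-π|Ax|²) ≤ ∫_{(1+δ)V} exp(-π|Ax|²)` (Anderson)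
`≤ (1+δ)ⁿ ∫_V exp(-π|Ax|²)` (scaling). -/
def SpecWST : Prop := ∀ {ι : Type} [Fintype ι] [DecidableEq ι] (p : (ι → ℝ) → ℝ) (r : ℝ), Nm p → 0 < r →
  ∃ w : (ι → ℝ) → ℝ, Nm w ∧ (∀ x, w x ≤ p x) ∧ (∀ x, w x ≤ eu x / r) ∧ (∀ t : ℝ, 0 < t → (∀ x, eu x ≤ t * p x) → ∀ x, eu x ≤ (t + r) * w x) ∧
    ∀ δ : ℝ, 0 < δ → ∀ A : Matrix ι ι ℝ, A.det ≠ 0 →
      gmass w A ≤ 2 * Real.exp (8 * ell p ^ 2 * r ^ 2 / δ ^ 2) * (1 + δ) ^ Fintype.card ι * gmass p A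

/-- **GTR** (from NM1; 120 lines).  Transfer.  `up`: `A` good for `w`, `A' = λA` with `λⁿ = vol w / vol p ≥ 1`; `gmass p (λA) = ∫_{λAV} ≥ gmass p A`.  `dn`: `A' = λA`, `λⁿ = vol q / vol p ∈ [1/a, 1]`; `gmass p (λA) ≥ λⁿ gmass p A ≥ gmass q A / a`. -/
structure SpecGTR : Prop where
  up : ∀ {ι : Type} [Fintype ι] [DecidableEq ι] [Nonempty ι] (p w : (ι → ℝ) → ℝ) (a c : ℝ), Nm p → Nm w → (∀ x, w x ≤ p x) → 1 ≤ a → 0 ≤ c →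
    (∀ A : Matrix ι ι ℝ, A.det ≠ 0 → gmass w A ≤ a * gmass p A) → Good w c → Good p (c / a)
  dn : ∀ {ι : Type} [Fintype ι] [DecidableEq ι] [Nonempty ι] (p q : (ι → ℝ) → ℝ) (a c : ℝ), Nm p → Nm q → (∀ x, p x ≤ q x) → 1 ≤ a → 0 ≤ c →
    vol p ≤ a * vol q → Good q c → Good p (c / a)

/-- **STP** (from NM1, NM2, GIN, LPS, VOL, WST, GTR; 200 lines).  One step.  `κ = √3 D^{1/6}`, `ε = D^{-1/12}`.  LPS and a scaling `q = p ∘ (μA)` give `ell q, ell (du q) ≤ κ √n`.  `t = κ/√ε`, `p' = max q (eu/t)`: VOL: `vol q ≤ 4√n e^{43nε} vol p'`; `ell p' ≤ κ√n + √n/t ≤ 2κ√n`.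
`r = ε^{3/2}/(√32 κ)`, `δ = ε` in WST: `gmass w A ≤ 2 e^{εn} (1+ε)ⁿ gmass p' A ≤ 2 e^{2εn} gmass p' A`.  `w ≤ eu/r`, `eu ≤ (t+r) w`: `Dist w (1 + t/r)`, `1 + t/r = 1 + √32 κ²/ε² = 1 + 3√32 D^{1/2} ≤ 18 √D`.  GTR twice: the total loss is `8√n e^{45εn}`.  GIN: from `q` back to `p`. -/
def SpecSTP : Prop := ∀ {ι : Type} [Fintype ι] [DecidableEq ι] [Nonempty ι] (p : (ι → ℝ) → ℝ) (D : ℝ), Nm p → 1 ≤ D → Dist p D →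
  ∃ w : (ι → ℝ) → ℝ, Nm w ∧ Dist w (18 * Real.sqrt D) ∧ ∀ c : ℝ, 0 ≤ c → Good w c →
    Good p (c * Real.exp (-(45 * Fintype.card ι * D ^ (-(1 / 12) : ℝ))) / (8 * Real.sqrt (Fintype.card ι)))

/-- **BAS** (from NM1; 120 lines).  `B ⊆ AV ⊆ DB`, `ω = volume B`, `A' = λA` with `λⁿ |det A| vol p = 1`.  `vol (AV) ≤ Dⁿ ω` so `λⁿ ω ≥ D⁻ⁿ`; `λⁿ ω ≤ 1` and `ω ≥ (2/√n)ⁿ` (cube), so `λ² ≤ n/4`.  `gmass p A' ≥ ∫_{λB} exp(-π|x|²) ≥ λⁿ ω exp(-πλ²) ≥ D⁻ⁿ e⁻ⁿ`. -/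
def SpecBAS : Prop := ∀ {ι : Type} [Fintype ι] [DecidableEq ι] [Nonempty ι] (p : (ι → ℝ) → ℝ) (D : ℝ), Nm p → 1 ≤ D → Dist p D →
  Good p ((Real.exp (-1) / D) ^ Fintype.card ι)

/-- **AUE** (from NM1; 120 lines).  Auerbach.  Maximise `|det (b_1 … b_n)|` over `(bl p)ⁿ` (compact); the maximum is `> 0`; `x = ∑ c_i b_i ∈ bl p` has `|c_i| ≤ 1` (replace `b_i` by `x`: Cramer).  `A = √n · (columns b_i)⁻¹`. -/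
def SpecAUE : Prop := ∀ {ι : Type} [Fintype ι] [DecidableEq ι] [Nonempty ι] (p : (ι → ℝ) → ℝ), Nm p → Dist p (Fintype.card ι)

/-- **ITR** (from NM1, GIN, STP, BAS, AUE; 200 lines).  The iteration.  `K = 18⁴ = 104976`; for `D ≥ K`: `18 √D ≤ D^{3/4}`.  Claim by induction on `k`: `Dist p D`, `1 ≤ D ≤ K^{(4/3)^k}` imply `Good p (exp (-(log K + 1) n - 45 n ∑_{j<k} K^{-(4/3)^j/12}) (8√n)^{-k})`.
`k = 0`: BAS.  Step: if `D ≤ K^{(4/3)^k}` monotonicity, else STP and `D^{3/4} ≤ K^{(4/3)^k}`, `D^{-1/12} ≤ K^{-(4/3)^k/12}`.  The sum converges (`(4/3)^j ≥ 1 + j/3`).  `D = n` (AUE), `k = ⌈log n⌉ + 1`: `K^{(4/3)^k} ≥ K^{k/3} ≥ n`, and `(8√n)^k ≤ Cⁿ`. -/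
def SpecITR : Prop := ∃ c₀ : ℝ, 0 < c₀ ∧ c₀ ≤ 1 ∧ ∀ {ι : Type} [Fintype ι] [DecidableEq ι] [Nonempty ι] (p : (ι → ℝ) → ℝ), Nm p → Good p (c₀ ^ Fintype.card ι)

/-- **MPO** (from NM1, GAU, ITR; 100 lines).  `p` from GAU, `A` from ITR with `|det A| = 1`; `AᵀA = Oᵀ diag (exp 2s) O` (spectral theorem), `∑ s_i = 0`, `|Ax|² = ∑ exp (2 s_i) (Ox)_i²`. -/
def SpecMPO : Prop := ∃ c₀ : ℝ, 0 < c₀ ∧ c₀ ≤ 1 ∧ ∀ {ι : Type} [Fintype ι] [DecidableEq ι] [Nonempty ι] (V : Set (ι → ℝ)), IsCompact V → Convex ℝ V →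
  (∀ x ∈ V, -x ∈ V) → (0 : ι → ℝ) ∈ interior V → volume V = 1 →
  ∃ (O : Matrix ι ι ℝ) (s : ι → ℝ), Oᵀ * O = 1 ∧ ∑ i, s i = 0 ∧
    c₀ ^ Fintype.card ι ≤ ∫ x in V, Real.exp (-(Real.pi * ∑ i, Real.exp (2 * s i) * (O *ᵥ x) i ^ 2))

end Pool.Agent.Lib.MP_cb8a44_nt.RM
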