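import Pool.Agent.Lib.MP_cb8a44_nt.RM.SpecM

section
/-!
# MP_cb8a44_nt, block RM, module AUE: Auerbach's lemma
-/
set_option autoImplicit false

open MeasureTheory Matrix Set
open scoped ENNReal

namespace Pool.Agent.Lib.MP_cb8a44_nt.RM

namespace AUEM

variable {ι : Type} [Fintype ι] [DecidableEq ι] {p : (ι → ℝ) → ℝ}

theorem eu_single (i : ι) (t : ℝ) (ht : 0 ≤ t) : eu (Pi.single i t : ι → ℝ) = t := by
  unfold eu
  rw [Finset.sum_eq_single i]
  · rw [Pi.single_eq_same, Real.sqrt_sq ht]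
  · intro j _ hj
    rw [Pi.single_eq_of_ne hj]; ring
  · intro h; exact absurd (Finset.mem_univ i) h

/-- The maximal basis. -/
theorem exists_max (hNM1 : SpecNM1) (hp : Nm p) :
    ∃ b : ι → ι → ℝ, (∀ i, p (b i) ≤ 1) ∧ (Matrix.of b).det ≠ 0 ∧
      ∀ b' : ι → ι → ℝ, (∀ i, p (b' i) ≤ 1) → |(Matrix.of b').det| ≤ |(Matrix.of b).det| := by
  have hK : IsCompact (Set.pi Set.univ (fun _ : ι => bl p)) :=
    isCompact_univ_pi (fun _ => hNM1.cpt hp)
  have hne : (Set.pi Set.univ (fun _ : ι => bl p)).Nonempty := by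
    refine ⟨fun _ => 0, fun i _ => ?_⟩
    change p 0 ≤ 1
    rw [hNM1.zero hp]; exact zero_le_one
  have hc : Continuous (fun b : ι → ι → ℝ => |(Matrix.of b).det|) := by
    apply Continuous.abs
    apply Continuous.matrix_det
    exact continuous_id
  obtain ⟨b, hb, hmax⟩ := hK.exists_isMaxOn hne hc.continuousOn
  have hm : ∀ b' : ι → ι → ℝ, (∀ i, p (b' i) ≤ 1) → |(Matrix.of b').det| ≤ |(Matrix.of b).det| :=
    fun b' hb' => hmax (fun i _ => hb' i)
  refine ⟨b, fun i => hb i (Set.mem_univ i), ?_, hm⟩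
  obtain ⟨C, hC, hbd⟩ := hNM1.bd hp
  have h1 := hm (fun i => Pi.single i C⁻¹) (fun i => by
    have := (hbd (Pi.single i C⁻¹)).1
    rw [eu_single i _ (inv_nonneg.2 hC.le), mul_inv_cancel₀ hC.ne'] at this
    exact this)
  have h2 : (Matrix.of (fun i => (Pi.single i C⁻¹ : ι → ℝ))) = Matrix.diagonal (fun _ => C⁻¹) := by
    ext i j
    rw [Matrix.of_apply, Matrix.diagonal_apply]
    by_cases h : i = j
    · subst h; simp
    · rw [if_neg h, Pi.single_eq_of_ne (Ne.symm h)]
  rw [h2, Matrix.det_diagonal, Finset.prod_const] at h1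
  intro h0
  rw [h0, abs_zero] at h1
  have : 0 < |C⁻¹ ^ (Finset.univ : Finset ι).card| := abs_pos.2 (pow_ne_zero _ (inv_ne_zero hC.ne'))
  linarith

/-- The coordinates in the maximal basis are at most the norm. -/
theorem coord_le (hNM1 : SpecNM1) (hp : Nm p) (b : ι → ι → ℝ) (hb : ∀ i, p (b i) ≤ 1)
    (hd : (Matrix.of b).det ≠ 0)
    (hm : ∀ b' : ι → ι → ℝ, (∀ i, p (b' i) ≤ 1) → |(Matrix.of b').det| ≤ |(Matrix.of b).det|)
    (x : ι → ℝ) (i : ι) : |(((Matrix.of b)ᵀ)⁻¹ *ᵥ x) i| ≤ p x := by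
  have key : ∀ y : ι → ℝ, p y ≤ 1 → |(((Matrix.of b)ᵀ)⁻¹ *ᵥ y) i| ≤ 1 := by
    intro y hy
    have h1 := hm (Function.update b i y) (fun j => by
      by_cases h : j = i
      · subst h; rw [Function.update_self]; exact hy
      · rw [Function.update_of_ne h]; exact hb j)
    have h2 : ((Matrix.of (Function.update b i y))).det = Matrix.cramer ((Matrix.of b)ᵀ) y i := by
      rw [Matrix.cramer_transpose_apply]
      rfl
    rw [h2] at h1
    have h3 : (((Matrix.of b)ᵀ)⁻¹ *ᵥ y) i = ((Matrix.of b).det)⁻¹ * Matrix.cramer ((Matrix.of b)ᵀ) y i := by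
      rw [Matrix.inv_def, Matrix.det_transpose, Ring.inverse_eq_inv', Matrix.cramer_eq_adjugate_mulVec,
        Matrix.smul_mulVec, Pi.smul_apply, smul_eq_mul]
    rw [h3, abs_mul, abs_inv]
    have h4 : 0 < |(Matrix.of b).det| := abs_pos.2 hd
    calc |(Matrix.of b).det|⁻¹ * |Matrix.cramer ((Matrix.of b)ᵀ) y i|
        ≤ |(Matrix.of b).det|⁻¹ * |(Matrix.of b).det| :=
          mul_le_mul_of_nonneg_left h1 (inv_nonneg.2 h4.le)
      _ = 1 := inv_mul_cancel₀ h4.ne'
  by_cases hx : x = 0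
  · rw [hx, Matrix.mulVec_zero, hNM1.zero hp]; simp
  · have hpx : 0 < p x := hp.pos x hx
    have h1 := key ((p x)⁻¹ • x) (by
      rw [hp.smul, abs_of_pos (inv_pos.2 hpx), inv_mul_cancel₀ hpx.ne'])
    rw [Matrix.mulVec_smul, Pi.smul_apply, smul_eq_mul, abs_mul, abs_of_pos (inv_pos.2 hpx),
      inv_mul_le_iff₀ hpx, mul_one] at h1
    exact h1

theorem sum_le (hNM1 : SpecNM1) (hp : Nm p) (s : Finset ι) (f : ι → ι → ℝ) :
    p (∑ i ∈ s, f i) ≤ ∑ i ∈ s, p (f i) := by
  induction s using Finset.induction_on with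
  | empty => simp [hNM1.zero hp]
  | insert a s ha ih =>
    rw [Finset.sum_insert ha, Finset.sum_insert ha]
    exact (hp.add _ _).trans (add_le_add le_rfl ih)

end AUEM

open AUEM in
theorem specAUE (hNM1 : SpecNM1) : SpecAUE := by
  intro ι _ _ _ p hp
  obtain ⟨b, hb, hd, hm⟩ := exists_max hNM1 hp
  have hn : (0 : ℝ) < Fintype.card ι := by
    have := Fintype.card_pos (α := ι)
    exact_mod_cast this
  have hs : 0 < Real.sqrt (Fintype.card ι) := Real.sqrt_pos.2 hn
  set B : Matrix ι ι ℝ := (Matrix.of b)ᵀ with hB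
  have hBd : B.det ≠ 0 := by rw [hB, Matrix.det_transpose]; exact hd
  have hBu : IsUnit B.det := isUnit_iff_ne_zero.2 hBd
  refine ⟨Real.sqrt (Fintype.card ι) • B⁻¹, ?_, ?_⟩
  · rw [Matrix.det_smul, Matrix.det_nonsing_inv, Ring.inverse_eq_inv']
    exact mul_ne_zero (pow_ne_zero _ hs.ne') (inv_ne_zero hBd)
  · intro x
    set c : ι → ℝ := B⁻¹ *ᵥ x with hc
    have hcoord : ∀ i, |c i| ≤ p x := fun i => coord_le hNM1 hp b hb hd hm x i
    have heu : eu ((Real.sqrt (Fintype.card ι) • B⁻¹) *ᵥ x)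
        = Real.sqrt (Fintype.card ι) * eu c := by
      rw [Matrix.smul_mulVec, ← hc, hNM1.euc.smul, abs_of_pos hs]
    have hx : x = ∑ i, c i • b i := by
      have h1 : B *ᵥ c = x := by
        rw [hc, Matrix.mulVec_mulVec, Matrix.mul_nonsing_inv B hBu, Matrix.one_mulVec]
      rw [← h1]
      ext j
      rw [Finset.sum_apply, Matrix.mulVec, dotProduct]
      refine Finset.sum_congr rfl (fun i _ => ?_)
      rw [hB, Matrix.transpose_apply, Matrix.of_apply, Pi.smul_apply, smul_eq_mul, mul_comm]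
    have hpx0 : 0 ≤ p x := hNM1.nonneg hp x
    rw [heu]
    constructor
    · have h1 : p x ≤ ∑ i, |c i| := by
        calc p x = p (∑ i, c i • b i) := by rw [← hx]
          _ ≤ ∑ i, p (c i • b i) := sum_le hNM1 hp _ _
          _ ≤ ∑ i, |c i| := by
            refine Finset.sum_le_sum (fun i _ => ?_)
            rw [hp.smul]
            calc |c i| * p (b i) ≤ |c i| * 1 := mul_le_mul_of_nonneg_left (hb i) (abs_nonneg _)
              _ = |c i| := mul_one _
      have h2 : (∑ i, |c i|) ^ 2 ≤ Fintype.card ι * ∑ i, c i ^ 2 := by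
        have := sq_sum_le_card_mul_sum_sq (s := (Finset.univ : Finset ι)) (f := fun i => |c i|)
        simpa [sq_abs] using this
      have h3 : ∑ i, |c i| ≤ Real.sqrt (Fintype.card ι) * eu c := by
        unfold eu
        rw [← Real.sqrt_mul hn.le]
        exact Real.le_sqrt_of_sq_le h2
      exact h1.trans h3
    · have h1 : eu c ≤ Real.sqrt (Fintype.card ι) * p x := by
        unfold eu
        rw [← Real.sqrt_sq hpx0, ← Real.sqrt_mul hn.le]
        apply Real.sqrt_le_sqrt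
        calc ∑ i, c i ^ 2 ≤ ∑ _i : ι, p x ^ 2 := by
              refine Finset.sum_le_sum (fun i _ => ?_)
              rw [← sq_abs]
              exact pow_le_pow_left₀ (abs_nonneg _) (hcoord i) 2
          _ = Fintype.card ι * p x ^ 2 := by simp
      calc Real.sqrt (Fintype.card ι) * eu c
          ≤ Real.sqrt (Fintype.card ι) * (Real.sqrt (Fintype.card ι) * p x) :=
            mul_le_mul_of_nonneg_left h1 hs.le
        _ = Fintype.card ι * p x := by rw [← mul_assoc, Real.mul_self_sqrt hn.le]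

end Pool.Agent.Lib.MP_cb8a44_nt.RM
end

section
/-!
# DSU: dual Sudakov inequality by packing
-/
open MeasureTheory Matrix Set
open scoped ENNReal

namespace Pool.Agent.Lib.MP_cb8a44_nt.RM

namespace DSUM

/-- the integral of a product of functions of one variable, index set `Fin n` -/
theorem lintegral_fin : ∀ (n : ℕ) (f : Fin n → ℝ → ℝ≥0∞), (∀ i, Measurable (f i)) →
    ∫⁻ x : Fin n → ℝ, ∏ i, f i (x i) = ∏ i, ∫⁻ t, f i t
  | 0, f, hf => by
      have h : ∀ x : Fin 0 → ℝ, ∏ i, f i (x i) = 1 := fun x => by simp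
      simp only [h, lintegral_const, one_mul]
      rw [volume_pi]
      simp
  | n + 1, f, hf => by
      have h := (volume_preserving_piFinSuccAbove (fun _ : Fin (n + 1) => ℝ) 0).symm
      rw [← h.map_eq, lintegral_map_equiv]
      have h2 : ∀ a : ℝ × (Fin n → ℝ), ∏ i, f i
          ((MeasurableEquiv.piFinSuccAbove (fun _ => ℝ) 0).symm a i) =
          f 0 a.1 * ∏ j, f (Fin.succ j) (a.2 j) := by
        intro a
        rw [Fin.prod_univ_succ]
        simp [MeasurableEquiv.piFinSuccAbove]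
      simp only [h2]
      have hm : Measurable fun x : Fin n → ℝ => ∏ j, f (Fin.succ j) (x j) :=
        Finset.measurable_fun_prod _ fun j _ => (hf j.succ).comp (measurable_pi_apply j)
      rw [Measure.volume_eq_prod, lintegral_prod_mul (hf 0).aemeasurable hm.aemeasurable]
      rw [Fin.prod_univ_succ]
      congr 1
      exact lintegral_fin n (fun j => f j.succ) fun j => hf _

/-- the same, any finite index set -/
theorem lintegral_prod_pi {ι : Type} [Fintype ι] (f : ι → ℝ → ℝ≥0∞)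
    (hf : ∀ i, Measurable (f i)) :
    ∫⁻ x : ι → ℝ, ∏ i, f i (x i) = ∏ i, ∫⁻ t, f i t := by
  let e : Fin (Fintype.card ι) ≃ ι := (Fintype.equivFin ι).symm
  have h := volume_measurePreserving_piCongrLeft (fun _ : ι => ℝ) e
  rw [← h.map_eq, lintegral_map_equiv]
  have h2 : ∀ y : Fin (Fintype.card ι) → ℝ,
      ∏ i, f i ((MeasurableEquiv.piCongrLeft (fun _ : ι => ℝ) e) y i) =
        ∏ j, f (e j) (y j) := by
    intro y
    rw [← Equiv.prod_comp e]
    refine Finset.prod_congr rfl (fun j _ => ?_)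
    congr 1
    exact Equiv.piCongrLeft_apply_apply (fun _ : ι => ℝ) e y j
  simp only [h2]
  rw [lintegral_fin _ (fun j => f (e j)) (fun j => hf _), Equiv.prod_comp e
    (fun i => ∫⁻ t, f i t)]

variable {ι : Type} [Fintype ι]

/-- the Gaussian density -/
noncomputable def dens (x : ι → ℝ) : ℝ≥0∞ := ∏ i, ProbabilityTheory.gaussianPDF 0 1 (x i)

theorem measurable_dens : Measurable (dens : (ι → ℝ) → ℝ≥0∞) :=
  Finset.measurable_fun_prod _ fun i _ =>
    (ProbabilityTheory.measurable_gaussianPDF 0 1).comp (measurable_pi_apply i)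

theorem gm_eq : gm ι = (volume : Measure (ι → ℝ)).withDensity dens := by
  unfold gm
  apply Measure.pi_eq
  intro s hs
  rw [withDensity_apply _ (MeasurableSet.univ_pi hs),
    ← lintegral_indicator (MeasurableSet.univ_pi hs)]
  have h : (fun x : ι → ℝ => (univ.pi s).indicator dens x) =
      fun x => ∏ i, (s i).indicator (ProbabilityTheory.gaussianPDF 0 1) (x i) := by
    funext x
    by_cases hx : x ∈ univ.pi s
    · rw [indicator_of_mem hx]
      exact Finset.prod_congr rfl fun i _ => (indicator_of_mem (hx i (mem_univ i)) _).symm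
    · rw [indicator_of_notMem hx]
      simp only [mem_univ_pi, not_forall] at hx
      obtain ⟨i, hi⟩ := hx
      exact (Finset.prod_eq_zero (Finset.mem_univ i) (indicator_of_notMem hi _)).symm
  rw [h, lintegral_prod_pi _ fun i =>
    (ProbabilityTheory.measurable_gaussianPDF 0 1).indicator (hs i)]
  refine Finset.prod_congr rfl fun i _ => ?_
  rw [lintegral_indicator (hs i), ProbabilityTheory.gaussianReal_of_var_ne_zero 0 one_ne_zero,
    withDensity_apply _ (hs i)]

instance : IsProbabilityMeasure (gm ι) := by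
  unfold gm
  infer_instance

theorem dens_shift (x a : ι → ℝ) :
    dens (x + a) = ENNReal.ofReal (Real.exp (-(x ⬝ᵥ a) - eu a ^ 2 / 2)) * dens x := by
  have h1 : eu a ^ 2 = ∑ i, a i ^ 2 := by
    unfold eu
    rw [Real.sq_sqrt (Finset.sum_nonneg (fun i _ => sq_nonneg _))]
  have h2 : -(x ⬝ᵥ a) - eu a ^ 2 / 2 = ∑ i, (-(x i * a i) - a i ^ 2 / 2) := by
    rw [h1, Finset.sum_sub_distrib, Finset.sum_neg_distrib, Finset.sum_div]
    rfl
  unfold dens
  rw [h2, Real.exp_sum, ENNReal.ofReal_prod_of_nonneg (fun i _ => (Real.exp_pos _).le),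
    ← Finset.prod_mul_distrib]
  refine Finset.prod_congr rfl fun i _ => ?_
  unfold ProbabilityTheory.gaussianPDF
  rw [← ENNReal.ofReal_mul (Real.exp_pos _).le]
  congr 1
  unfold ProbabilityTheory.gaussianPDFReal
  rw [mul_left_comm, ← Real.exp_add]
  congr 2
  simp only [Pi.add_apply, NNReal.coe_one]
  ring

theorem dens_neg (x : ι → ℝ) : dens (-x) = dens x := by
  unfold dens
  refine Finset.prod_congr rfl fun i _ => ?_
  unfold ProbabilityTheory.gaussianPDF
  congr 1
  unfold ProbabilityTheory.gaussianPDFReal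
  congr 2
  simp only [Pi.neg_apply]
  ring

/-- the Gaussian measure of a translate of a symmetric set -/
theorem shift_le (U : Set (ι → ℝ)) (hU : MeasurableSet U) (hs : ∀ x, -x ∈ U ↔ x ∈ U)
    (a : ι → ℝ) :
    ENNReal.ofReal (Real.exp (-(eu a ^ 2 / 2))) * gm ι U ≤ gm ι {z | z - a ∈ U} := by
  have hUa : MeasurableSet {z : ι → ℝ | z - a ∈ U} := hU.preimage (measurable_id.sub_const a)
  have e1 : gm ι {z | z - a ∈ U} = ∫⁻ x in U, dens (x + a) := by
    rw [gm_eq, withDensity_apply _ hUa, ← lintegral_indicator hUa, ← lintegral_indicator hU,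
      ← lintegral_sub_right_eq_self (fun x => U.indicator (fun x => dens (x + a)) x) a]
    refine lintegral_congr fun z => ?_
    by_cases hz : z - a ∈ U
    · rw [indicator_of_mem (show z ∈ {z | z - a ∈ U} from hz), indicator_of_mem hz,
        sub_add_cancel]
    · rw [indicator_of_notMem (show z ∉ {z | z - a ∈ U} from hz), indicator_of_notMem hz]
  have e2 : ∫⁻ x in U, dens (x + -a) = ∫⁻ x in U, dens (x + a) := by
    rw [← lintegral_indicator hU, ← lintegral_indicator hU,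
      ← lintegral_neg_eq_self (fun x => U.indicator (fun x => dens (x + -a)) x)]
    refine lintegral_congr fun z => ?_
    by_cases hz : z ∈ U
    · rw [indicator_of_mem ((hs z).2 hz), indicator_of_mem hz, ← neg_add, dens_neg]
    · rw [indicator_of_notMem (fun h => hz ((hs z).1 h)), indicator_of_notMem hz]
  have hm : ∀ b : ι → ℝ, Measurable (fun x : ι → ℝ => dens (x + b)) := fun b =>
    measurable_dens.comp (measurable_id.add_const b)
  have e3 : ∀ x : ι → ℝ, 2 * (ENNReal.ofReal (Real.exp (-(eu a ^ 2 / 2))) * dens x) ≤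
      dens (x + a) + dens (x + -a) := by
    intro x
    rw [dens_shift, dens_shift]
    have h1 : eu (-a) = eu a := by
      unfold eu
      congr 1
      exact Finset.sum_congr rfl (fun i _ => by rw [Pi.neg_apply, neg_sq])
    rw [h1, ← add_mul, ← mul_assoc]
    refine mul_le_mul' ?_ le_rfl
    rw [← ENNReal.ofReal_add (Real.exp_pos _).le (Real.exp_pos _).le,
      show (2 : ℝ≥0∞) = ENNReal.ofReal 2 by simp, ← ENNReal.ofReal_mul (by norm_num)]
    apply ENNReal.ofReal_le_ofReal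
    rw [dotProduct_neg, neg_neg, sub_eq_add_neg, sub_eq_add_neg, Real.exp_add, Real.exp_add,
      ← add_mul]
    apply mul_le_mul_of_nonneg_right _ (Real.exp_pos _).le
    have h2 := Real.add_one_le_exp (-(x ⬝ᵥ a))
    have h3 := Real.add_one_le_exp (x ⬝ᵥ a)
    linarith
  have e4 : 2 * (ENNReal.ofReal (Real.exp (-(eu a ^ 2 / 2))) * gm ι U) ≤
      2 * gm ι {z | z - a ∈ U} := by
    calc 2 * (ENNReal.ofReal (Real.exp (-(eu a ^ 2 / 2))) * gm ι U)
        = ∫⁻ x in U, 2 * (ENNReal.ofReal (Real.exp (-(eu a ^ 2 / 2))) * dens x) := by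
          rw [gm_eq, withDensity_apply _ hU, lintegral_const_mul _ (measurable_dens.const_mul _),
            lintegral_const_mul _ measurable_dens]
      _ ≤ ∫⁻ x in U, (dens (x + a) + dens (x + -a)) := lintegral_mono e3
      _ = (∫⁻ x in U, dens (x + a)) + ∫⁻ x in U, dens (x + -a) := lintegral_add_left (hm a) _
      _ = 2 * gm ι {z | z - a ∈ U} := by rw [e2, e1, two_mul]
  exact (ENNReal.mul_le_mul_iff_right two_ne_zero (by simp)).1 e4

theorem nm_neg {q : (ι → ℝ) → ℝ} (hq : Nm q) (x : ι → ℝ) : q (-x) = q x := by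
  have h := hq.smul (-1) x
  rwa [abs_neg, abs_one, one_mul, neg_one_smul] at h

/-- the packing bound -/
theorem card_le (hNM1 : SpecNM1) [Nonempty ι] {p : (ι → ℝ) → ℝ} (hp : Nm p) {s : ℝ} (hs : 0 < s)
    (X : Finset (ι → ℝ)) (h1 : ∀ x ∈ X, eu x ≤ 1)
    (h2 : ∀ x ∈ X, ∀ y ∈ X, x ≠ y → s < p (x - y)) :
    (X.card : ℝ) ≤ 2 * Real.exp (8 * ell p ^ 2 / s ^ 2) := by
  have hL : 0 < ell p := hNM1.el hp
  have hp0 : ∀ x, 0 ≤ p x := hNM1.nonneg hp
  set L := ell p with hLdef
  set l : ℝ := 4 * L / s with hl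
  have hl0 : 0 < l := by positivity
  set U : Set (ι → ℝ) := {x | p x < 2 * L} with hU
  have hUm : MeasurableSet U := (isOpen_lt (hNM1.cont hp) continuous_const).measurableSet
  have hUs : ∀ x, -x ∈ U ↔ x ∈ U := by
    intro x
    change p (-x) < 2 * L ↔ p x < 2 * L
    rw [nm_neg hp]
  -- Markov
  have hmk : (1 / 2 : ℝ) ≤ (gm ι).real U := by
    have hc : Uᶜ = {x | 2 * L ≤ p x} := by
      ext x
      simp [hU]
    have h3 := mul_meas_ge_le_integral_of_nonneg (μ := gm ι) (f := p)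
      (Filter.Eventually.of_forall hp0) (hNM1.int hp) (2 * L)
    rw [← hc] at h3
    have h4 : (gm ι).real Uᶜ ≤ 1 / 2 := by
      have h5 : 2 * L * (gm ι).real Uᶜ ≤ L := h3
      have h6 : 2 * L * (gm ι).real Uᶜ ≤ 2 * L * (1 / 2) := by linarith
      exact le_of_mul_le_mul_left h6 (by positivity)
    rw [probReal_compl_eq_one_sub hUm] at h4
    linarith
  -- translates
  set V : (ι → ℝ) → Set (ι → ℝ) := fun x => {z | z - l • x ∈ U} with hV
  have hVm : ∀ x, MeasurableSet (V x) := fun x => hUm.preimage (measurable_id.sub_const _)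
  have hVge : ∀ x ∈ X, Real.exp (-(l ^ 2 / 2)) * (1 / 2) ≤ (gm ι).real (V x) := by
    intro x hx
    have h3 := shift_le U hUm hUs (l • x)
    have h4 := ENNReal.toReal_mono (measure_ne_top (gm ι) _) h3
    rw [ENNReal.toReal_mul, ENNReal.toReal_ofReal (Real.exp_pos _).le] at h4
    refine le_trans ?_ h4
    apply mul_le_mul _ hmk (by norm_num) (Real.exp_pos _).le
    apply Real.exp_le_exp.2
    have h5 : eu (l • x) ≤ l := by
      rw [(hNM1.euc).smul, abs_of_pos hl0]
      calc l * eu x ≤ l * 1 := mul_le_mul_of_nonneg_left (h1 x hx) hl0.le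
        _ = l := mul_one l
    have h6 : eu (l • x) ^ 2 ≤ l ^ 2 := pow_le_pow_left₀ (hNM1.nonneg hNM1.euc _) h5 2
    linarith
  have hdisj : Set.PairwiseDisjoint (X : Set (ι → ℝ)) V := by
    intro x hx y hy hxy
    change Disjoint (V x) (V y)
    rw [Set.disjoint_left]
    intro z hz1 hz2
    have h3 : p (z - l • x) < 2 * L := hz1
    have h4 : p (z - l • y) < 2 * L := hz2
    have h5 := h2 x hx y hy hxy
    have h6 : l • (x - y) = (z - l • y) + -(z - l • x) := by
      rw [smul_sub]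
      abel
    have h7 : p (l • (x - y)) < 4 * L := by
      rw [h6]
      refine (hp.add _ _).trans_lt ?_
      rw [nm_neg hp]
      linarith
    rw [hp.smul, abs_of_pos hl0] at h7
    have h8 : l * s < l * p (x - y) := mul_lt_mul_of_pos_left h5 hl0
    have h9 : l * s = 4 * L := by
      rw [hl]
      field_simp
    linarith
  have hsum : ∑ x ∈ X, (gm ι).real (V x) ≤ 1 := by
    rw [← measureReal_biUnion_finset hdisj (fun x _ => hVm x)]
    exact measureReal_le_one
  have hsum2 : (X.card : ℝ) * (Real.exp (-(l ^ 2 / 2)) * (1 / 2)) ≤ 1 := by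
    refine le_trans ?_ hsum
    rw [← nsmul_eq_mul, ← Finset.sum_const]
    exact Finset.sum_le_sum hVge
  have h10 : 8 * L ^ 2 / s ^ 2 = l ^ 2 / 2 := by
    rw [hl]
    ring
  rw [h10]
  rw [Real.exp_neg] at hsum2
  have h11 : 0 < Real.exp (l ^ 2 / 2) := Real.exp_pos _
  have h12 : (X.card : ℝ) * ((Real.exp (l ^ 2 / 2))⁻¹ * (1 / 2)) * (2 * Real.exp (l ^ 2 / 2)) =
      X.card := by
    field_simp
  rw [← h12]
  calc (X.card : ℝ) * ((Real.exp (l ^ 2 / 2))⁻¹ * (1 / 2)) * (2 * Real.exp (l ^ 2 / 2))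
      ≤ 1 * (2 * Real.exp (l ^ 2 / 2)) := mul_le_mul_of_nonneg_right hsum2 (by positivity)
    _ = 2 * Real.exp (l ^ 2 / 2) := one_mul _

end DSUM

open DSUM in
theorem specDSU (hNM1 : SpecNM1) : SpecDSU := by
  intro ι _ p s hp hs
  classical
  rcases isEmpty_or_nonempty ι with hι | hι
  · refine ⟨{0}, ?_, ?_, ?_⟩
    · intro x _
      have : x = 0 := Subsingleton.elim _ _
      rw [this, hNM1.zero hNM1.euc]
      exact zero_le_one
    · rw [Finset.card_singleton]
      have h1 : (1 : ℝ) ≤ Real.exp (8 * ell p ^ 2 / s ^ 2) := Real.one_le_exp (by positivity)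
      push_cast
      linarith
    · intro x _
      refine ⟨0, Finset.mem_singleton_self _, ?_⟩
      have : x - 0 = 0 := Subsingleton.elim _ _
      rw [this, hNM1.zero hp]
      exact hs.le
  · set S : Set ℕ := {k | ∃ X : Finset (ι → ℝ), (∀ x ∈ X, eu x ≤ 1) ∧
      (∀ x ∈ X, ∀ y ∈ X, x ≠ y → s < p (x - y)) ∧ X.card = k} with hS
    have hne : S.Nonempty := ⟨0, ∅, by simp, by simp, rfl⟩
    have hbdd : BddAbove S := by
      refine ⟨⌊2 * Real.exp (8 * ell p ^ 2 / s ^ 2)⌋₊, ?_⟩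
      rintro k ⟨X, h1, h2, rfl⟩
      exact Nat.le_floor (card_le hNM1 hp hs X h1 h2)
    obtain ⟨X, h1, h2, h3⟩ := Nat.sSup_mem hne hbdd
    refine ⟨X, h1, card_le hNM1 hp hs X h1 h2, ?_⟩
    intro x hx
    by_contra hcon
    push Not at hcon
    have hxX : x ∉ X := by
      intro h
      have h4 := hcon x h
      rw [sub_self, hNM1.zero hp] at h4
      exact absurd h4 (not_lt.2 hs.le)
    have h5 : (insert x X).card ∈ S := by
      refine ⟨insert x X, ?_, ?_, rfl⟩
      · intro y hy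
        rcases Finset.mem_insert.1 hy with rfl | hy
        · exact hx
        · exact h1 y hy
      · intro y hy z hz hyz
        rcases Finset.mem_insert.1 hy with hy' | hy'
        · rcases Finset.mem_insert.1 hz with hz' | hz'
          · exact absurd (hy'.trans hz'.symm) hyz
          · rw [hy']
            exact hcon z hz'
        · rcases Finset.mem_insert.1 hz with hz' | hz'
          · rw [hz', ← nm_neg hp, neg_sub]
            exact hcon y hy'
          · exact h2 y hy' z hz' hyz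
    have h6 := le_csSup hbdd h5
    rw [Finset.card_insert_of_notMem hxX, h3] at h6
    omega

end Pool.Agent.Lib.MP_cb8a44_nt.RM
end

section
/-!
# GIN: linear invariance
-/
open MeasureTheory Matrix Set
open scoped ENNReal

namespace Pool.Agent.Lib.MP_cb8a44_nt.RM

namespace GINM

variable {ι : Type} [Fintype ι] [DecidableEq ι]

theorem det_ne {A : Matrix ι ι ℝ} (hA : A.det ≠ 0) : LinearMap.det (Matrix.toLin' A) ≠ 0 := by
  rwa [LinearMap.det_toLin']

theorem vol_comp (p : (ι → ℝ) → ℝ) {A : Matrix ι ι ℝ} (hA : A.det ≠ 0) :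
    vol (fun x => p (A *ᵥ x)) = |A.det|⁻¹ * vol p := by
  have h1 : bl (fun x => p (A *ᵥ x)) = (Matrix.toLin' A) ⁻¹' bl p := rfl
  unfold vol
  rw [h1, Measure.addHaar_preimage_linearMap volume (det_ne hA), LinearMap.det_toLin',
    ENNReal.toReal_mul, ENNReal.toReal_ofReal (abs_nonneg _), abs_inv]

theorem embedding {A : Matrix ι ι ℝ} (hA : A.det ≠ 0) :
    MeasurableEmbedding (Matrix.toLin' A : (ι → ℝ) → (ι → ℝ)) := by
  apply Continuous.measurableEmbedding
  · exact LinearMap.continuous_of_finiteDimensional _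
  · intro x y hxy
    have hu : IsUnit A.det := isUnit_iff_ne_zero.2 hA
    have h1 : A⁻¹ *ᵥ (A *ᵥ x) = A⁻¹ *ᵥ (A *ᵥ y) := by
      have : A *ᵥ x = A *ᵥ y := hxy
      rw [this]
    rwa [Matrix.mulVec_mulVec, Matrix.mulVec_mulVec, Matrix.nonsing_inv_mul A hu,
      Matrix.one_mulVec, Matrix.one_mulVec] at h1

theorem gmass_comp (p : (ι → ℝ) → ℝ) {A : Matrix ι ι ℝ} (hA : A.det ≠ 0) (C : Matrix ι ι ℝ) :
    gmass (fun x => p (A *ᵥ x)) C = gmass p (C * A⁻¹) := by
  have hu : IsUnit A.det := isUnit_iff_ne_zero.2 hA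
  have h2 := (embedding hA).setIntegral_map (μ := (volume : Measure (ι → ℝ)))
    (fun y => Real.exp (-(Real.pi * ∑ i, ((C * A⁻¹) *ᵥ y) i ^ 2))) (bl p)
  rw [Measure.map_linearMap_addHaar_eq_smul_addHaar volume (det_ne hA), LinearMap.det_toLin',
    Measure.restrict_smul, integral_smul_measure, ENNReal.toReal_ofReal (abs_nonneg _)] at h2
  have h3 : ∀ x, Real.exp (-(Real.pi * ∑ i, ((C * A⁻¹) *ᵥ (Matrix.toLin' A x)) i ^ 2)) =
      Real.exp (-(Real.pi * ∑ i, (C *ᵥ x) i ^ 2)) := by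
    intro x
    rw [Matrix.toLin'_apply, Matrix.mulVec_mulVec, Matrix.mul_assoc, Matrix.nonsing_inv_mul A hu,
      Matrix.mul_one]
  simp only [h3] at h2
  unfold gmass
  have h1 : bl (fun x => p (A *ᵥ x)) = (Matrix.toLin' A) ⁻¹' bl p := rfl
  rw [h1, ← h2, Matrix.det_mul, Matrix.det_nonsing_inv, Ring.inverse_eq_inv', abs_mul,
    smul_eq_mul]
  ring

theorem good_comp {p : (ι → ℝ) → ℝ} {A : Matrix ι ι ℝ} {c : ℝ} (hA : A.det ≠ 0)
    (h : Good p c) : Good (fun x => p (A *ᵥ x)) c := by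
  have hu : IsUnit A.det := isUnit_iff_ne_zero.2 hA
  obtain ⟨B, hB, hc⟩ := h
  refine ⟨B * A, ?_, ?_⟩
  · rw [vol_comp p hA, Matrix.det_mul, abs_mul]
    have h1 : |A.det| ≠ 0 := abs_ne_zero.2 hA
    calc |B.det| * |A.det| * (|A.det|⁻¹ * vol p) = |B.det| * vol p * (|A.det| * |A.det|⁻¹) := by
          ring
      _ = 1 := by rw [mul_inv_cancel₀ h1, mul_one, hB]
  · rw [gmass_comp p hA, Matrix.mul_assoc, Matrix.mul_nonsing_inv A hu, Matrix.mul_one]
    exact hc

theorem inv_ne {A : Matrix ι ι ℝ} (hA : A.det ≠ 0) : A⁻¹.det ≠ 0 := by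
  rw [Matrix.det_nonsing_inv, Ring.inverse_eq_inv']
  exact inv_ne_zero hA

theorem comp_inv (p : (ι → ℝ) → ℝ) {A : Matrix ι ι ℝ} (hA : A.det ≠ 0) :
    (fun x => (fun y => p (A *ᵥ y)) (A⁻¹ *ᵥ x)) = p := by
  have hu : IsUnit A.det := isUnit_iff_ne_zero.2 hA
  funext x
  simp only [Matrix.mulVec_mulVec, Matrix.mul_nonsing_inv A hu, Matrix.one_mulVec]

theorem dist_comp {p : (ι → ℝ) → ℝ} {A : Matrix ι ι ℝ} {D : ℝ} (hA : A.det ≠ 0)
    (h : Dist p D) : Dist (fun x => p (A *ᵥ x)) D := by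
  obtain ⟨B, hB, hc⟩ := h
  refine ⟨B * A, ?_, fun x => ?_⟩
  · rw [Matrix.det_mul]
    exact mul_ne_zero hB hA
  · rw [← Matrix.mulVec_mulVec]
    exact hc (A *ᵥ x)

end GINM

open GINM in
theorem specGIN : SpecGIN where
  good := by
    intro ι _ _ p A c _ hA
    constructor
    · intro h
      have h1 := good_comp (inv_ne hA) h
      rwa [comp_inv p hA] at h1
    · exact good_comp hA
  dist := by
    intro ι _ _ p A D hA
    constructor
    · intro h
      have h1 := dist_comp (inv_ne hA) h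
      rwa [comp_inv p hA] at h1
    · exact dist_comp hA
  mono := by
    intro ι _ _ p D D' hp hDD h
    obtain ⟨B, hB, hc⟩ := h
    refine ⟨B, hB, fun x => ⟨(hc x).1, (hc x).2.trans ?_⟩⟩
    have h0 : 0 ≤ p x := by
      by_cases hx : x = 0
      · have h1 := hp.smul 0 x
        rw [abs_zero, zero_mul, zero_smul, ← hx] at h1
        exact h1.ge
      · exact (hp.pos x hx).le
    exact mul_le_mul_of_nonneg_right hDD h0

end Pool.Agent.Lib.MP_cb8a44_nt.RM
end

section
/-!
# MP_cb8a44_nt, block RM, module GAU: the gauge of a convex body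
-/
set_option autoImplicit false

open MeasureTheory Matrix Set
open scoped ENNReal

namespace Pool.Agent.Lib.MP_cb8a44_nt.RM

theorem specGAU : SpecGAU := by
  intro ι _ V hV hc hs h0
  have hnhds : V ∈ nhds (0 : ι → ℝ) := mem_interior_iff_mem_nhds.mp h0
  have habs : Absorbent ℝ V := absorbent_nhds_zero hnhds
  have hb : Bornology.IsVonNBounded ℝ V := NormedSpace.isVonNBounded_of_isBounded ℝ hV.isBounded
  refine ⟨gauge V, ⟨fun x y => gauge_add_le hc habs x y, ?_, fun x hx => (gauge_pos habs hb).mpr hx⟩,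
    ?_⟩
  · intro c x
    have key : ∀ (c : ℝ), 0 ≤ c → ∀ x : ι → ℝ, gauge V (c • x) = c * gauge V x := by
      intro c hc0 x
      simpa using gauge_smul_of_nonneg (s := V) hc0 x
    rcases le_total 0 c with h | h
    · rw [key c h, abs_of_nonneg h]
    · rw [← gauge_neg hs, ← neg_smul, key (-c) (by linarith), abs_of_nonpos h]
  · ext x
    show gauge V x ≤ 1 ↔ x ∈ V
    rw [gauge_le_one_iff_mem_closure hc hnhds, hV.isClosed.closure_eq]

end Pool.Agent.Lib.MP_cb8a44_nt.RM
end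

section
/-!
# MP_cb8a44_nt, block RM, module GTR: transfer of good positions
-/
set_option autoImplicit false

open MeasureTheory Matrix Set
open scoped ENNReal Pointwise

namespace Pool.Agent.Lib.MP_cb8a44_nt.RM

namespace GTRM

variable {ι : Type} [Fintype ι] [DecidableEq ι]

/-- the density -/
noncomputable def dn (A : Matrix ι ι ℝ) (x : ι → ℝ) : ℝ :=
  Real.exp (-(Real.pi * ∑ i, (A *ᵥ x) i ^ 2))

theorem gmass_eq (p : (ι → ℝ) → ℝ) (A : Matrix ι ι ℝ) :
    gmass p A = |A.det| * ∫ x in bl p, dn A x := rfl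

theorem dn_cont (A : Matrix ι ι ℝ) : Continuous (dn A) := by
  unfold dn
  have h : ∀ i, Continuous fun x : ι → ℝ => (A *ᵥ x) i := by
    intro i
    unfold Matrix.mulVec dotProduct
    fun_prop
  refine Real.continuous_exp.comp ((continuous_const.mul ?_).neg)
  exact continuous_finsetSum _ fun i _ => (h i).pow 2

theorem dn_pos (A : Matrix ι ι ℝ) (x : ι → ℝ) : 0 < dn A x := Real.exp_pos _

theorem dn_smul (A : Matrix ι ι ℝ) (l : ℝ) (x : ι → ℝ) : dn (l • A) x = dn A (l • x) := by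
  unfold dn
  rw [Matrix.smul_mulVec, Matrix.mulVec_smul]

theorem dn_int (h1 : SpecNM1) {p : (ι → ℝ) → ℝ} (hp : Nm p) (A : Matrix ι ι ℝ) :
    IntegrableOn (dn A) (bl p) :=
  (dn_cont A).continuousOn.integrableOn_compact (h1.cpt hp)

theorem vol_mono (h1 : SpecNM1) {p w : (ι → ℝ) → ℝ} (hw : Nm w) (h : ∀ x, w x ≤ p x) :
    vol p ≤ vol w := by
  unfold vol
  refine ENNReal.toReal_mono (h1.cpt hw).measure_lt_top.ne (measure_mono ?_)
  intro x hx
  exact (h x).trans hx

/-- the scaling factor -/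
theorem exists_root [Nonempty ι] (t : ℝ) (ht : 0 < t) : ∃ l : ℝ, 0 < l ∧ l ^ Fintype.card ι = t := by
  refine ⟨t ^ ((Fintype.card ι : ℝ)⁻¹), Real.rpow_pos_of_pos ht _, ?_⟩
  exact Real.rpow_inv_natCast_pow ht.le Fintype.card_ne_zero

theorem det_smul' (A : Matrix ι ι ℝ) {l : ℝ} (hl : 0 < l) :
    |(l • A).det| = l ^ Fintype.card ι * |A.det| := by
  rw [Matrix.det_smul, abs_mul, abs_of_pos (pow_pos hl _)]

/-- scaling up increases the mass of the body -/
theorem gmass_up (h1 : SpecNM1) {p : (ι → ℝ) → ℝ} (hp : Nm p) (A : Matrix ι ι ℝ) {l : ℝ}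
    (hl : 1 ≤ l) : gmass p A ≤ gmass p (l • A) := by
  have hl0 : 0 < l := by linarith
  rw [gmass_eq, gmass_eq, det_smul' A hl0]
  have e : ∫ x in bl p, dn (l • A) x = (l ^ Fintype.card ι)⁻¹ * ∫ x in l • bl p, dn A x := by
    simp_rw [dn_smul]
    rw [Measure.setIntegral_comp_smul_of_pos volume (dn A) (bl p) hl0,
      Module.finrank_fintype_fun_eq_card, smul_eq_mul]
  have hne : (l ^ Fintype.card ι) ≠ 0 := (pow_pos hl0 _).ne'
  have e2 : l ^ Fintype.card ι * |A.det| * ((l ^ Fintype.card ι)⁻¹ * ∫ x in l • bl p, dn A x) =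
      |A.det| * ∫ x in l • bl p, dn A x := by
    field_simp
  rw [e, e2]
  refine mul_le_mul_of_nonneg_left ?_ (abs_nonneg _)
  have hcpt : IsCompact (l • bl p) := (h1.cpt hp).smul l
  refine setIntegral_mono_set ((dn_cont A).continuousOn.integrableOn_compact hcpt)
    (Filter.Eventually.of_forall fun x => (dn_pos A x).le) ?_
  refine Filter.Eventually.of_forall fun x hx => ?_
  refine ⟨l⁻¹ • x, ?_, ?_⟩
  · show p (l⁻¹ • x) ≤ 1
    rw [hp.smul, abs_of_pos (inv_pos.mpr hl0)]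
    have hx' : p x ≤ 1 := hx
    have h3 : l⁻¹ ≤ 1 := inv_le_one_of_one_le₀ hl
    have h4 : 0 ≤ p x := h1.nonneg hp x
    calc l⁻¹ * p x ≤ 1 * 1 := mul_le_mul h3 hx' h4 zero_le_one
      _ = 1 := one_mul 1
  · show l • l⁻¹ • x = x
    rw [smul_smul, mul_inv_cancel₀ hl0.ne', one_smul]

/-- scaling down the matrix increases the density -/
theorem dn_down (A : Matrix ι ι ℝ) {l : ℝ} (hl0 : 0 < l) (hl : l ≤ 1) (x : ι → ℝ) :
    dn A x ≤ dn (l • A) x := by
  unfold dn
  refine Real.exp_le_exp.mpr (neg_le_neg (mul_le_mul_of_nonneg_left ?_ Real.pi_pos.le))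
  refine Finset.sum_le_sum fun i _ => ?_
  rw [Matrix.smul_mulVec, Pi.smul_apply, smul_eq_mul, mul_pow]
  have h3 : l ^ 2 ≤ 1 := pow_le_one₀ hl0.le hl
  nlinarith [sq_nonneg ((A *ᵥ x) i)]

end GTRM

open GTRM

theorem specGTR (h1 : SpecNM1) : SpecGTR := by
  refine ⟨?_, ?_⟩
  · intro ι _ _ _ p w a c hp hw hle ha hc hcmp hgood
    obtain ⟨A, hA, hcA⟩ := hgood
    have vp := h1.vpos hp
    have vw := h1.vpos hw
    have hdet : A.det ≠ 0 := by
      intro h
      rw [h] at hA
      simp at hA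
    obtain ⟨l, hl0, hl⟩ := exists_root (ι := ι) (vol w / vol p) (div_pos vw vp)
    have hl1 : 1 ≤ l := by
      by_contra hcon
      push Not at hcon
      have h3 : l ^ Fintype.card ι < 1 := pow_lt_one₀ hl0.le hcon Fintype.card_ne_zero
      rw [hl, div_lt_one vp] at h3
      exact absurd (vol_mono h1 hw hle) (not_le.mpr h3)
    refine ⟨l • A, ?_, ?_⟩
    · rw [det_smul' A hl0, hl]
      field_simp
      linarith
    · refine le_trans ?_ (gmass_up h1 hp A hl1)
      rw [div_le_iff₀ (by linarith)]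
      calc c ≤ gmass w A := hcA
        _ ≤ a * gmass p A := hcmp A hdet
        _ = gmass p A * a := mul_comm _ _
  · intro ι _ _ _ p q a c hp hq hle ha hc hvol hgood
    obtain ⟨A, hA, hcA⟩ := hgood
    have vp := h1.vpos hp
    have vq := h1.vpos hq
    obtain ⟨l, hl0, hl⟩ := exists_root (ι := ι) (vol q / vol p) (div_pos vq vp)
    have hl1 : l ≤ 1 := by
      by_contra hcon
      push Not at hcon
      have h3 : 1 < l ^ Fintype.card ι := one_lt_pow₀ hcon Fintype.card_ne_zero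
      rw [hl, one_lt_div vp] at h3
      exact absurd (vol_mono h1 hp hle) (not_le.mpr h3)
    refine ⟨l • A, ?_, ?_⟩
    · rw [det_smul' A hl0, hl]
      field_simp
      linarith
    · have s1 : ∫ x in bl q, dn A x ≤ ∫ x in bl p, dn (l • A) x := by
        calc ∫ x in bl q, dn A x ≤ ∫ x in bl p, dn A x := by
              refine setIntegral_mono_set (dn_int h1 hp A)
                (Filter.Eventually.of_forall fun x => (dn_pos A x).le)
                (Filter.Eventually.of_forall fun x hx => ?_)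
              exact (hle x).trans hx
          _ ≤ ∫ x in bl p, dn (l • A) x :=
              setIntegral_mono (dn_int h1 hp A) (dn_int h1 hp (l • A)) (dn_down A hl0 hl1)
      have s2 : gmass p (l • A) = l ^ Fintype.card ι * (|A.det| * ∫ x in bl p, dn (l • A) x) := by
        rw [gmass_eq, det_smul' A hl0, mul_assoc]
      have s3 : c ≤ |A.det| * ∫ x in bl p, dn (l • A) x :=
        hcA.trans (mul_le_mul_of_nonneg_left s1 (abs_nonneg _))
      have s4 : 1 / a ≤ l ^ Fintype.card ι := by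
        rw [hl, div_le_div_iff₀ (by linarith) vp]
        linarith
      rw [s2]
      calc c / a = 1 / a * c := by ring
        _ ≤ l ^ Fintype.card ι * (|A.det| * ∫ x in bl p, dn (l • A) x) :=
            mul_le_mul s4 s3 hc (pow_pos hl0 _).le

end Pool.Agent.Lib.MP_cb8a44_nt.RM
end

section
set_option autoImplicit false

/-!
# ITR: the iteration
-/

open MeasureTheory Matrix Set
open scoped ENNReal

namespace Pool.Agent.Lib.MP_cb8a44_nt.RM

namespace ITRM

noncomputable def EE (k : ℕ) : ℝ := (104976 : ℝ) ^ ((4 / 3 : ℝ) ^ k)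

noncomputable def SS (k : ℕ) : ℝ := ∑ j ∈ Finset.range k, (EE j) ^ (-(1 / 12) : ℝ)

theorem EE_zero : EE 0 = 104976 := by
  unfold EE
  rw [pow_zero, Real.rpow_one]

theorem EE_ge (k : ℕ) : 104976 ≤ EE k := by
  unfold EE
  have h1 : (1 : ℝ) ≤ (4 / 3 : ℝ) ^ k := one_le_pow₀ (by norm_num)
  calc (104976 : ℝ) = (104976 : ℝ) ^ (1 : ℝ) := (Real.rpow_one _).symm
    _ ≤ (104976 : ℝ) ^ ((4 / 3 : ℝ) ^ k) := Real.rpow_le_rpow_of_exponent_le (by norm_num) h1

theorem EE_succ (k : ℕ) : (EE (k + 1)) ^ (3 / 4 : ℝ) = EE k := by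
  unfold EE
  rw [← Real.rpow_mul (by norm_num), pow_succ]
  congr 1
  ring

/-- `(4/3)^j ≥ j/3`. -/
theorem pow_ge (j : ℕ) : (j : ℝ) / 3 ≤ (4 / 3 : ℝ) ^ j := by
  have h1 : (1 : ℝ) + (j : ℝ) * (1 / 3) ≤ (1 + 1 / 3 : ℝ) ^ j :=
    one_add_mul_le_pow (by norm_num) j
  have h2 : (1 + 1 / 3 : ℝ) = 4 / 3 := by norm_num
  rw [h2] at h1
  linarith

noncomputable def rr : ℝ := (104976 : ℝ) ^ (-(1 / 36) : ℝ)

theorem rr_pos : 0 < rr := Real.rpow_pos_of_pos (by norm_num) _

theorem rr_lt : rr < 1 := Real.rpow_lt_one_of_one_lt_of_neg (by norm_num) (by norm_num)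

theorem term_le (j : ℕ) : (EE j) ^ (-(1 / 12) : ℝ) ≤ rr ^ j := by
  have h1 : rr ^ j = (104976 : ℝ) ^ ((-(1 / 36) : ℝ) * (j : ℝ)) := by
    unfold rr
    rw [← Real.rpow_natCast, ← Real.rpow_mul (by norm_num)]
  rw [h1]
  unfold EE
  rw [← Real.rpow_mul (by norm_num)]
  apply Real.rpow_le_rpow_of_exponent_le (by norm_num)
  have := pow_ge j
  linarith

theorem SS_le (k : ℕ) : SS k ≤ (1 - rr)⁻¹ := by
  unfold SS
  calc ∑ j ∈ Finset.range k, (EE j) ^ (-(1 / 12) : ℝ) ≤ ∑ j ∈ Finset.range k, rr ^ j :=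
        Finset.sum_le_sum fun j _ => term_le j
    _ ≤ ∑' j : ℕ, rr ^ j := by
        apply Summable.sum_le_tsum
        · intro j _
          exact pow_nonneg rr_pos.le j
        · exact summable_geometric_of_lt_one rr_pos.le rr_lt
    _ = (1 - rr)⁻¹ := tsum_geometric_of_lt_one rr_pos.le rr_lt

theorem SS_succ (k : ℕ) : SS (k + 1) = SS k + (EE k) ^ (-(1 / 12) : ℝ) := by
  unfold SS
  rw [Finset.sum_range_succ]

theorem key (D : ℝ) (hD : 104976 ≤ D) : 18 * Real.sqrt D ≤ D ^ (3 / 4 : ℝ) := by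
  have hD0 : 0 < D := by linarith
  have h1 : D ^ (3 / 4 : ℝ) = D ^ (1 / 4 : ℝ) * Real.sqrt D := by
    rw [Real.sqrt_eq_rpow, ← Real.rpow_add hD0]
    norm_num
  have h2 : (18 : ℝ) ≤ D ^ (1 / 4 : ℝ) := by
    have h3 : ((18 : ℝ) ^ (4 : ℕ)) ^ (1 / 4 : ℝ) = 18 := by
      rw [← Real.rpow_natCast, ← Real.rpow_mul (by norm_num)]
      norm_num
    calc (18 : ℝ) = ((18 : ℝ) ^ (4 : ℕ)) ^ (1 / 4 : ℝ) := h3.symm
      _ = (104976 : ℝ) ^ (1 / 4 : ℝ) := by norm_num
      _ ≤ D ^ (1 / 4 : ℝ) := Real.rpow_le_rpow (by norm_num) hD (by norm_num)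
  rw [h1]
  exact mul_le_mul_of_nonneg_right h2 (Real.sqrt_nonneg D)

section

variable {ι : Type} [Fintype ι] [DecidableEq ι] [Nonempty ι]

theorem good_mono {p : (ι → ℝ) → ℝ} {c c' : ℝ} (h : Good p c) (hc : c' ≤ c) : Good p c' := by
  obtain ⟨A, h1, h2⟩ := h
  exact ⟨A, h1, hc.trans h2⟩

theorem main (hSTP : SpecSTP) (hBAS : SpecBAS) (k : ℕ) :
    ∀ (p : (ι → ℝ) → ℝ) (D : ℝ), Nm p → 1 ≤ D → D ≤ EE k → Dist p D →
      Good p (Real.exp (-((Real.log 104976 + 1) * Fintype.card ι)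
        - 45 * Fintype.card ι * SS k - k * Real.log (8 * Real.sqrt (Fintype.card ι)))) := by
  set n : ℝ := (Fintype.card ι : ℝ) with hn
  have hn1 : 1 ≤ n := by
    have : 0 < Fintype.card ι := Fintype.card_pos
    rw [hn]
    exact_mod_cast this
  have hs1 : 1 ≤ Real.sqrt n := by
    rw [Real.one_le_sqrt]
    exact hn1
  have hL : 0 ≤ Real.log (8 * Real.sqrt n) := Real.log_nonneg (by linarith)
  have hL2 : Real.exp (Real.log (8 * Real.sqrt n)) = 8 * Real.sqrt n :=
    Real.exp_log (by linarith)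
  induction k with
  | zero =>
    intro p D hp hD1 hD2 hd
    rw [EE_zero] at hD2
    refine good_mono (hBAS p D hp hD1 hd) ?_
    have h1 : Real.exp (-(Real.log 104976 + 1)) = Real.exp (-1) / 104976 := by
      have h2 : -(Real.log 104976 + 1) = -1 - Real.log 104976 := by ring
      rw [h2, Real.exp_sub, Real.exp_log (by norm_num)]
    have h2 : Real.exp (-((Real.log 104976 + 1) * n) - 45 * n * SS 0
        - ((0 : ℕ) : ℝ) * Real.log (8 * Real.sqrt n)) = (Real.exp (-1) / 104976) ^ Fintype.card ι := by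
      rw [← h1, ← Real.exp_nat_mul]
      congr 1
      unfold SS
      rw [Finset.range_zero, Finset.sum_empty, ← hn]
      push_cast
      ring
    rw [h2]
    apply pow_le_pow_left₀ (by positivity)
    apply div_le_div_of_nonneg_left (Real.exp_pos _).le (by linarith) hD2
  | succ k ih =>
    intro p D hp hD1 hD2 hd
    have hE := EE_ge k
    have hpos : 0 < (EE k) ^ (-(1 / 12) : ℝ) := Real.rpow_pos_of_pos (by linarith) _
    by_cases hDk : D ≤ EE k
    · refine good_mono (ih p D hp hD1 hDk hd) ?_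
      apply Real.exp_le_exp.2
      rw [SS_succ]
      push_cast
      have h1 : 0 ≤ 45 * n * (EE k) ^ (-(1 / 12) : ℝ) := by positivity
      have h2 : 45 * n * (SS k + (EE k) ^ (-(1 / 12) : ℝ))
          = 45 * n * SS k + 45 * n * (EE k) ^ (-(1 / 12) : ℝ) := by ring
      rw [h2]
      linarith
    · push Not at hDk
      have hDK : 104976 ≤ D := by linarith
      obtain ⟨w, hw, hwd, hwg⟩ := hSTP p D hp hD1 hd
      have h3 : 18 * Real.sqrt D ≤ EE k := by
        calc 18 * Real.sqrt D ≤ D ^ (3 / 4 : ℝ) := key D hDK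
          _ ≤ (EE (k + 1)) ^ (3 / 4 : ℝ) := Real.rpow_le_rpow (by linarith) hD2 (by norm_num)
          _ = EE k := EE_succ k
      have h4 : 1 ≤ 18 * Real.sqrt D := by
        have h5 : 1 ≤ Real.sqrt D := by
          rw [Real.one_le_sqrt]
          exact hD1
        linarith
      have h5 := hwg _ (Real.exp_pos _).le (ih w (18 * Real.sqrt D) hw h4 h3 hwd)
      refine good_mono h5 ?_
      rw [← hn, ← Real.exp_add]
      have h9 : ∀ a : ℝ, Real.exp a / (8 * Real.sqrt n)
          = Real.exp (a - Real.log (8 * Real.sqrt n)) := by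
        intro a
        rw [Real.exp_sub, hL2]
      rw [h9]
      apply Real.exp_le_exp.2
      rw [SS_succ]
      push_cast
      have h6 : D ^ (-(1 / 12) : ℝ) ≤ (EE k) ^ (-(1 / 12) : ℝ) :=
        Real.rpow_le_rpow_of_nonpos (by linarith) hDk.le (by norm_num)
      have h7 : 45 * n * D ^ (-(1 / 12) : ℝ) ≤ 45 * n * (EE k) ^ (-(1 / 12) : ℝ) :=
        mul_le_mul_of_nonneg_left h6 (by positivity)
      have h2 : 45 * n * (SS k + (EE k) ^ (-(1 / 12) : ℝ))
          = 45 * n * SS k + 45 * n * (EE k) ^ (-(1 / 12) : ℝ) := by ring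
      have h8 : ((k : ℝ) + 1) * Real.log (8 * Real.sqrt n)
          = k * Real.log (8 * Real.sqrt n) + Real.log (8 * Real.sqrt n) := by ring
      rw [h2, h8]
      linarith

end

/-- The number of steps. -/
theorem steps (n : ℝ) (hn : 1 ≤ n) : ∃ k : ℕ, n ≤ EE k ∧
    k * Real.log (8 * Real.sqrt n) ≤ 12 * n := by
  have hlog : 0 ≤ Real.log n := Real.log_nonneg hn
  refine ⟨⌈Real.log n⌉₊, ?_, ?_⟩
  · have h1 : Real.log n ≤ (⌈Real.log n⌉₊ : ℝ) := Nat.le_ceil _
    set k := ⌈Real.log n⌉₊ with hk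
    unfold EE
    have h2 : (104976 : ℝ) ^ ((k : ℝ) / 3) ≤ (104976 : ℝ) ^ ((4 / 3 : ℝ) ^ k) :=
      Real.rpow_le_rpow_of_exponent_le (by norm_num) (pow_ge k)
    refine le_trans ?_ h2
    have h3 : Real.exp (k : ℝ) ≤ (104976 : ℝ) ^ ((k : ℝ) / 3) := by
      rw [Real.rpow_def_of_pos (by norm_num)]
      apply Real.exp_le_exp.2
      have h4 : (3 : ℝ) ≤ Real.log 104976 := by
        rw [Real.le_log_iff_exp_le (by norm_num)]
        have h5 : Real.exp 3 = Real.exp 1 ^ 3 := by
          rw [← Real.exp_nat_mul]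
          norm_num
        rw [h5]
        have h6 : Real.exp 1 ≤ 3 := by
          have := Real.exp_one_lt_d9
          linarith
        calc Real.exp 1 ^ 3 ≤ 3 ^ 3 := pow_le_pow_left₀ (Real.exp_pos 1).le h6 3
          _ ≤ 104976 := by norm_num
      have h7 : (0 : ℝ) ≤ k := Nat.cast_nonneg k
      nlinarith
    calc n = Real.exp (Real.log n) := (Real.exp_log (by linarith)).symm
      _ ≤ Real.exp k := Real.exp_le_exp.2 h1
      _ ≤ _ := h3
  · have h1 : (⌈Real.log n⌉₊ : ℝ) ≤ Real.log n + 1 := (Nat.ceil_lt_add_one hlog).le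
    set s := Real.sqrt n with hs
    have hs1 : 1 ≤ s := by
      rw [hs, Real.one_le_sqrt]
      exact hn
    have hss : s * s = n := Real.mul_self_sqrt (by linarith)
    have h2 : Real.log n = 2 * Real.log s := by
      rw [← hss, Real.log_mul (by linarith) (by linarith)]
      ring
    have h3 : Real.log s ≤ s - 1 := Real.log_le_sub_one_of_pos (by linarith)
    have h4 : 0 ≤ Real.log s := Real.log_nonneg hs1
    have h5 : Real.log (8 * s) = Real.log 8 + Real.log s := Real.log_mul (by norm_num) (by linarith)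
    have h6 : Real.log 8 ≤ 3 := by
      rw [Real.log_le_iff_le_exp (by norm_num)]
      have h7 : Real.exp 3 = Real.exp 1 ^ 3 := by
        rw [← Real.exp_nat_mul]
        norm_num
      rw [h7]
      have h8 : (2 : ℝ) ≤ Real.exp 1 := by
        have := Real.exp_one_gt_d9
        linarith
      calc (8 : ℝ) = 2 ^ 3 := by norm_num
        _ ≤ Real.exp 1 ^ 3 := pow_le_pow_left₀ (by norm_num) h8 3
    have h7 : 0 ≤ Real.log 8 := Real.log_nonneg (by norm_num)
    have h8 : (⌈Real.log n⌉₊ : ℝ) ≤ 3 * s := by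
      linarith
    have h9 : Real.log (8 * s) ≤ 4 * s := by
      rw [h5]
      linarith
    have h10 : (0 : ℝ) ≤ (⌈Real.log n⌉₊ : ℝ) := Nat.cast_nonneg _
    calc (⌈Real.log n⌉₊ : ℝ) * Real.log (8 * s) ≤ (3 * s) * (4 * s) := by
          apply mul_le_mul h8 h9 _ (by linarith)
          rw [h5]
          linarith
      _ = 12 * n := by rw [← hss]; ring

end ITRM

theorem specITR (hSTP : SpecSTP) (hBAS : SpecBAS) (hAUE : SpecAUE) :
    SpecITR := by
  have hr1 := ITRM.rr_lt
  have hS : (0 : ℝ) ≤ (1 - ITRM.rr)⁻¹ := inv_nonneg.2 (by linarith)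
  have hlogK : (0 : ℝ) ≤ Real.log 104976 := Real.log_nonneg (by norm_num)
  refine ⟨Real.exp (-(Real.log 104976 + 13 + 45 * (1 - ITRM.rr)⁻¹)), Real.exp_pos _, ?_, ?_⟩
  · apply Real.exp_le_one_iff.2
    linarith
  · intro ι _ _ _ p hp
    have hn1 : (1 : ℝ) ≤ (Fintype.card ι : ℝ) := by
      have : 0 < Fintype.card ι := Fintype.card_pos
      exact_mod_cast this
    obtain ⟨k, hk1, hk2⟩ := ITRM.steps (Fintype.card ι : ℝ) hn1
    refine ITRM.good_mono (ITRM.main hSTP hBAS k p _ hp hn1 hk1 (hAUE p hp)) ?_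
    rw [← Real.exp_nat_mul]
    apply Real.exp_le_exp.2
    have h1 := ITRM.SS_le k
    have h2 : 45 * (Fintype.card ι : ℝ) * ITRM.SS k ≤ 45 * (Fintype.card ι : ℝ) * (1 - ITRM.rr)⁻¹ :=
      mul_le_mul_of_nonneg_left h1 (by positivity)
    have h3 : (Fintype.card ι : ℝ) * -(Real.log 104976 + 13 + 45 * (1 - ITRM.rr)⁻¹)
        = -((Real.log 104976 + 1) * (Fintype.card ι : ℝ))
          - 45 * (Fintype.card ι : ℝ) * (1 - ITRM.rr)⁻¹ - 12 * (Fintype.card ι : ℝ) := by ring
    rw [h3]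
    linarith

end Pool.Agent.Lib.MP_cb8a44_nt.RM
end

section
set_option autoImplicit false

open MeasureTheory Matrix Set
open scoped ENNReal

namespace Pool.Agent.Lib.MP_cb8a44_nt.RM

namespace MEAM

variable {X : Type} [MeasurableSpace X] {μ : Measure X}

theorem mul_int {g h : X → ℝ} (gm : AEStronglyMeasurable g μ) (hm : AEStronglyMeasurable h μ)
    (hg : Integrable (fun x => g x ^ 2) μ) (hh : Integrable (fun x => h x ^ 2) μ) :
    Integrable (fun x => g x * h x) μ := by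
  refine ((hg.add hh)).mono' (gm.mul hm) (Filter.Eventually.of_forall fun x => ?_)
  simp only [Pi.add_apply, Real.norm_eq_abs, abs_mul]
  nlinarith [sq_nonneg (|g x| - |h x|), sq_abs (g x), sq_abs (h x), sq_nonneg (g x), sq_nonneg (h x)]

theorem cs {g h : X → ℝ} (hg : Integrable (fun x => g x ^ 2) μ)
    (hh : Integrable (fun x => h x ^ 2) μ) (hgh : Integrable (fun x => g x * h x) μ) :
    (∫ x, g x * h x ∂μ) ^ 2 ≤ (∫ x, g x ^ 2 ∂μ) * ∫ x, h x ^ 2 ∂μ := by
  have h1 : ∀ t : ℝ, 0 ≤ (∫ x, g x ^ 2 ∂μ) * (t * t) + (-2 * ∫ x, g x * h x ∂μ) * t +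
      ∫ x, h x ^ 2 ∂μ := by
    intro t
    have h2 : 0 ≤ ∫ x, (t * g x - h x) ^ 2 ∂μ := integral_nonneg fun x => sq_nonneg _
    have h3 : ∫ x, (t * g x - h x) ^ 2 ∂μ = (∫ x, g x ^ 2 ∂μ) * (t * t) +
        (-2 * ∫ x, g x * h x ∂μ) * t + ∫ x, h x ^ 2 ∂μ := by
      have h4 : (fun x => (t * g x - h x) ^ 2) = fun x => (t * t) * g x ^ 2 +
          ((-2 * t) * (g x * h x) + h x ^ 2) := by
        ext x; ring
      have i1 : Integrable (fun x => (-2 * t) * (g x * h x) + h x ^ 2) μ :=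
        (hgh.const_mul (-2 * t)).add hh
      rw [h4, integral_add (hg.const_mul (t * t)) i1,
        integral_add (hgh.const_mul (-2 * t)) hh, integral_const_mul, integral_const_mul]
      ring
    rwa [h3] at h2
  have h5 := discrim_le_zero h1
  unfold discrim at h5
  nlinarith

section
variable [IsProbabilityMeasure μ] {P : X → X → ℝ} {f : X → ℝ} {K : ℝ}

theorem f2 (hf : Measurable f) (hK : ∀ x, |f x| ≤ K) : Integrable (fun x => f x ^ 2) μ := by
  refine Integrable.mono' (integrable_const (K ^ 2)) (hf.pow_const 2).aestronglyMeasurable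
    (Filter.Eventually.of_forall fun x => ?_)
  rw [Real.norm_eq_abs, abs_pow, sq_abs, ← sq_abs (f x)]
  exact pow_le_pow_left₀ (abs_nonneg _) (hK x) 2

theorem ae_int (hPm : Measurable (Function.uncurry P))
    (hP : Integrable (fun z : X × X => P z.1 z.2 ^ 2) (μ.prod μ)) (hf : Measurable f)
    (hK : ∀ x, |f x| ≤ K) :
    ∀ᵐ x ∂μ, Integrable (fun y => P x y ^ 2) μ ∧ Integrable (fun y => P x y * f y) μ := by
  have h1 : ∀ᵐ x ∂μ, Integrable (fun y => P x y ^ 2) μ := hP.prod_right_ae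
  filter_upwards [h1] with x hx
  exact ⟨hx, mul_int (hPm.comp measurable_prodMk_left).aestronglyMeasurable
    hf.aestronglyMeasurable hx (f2 hf hK)⟩

theorem R_meas (hPm : Measurable (Function.uncurry P)) (hf : Measurable f) :
    StronglyMeasurable fun x => ∫ y, P x y * f y ∂μ := by
  have : StronglyMeasurable (Function.uncurry fun x y => P x y * f y) :=
    (hPm.mul (hf.comp measurable_snd)).stronglyMeasurable
  exact this.integral_prod_right

theorem R_le (hPm : Measurable (Function.uncurry P))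
    (hP : Integrable (fun z : X × X => P z.1 z.2 ^ 2) (μ.prod μ)) (hf : Measurable f)
    (hK : ∀ x, |f x| ≤ K) :
    ∀ᵐ x ∂μ, (∫ y, P x y * f y ∂μ) ^ 2 ≤ (∫ y, P x y ^ 2 ∂μ) * ∫ y, f y ^ 2 ∂μ := by
  filter_upwards [ae_int hPm hP hf hK] with x hx
  exact cs hx.1 (f2 hf hK) hx.2

theorem R_int (hPm : Measurable (Function.uncurry P))
    (hP : Integrable (fun z : X × X => P z.1 z.2 ^ 2) (μ.prod μ)) (hf : Measurable f)
    (hK : ∀ x, |f x| ≤ K) : Integrable (fun x => (∫ y, P x y * f y ∂μ) ^ 2) μ := by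
  refine Integrable.mono' (hP.integral_prod_left.mul_const (∫ y, f y ^ 2 ∂μ))
    ((R_meas hPm hf).pow 2).aestronglyMeasurable ?_
  filter_upwards [R_le hPm hP hf hK] with x hx
  rw [Real.norm_eq_abs, abs_of_nonneg (sq_nonneg _)]
  exact hx

theorem R_bound (hPm : Measurable (Function.uncurry P))
    (hP : Integrable (fun z : X × X => P z.1 z.2 ^ 2) (μ.prod μ)) (hf : Measurable f)
    (hK : ∀ x, |f x| ≤ K) :
    ∫ x, (∫ y, P x y * f y ∂μ) ^ 2 ∂μ ≤
      (∫ z : X × X, P z.1 z.2 ^ 2 ∂(μ.prod μ)) * ∫ y, f y ^ 2 ∂μ := by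
  rw [integral_prod _ hP, ← integral_mul_const]
  exact integral_mono_ae (R_int hPm hP hf hK) (hP.integral_prod_left.mul_const _)
    (R_le hPm hP hf hK)

theorem fub {P' : X → X → ℝ} (hPm : Measurable (Function.uncurry P))
    (hP : Integrable (fun z : X × X => P z.1 z.2 ^ 2) (μ.prod μ))
    (hPm' : Measurable (Function.uncurry P'))
    (hP' : Integrable (fun z : X × X => P' z.1 z.2 ^ 2) (μ.prod μ)) (hf : Measurable f)
    (hK : ∀ x, |f x| ≤ K) (hk : ∀ y z, ∫ x, P x y * P x z ∂μ = P' y z) :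
    ∫ x, (∫ y, P x y * f y ∂μ) ^ 2 ∂μ = ∫ y, f y * ∫ z, P' y z * f z ∂μ ∂μ := by
  have K0 : 0 ≤ K ∨ IsEmpty X := by
    rcases isEmpty_or_nonempty X with h | ⟨⟨x⟩⟩
    · exact Or.inr h
    · exact Or.inl ((abs_nonneg _).trans (hK x))
  have h1 : ∀ x, (∫ y, P x y * f y ∂μ) ^ 2 =
      ∫ w : X × X, (P x w.1 * f w.1) * (P x w.2 * f w.2) ∂(μ.prod μ) := by
    intro x
    rw [integral_prod_mul (μ := μ) (ν := μ) (fun y => P x y * f y) (fun y => P x y * f y), sq]
  simp_rw [h1]
  have m1 : Measurable fun t : X × (X × X) => P t.1 t.2.1 :=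
    hPm.comp (measurable_fst.prodMk (measurable_fst.comp measurable_snd))
  have m2 : Measurable fun t : X × (X × X) => P t.1 t.2.2 :=
    hPm.comp (measurable_fst.prodMk (measurable_snd.comp measurable_snd))
  have m3 : Measurable fun t : X × (X × X) => f t.2.1 :=
    hf.comp (measurable_fst.comp measurable_snd)
  have m4 : Measurable fun t : X × (X × X) => f t.2.2 :=
    hf.comp (measurable_snd.comp measurable_snd)
  have i1 : Integrable (fun t : X × (X × X) => P t.1 t.2.1 ^ 2) (μ.prod (μ.prod μ)) := by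
    have mp : MeasurePreserving (Prod.map id Prod.fst : X × (X × X) → X × X)
        (μ.prod (μ.prod μ)) (μ.prod μ) :=
      (MeasurePreserving.id μ).prod measurePreserving_fst
    exact mp.integrable_comp_of_integrable hP
  have i2 : Integrable (fun t : X × (X × X) => P t.1 t.2.2 ^ 2) (μ.prod (μ.prod μ)) := by
    have mp : MeasurePreserving (Prod.map id Prod.snd : X × (X × X) → X × X)
        (μ.prod (μ.prod μ)) (μ.prod μ) :=
      (MeasurePreserving.id μ).prod measurePreserving_snd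
    exact mp.integrable_comp_of_integrable hP
  have iG : Integrable (Function.uncurry fun (x : X) (w : X × X) =>
      (P x w.1 * f w.1) * (P x w.2 * f w.2)) (μ.prod (μ.prod μ)) := by
    refine Integrable.mono' ((i1.add i2).const_mul (K ^ 2))
      ((m1.mul m3).mul (m2.mul m4)).aestronglyMeasurable (Filter.Eventually.of_forall fun t => ?_)
    simp only [Function.uncurry, Real.norm_eq_abs, abs_mul, Pi.add_apply]
    have a1 := hK t.2.1
    have a2 := hK t.2.2
    have b1 : |P t.1 t.2.1| * |P t.1 t.2.2| ≤ P t.1 t.2.1 ^ 2 + P t.1 t.2.2 ^ 2 := by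
      nlinarith [sq_nonneg (|P t.1 t.2.1| - |P t.1 t.2.2|), sq_abs (P t.1 t.2.1),
        sq_abs (P t.1 t.2.2), sq_nonneg (P t.1 t.2.1), sq_nonneg (P t.1 t.2.2)]
    have b2 : |f t.2.1| * |f t.2.2| ≤ K ^ 2 := by
      rw [sq]
      exact mul_le_mul a1 a2 (abs_nonneg _) ((abs_nonneg _).trans a1)
    calc |P t.1 t.2.1| * |f t.2.1| * (|P t.1 t.2.2| * |f t.2.2|)
        = (|f t.2.1| * |f t.2.2|) * (|P t.1 t.2.1| * |P t.1 t.2.2|) := by ring
      _ ≤ K ^ 2 * (P t.1 t.2.1 ^ 2 + P t.1 t.2.2 ^ 2) :=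
        mul_le_mul b2 b1 (by positivity) (by positivity)
  rw [integral_integral_swap iG]
  have h2 : ∀ w : X × X, ∫ x, (P x w.1 * f w.1) * (P x w.2 * f w.2) ∂μ =
      f w.1 * (P' w.1 w.2 * f w.2) := by
    intro w
    rw [← hk w.1 w.2]
    have h3 : (fun x => (P x w.1 * f w.1) * (P x w.2 * f w.2)) =
        fun x => (f w.1 * f w.2) * (P x w.1 * P x w.2) := by
      ext x; ring
    rw [h3, integral_const_mul]
    ring
  simp_rw [h2]
  rw [integral_prod]
  · simp_rw [integral_const_mul]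
  · have i3 : Integrable (fun z : X × X => (f z.1 * f z.2) ^ 2) (μ.prod μ) := by
      refine Integrable.mono' (integrable_const (K ^ 4))
        (((hf.comp measurable_fst).mul (hf.comp measurable_snd)).pow_const 2).aestronglyMeasurable
        (Filter.Eventually.of_forall fun z => ?_)
      rw [Real.norm_eq_abs, abs_pow, abs_mul]
      have b2 : |f z.1| * |f z.2| ≤ K ^ 2 := by
        rw [sq]
        exact mul_le_mul (hK _) (hK _) (abs_nonneg _) ((abs_nonneg _).trans (hK z.1))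
      calc (|f z.1| * |f z.2|) ^ 2 ≤ (K ^ 2) ^ 2 := pow_le_pow_left₀ (by positivity) b2 2
        _ = K ^ 4 := by ring
    have i4 := mul_int (g := fun z : X × X => f z.1 * f z.2) (h := fun z : X × X => P' z.1 z.2)
      ((hf.comp measurable_fst).mul (hf.comp measurable_snd)).aestronglyMeasurable
      hPm'.aestronglyMeasurable i3 hP'
    refine i4.congr (Filter.Eventually.of_forall fun z => ?_)
    simp only
    ring

end

end MEAM

open MEAM in
theorem specMEA : SpecMEA := by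
  intro X _ μ _ N C h1 h2 h3 h4 f hf ⟨K, hK⟩ θ hθ
  set A : ℝ → ℝ := fun θ => ∫ x, (∫ y, N θ x y * f y ∂μ) ^ 2 ∂μ with hA
  set F := ∫ x, f x ^ 2 ∂μ with hF
  have F0 : 0 ≤ F := integral_nonneg fun x => sq_nonneg _
  have A0 : ∀ θ, 0 ≤ A θ := fun θ => integral_nonneg fun x => sq_nonneg _
  have hsq : ∀ θ ∈ Ioo (0:ℝ) 1, θ ^ 2 ∈ Ioo (0:ℝ) 1 := fun θ h =>
    ⟨by have := h.1; positivity, by have := h.1; have := h.2; nlinarith⟩
  have hrec : ∀ θ ∈ Ioo (0:ℝ) 1, A θ ^ 2 ≤ F * A (θ ^ 2) := by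
    intro θ h
    have h' := hsq θ h
    have e := fub (h1 θ h) (h2 θ h) (h1 _ h') (h2 _ h') hf hK (h4 θ h)
    have e2 : A θ = ∫ y, f y * (∫ z, N (θ ^ 2) y z * f z ∂μ) ∂μ := e
    rw [e2]
    have i1 := R_int (h1 _ h') (h2 _ h') hf hK
    have m1 := R_meas (μ := μ) (h1 _ h') hf
    exact cs (f2 hf hK) i1 (mul_int hf.aestronglyMeasurable m1.aestronglyMeasurable
      (f2 hf hK) i1)
  show A θ ≤ θ ^ 6 * F
  by_cases hF0 : F = 0
  · have := hrec θ hθ
    rw [hF0, zero_mul] at this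
    rw [hF0, mul_zero]
    have h5 : A θ = 0 := by
      have := sq_nonneg (A θ)
      nlinarith [pow_eq_zero_iff (n := 2) (a := A θ) two_ne_zero]
    rw [h5]
  have Fp : 0 < F := lt_of_le_of_ne F0 (Ne.symm hF0)
  -- iterate
  have hpow : ∀ k : ℕ, θ ^ (2 ^ k) ∈ Ioo (0:ℝ) 1 := by
    intro k
    exact ⟨pow_pos hθ.1 _, pow_lt_one₀ hθ.1.le hθ.2 (by positivity)⟩
  have it : ∀ k : ℕ, (A θ / F) ^ (2 ^ k) ≤ A (θ ^ (2 ^ k)) / F := by
    intro k
    induction k with
    | zero => simp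
    | succ k ih =>
      have h5 := hrec _ (hpow k)
      have e1 : (θ ^ (2 ^ k)) ^ 2 = θ ^ (2 ^ (k + 1)) := by
        rw [← pow_mul, ← pow_succ]
      rw [e1] at h5
      calc (A θ / F) ^ (2 ^ (k + 1)) = ((A θ / F) ^ (2 ^ k)) ^ 2 := by rw [← pow_mul, ← pow_succ]
        _ ≤ (A (θ ^ (2 ^ k)) / F) ^ 2 := by
            apply pow_le_pow_left₀ _ ih
            exact pow_nonneg (div_nonneg (A0 _) F0) _
        _ = A (θ ^ (2 ^ k)) ^ 2 / F ^ 2 := by rw [div_pow]
        _ ≤ F * A (θ ^ (2 ^ (k + 1))) / F ^ 2 := by gcongr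
        _ = A (θ ^ (2 ^ (k + 1))) / F := by field_simp
  have hlim : Filter.Tendsto (fun k : ℕ => θ ^ (2 ^ k)) Filter.atTop (nhds 0) := by
    have h5 := tendsto_pow_atTop_nhds_zero_of_lt_one hθ.1.le hθ.2
    have h6 : Filter.Tendsto (fun k : ℕ => 2 ^ k) Filter.atTop Filter.atTop :=
      tendsto_pow_atTop_atTop_of_one_lt (by norm_num : (1:ℕ) < 2)
    exact h5.comp h6
  have hev : ∀ᶠ k : ℕ in Filter.atTop, (A θ / F) ^ (2 ^ k) ≤ C * (θ ^ 6) ^ (2 ^ k) := by
    have h5 := hlim.eventually (gt_mem_nhds (by norm_num : (0:ℝ) < 1 / 2))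
    filter_upwards [h5] with k hk
    refine (it k).trans ?_
    rw [div_le_iff₀ Fp]
    have h6 := R_bound (h1 _ (hpow k)) (h2 _ (hpow k)) hf hK
    refine h6.trans ?_
    have h7 := h3 _ ⟨(hpow k).1, hk⟩
    calc (∫ z : X × X, N (θ ^ (2 ^ k)) z.1 z.2 ^ 2 ∂(μ.prod μ)) * F
        ≤ (C * (θ ^ (2 ^ k)) ^ 6) * F := by gcongr
      _ = C * (θ ^ 6) ^ (2 ^ k) * F := by rw [← pow_mul, ← pow_mul, mul_comm (2 ^ k) 6]
  by_contra hcon
  push Not at hcon
  set q := A θ / F / θ ^ 6 with hq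
  have θ6 : 0 < θ ^ 6 := pow_pos hθ.1 _
  have q1 : 1 < q := by
    rw [hq, div_div, one_lt_div (by positivity)]
    linarith [mul_comm F (θ ^ 6)]
  have h8 : ∀ᶠ k : ℕ in Filter.atTop, q ^ (2 ^ k) ≤ C := by
    filter_upwards [hev] with k hk
    rw [hq, div_pow, div_le_iff₀ (by positivity)]
    exact hk
  have h9 : Filter.Tendsto (fun k : ℕ => q ^ (2 ^ k)) Filter.atTop Filter.atTop :=
    (tendsto_pow_atTop_atTop_of_one_lt q1).comp
      (tendsto_pow_atTop_atTop_of_one_lt (by norm_num : (1:ℕ) < 2))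
  have h10 := h9.eventually (Filter.eventually_gt_atTop C)
  obtain ⟨k, hk1, hk2⟩ := (h8.and h10).exists
  exact absurd hk2 (not_lt.2 hk1)

end Pool.Agent.Lib.MP_cb8a44_nt.RM
end

section
set_option autoImplicit false

open MeasureTheory Matrix Set
open scoped ENNReal

namespace Pool.Agent.Lib.MP_cb8a44_nt.RM

namespace KCVM

variable {ι : Type} [Fintype ι]

instance : IsProbabilityMeasure (gm ι) := by
  unfold gm; infer_instance

theorem sq_coord (i : ι) : Integrable (fun y : ι → ℝ => y i ^ 2) (gm ι) := by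
  have h1 : Integrable (fun x : ℝ => x ^ 2) (ProbabilityTheory.gaussianReal 0 1) := by
    have := (ProbabilityTheory.memLp_id_gaussianReal (μ := 0) (v := 1) 2).integrable_sq
    simpa using this
  exact (measurePreserving_eval (fun _ : ι => ProbabilityTheory.gaussianReal 0 1) i).integrable_comp_of_integrable h1

theorem coord (i : ι) : Integrable (fun y : ι → ℝ => y i) (gm ι) := by
  have h1 : Integrable (fun x : ℝ => x) (ProbabilityTheory.gaussianReal 0 1) :=
    (ProbabilityTheory.memLp_id_gaussianReal (μ := 0) (v := 1) 1).integrable (le_refl _)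
  exact (measurePreserving_eval (fun _ : ι => ProbabilityTheory.gaussianReal 0 1) i).integrable_comp_of_integrable h1

theorem memLp_coord (i : ι) : MemLp (fun y : ι → ℝ => y i) 2 (gm ι) :=
  (memLp_two_iff_integrable_sq (measurable_pi_apply i).aestronglyMeasurable).2 (sq_coord i)

/-- averages of a bounded function along an affine map -/
theorem avg_meas {f : (ι → ℝ) → ℝ} (hf : Measurable f) (a s : ℝ) :
    StronglyMeasurable fun x : ι → ℝ => ∫ y, f (a • x + s • y) ∂(gm ι) := by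
  have : StronglyMeasurable (Function.uncurry fun (x y : ι → ℝ) => f (a • x + s • y)) := by
    refine Measurable.stronglyMeasurable ?_
    exact hf.comp (by fun_prop)
  exact this.integral_prod_right

theorem avg_bd {f : (ι → ℝ) → ℝ} {K : ℝ} (hK : ∀ x, |f x| ≤ K) (a s : ℝ) (x : ι → ℝ) :
    |∫ y, f (a • x + s • y) ∂(gm ι)| ≤ K := by
  have := norm_integral_le_of_norm_le_const (μ := gm ι) (f := fun y => f (a • x + s • y)) (C := K)
    (Filter.Eventually.of_forall fun y => hK _)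
  simpa using this

theorem bdd_int {f : (ι → ℝ) → ℝ} (hf : Measurable f) {K : ℝ} (hK : ∀ x, |f x| ≤ K) :
    Integrable f (gm ι) :=
  Integrable.mono' (integrable_const K) hf.aestronglyMeasurable
    (Filter.Eventually.of_forall fun x => hK x)

/-- the mean of a function with values in the unit ball is in the unit ball -/
theorem mean_mem (hNM1 : SpecNM1) {p : (ι → ℝ) → ℝ} (hp : Nm p) {F : (ι → ℝ) → (ι → ℝ)}
    (hF : Measurable F) (hb : ∀ i, ∃ K : ℝ, ∀ y, |F y i| ≤ K) (h1 : ∀ x, p (F x) ≤ 1) :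
    p (fun i => ∫ y, F y i ∂(gm ι)) ≤ 1 := by
  have hint : Integrable F (gm ι) := by
    refine Integrable.of_eval fun i => ?_
    obtain ⟨K, hK⟩ := hb i
    exact bdd_int ((measurable_pi_apply i).comp hF) hK
  have hconv : Convex ℝ (bl p) := (hNM1.sc hp).conv
  have hcl : IsClosed (bl p) := (hNM1.cpt hp).isClosed
  have := hconv.integral_mem hcl (Filter.Eventually.of_forall fun x => (h1 x : F x ∈ bl p)) hint
  have e : (∫ x, F x ∂(gm ι)) = fun i => ∫ y, F y i ∂(gm ι) := by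
    ext i
    rw [eval_integral]
    intro j
    obtain ⟨K, hK⟩ := hb j
    exact bdd_int ((measurable_pi_apply j).comp hF) hK
  rw [e] at this
  exact this

end KCVM

open KCVM in
theorem specKCV (hNM1 : SpecNM1) (hMEA : SpecMEA) (hMEB : SpecMEB) : SpecKCV := by
  intro ι _ _ p D F hp hD ⟨A, hA0, hA⟩ hF hFfin hF1
  obtain ⟨N, C, n1, n2, n3, n4, n5⟩ := hMEB ι
  have D0 : 0 < D := lt_of_lt_of_le one_pos hD
  set c := D ^ (1 / 3 : ℝ) with hc
  have c1 : 1 ≤ c := Real.one_le_rpow hD (by norm_num)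
  have c0 : 0 < c := lt_of_lt_of_le one_pos c1
  have c3 : c ^ 3 = D := by
    rw [hc, ← Real.rpow_natCast, ← Real.rpow_mul D0.le]
    norm_num
  set θ := 1 / (2 * c) with hθd
  have θ0 : 0 < θ := by positivity
  have θ1 : θ < 1 := by
    rw [hθd, div_lt_one (by positivity)]; linarith
  have hθ : θ ∈ Ioo (0:ℝ) 1 := ⟨θ0, θ1⟩
  set s := Real.sqrt (1 - θ ^ 2) with hs
  set B : Matrix ι ι ℝ := Matrix.of fun i j => ∫ y, F y i * y j ∂(gm ι) with hB
  have hFb : ∀ i, ∃ K : ℝ, ∀ y, |F y i| ≤ K := by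
    intro i
    have hfin : (Set.range fun y => |F y i|).Finite := by
      have : (Set.range fun y => |F y i|) = (fun v : ι → ℝ => |v i|) '' Set.range F := by
        rw [← Set.range_comp]; rfl
      rw [this]
      exact hFfin.image _
    obtain ⟨K, hK⟩ := hfin.bddAbove
    exact ⟨K, fun y => hK ⟨y, rfl⟩⟩
  have hFm : ∀ i, Measurable fun y => F y i := fun i => (measurable_pi_apply i).comp hF
  -- the functions f i = (A F) i
  set f : ι → (ι → ℝ) → ℝ := fun i y => (A *ᵥ F y) i with hfd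
  have hfs : ∀ i y, f i y = ∑ j, A i j * F y j := fun i y => rfl
  have hfm : ∀ i, Measurable (f i) := by
    intro i
    show Measurable fun y => ∑ j, A i j * F y j
    exact Finset.measurable_sum _ fun j _ => (hFm j).const_mul _
  have hfb : ∀ i, ∃ K : ℝ, ∀ y, |f i y| ≤ K := by
    intro i
    choose K hK using hFb
    refine ⟨∑ j, |A i j| * K j, fun y => ?_⟩
    rw [hfs]
    refine (Finset.abs_sum_le_sum_abs _ _).trans (Finset.sum_le_sum fun j _ => ?_)
    rw [abs_mul]
    exact mul_le_mul_of_nonneg_left (hK j y) (abs_nonneg _)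
  set r : (ι → ℝ) → (ι → ℝ) := fun x i => (1 / θ) * ∫ y, N θ x y * f i y ∂(gm ι) with hr
  have hrf : ∀ x i, r x i = (1 / θ) * (((∫ y, f i (θ • x + s • y) ∂(gm ι)) -
      ∫ y, f i (-(θ • x) + s • y) ∂(gm ι)) / 2 - θ * ∑ j, x j * ∫ y, y j * f i y ∂(gm ι)) := by
    intro x i
    rw [hr]
    simp only
    rw [n5 (f i) (hfm i) (hfb i) θ hθ x]
  -- pointwise bound
  have hmB : ∀ j k, Integrable (fun y : ι → ℝ => F y j * y k) (gm ι) := by
    intro j k
    obtain ⟨K, hK⟩ := hFb j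
    refine (coord k).bdd_mul (c := K) (hFm j).aestronglyMeasurable ?_
    exact Filter.Eventually.of_forall fun y => hK y
  have pt : ∀ x, p (B *ᵥ x) ≤ 1 / θ + eu (r x) := by
    intro x
    have mF : ∀ g : (ι → ℝ) → (ι → ℝ), Measurable g →
        p (fun i => ∫ y, F (g y) i ∂(gm ι)) ≤ 1 := by
      intro g hg
      refine mean_mem hNM1 hp (hF.comp hg) (fun i => ?_) fun y => hF1 _
      obtain ⟨K, hK⟩ := hFb i
      exact ⟨K, fun y => hK _⟩
    set u : ι → ℝ := fun i => ∫ y, F (θ • x + s • y) i ∂(gm ι) with hu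
    set u' : ι → ℝ := fun i => ∫ y, F (-(θ • x) + s • y) i ∂(gm ι) with hu'
    have pu : p u ≤ 1 := mF (fun y => θ • x + s • y) (by fun_prop)
    have pu' : p u' ≤ 1 := mF (fun y => -(θ • x) + s • y) (by fun_prop)
    set v : ι → ℝ := (1 / (2 * θ)) • (u - u') - B *ᵥ x with hv
    have hAv : A *ᵥ v = r x := by
      ext i
      rw [hrf]
      have e1 : ∀ g : (ι → ℝ) → (ι → ℝ), Measurable g →
          ∫ y, f i (g y) ∂(gm ι) = ∑ j, A i j * ∫ y, F (g y) j ∂(gm ι) := by
        intro g hg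
        simp only [hfs]
        rw [integral_finsetSum]
        · exact Finset.sum_congr rfl fun j _ => integral_const_mul _ _
        · intro j _
          obtain ⟨K, hK⟩ := hFb j
          exact (bdd_int ((hFm j).comp hg) (K := K) fun y => hK _).const_mul _
      have e2 : ∀ k, ∫ y, y k * f i y ∂(gm ι) = ∑ j, A i j * B j k := by
        intro k
        have : (fun y : ι → ℝ => y k * f i y) = fun y => ∑ j, A i j * (F y j * y k) := by
          ext y
          rw [hfs, Finset.mul_sum]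
          exact Finset.sum_congr rfl fun j _ => by ring
        rw [this, integral_finsetSum _ fun j _ => (hmB j k).const_mul _]
        exact Finset.sum_congr rfl fun j _ => integral_const_mul _ _
      rw [e1 (fun y => θ • x + s • y) (by fun_prop), e1 (fun y => -(θ • x) + s • y) (by fun_prop)]
      simp_rw [e2]
      rw [hv, Matrix.mulVec_sub, Matrix.mulVec_smul, Matrix.mulVec_sub, Matrix.mulVec_mulVec]
      simp only [Pi.sub_apply, Pi.smul_apply, smul_eq_mul]
      have e3 : (A *ᵥ u) i = ∑ j, A i j * ∫ y, F (θ • x + s • y) j ∂(gm ι) := rfl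
      have e4 : (A *ᵥ u') i = ∑ j, A i j * ∫ y, F (-(θ • x) + s • y) j ∂(gm ι) := rfl
      have e5 : ((A * B) *ᵥ x) i = ∑ k, x k * ∑ j, A i j * B j k := by
        show ∑ k, (A * B) i k * x k = _
        refine Finset.sum_congr rfl fun k _ => ?_
        rw [Matrix.mul_apply, mul_comm]
      rw [e3, e4, e5]
      field_simp
    have pv : p v ≤ eu (r x) := by
      rw [← hAv]; exact (hA v).1
    have hBx : B *ᵥ x = (1 / (2 * θ)) • (u + (-1 : ℝ) • u') + (-1 : ℝ) • v := by
      rw [hv]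
      simp only [smul_sub, neg_smul, one_smul, smul_add, smul_neg]
      abel
    rw [hBx]
    calc p ((1 / (2 * θ)) • (u + (-1 : ℝ) • u') + (-1 : ℝ) • v)
        ≤ p ((1 / (2 * θ)) • (u + (-1 : ℝ) • u')) + p ((-1 : ℝ) • v) := hp.add _ _
      _ = (1 / (2 * θ)) * p (u + (-1 : ℝ) • u') + p v := by
          rw [hp.smul, hp.smul, abs_of_pos (by positivity : 0 < 1 / (2 * θ))]
          norm_num
      _ ≤ (1 / (2 * θ)) * (p u + p ((-1 : ℝ) • u')) + p v := by
          gcongr; exact hp.add _ _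
      _ ≤ (1 / (2 * θ)) * (1 + 1) + eu (r x) := by
          gcongr
          rw [hp.smul]
          norm_num
          exact pu'
      _ = 1 / θ + eu (r x) := by field_simp; ring
  -- second moments
  have rmem : ∀ i, MemLp (fun x => r x i) 2 (gm ι) := by
    intro i
    obtain ⟨K, hK⟩ := hfb i
    have m1 : MemLp (fun x : ι → ℝ => ∫ y, f i (θ • x + s • y) ∂(gm ι)) 2 (gm ι) :=
      MemLp.of_bound (avg_meas (hfm i) θ s).aestronglyMeasurable K
        (Filter.Eventually.of_forall fun x => avg_bd hK θ s x)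
    have m2 : MemLp (fun x : ι → ℝ => ∫ y, f i (-(θ • x) + s • y) ∂(gm ι)) 2 (gm ι) := by
      have : MemLp (fun x : ι → ℝ => ∫ y, f i ((-θ) • x + s • y) ∂(gm ι)) 2 (gm ι) :=
        MemLp.of_bound (avg_meas (hfm i) (-θ) s).aestronglyMeasurable K
          (Filter.Eventually.of_forall fun x => avg_bd hK (-θ) s x)
      simpa only [neg_smul] using this
    have m3 : MemLp (fun x : ι → ℝ => ∑ j, x j * ∫ y, y j * f i y ∂(gm ι)) 2 (gm ι) := by
      have := memLp_finsetSum (p := 2) (μ := gm ι) Finset.univ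
        (f := fun (j : ι) (x : ι → ℝ) => x j * ∫ y, y j * f i y ∂(gm ι))
        (fun j _ => (memLp_coord j).mul_const _)
      exact this
    have m4 := (((m1.sub m2).mul_const (1 / 2)).sub (m3.const_mul θ)).const_mul (1 / θ)
    refine MemLp.ae_eq (Filter.Eventually.of_forall fun x => ?_) m4
    simp only [Pi.sub_apply]
    rw [hrf]
    ring
  have rint : ∀ i, Integrable (fun x => r x i ^ 2) (gm ι) := fun i => (rmem i).integrable_sq
  have rb : ∀ i, ∫ x, r x i ^ 2 ∂(gm ι) ≤ θ ^ 4 * ∫ x, f i x ^ 2 ∂(gm ι) := by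
    intro i
    have h := hMEA (gm ι) N C n1 n2 n3 n4 (f i) (hfm i) (hfb i) θ hθ
    have e : (fun x => r x i ^ 2) = fun x => (1 / θ ^ 2) * (∫ y, N θ x y * f i y ∂(gm ι)) ^ 2 := by
      ext x
      rw [hr]
      simp only
      rw [mul_pow]
      ring
    rw [e, integral_const_mul]
    calc 1 / θ ^ 2 * ∫ x, (∫ y, N θ x y * f i y ∂(gm ι)) ^ 2 ∂(gm ι)
        ≤ 1 / θ ^ 2 * (θ ^ 6 * ∫ x, f i x ^ 2 ∂(gm ι)) := by gcongr
      _ = θ ^ 4 * ∫ x, f i x ^ 2 ∂(gm ι) := by field_simp
  have feu : ∀ x, ∑ i, f i x ^ 2 ≤ D ^ 2 := by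
    intro x
    have h1 := (hA (F x)).2
    have h2 : eu (A *ᵥ F x) ≤ D := h1.trans (by
      calc D * p (F x) ≤ D * 1 := by gcongr; exact hF1 x
        _ = D := mul_one _)
    have h3 : ∑ i, f i x ^ 2 = eu (A *ᵥ F x) ^ 2 := by
      unfold eu
      rw [Real.sq_sqrt (Finset.sum_nonneg fun i _ => sq_nonneg _)]
    rw [h3]
    exact pow_le_pow_left₀ (Real.sqrt_nonneg _) h2 2
  have fint : ∀ i, Integrable (fun x => f i x ^ 2) (gm ι) := by
    intro i
    obtain ⟨K, hK⟩ := hfb i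
    refine bdd_int ((hfm i).pow_const 2) (K := K ^ 2) fun x => ?_
    rw [abs_pow]
    exact pow_le_pow_left₀ (abs_nonneg _) (hK x) 2
  have eusq : ∀ x, eu (r x) ^ 2 = ∑ i, r x i ^ 2 := by
    intro x
    unfold eu
    rw [Real.sq_sqrt (Finset.sum_nonneg fun i _ => sq_nonneg _)]
  have euint2 : Integrable (fun x => eu (r x) ^ 2) (gm ι) := by
    simp_rw [eusq]
    exact integrable_finsetSum _ fun i _ => rint i
  have tot : ∫ x, eu (r x) ^ 2 ∂(gm ι) ≤ (θ ^ 2 * D) ^ 2 := by
    simp_rw [eusq]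
    rw [integral_finsetSum _ fun i _ => rint i]
    calc ∑ i, ∫ x, r x i ^ 2 ∂(gm ι) ≤ ∑ i, θ ^ 4 * ∫ x, f i x ^ 2 ∂(gm ι) :=
          Finset.sum_le_sum fun i _ => rb i
      _ = θ ^ 4 * ∫ x, ∑ i, f i x ^ 2 ∂(gm ι) := by
          rw [integral_finsetSum _ fun i _ => fint i, Finset.mul_sum]
      _ ≤ θ ^ 4 * ∫ _x : ι → ℝ, D ^ 2 ∂(gm ι) := by
          exact mul_le_mul_of_nonneg_left (integral_mono (integrable_finsetSum _ fun i _ => fint i)
            (integrable_const _) feu) (by positivity)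
      _ = (θ ^ 2 * D) ^ 2 := by
          simp only [integral_const, probReal_univ, smul_eq_mul, one_mul]
          ring
  have eum : AEStronglyMeasurable (fun x => eu (r x)) (gm ι) := by
    have h1 : AEStronglyMeasurable (fun x => ∑ i, r x i ^ 2) (gm ι) :=
      (integrable_finsetSum _ fun i _ => rint i).aestronglyMeasurable
    exact Real.continuous_sqrt.comp_aestronglyMeasurable h1
  have eu1 : Integrable (fun x => eu (r x)) (gm ι) :=
    ((memLp_two_iff_integrable_sq eum).2 euint2).integrable (by norm_num)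
  have hcs : (∫ x, eu (r x) ∂(gm ι)) ^ 2 ≤ (θ ^ 2 * D) ^ 2 := by
    have := MEAM.cs (μ := gm ι) (g := fun x => eu (r x)) (h := fun _ => (1:ℝ)) euint2
      (by simp) (by simpa using eu1)
    simp only [mul_one, one_pow, integral_const, probReal_univ, smul_eq_mul] at this
    exact this.trans tot
  have hfin : ∫ x, eu (r x) ∂(gm ι) ≤ θ ^ 2 * D :=
    (pow_le_pow_iff_left₀ (integral_nonneg fun x => Real.sqrt_nonneg _) (by positivity)
      two_ne_zero).1 hcs
  calc ∫ x, p (B *ᵥ x) ∂(gm ι) ≤ ∫ x, (1 / θ + eu (r x)) ∂(gm ι) := by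
        refine integral_mono_of_nonneg (Filter.Eventually.of_forall fun x => hNM1.nonneg hp _)
          ((integrable_const _).add eu1) (Filter.Eventually.of_forall pt)
    _ = 1 / θ + ∫ x, eu (r x) ∂(gm ι) := by
        rw [integral_add (integrable_const _) eu1]
        simp
    _ ≤ 1 / θ + θ ^ 2 * D := by gcongr
    _ ≤ 3 * c := by
        have e1 : 1 / θ = 2 * c := by rw [hθd]; field_simp
        have e2 : θ ^ 2 * D = c / 4 := by
          rw [hθd, ← c3]; field_simp; ring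
        rw [e1, e2]
        linarith

end Pool.Agent.Lib.MP_cb8a44_nt.RM
end

section
set_option autoImplicit false

open MeasureTheory Matrix Set
open scoped ENNReal

namespace Pool.Agent.Lib.MP_cb8a44_nt.RM

namespace LMNM

instance : Measure.IsOpenPosMeasure (ProbabilityTheory.gaussianReal 0 1) :=
  (ProbabilityTheory.gaussianReal_absolutelyContinuous' 0 one_ne_zero).isOpenPosMeasure

variable {ι : Type} [Fintype ι]

instance : Measure.IsOpenPosMeasure (gm ι) := by
  unfold gm; infer_instance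

variable [DecidableEq ι]

/-- matrix from a vector -/
def mt (T : ι × ι → ℝ) : Matrix ι ι ℝ := Matrix.of fun i j => T (i, j)

/-- vector from a matrix -/
def vt (A : Matrix ι ι ℝ) : ι × ι → ℝ := fun ij => A ij.1 ij.2

omit [Fintype ι] [DecidableEq ι] in
theorem mt_vt (A : Matrix ι ι ℝ) : mt (vt A) = A := rfl

/-- the mean of `p (T g)` -/
noncomputable def fn (p : (ι → ℝ) → ℝ) (T : ι × ι → ℝ) : ℝ := ∫ x, p (mt T *ᵥ x) ∂(gm ι)

theorem nm_sum (hNM1 : SpecNM1) {p : (ι → ℝ) → ℝ} (hp : Nm p) (s : Finset ι) (x : ι → ℝ)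
    (v : ι → ι → ℝ) : p (∑ j ∈ s, x j • v j) ≤ ∑ j ∈ s, |x j| * p (v j) := by
  induction s using Finset.induction_on with
  | empty => simp [hNM1.zero hp]
  | insert a s ha ih =>
    rw [Finset.sum_insert ha, Finset.sum_insert ha]
    refine (hp.add _ _).trans ?_
    rw [hp.smul]
    gcongr

theorem int_all (hNM1 : SpecNM1) {p : (ι → ℝ) → ℝ} (hp : Nm p) (A : Matrix ι ι ℝ) :
    Integrable (fun x => p (A *ᵥ x)) (gm ι) := by
  have h1 : Integrable (fun x : ι → ℝ => ∑ j, |x j| * p (Aᵀ j)) (gm ι) :=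
    integrable_finsetSum _ fun j _ => (KCVM.coord j).abs.mul_const _
  have hc : Continuous fun x => p (A *ᵥ x) :=
    (hNM1.cont hp).comp (continuous_const.matrix_mulVec continuous_id)
  refine h1.mono' hc.aestronglyMeasurable (Filter.Eventually.of_forall fun x => ?_)
  rw [Real.norm_eq_abs, abs_of_nonneg (hNM1.nonneg hp _)]
  have e : A *ᵥ x = ∑ j, x j • Aᵀ j := by
    ext i
    rw [Finset.sum_apply]
    show ∑ j, A i j * x j = _
    refine Finset.sum_congr rfl fun j _ => ?_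
    rw [Pi.smul_apply, smul_eq_mul, Matrix.transpose_apply, mul_comm]
  rw [e]
  exact nm_sum hNM1 hp Finset.univ x fun j => Aᵀ j

theorem fn_nm (hNM1 : SpecNM1) {p : (ι → ℝ) → ℝ} (hp : Nm p) : Nm (fn p) := by
  refine ⟨fun S T => ?_, fun c T => ?_, fun T hT => ?_⟩
  · unfold fn
    rw [← integral_add (int_all hNM1 hp _) (int_all hNM1 hp _)]
    refine integral_mono (int_all hNM1 hp _) ((int_all hNM1 hp _).add (int_all hNM1 hp _)) ?_
    intro x
    have e : mt (S + T) *ᵥ x = mt S *ᵥ x + mt T *ᵥ x := by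
      rw [← Matrix.add_mulVec]
      rfl
    simp only
    rw [e]
    exact hp.add _ _
  · unfold fn
    rw [← integral_const_mul]
    congr 1
    ext x
    have e : mt (c • T) *ᵥ x = c • (mt T *ᵥ x) := by
      rw [← Matrix.smul_mulVec]
      rfl
    rw [e, hp.smul]
  · have h0 : 0 ≤ fn p T := integral_nonneg fun x => hNM1.nonneg hp _
    refine lt_of_le_of_ne h0 fun h => ?_
    have h1 : (fun x => p (mt T *ᵥ x)) =ᵐ[gm ι] 0 :=
      (integral_eq_zero_iff_of_nonneg (fun x => hNM1.nonneg hp _) (int_all hNM1 hp _)).1 h.symm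
    have hc : Continuous fun x => p (mt T *ᵥ x) :=
      (hNM1.cont hp).comp (continuous_const.matrix_mulVec continuous_id)
    have h2 : (fun x => p (mt T *ᵥ x)) = 0 := (hc.ae_eq_iff_eq (gm ι) continuous_zero).1 h1
    apply hT
    ext ⟨i, j⟩
    have h3 : p (mt T *ᵥ Pi.single j 1) = 0 := congrFun h2 _
    have h4 : mt T *ᵥ Pi.single j 1 = 0 := by
      by_contra hne
      exact absurd h3 (hp.pos _ hne).ne'
    have h5 := congrFun h4 i
    rw [Matrix.mulVec_single_one] at h5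
    exact h5

/-- the derivative of the determinant -/
theorem det_deriv (M : Matrix ι ι ℝ) :
    HasDerivAt (fun t : ℝ => (1 + t • M).det) M.trace 0 := by
  have e : (fun t : ℝ => (1 + t • M).det) = fun t => 1 + M.trace * t +
      ((1 + (Polynomial.X : Polynomial ℝ) • M.map Polynomial.C).det.divX.divX).eval t * t ^ 2 := by
    ext t
    rw [Matrix.det_one_add_smul]
  rw [e]
  set P := ((1 + (Polynomial.X : Polynomial ℝ) • M.map Polynomial.C).det.divX.divX) with hP
  have h1 : HasDerivAt (fun t : ℝ => 1 + M.trace * t) (M.trace) 0 := by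
    simpa using ((hasDerivAt_id (0:ℝ)).const_mul M.trace).const_add 1
  have h2 : HasDerivAt (fun t : ℝ => P.eval t * t ^ 2) 0 0 := by
    have := (P.hasDerivAt 0).fun_mul (hasDerivAt_pow 2 (0:ℝ))
    simpa using this
  simpa using h1.fun_add h2

theorem deriv_nonneg {h : ℝ → ℝ} {h' : ℝ} (hd : HasDerivAt h h' 0) (h0 : h 0 = 0)
    (hn : ∀ t, 0 ≤ t → 0 ≤ h t) : 0 ≤ h' := by
  have h1 := hasDerivAt_iff_tendsto_slope_zero.1 hd
  have h2 : Filter.Tendsto (fun t => t⁻¹ • (h (0 + t) - h 0)) (nhdsWithin 0 (Ioi 0)) (nhds h') :=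
    h1.mono_left (nhdsWithin_mono _ fun t (ht : 0 < t) => ht.ne')
  refine ge_of_tendsto h2 ?_
  filter_upwards [self_mem_nhdsWithin] with t ht
  rw [h0, zero_add, sub_zero, smul_eq_mul]
  exact mul_nonneg (inv_nonneg.2 (le_of_lt ht)) (hn t (le_of_lt ht))

end LMNM

open LMNM in
theorem specLMN (hNM1 : SpecNM1) : SpecLMN := by
  intro ι _ _ _ p hp
  have hf := fn_nm (ι := ι) hNM1 hp
  set f := fn p with hfd
  set n := Fintype.card ι with hn
  have n0 : 0 < n := Fintype.card_pos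
  have h1ne : vt (1 : Matrix ι ι ℝ) ≠ 0 := by
    intro h
    obtain ⟨i⟩ := ‹Nonempty ι›
    have := congrFun h (i, i)
    simp [vt] at this
  have hc0 : 0 < f (vt 1) := hf.pos _ h1ne
  set c := f (vt 1) with hc
  have hsc : Nm fun T => (1 / c) * f T := hNM1.sca hf (by positivity)
  have hcpt := hNM1.cpt hsc
  have hdet : Continuous fun T : ι × ι → ℝ => (mt T).det := by
    apply Continuous.matrix_det
    refine continuous_matrix fun i j => ?_
    exact continuous_apply (i, j)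
  set S : Set (ι × ι → ℝ) := bl (fun T => (1 / c) * f T) ∩ {T | (mt T).det = 1} with hS
  have hScpt : IsCompact S := hcpt.inter_right (isClosed_singleton.preimage hdet)
  have hSne : S.Nonempty := by
    refine ⟨vt 1, ?_, ?_⟩
    · show (1 / c) * f (vt 1) ≤ 1
      rw [← hc, one_div, inv_mul_cancel₀ hc0.ne']
    · show (mt (vt (1 : Matrix ι ι ℝ))).det = 1
      rw [mt_vt, Matrix.det_one]
  obtain ⟨T, hTS, hTmin⟩ := hScpt.exists_isMinOn hSne (hNM1.cont hf).continuousOn
  have hTdet : (mt T).det = 1 := hTS.2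
  have hmin : ∀ A : Matrix ι ι ℝ, A.det = 1 → f T ≤ f (vt A) := by
    intro A hA
    by_cases h : f (vt A) ≤ c
    · refine hTmin (show vt A ∈ S from ⟨?_, hA⟩)
      show (1 / c) * f (vt A) ≤ 1
      rw [one_div, inv_mul_le_iff₀ hc0, mul_one]
      exact h
    · push Not at h
      have h2 : f T ≤ c := by
        have h3 : (1 / c) * f T ≤ 1 := hTS.1
        rw [one_div, inv_mul_le_iff₀ hc0, mul_one] at h3
        exact h3
      linarith
  have hTne : T ≠ 0 := by
    rintro rfl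
    have : (mt (0 : ι × ι → ℝ)).det = 0 := by
      have e : mt (0 : ι × ι → ℝ) = 0 := rfl
      rw [e, Matrix.det_zero]
    rw [this] at hTdet
    exact zero_ne_one hTdet
  have hl : 0 < f T := hf.pos _ hTne
  set l := f T with hld
  refine ⟨mt T, hTdet, hl, fun B => ?_⟩
  set M := (mt T)⁻¹ * B with hM
  set b := f (vt B) with hb
  have b0 : 0 ≤ b := hNM1.nonneg hf _
  show M.trace * l ≤ n * b
  have key : ∀ t : ℝ, 0 ≤ t → l ^ n * (1 + t • M).det ≤ (l + t * b) ^ n := by
    intro t ht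
    set d := (1 + t • M).det with hd
    have r0 : 0 ≤ l + t * b := by positivity
    by_cases hd0 : d ≤ 0
    · exact (mul_nonpos_of_nonneg_of_nonpos (by positivity) hd0).trans (pow_nonneg r0 _)
    push Not at hd0
    set a := d ^ (1 / (n : ℝ)) with ha
    have a0 : 0 < a := Real.rpow_pos_of_pos hd0 _
    have an : a ^ n = d := by
      rw [ha, ← Real.rpow_natCast, ← Real.rpow_mul hd0.le, one_div, inv_mul_cancel₀, Real.rpow_one]
      exact_mod_cast n0.ne'
    have hdTB : (mt T + t • B).det = d := by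
      have e : mt T + t • B = mt T * (1 + t • M) := by
        rw [Matrix.mul_add, Matrix.mul_one, Matrix.mul_smul, hM, ← Matrix.mul_assoc,
          Matrix.mul_nonsing_inv _ (by rw [hTdet]; exact isUnit_one), Matrix.one_mul]
      rw [e, Matrix.det_mul, hTdet, one_mul]
    have h1 : (a⁻¹ • (mt T + t • B)).det = 1 := by
      rw [Matrix.det_smul, hdTB, inv_pow, ← hn, an, inv_mul_cancel₀ hd0.ne']
    have h2 := hmin _ h1
    have e2 : vt (a⁻¹ • (mt T + t • B)) = a⁻¹ • (T + t • vt B) := rfl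
    rw [e2, hf.smul, abs_of_pos (inv_pos.2 a0)] at h2
    have h3 : f (T + t • vt B) ≤ l + t * b := by
      refine (hf.add _ _).trans ?_
      rw [hf.smul, abs_of_nonneg ht]
    have h4 : l * a ≤ l + t * b := by
      have h5 : l * a ≤ f (T + t • vt B) := by
        rw [← div_eq_inv_mul, le_div_iff₀ a0] at h2
        exact h2
      exact h5.trans h3
    calc l ^ n * d = (l * a) ^ n := by rw [mul_pow, an]
      _ ≤ (l + t * b) ^ n := pow_le_pow_left₀ (by positivity) h4 n
  have hd1 : HasDerivAt (fun t : ℝ => (l + t * b) ^ n - l ^ n * (1 + t • M).det)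
      (n * l ^ (n - 1) * b - l ^ n * M.trace) 0 := by
    have h1 : HasDerivAt (fun t : ℝ => l + t * b) b 0 := by
      simpa using ((hasDerivAt_id (0:ℝ)).mul_const b).const_add l
    have h2 := h1.fun_pow n
    have h3 := (det_deriv M).const_mul (l ^ n)
    have h4 := h2.fun_sub h3
    simpa using h4
  have h6 := deriv_nonneg hd1 (by simp) fun t ht => sub_nonneg.2 (key t ht)
  have h7 : l ^ n = l ^ (n - 1) * l := by
    rw [← pow_succ]
    congr 1
    omega
  rw [h7] at h6
  have h8 : 0 < l ^ (n - 1) := pow_pos hl _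
  have h9 : l ^ (n - 1) * (M.trace * l) ≤ l ^ (n - 1) * (n * b) := by nlinarith
  exact le_of_mul_le_mul_left h9 h8

end Pool.Agent.Lib.MP_cb8a44_nt.RM
end

section
set_option autoImplicit false

open MeasureTheory Matrix Set
open scoped ENNReal

namespace Pool.Agent.Lib.MP_cb8a44_nt.RM

namespace LPSM

variable {ι : Type} [Fintype ι]

theorem int_coord (i : ι) : Integrable (fun y : ι → ℝ => y i) (gm ι) := by
  have h1 : Integrable (fun x : ℝ => x) (ProbabilityTheory.gaussianReal 0 1) :=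
    (ProbabilityTheory.memLp_id_gaussianReal (μ := 0) (v := 1) 1).integrable (le_refl _)
  exact (measurePreserving_eval (fun _ : ι => ProbabilityTheory.gaussianReal 0 1) i).integrable_comp_of_integrable h1

end LPSM

open LPSM in
theorem specLPS (hNM1 : SpecNM1) (hNM2 : SpecNM2) (hLMN : SpecLMN) (hSEL : SpecSEL)
    (hKCV : SpecKCV) (hGIN : SpecGIN) : SpecLPS := by
  intro ι _ _ _ p D hp hD hdist
  obtain ⟨T, hT1, hT2, hT3⟩ := hLMN p hp
  have hTd : T.det ≠ 0 := by rw [hT1]; exact one_ne_zero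
  refine ⟨T, hTd, ?_⟩
  set p' : (ι → ℝ) → ℝ := fun x => p (T *ᵥ x) with hp'
  have hnp' : Nm p' := hNM1.comp hp hTd
  have hd' : Dist p' D := (hGIN.dist hTd).2 hdist
  have hdu : Nm (du p') := hNM2.nm hnp'
  have hell : ell p' = ∫ x, p (T *ᵥ x) ∂(gm ι) := rfl
  have key : ∀ ε : ℝ, 0 < ε → (1 - ε) * (ell p' * ell (du p')) ≤
      3 * D ^ (1 / 3 : ℝ) * Fintype.card ι := by
    intro ε hε
    obtain ⟨F, hF1, hF2, hF3, hF4⟩ := hSEL p' ε hnp' hε
    set B : Matrix ι ι ℝ := Matrix.of fun i j => ∫ y, F y i * y j ∂(gm ι) with hB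
    have hK := hKCV p' D F hnp' hD hd' hF1 hF2 hF3
    rw [← hB] at hK
    -- integrability of F i * y j
    have hFb : ∀ i, ∃ K : ℝ, ∀ y, |F y i| ≤ K := by
      intro i
      have hfin : (Set.range fun y => |F y i|).Finite := by
        have : (Set.range fun y => |F y i|) = (fun v : ι → ℝ => |v i|) '' Set.range F := by
          rw [← Set.range_comp]; rfl
        rw [this]
        exact hF2.image _
      obtain ⟨K, hK⟩ := hfin.bddAbove
      exact ⟨K, fun y => hK ⟨y, rfl⟩⟩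
    have hint : ∀ i j, Integrable (fun y : ι → ℝ => F y i * y j) (gm ι) := by
      intro i j
      obtain ⟨K, hK⟩ := hFb i
      refine (int_coord j).bdd_mul (c := K) ((measurable_pi_apply i).comp hF1).aestronglyMeasurable ?_
      exact Filter.Eventually.of_forall fun y => hK y
    have htr : ∫ y, F y ⬝ᵥ y ∂(gm ι) = B.trace := by
      unfold dotProduct
      rw [integral_finset_sum _ fun i _ => hint i i]
      rfl
    have h1 : (1 - ε) * ell (du p') ≤ B.trace := by
      rw [← htr]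
      unfold ell
      rw [← integral_const_mul]
      refine integral_mono ((hNM1.int hdu).const_mul _) ?_ fun y => hF4 y
      unfold dotProduct
      exact integrable_finset_sum _ fun i _ => hint i i
    have h2 := hT3 (T * B)
    rw [← Matrix.mul_assoc, Matrix.nonsing_inv_mul _ (by rw [hT1]; exact isUnit_one),
      Matrix.one_mul, ← hell] at h2
    have h3 : ∫ x, p ((T * B) *ᵥ x) ∂(gm ι) = ∫ x, p' (B *ᵥ x) ∂(gm ι) := by
      congr 1
      ext x
      rw [hp']
      simp only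
      rw [Matrix.mulVec_mulVec]
    rw [h3] at h2
    have hl : 0 ≤ ell p' := by rw [hell]; exact hT2.le
    calc (1 - ε) * (ell p' * ell (du p')) = ((1 - ε) * ell (du p')) * ell p' := by ring
      _ ≤ B.trace * ell p' := mul_le_mul_of_nonneg_right h1 hl
      _ ≤ Fintype.card ι * ∫ x, p' (B *ᵥ x) ∂(gm ι) := h2
      _ ≤ Fintype.card ι * (3 * D ^ (1 / 3 : ℝ)) :=
        mul_le_mul_of_nonneg_left hK (Nat.cast_nonneg _)
      _ = _ := by ring
  have hlim : Filter.Tendsto (fun n : ℕ => (1 - 1 / ((n:ℝ) + 1)) * (ell p' * ell (du p')))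
      Filter.atTop (nhds ((1 - 0) * (ell p' * ell (du p')))) :=
    (tendsto_const_nhds.sub tendsto_one_div_add_atTop_nhds_zero_nat).mul_const _
  have := le_of_tendsto' hlim fun n => key (1 / ((n:ℝ) + 1)) (by positivity)
  simpa using this

end Pool.Agent.Lib.MP_cb8a44_nt.RM
end

section
/-!
# MP_cb8a44_nt, block RM, module MPO: the `M`-position in diagonal form
-/
set_option autoImplicit false

open MeasureTheory Matrix Set
open scoped ENNReal

namespace Pool.Agent.Lib.MP_cb8a44_nt.RM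

namespace MPOM

variable {ι : Type} [Fintype ι] [DecidableEq ι]

/-- diagonalisation of `Aᵀ A` -/
theorem diag (A : Matrix ι ι ℝ) (hA : |A.det| = 1) :
    ∃ (O : Matrix ι ι ℝ) (s : ι → ℝ), Oᵀ * O = 1 ∧ ∑ i, s i = 0 ∧
      ∀ x : ι → ℝ, ∑ i, (A *ᵥ x) i ^ 2 = ∑ i, Real.exp (2 * s i) * (O *ᵥ x) i ^ 2 := by
  have hdet : A.det ≠ 0 := by
    intro h
    rw [h] at hA
    simp at hA
  have hM : (Aᵀ * A).PosDef := by
    have h := Matrix.PosDef.conjTranspose_mul_self A (Matrix.mulVec_injective_of_det_ne_zero hdet)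
    rwa [Matrix.conjTranspose_eq_transpose_of_trivial] at h
  have hH := hM.isHermitian
  obtain ⟨U, hU⟩ : ∃ U : Matrix ι ι ℝ, U = (hH.eigenvectorUnitary : Matrix ι ι ℝ) := ⟨_, rfl⟩
  have hUU : U * Uᵀ = 1 := by
    have h := (hH.eigenvectorUnitary).2
    rw [Matrix.mem_unitaryGroup_iff] at h
    rw [hU]
    rw [Matrix.star_eq_conjTranspose, Matrix.conjTranspose_eq_transpose_of_trivial] at h
    exact h
  obtain ⟨l, hl⟩ : ∃ l : ι → ℝ, l = hH.eigenvalues := ⟨_, rfl⟩
  have hlpos : ∀ i, 0 < l i := by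
    intro i
    rw [hl]
    exact hM.eigenvalues_pos i
  have hspec : Aᵀ * A = U * Matrix.diagonal l * Uᵀ := by
    have h := hH.spectral_theorem
    rw [Unitary.conjStarAlgAut_apply, Matrix.star_eq_conjTranspose,
      Matrix.conjTranspose_eq_transpose_of_trivial] at h
    rw [hU, hl]
    exact h
  have hprod : ∏ i, l i = 1 := by
    have h := congrArg Matrix.det hspec
    rw [Matrix.det_mul, Matrix.det_mul, Matrix.det_mul, Matrix.det_transpose, Matrix.det_transpose,
      Matrix.det_diagonal] at h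
    have hU2 : U.det * U.det = 1 := by
      have h2 := congrArg Matrix.det hUU
      rwa [Matrix.det_mul, Matrix.det_transpose, Matrix.det_one] at h2
    have hA2 : A.det * A.det = 1 := by rw [← abs_mul_abs_self, hA, one_mul]
    rw [hA2] at h
    calc ∏ i, l i = (U.det * U.det) * ∏ i, l i := by rw [hU2, one_mul]
      _ = U.det * (∏ i, l i) * U.det := by ring
      _ = 1 := h.symm
  refine ⟨Uᵀ, fun i => Real.log (l i) / 2, ?_, ?_, ?_⟩
  · rw [Matrix.transpose_transpose]
    exact hUU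
  · rw [← Finset.sum_div, ← Real.log_prod (fun i _ => (hlpos i).ne'), hprod, Real.log_one, zero_div]
  · intro x
    have hexp : ∀ i, Real.exp (2 * (Real.log (l i) / 2)) = l i := by
      intro i
      rw [mul_div_cancel₀ _ (two_ne_zero), Real.exp_log (hlpos i)]
    simp_rw [hexp]
    have e1 : ∑ i, (A *ᵥ x) i ^ 2 = x ⬝ᵥ ((Aᵀ * A) *ᵥ x) := by
      rw [← Matrix.mulVec_mulVec, Matrix.dotProduct_mulVec, Matrix.vecMul_transpose]
      unfold dotProduct
      exact Finset.sum_congr rfl fun i _ => by ring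
    have e2 : x ⬝ᵥ ((U * Matrix.diagonal l * Uᵀ) *ᵥ x) = ∑ i, l i * (Uᵀ *ᵥ x) i ^ 2 := by
      rw [← Matrix.mulVec_mulVec, ← Matrix.mulVec_mulVec, Matrix.dotProduct_mulVec,
        ← Matrix.mulVec_transpose]
      unfold dotProduct
      refine Finset.sum_congr rfl fun i _ => ?_
      rw [Matrix.mulVec_diagonal]
      ring
    rw [e1, hspec, e2]

end MPOM

open MPOM

theorem specMPO (hGAU : SpecGAU) (hITR : SpecITR) : SpecMPO := by
  obtain ⟨c₀, h0, h1, hc⟩ := hITR
  refine ⟨c₀, h0, h1, ?_⟩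
  intro ι _ _ _ V hV hcv hs hi hvol
  obtain ⟨p, hp, hpV⟩ := hGAU V hV hcv hs hi
  obtain ⟨A, hA, hcA⟩ := hc p hp
  have hv : vol p = 1 := by
    unfold vol
    rw [hpV, hvol, ENNReal.toReal_one]
  rw [hv, mul_one] at hA
  obtain ⟨O, s, hO, hs0, hx⟩ := diag A hA
  refine ⟨O, s, hO, hs0, ?_⟩
  unfold gmass at hcA
  rw [hA, one_mul, hpV] at hcA
  simp_rw [hx] at hcA
  exact hcA

end Pool.Agent.Lib.MP_cb8a44_nt.RM
end

section
/-!
# NM2: the dual norm
-/
set_option autoImplicit false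

open MeasureTheory Matrix Set
open scoped ENNReal

namespace Pool.Agent.Lib.MP_cb8a44_nt.RM

namespace NM2M

variable {ι : Type} [Fintype ι] {p : (ι → ℝ) → ℝ}

theorem cont_dot (y : ι → ℝ) : Continuous fun x : ι → ℝ => x ⬝ᵥ y := by
  unfold dotProduct
  fun_prop

theorem zero_mem (h1 : SpecNM1) (hp : Nm p) : (0 : ι → ℝ) ∈ bl p := by
  change p 0 ≤ 1
  rw [h1.zero hp]
  exact zero_le_one

/-- the supremum is attained -/
theorem att (h1 : SpecNM1) (hp : Nm p) (y : ι → ℝ) :
    ∃ x ∈ bl p, x ⬝ᵥ y = du p y ∧ ∀ z ∈ bl p, z ⬝ᵥ y ≤ du p y := by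
  obtain ⟨x, hx, hmax⟩ := (h1.cpt hp).exists_isMaxOn ⟨0, zero_mem h1 hp⟩ (cont_dot y).continuousOn
  have hg : IsGreatest ((fun x => x ⬝ᵥ y) '' bl p) (x ⬝ᵥ y) := by
    refine ⟨⟨x, hx, rfl⟩, ?_⟩
    rintro _ ⟨z, hz, rfl⟩
    exact hmax hz
  have he : du p y = x ⬝ᵥ y := hg.csSup_eq
  refine ⟨x, hx, he.symm, fun z hz => ?_⟩
  rw [he]
  exact hmax hz

theorem nonneg (h1 : SpecNM1) (hp : Nm p) (y : ι → ℝ) : 0 ≤ du p y := by
  obtain ⟨x, hx, he, hall⟩ := att h1 hp y
  have h := hall 0 (zero_mem h1 hp)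
  rwa [zero_dotProduct] at h

omit [Fintype ι] in
theorem neg_mem (hp : Nm p) {x : ι → ℝ} (hx : x ∈ bl p) : -x ∈ bl p := by
  change p (-x) ≤ 1
  have h := hp.smul (-1) x
  rw [neg_one_smul, abs_neg, abs_one, one_mul] at h
  rw [h]
  exact hx

theorem abs_le (h1 : SpecNM1) (hp : Nm p) (y : ι → ℝ) {x : ι → ℝ} (hx : x ∈ bl p) :
    |x ⬝ᵥ y| ≤ du p y := by
  obtain ⟨x', hx', he, hall⟩ := att h1 hp y
  rw [abs_le']
  refine ⟨hall x hx, ?_⟩
  have h := hall (-x) (neg_mem hp hx)
  rwa [neg_dotProduct] at h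

theorem le (h1 : SpecNM1) (hp : Nm p) (x y : ι → ℝ) : x ⬝ᵥ y ≤ p x * du p y := by
  by_cases hx : x = 0
  · rw [hx, zero_dotProduct, h1.zero hp, zero_mul]
  · have hpx := hp.pos x hx
    have hz : (p x)⁻¹ • x ∈ bl p := by
      change p ((p x)⁻¹ • x) ≤ 1
      rw [hp.smul, abs_of_pos (inv_pos.2 hpx), inv_mul_cancel₀ hpx.ne']
    obtain ⟨x', hx', he, hall⟩ := att h1 hp y
    have h := hall _ hz
    rw [smul_dotProduct, smul_eq_mul] at h
    have h2 := mul_le_mul_of_nonneg_left h hpx.le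
    rwa [← mul_assoc, mul_inv_cancel₀ hpx.ne', one_mul] at h2

theorem smul_du (h1 : SpecNM1) (hp : Nm p) (c : ℝ) (y : ι → ℝ) :
    du p (c • y) = |c| * du p y := by
  obtain ⟨x, hx, he, hall⟩ := att h1 hp (c • y)
  obtain ⟨x', hx', he', hall'⟩ := att h1 hp y
  refine le_antisymm ?_ ?_
  · rw [← he, dotProduct_smul, smul_eq_mul]
    calc c * x ⬝ᵥ y ≤ |c * x ⬝ᵥ y| := le_abs_self _
      _ = |c| * |x ⬝ᵥ y| := abs_mul _ _
      _ ≤ |c| * du p y := mul_le_mul_of_nonneg_left (abs_le h1 hp y hx) (abs_nonneg c)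
  · rw [← he']
    rcases le_total 0 c with hc | hc
    · have h := hall x' hx'
      rw [dotProduct_smul, smul_eq_mul] at h
      rw [abs_of_nonneg hc]
      exact h
    · have h := hall (-x') (neg_mem hp hx')
      rw [dotProduct_smul, smul_eq_mul, neg_dotProduct] at h
      rw [abs_of_nonpos hc]
      linarith

theorem nm (h1 : SpecNM1) (hp : Nm p) : Nm (du p) where
  add := by
    intro y z
    obtain ⟨x, hx, he, hall⟩ := att h1 hp (y + z)
    rw [← he, dotProduct_add]
    exact add_le_add ((le_abs_self _).trans (abs_le h1 hp y hx))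
      ((le_abs_self _).trans (abs_le h1 hp z hx))
  smul := smul_du h1 hp
  pos := by
    intro y hy
    have h := le h1 hp y y
    have h2 : 0 < y ⬝ᵥ y := by
      obtain ⟨i, hi⟩ := Function.ne_iff.1 hy
      have hi' : y i ≠ 0 := hi
      unfold dotProduct
      exact Finset.sum_pos' (fun i _ => mul_self_nonneg _) ⟨i, Finset.mem_univ _, mul_self_pos.2 hi'⟩
    have h3 := hp.pos y hy
    by_contra hcon
    have h4 : p y * du p y ≤ 0 := mul_nonpos_of_nonneg_of_nonpos h3.le (not_lt.1 hcon)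
    linarith

theorem lin [DecidableEq ι] {A : Matrix ι ι ℝ} (hA : A.det ≠ 0) (y : ι → ℝ) :
    du (fun x => p (A *ᵥ x)) y = du p ((A⁻¹)ᵀ *ᵥ y) := by
  have hu : IsUnit A.det := isUnit_iff_ne_zero.2 hA
  unfold du
  congr 1
  apply Set.ext
  intro r
  constructor
  · rintro ⟨x, hx, rfl⟩
    refine ⟨A *ᵥ x, hx, ?_⟩
    change (A *ᵥ x) ⬝ᵥ ((A⁻¹)ᵀ *ᵥ y) = x ⬝ᵥ y
    rw [Matrix.dotProduct_mulVec, Matrix.vecMul_transpose, Matrix.mulVec_mulVec,
      Matrix.nonsing_inv_mul _ hu, Matrix.one_mulVec]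
  · rintro ⟨z, hz, rfl⟩
    refine ⟨A⁻¹ *ᵥ z, ?_, ?_⟩
    · change p (A *ᵥ (A⁻¹ *ᵥ z)) ≤ 1
      rw [Matrix.mulVec_mulVec, Matrix.mul_nonsing_inv _ hu, Matrix.one_mulVec]
      exact hz
    · change (A⁻¹ *ᵥ z) ⬝ᵥ y = z ⬝ᵥ ((A⁻¹)ᵀ *ᵥ y)
      rw [Matrix.dotProduct_mulVec, Matrix.vecMul_transpose]

theorem sca (h1 : SpecNM1) (hp : Nm p) {c : ℝ} (hc : 0 < c) (y : ι → ℝ) :
    du (fun x => c * p x) y = du p y / c := by
  have hq : Nm (fun x => c * p x) := h1.sca hp hc
  obtain ⟨x, hx, he, hall⟩ := att h1 hq y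
  obtain ⟨x', hx', he', hall'⟩ := att h1 hp y
  have hx2 : c * p x ≤ 1 := hx
  refine le_antisymm ?_ ?_
  · rw [← he, le_div_iff₀ hc]
    have h2 := le h1 hp x y
    have h3 := nonneg h1 hp y
    have h4 : c * p x * du p y ≤ 1 * du p y := mul_le_mul_of_nonneg_right hx2 h3
    have h5 := mul_le_mul_of_nonneg_left h2 hc.le
    linarith
  · have hm : c⁻¹ • x' ∈ bl (fun x => c * p x) := by
      change c * p (c⁻¹ • x') ≤ 1
      rw [hp.smul, abs_of_pos (inv_pos.2 hc), ← mul_assoc, mul_inv_cancel₀ hc.ne', one_mul]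
      exact hx'
    have h := hall _ hm
    rw [smul_dotProduct, smul_eq_mul, he'] at h
    rw [div_eq_inv_mul]
    exact h

end NM2M

theorem specNM2 (h1 : SpecNM1) : SpecNM2 where
  nm := NM2M.nm h1
  le := NM2M.le h1
  att := fun hp y => by
    obtain ⟨x, hx, he, -⟩ := NM2M.att h1 hp y
    exact ⟨x, hx, he⟩
  lin := fun _ hA y => NM2M.lin hA y
  sca := fun hp hc y => NM2M.sca h1 hp hc y

end Pool.Agent.Lib.MP_cb8a44_nt.RM
end

section
set_option autoImplicit false

open MeasureTheory Matrix Set ProbabilityTheory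
open scoped ENNReal

namespace Pool.Agent.Lib.MP_cb8a44_nt.RM

namespace NM3M

variable {ι : Type} [Fintype ι]

lemma abs1 : (1 / 2 : ℝ) ≤ ∫ z, |z| ∂(gaussianReal 0 1) := by
  rw [integral_gaussianReal_eq_integral_smul one_ne_zero]
  have h1 : ∀ z : ℝ, gaussianPDFReal 0 1 z • |z| =
      (fun t : ℝ => (Real.sqrt (2 * Real.pi))⁻¹ * (t ^ (1 : ℝ) * Real.exp (-(1 / 2) * t ^ (2 : ℝ)))) |z| := by
    intro z
    simp only [gaussianPDFReal, sub_zero, NNReal.coe_one, mul_one, smul_eq_mul, Real.rpow_one]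
    have : |z| ^ (2 : ℝ) = z ^ 2 := by
      rw [show (2 : ℝ) = ((2 : ℕ) : ℝ) by norm_num, Real.rpow_natCast, sq_abs]
    rw [this]
    have h2 : -z ^ 2 / 2 = -(1 / 2) * z ^ 2 := by ring
    rw [h2]
    ring
  rw [integral_congr_ae (Filter.Eventually.of_forall h1),
    integral_comp_abs (f := fun t : ℝ => (Real.sqrt (2 * Real.pi))⁻¹ * (t ^ (1 : ℝ) * Real.exp (-(1 / 2) * t ^ (2 : ℝ)))),
    integral_const_mul,
    integral_rpow_mul_exp_neg_mul_rpow (by norm_num) (by norm_num) (by norm_num)]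
  have h3 : (1 / 2 : ℝ) ^ (-((1 : ℝ) + 1) / 2) * (1 / 2) * Real.Gamma (((1 : ℝ) + 1) / 2) = 1 := by
    rw [show -((1 : ℝ) + 1) / 2 = -1 by norm_num, show ((1 : ℝ) + 1) / 2 = 1 by norm_num, Real.Gamma_one,
      Real.rpow_neg_one]
    norm_num
  rw [h3, mul_one]
  have h4 : Real.sqrt (2 * Real.pi) ≤ 4 := by
    rw [Real.sqrt_le_left (by norm_num)]
    nlinarith [Real.pi_lt_four]
  have h5 : 0 < Real.sqrt (2 * Real.pi) := Real.sqrt_pos.mpr (by positivity)
  rw [← div_eq_mul_inv, le_div_iff₀ h5]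
  linarith

lemma eu_eq (x : ι → ℝ) : eu x = ‖(WithLp.toLp 2 x : EuclideanSpace ℝ ι)‖ := by
  rw [EuclideanSpace.norm_eq]
  simp [eu]

lemma law (x : ι → ℝ) : (gm ι).map (fun g => x ⬝ᵥ g) = (gaussianReal 0 1).map (fun z => eu x * z) := by
  have h1 : (gm ι).map (WithLp.toLp 2) = stdGaussian (EuclideanSpace ℝ ι) := map_pi_eq_stdGaussian
  have h2 : (fun g => x ⬝ᵥ g) =
      ⇑(innerSL ℝ (WithLp.toLp 2 x : EuclideanSpace ℝ ι)) ∘ (WithLp.toLp 2 : (ι → ℝ) → EuclideanSpace ℝ ι) := by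
    ext g
    simp [dotProduct, PiLp.inner_apply, mul_comm]
  rw [h2, ← Measure.map_map (by fun_prop) (by fun_prop), h1, IsGaussian.map_eq_gaussianReal,
    variance_dual_stdGaussian, integral_strongDual_stdGaussian, innerSL_apply_norm, ← eu_eq,
    gaussianReal_map_const_mul]
  congr 1
  · simp
  · ext
    simp [Real.coe_toNNReal _ (sq_nonneg (eu x))]

lemma key (x : ι → ℝ) : eu x / 2 ≤ ∫ g, |x ⬝ᵥ g| ∂(gm ι) := by
  have h1 : ∫ g, |x ⬝ᵥ g| ∂(gm ι) = ∫ y, |y| ∂((gm ι).map (fun g => x ⬝ᵥ g)) := by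
    rw [integral_map]
    · have : Continuous (fun g : ι → ℝ => x ⬝ᵥ g) := by
        unfold dotProduct
        fun_prop
      exact this.aemeasurable
    · exact continuous_abs.aestronglyMeasurable
  rw [h1, law, integral_map (by fun_prop) continuous_abs.aestronglyMeasurable]
  have h0 : 0 ≤ eu x := Real.sqrt_nonneg _
  simp only [abs_mul, abs_of_nonneg h0]
  rw [integral_const_mul]
  have := mul_le_mul_of_nonneg_left abs1 h0
  linarith

end NM3M

theorem specNM3 (hNM1 : SpecNM1) (hNM2 : SpecNM2) : SpecNM3 := by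
  intro ι _ p h x
  have h1 : ∀ g : ι → ℝ, |x ⬝ᵥ g| ≤ p x * du p g := by
    intro g
    rw [abs_le]
    have h2 := hNM2.le h x g
    have h3 := hNM2.le h (-x) g
    have h4 : p (-x) = p x := by
      have := h.smul (-1) x
      simpa using this
    rw [h4, neg_dotProduct] at h3
    constructor <;> linarith
  have h5 : Integrable (fun g => p x * du p g) (gm ι) := (hNM1.int (hNM2.nm h)).const_mul _
  have h6 : ∫ g, |x ⬝ᵥ g| ∂(gm ι) ≤ ∫ g, p x * du p g ∂(gm ι) :=
    integral_mono_of_nonneg (Filter.Eventually.of_forall fun g => abs_nonneg _) h5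
      (Filter.Eventually.of_forall h1)
  rw [integral_const_mul] at h6
  have h7 := NM3M.key x
  change eu x ≤ 2 * (∫ g, du p g ∂(gm ι)) * p x
  linarith

end Pool.Agent.Lib.MP_cb8a44_nt.RM
end

section
set_option autoImplicit false

open MeasureTheory Matrix Set
open scoped ENNReal

namespace Pool.Agent.Lib.MP_cb8a44_nt.RM

namespace SELM

variable {ι : Type} [Fintype ι]

/-- measurable choice of a maximiser in a finite set -/
theorem argmax (t : Finset (ι → ℝ)) (ht : t.Nonempty) :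
    ∃ F : (ι → ℝ) → (ι → ℝ), Measurable F ∧ (∀ y, F y ∈ t) ∧
      ∀ y, ∀ x ∈ t, x ⬝ᵥ y ≤ F y ⬝ᵥ y := by
  classical
  induction ht using Finset.Nonempty.cons_induction with
  | singleton a =>
    exact ⟨fun _ => a, measurable_const, fun _ => Finset.mem_singleton_self a,
      fun y x hx => by rw [Finset.mem_singleton.1 hx]⟩
  | cons a s ha hs ih =>
    obtain ⟨F, hF1, hF2, hF3⟩ := ih
    have hc : ∀ v : ι → ℝ, Measurable fun y : ι → ℝ => v ⬝ᵥ y := by
      intro v
      unfold dotProduct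
      fun_prop
    have hFm : Measurable fun y : ι → ℝ => F y ⬝ᵥ y := by
      unfold dotProduct
      refine Finset.measurable_sum _ fun i _ => ?_
      exact ((measurable_pi_apply i).comp hF1).mul (measurable_pi_apply i)
    refine ⟨fun y => if F y ⬝ᵥ y ≤ a ⬝ᵥ y then a else F y,
      Measurable.ite (measurableSet_le hFm (hc a)) measurable_const hF1, fun y => ?_,
      fun y x hx => ?_⟩
    · simp only
      split_ifs with h
      · exact Finset.mem_cons_self a s
      · exact Finset.mem_cons_of_mem (hF2 y)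
    · simp only
      rw [Finset.mem_cons] at hx
      split_ifs with h
      · rcases hx with rfl | hx
        · exact le_refl _
        · exact (hF3 y x hx).trans h
      · push Not at h
        rcases hx with rfl | hx
        · exact h.le
        · exact hF3 y x hx

end SELM

open SELM in
theorem specSEL (hNM1 : SpecNM1) (hNM2 : SpecNM2) : SpecSEL := by
  intro ι _ p ε hp hε
  have hcpt := hNM1.cpt hp
  have hcont := hNM1.cont hp
  obtain ⟨t, ht1, ht2⟩ := hcpt.elim_nhds_subcover (fun c => {x | p (x - c) < ε}) (by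
    intro c _
    apply IsOpen.mem_nhds
    · exact isOpen_lt (hcont.comp (continuous_id.sub continuous_const)) continuous_const
    · simp only [mem_setOf_eq, sub_self, hNM1.zero hp]
      exact hε)
  have h0 : (0 : ι → ℝ) ∈ bl p := by
    show p 0 ≤ 1
    rw [hNM1.zero hp]; exact zero_le_one
  have htn : t.Nonempty := by
    have := ht2 h0
    simp only [mem_iUnion] at this
    obtain ⟨c, hc, _⟩ := this
    exact ⟨c, hc⟩
  obtain ⟨F, hF1, hF2, hF3⟩ := argmax t htn
  refine ⟨F, hF1, ?_, fun y => ht1 _ (hF2 y), fun y => ?_⟩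
  · refine t.finite_toSet.subset ?_
    rintro _ ⟨y, rfl⟩
    exact hF2 y
  · obtain ⟨v, hv1, hv2⟩ := hNM2.att hp y
    have := ht2 (show v ∈ bl p from hv1)
    simp only [mem_iUnion] at this
    obtain ⟨c, hc, hvc⟩ := this
    have h1 : (v - c) ⬝ᵥ y ≤ p (v - c) * du p y := hNM2.le hp _ _
    have h2 : 0 ≤ du p y := hNM1.nonneg (hNM2.nm hp) y
    have h3 : p (v - c) * du p y ≤ ε * du p y := mul_le_mul_of_nonneg_right (le_of_lt hvc) h2
    rw [sub_dotProduct, hv2] at h1
    have h4 := hF3 y c hc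
    linarith

end Pool.Agent.Lib.MP_cb8a44_nt.RM
end

section
/-!
# MP_cb8a44_nt, block RM, module STP

One step of the isomorphic symmetrisation: from Banach-Mazur distance `D` to `18 √D`.
-/
set_option autoImplicit false

open MeasureTheory Matrix Set
open scoped ENNReal

namespace Pool.Agent.Lib.MP_cb8a44_nt.RM

namespace STPM

section
variable {ι : Type} [Fintype ι]

instance : IsProbabilityMeasure (gm ι) := by unfold gm; infer_instance

lemma gs_int : Integrable (fun y : ℝ => y ^ 2) (ProbabilityTheory.gaussianReal 0 1) := by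
  have h := (ProbabilityTheory.memLp_id_gaussianReal (μ := 0) (v := 1) 2).integrable_sq
  simpa using h

lemma gs_sq : ∫ y : ℝ, y ^ 2 ∂(ProbabilityTheory.gaussianReal 0 1) = 1 := by
  have h := ProbabilityTheory.variance_fun_id_gaussianReal (μ := 0) (v := 1)
  rw [ProbabilityTheory.variance_of_integral_eq_zero (by fun_prop)
    (by rw [ProbabilityTheory.integral_id_gaussianReal])] at h
  simpa using h

lemma int_coord (i : ι) : Integrable (fun x : ι → ℝ => x i ^ 2) (gm ι) := by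
  have h := measurePreserving_eval (fun _ : ι => ProbabilityTheory.gaussianReal 0 1) i
  exact h.integrable_comp_of_integrable (g := fun y : ℝ => y ^ 2) gs_int

lemma int_coord_eq (i : ι) : ∫ x, x i ^ 2 ∂(gm ι) = 1 := by
  have h := measurePreserving_eval (fun _ : ι => ProbabilityTheory.gaussianReal 0 1) i
  rw [← gs_sq, ← h.map_eq, integral_map h.measurable.aemeasurable (by fun_prop)]
  rfl

lemma ell_eu [Nonempty ι] (hE : Integrable (eu : (ι → ℝ) → ℝ) (gm ι)) :
    ell (eu : (ι → ℝ) → ℝ) ≤ Real.sqrt (Fintype.card ι) := by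
  have hn : 0 < (Fintype.card ι : ℝ) := by exact_mod_cast Fintype.card_pos
  set s := Real.sqrt (Fintype.card ι) with hs
  have hs0 : 0 < s := Real.sqrt_pos.mpr hn
  have hs2 : s ^ 2 = Fintype.card ι := Real.sq_sqrt hn.le
  have hint : Integrable (fun x : ι → ℝ => s ^ 2 + ∑ i, x i ^ 2) (gm ι) :=
    (integrable_const _).add (integrable_finsetSum _ fun i _ => int_coord i)
  have h1 : ∫ x, 2 * s * eu x ∂(gm ι) ≤ ∫ x, (s ^ 2 + ∑ i, x i ^ 2) ∂(gm ι) := by
    apply integral_mono (hE.const_mul _) hint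
    intro x
    have h2 : eu x ^ 2 = ∑ i, x i ^ 2 :=
      Real.sq_sqrt (Finset.sum_nonneg fun i _ => sq_nonneg _)
    show 2 * s * eu x ≤ s ^ 2 + ∑ i, x i ^ 2
    rw [← h2]
    nlinarith [sq_nonneg (eu x - s)]
  rw [integral_const_mul, integral_add (integrable_const _)
    (integrable_finsetSum _ fun i _ => int_coord i), integral_const,
    integral_finsetSum _ fun i _ => int_coord i] at h1
  simp only [int_coord_eq, Finset.sum_const, Finset.card_univ, nsmul_eq_mul, mul_one,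
    probReal_univ, one_smul] at h1
  have h3 : 2 * s * ell (eu : (ι → ℝ) → ℝ) ≤ 2 * s * s := by
    rw [← hs2] at h1
    unfold ell
    nlinarith
  exact le_of_mul_le_mul_left h3 (by positivity)

end

/-- the numbers -/
lemma nums {D : ℝ} (hD : 1 ≤ D) : ∃ s : ℝ, 0 < s ∧ s ≤ 1 ∧ D ^ (1 / 3 : ℝ) = (s ^ 8)⁻¹ ∧
    Real.sqrt D = (s ^ 12)⁻¹ ∧ D ^ (-(1 / 12) : ℝ) = s ^ 2 := by
  have hD0 : 0 < D := by linarith
  refine ⟨D ^ (-(1 / 24) : ℝ), Real.rpow_pos_of_pos hD0 _,
    Real.rpow_le_one_of_one_le_of_nonpos hD (by norm_num), ?_, ?_, ?_⟩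
  · rw [← Real.rpow_natCast, ← Real.rpow_mul hD0.le, ← Real.rpow_neg hD0.le]
    norm_num
  · rw [← Real.rpow_natCast, ← Real.rpow_mul hD0.le, ← Real.rpow_neg hD0.le, Real.sqrt_eq_rpow]
    norm_num
  · rw [← Real.rpow_natCast, ← Real.rpow_mul hD0.le]
    norm_num

end STPM

open STPM in
theorem specSTP (hNM1 : SpecNM1) (hNM2 : SpecNM2) (hGIN : SpecGIN) (hLPS : SpecLPS)
    (hVOL : SpecVOL) (hWST : SpecWST) (hGTR : SpecGTR) : SpecSTP := by
  intro ι _ _ _ p D hp hD hDist
  have hn : 0 < (Fintype.card ι : ℝ) := by exact_mod_cast Fintype.card_pos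
  set n : ℝ := (Fintype.card ι : ℝ) with hndef
  obtain ⟨s, hs0, hs1, hD3, hD2, hD12⟩ := nums hD
  obtain ⟨A, hA, hAD⟩ := hLPS p D hp hD hDist
  rw [hD3] at hAD
  have hpA := hNM1.comp hp hA
  set pA : (ι → ℝ) → ℝ := fun x => p (A *ᵥ x) with hpAdef
  have hduA := hNM2.nm hpA
  have ha := hNM1.el hpA
  have hb := hNM1.el hduA
  -- scaling
  obtain ⟨μ, hμ, hμ2⟩ : ∃ μ : ℝ, 0 < μ ∧ μ ^ 2 = ell (du pA) / ell pA :=
    ⟨Real.sqrt (ell (du pA) / ell pA), Real.sqrt_pos.mpr (div_pos hb ha),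
      Real.sq_sqrt (div_pos hb ha).le⟩
  have hdet : (μ • A).det ≠ 0 := by
    rw [Matrix.det_smul]
    exact mul_ne_zero (pow_pos hμ _).ne' hA
  have hqA : (fun x => p ((μ • A) *ᵥ x)) = fun x => μ * pA x := by
    funext x
    rw [Matrix.smul_mulVec, hp.smul, abs_of_pos hμ]
  have hq := hNM1.sca hpA hμ
  set q : (ι → ℝ) → ℝ := fun x => μ * pA x with hqdef
  have hduq := hNM2.nm hq
  have hellq : ell q = μ * ell pA := by
    unfold ell
    rw [hqdef, integral_const_mul]
  have helldq : ell (du q) = ell (du pA) / μ := by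
    unfold ell
    rw [← integral_div]
    exact integral_congr_ae (Filter.Eventually.of_forall fun y => hNM2.sca hpA hμ y)
  -- the constants
  have h3 : 0 < Real.sqrt 3 := Real.sqrt_pos.mpr (by norm_num)
  have h32 : Real.sqrt 3 ^ 2 = 3 := Real.sq_sqrt (by norm_num)
  have h31 : 1 ≤ Real.sqrt 3 := by
    rw [Real.one_le_sqrt]; norm_num
  have hsn : 0 < Real.sqrt n := Real.sqrt_pos.mpr hn
  have hsn2 : Real.sqrt n ^ 2 = n := Real.sq_sqrt hn.le
  obtain ⟨κ, hκdef⟩ : ∃ κ : ℝ, κ = Real.sqrt 3 / s ^ 4 := ⟨_, rfl⟩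
  have hκ : 0 < κ := by rw [hκdef]; positivity
  have hκ1 : 1 ≤ κ := by
    rw [hκdef, le_div_iff₀ (pow_pos hs0 _)]
    have : s ^ 4 ≤ 1 := pow_le_one₀ hs0.le hs1
    linarith
  have hκ2 : κ ^ 2 = 3 * (s ^ 8)⁻¹ := by
    rw [hκdef, div_pow, h32, ← pow_mul]
    rfl
  have hab : ell pA * ell (du pA) ≤ (κ * Real.sqrt n) ^ 2 := by
    rw [mul_pow, hκ2, hsn2]
    exact hAD
  have hq1 : ell q ≤ κ * Real.sqrt n := by
    have h4 : ell q ^ 2 = ell pA * ell (du pA) := by
      rw [hellq, mul_pow, hμ2]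
      field_simp
    exact le_of_sq_le_sq (by rw [h4]; exact hab) (by positivity)
  have hq2 : ell (du q) ≤ κ * Real.sqrt n := by
    have h4 : ell (du q) ^ 2 = ell pA * ell (du pA) := by
      rw [helldq, div_pow, hμ2]
      field_simp
    exact le_of_sq_le_sq (by rw [h4]; exact hab) (by positivity)
  -- the truncation
  obtain ⟨t, htdef⟩ : ∃ t : ℝ, t = κ / s := ⟨_, rfl⟩
  have ht : 0 < t := by rw [htdef]; positivity
  have hκt : κ ≤ t := by
    rw [htdef, le_div_iff₀ hs0]
    nlinarith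
  have hE : Nm (eu : (ι → ℝ) → ℝ) := hNM1.euc
  have hE' : Nm (fun x : ι → ℝ => eu x / t) := by
    have h4 := hNM1.sca hE (inv_pos.mpr ht)
    have h5 : (fun x : ι → ℝ => eu x / t) = fun x => t⁻¹ * eu x := by
      funext x; rw [div_eq_inv_mul]
    rw [h5]; exact h4
  have hp' : Nm (fun x : ι → ℝ => max (q x) (eu x / t)) := hNM1.mx hq hE'
  have hvol := hVOL q κ t hq hκ hκt hq2
  set p' : (ι → ℝ) → ℝ := fun x => max (q x) (eu x / t) with hp'def
  have hqp' : ∀ x, q x ≤ p' x := fun x => le_max_left _ _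
  have hep' : ∀ x, eu x ≤ t * p' x := by
    intro x
    have h4 : eu x / t ≤ p' x := le_max_right _ _
    rw [div_le_iff₀ ht] at h4
    linarith
  have hellp' : ell p' ≤ 2 * κ * Real.sqrt n := by
    have h4 : ell p' ≤ ∫ x, (q x + eu x / t) ∂(gm ι) := by
      apply integral_mono (hNM1.int hp') ((hNM1.int hq).add (hNM1.int hE'))
      intro x
      have h5 := hNM1.nonneg hq x
      have h6 := hNM1.nonneg hE' x
      exact max_le (by simpa using h6) (by simpa using h5)
    rw [integral_add (hNM1.int hq) (hNM1.int hE'), integral_div] at h4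
    have h5 : ell (eu : (ι → ℝ) → ℝ) ≤ Real.sqrt n := ell_eu (hNM1.int hE)
    have h6 : ell (eu : (ι → ℝ) → ℝ) / t ≤ κ * Real.sqrt n := by
      rw [div_le_iff₀ ht]
      have h7 : 1 ≤ κ * t := by nlinarith
      nlinarith
    have h7 : ell p' ≤ ell q + ell (eu : (ι → ℝ) → ℝ) / t := h4
    linarith
  -- the body
  have hc0 : 0 < Real.sqrt 32 := Real.sqrt_pos.mpr (by norm_num)
  have hc2 : Real.sqrt 32 ^ 2 = 32 := Real.sq_sqrt (by norm_num)
  obtain ⟨r, hrdef⟩ : ∃ r : ℝ, r = s ^ 3 / (Real.sqrt 32 * κ) := ⟨_, rfl⟩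
  have hr : 0 < r := by rw [hrdef]; positivity
  obtain ⟨w, hw, hwp, hwr, hwt, hwg⟩ := hWST p' r hp' hr
  have hwt' := hwt t ht hep'
  refine ⟨w, hw, ?_, ?_⟩
  · refine ⟨r⁻¹ • (1 : Matrix ι ι ℝ), ?_, ?_⟩
    · rw [Matrix.det_smul, Matrix.det_one, mul_one]
      exact (pow_pos (inv_pos.mpr hr) _).ne'
    · intro x
      have h4 : eu ((r⁻¹ • (1 : Matrix ι ι ℝ)) *ᵥ x) = eu x / r := by
        rw [Matrix.smul_mulVec, Matrix.one_mulVec, hE.smul, abs_of_pos (inv_pos.mpr hr),
          div_eq_inv_mul]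
      rw [h4]
      refine ⟨hwr x, ?_⟩
      have h5 := hwt' x
      have h6 : (t + r) / r ≤ 18 * Real.sqrt D := by
        have h7 : t / r = 3 * Real.sqrt 32 * Real.sqrt D := by
          have h8 : t / r = Real.sqrt 32 * κ ^ 2 / s ^ 4 := by
            rw [htdef, hrdef]
            field_simp
          rw [h8, hκ2, hD2]
          field_simp
        have h8 : 3 * Real.sqrt 32 ≤ 17 := by nlinarith
        have h9 : 1 ≤ Real.sqrt D := by rw [Real.one_le_sqrt]; exact hD
        rw [add_div, div_self hr.ne', h7]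
        nlinarith
      calc eu x / r ≤ (t + r) * w x / r := by gcongr
        _ = (t + r) / r * w x := by ring
        _ ≤ 18 * Real.sqrt D * w x := mul_le_mul_of_nonneg_right h6 (hNM1.nonneg hw x)
  · intro c hc hgood
    have hδ : 0 < s ^ 2 := pow_pos hs0 2
    have hexp : 8 * ell p' ^ 2 * r ^ 2 / (s ^ 2) ^ 2 ≤ n * s ^ 2 := by
      have h4 : 0 ≤ ell p' := integral_nonneg fun x => hNM1.nonneg hp' x
      have h5 : ell p' ^ 2 ≤ (2 * κ * Real.sqrt n) ^ 2 := pow_le_pow_left₀ h4 hellp' 2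
      have h6 : r ^ 2 = s ^ 6 / (32 * κ ^ 2) := by
        rw [hrdef, div_pow, mul_pow, hc2, ← pow_mul]
      rw [h6]
      calc 8 * ell p' ^ 2 * (s ^ 6 / (32 * κ ^ 2)) / (s ^ 2) ^ 2
          ≤ 8 * (2 * κ * Real.sqrt n) ^ 2 * (s ^ 6 / (32 * κ ^ 2)) / (s ^ 2) ^ 2 := by gcongr
        _ = Real.sqrt n ^ 2 * s ^ 2 := by
            field_simp
            ring
        _ = n * s ^ 2 := by rw [hsn2]
    have hmul : ∀ A : Matrix ι ι ℝ, A.det ≠ 0 →
        gmass w A ≤ 2 * Real.exp (2 * (n * s ^ 2)) * gmass p' A := by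
      intro A hA
      have h4 := hwg (s ^ 2) hδ A hA
      have h5 : 0 ≤ gmass p' A :=
        mul_nonneg (abs_nonneg _) (integral_nonneg fun x => (Real.exp_pos _).le)
      refine h4.trans (mul_le_mul_of_nonneg_right ?_ h5)
      have h6 : (1 + s ^ 2) ^ Fintype.card ι ≤ Real.exp (n * s ^ 2) := by
        rw [hndef, Real.exp_nat_mul]
        exact pow_le_pow_left₀ (by positivity) (by linarith [Real.add_one_le_exp (s ^ 2)]) _
      have h7 := Real.exp_le_exp.mpr hexp
      calc 2 * Real.exp (8 * ell p' ^ 2 * r ^ 2 / (s ^ 2) ^ 2) * (1 + s ^ 2) ^ Fintype.card ι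
          ≤ 2 * Real.exp (n * s ^ 2) * Real.exp (n * s ^ 2) := by gcongr
        _ = _ := by rw [mul_assoc, ← Real.exp_add]; ring_nf
    have h1a : 1 ≤ 2 * Real.exp (2 * (n * s ^ 2)) := by
      have : 1 ≤ Real.exp (2 * (n * s ^ 2)) := Real.one_le_exp (by positivity)
      linarith
    have g1 := hGTR.up p' w _ c hp' hw hwp h1a hc hmul hgood
    have hvol' : vol q ≤ (4 * Real.sqrt n * Real.exp (43 * (n * s ^ 2))) * vol p' := by
      have h4 : 43 * n * κ ^ 2 / t ^ 2 = 43 * (n * s ^ 2) := by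
        rw [htdef]
        field_simp
      rw [h4] at hvol
      exact hvol
    have h1n : 1 ≤ Real.sqrt n := by
      rw [Real.one_le_sqrt, hndef]
      exact_mod_cast Nat.one_le_iff_ne_zero.mpr Fintype.card_ne_zero
    have h1b : 1 ≤ 4 * Real.sqrt n * Real.exp (43 * (n * s ^ 2)) := by
      have : 1 ≤ Real.exp (43 * (n * s ^ 2)) := Real.one_le_exp (by positivity)
      nlinarith
    have g2 := hGTR.dn q p' _ _ hq hp' hqp' h1b (by positivity) hvol' g1
    have g3 : Good p (c / (2 * Real.exp (2 * (n * s ^ 2))) /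
        (4 * Real.sqrt n * Real.exp (43 * (n * s ^ 2)))) := by
      rw [← hGIN.good hp hdet, hqA]
      exact g2
    have h4 : c / (2 * Real.exp (2 * (n * s ^ 2))) /
        (4 * Real.sqrt n * Real.exp (43 * (n * s ^ 2))) =
        c * Real.exp (-(45 * n * D ^ (-(1 / 12) : ℝ))) / (8 * Real.sqrt n) := by
      rw [hD12, Real.exp_neg, show 45 * n * s ^ 2 = 2 * (n * s ^ 2) + 43 * (n * s ^ 2) by ring,
        Real.exp_add]
      field_simp
      ring
    rw [← h4]
    exact g3

end Pool.Agent.Lib.MP_cb8a44_nt.RM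
end

section
/-!
# VOL: the volume of a body with small mean dual norm
-/
open MeasureTheory Matrix Set
open scoped ENNReal

namespace Pool.Agent.Lib.MP_cb8a44_nt.RM

namespace VOLM

theorem geom_le (j : ℕ) : ∑ i ∈ Finset.range j, (1 / 4 : ℝ) ^ i ≤ 4 / 3 := by
  have h := geom_sum_eq (show (1 / 4 : ℝ) ≠ 1 by norm_num) j
  rw [h]
  have h1 : (0 : ℝ) ≤ (1 / 4 : ℝ) ^ j := by positivity
  rw [div_le_iff_of_neg (by norm_num)]
  linarith

end VOLM

open VOLM in
theorem specVOL (hNM1 : SpecNM1) (hNM2 : SpecNM2) (hNM3 : SpecNM3) (hVST : SpecVST) :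
    SpecVOL := by
  intro ι _ _ p b t hp hb hbt hell
  have ht : 0 < t := hb.trans_le hbt
  set n : ℝ := (Fintype.card ι : ℝ) with hn
  have hn1 : 1 ≤ n := by
    rw [hn]
    exact_mod_cast Fintype.card_pos
  have hn0 : 0 ≤ n := by linarith
  have hs1 : 1 ≤ Real.sqrt n := by
    rw [Real.one_le_sqrt]
    exact hn1
  have hp0 : ∀ x, 0 ≤ p x := hNM1.nonneg hp
  have heu : ∀ x, eu x ≤ 2 * b * Real.sqrt n * p x := by
    intro x
    refine (hNM3 hp x).trans ?_
    have h1 : 2 * ell (du p) * p x ≤ 2 * (b * Real.sqrt n) * p x :=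
      mul_le_mul_of_nonneg_right (by linarith) (hp0 x)
    linarith
  have hell0 : 0 ≤ ell (du p) := by
    unfold ell
    exact integral_nonneg (fun x => hNM1.nonneg (hNM2.nm hp) x)
  have hell2 : ell (du p) ^ 2 ≤ b ^ 2 * n := by
    calc ell (du p) ^ 2 ≤ (b * Real.sqrt n) ^ 2 := pow_le_pow_left₀ hell0 hell 2
      _ = b ^ 2 * n := by rw [mul_pow, Real.sq_sqrt hn0]
  set c : ℝ := n * b ^ 2 / t ^ 2 with hc
  have hc0 : 0 ≤ c := by positivity
  set F : ℕ → ℝ := fun j => vol (fun x => max (p x) (eu x / (2 ^ j * t))) with hF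
  have hF0 : ∀ j, 0 ≤ F j := fun j => ENNReal.toReal_nonneg
  have hstep : ∀ j, F (j + 1) ≤ 2 * Real.exp (32 * c * (1 / 4) ^ j) * F j := by
    intro j
    have hu : 0 < 2 ^ j * t := by positivity
    have h1 := hVST p (2 ^ j * t) hp hu
    have h2 : (fun x => max (p x) (eu x / (2 * (2 ^ j * t)))) =
        (fun x => max (p x) (eu x / (2 ^ (j + 1) * t))) := by
      funext x
      rw [pow_succ]
      congr 2
      ring
    rw [h2] at h1
    refine h1.trans ?_
    apply mul_le_mul_of_nonneg_right _ (hF0 j)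
    apply mul_le_mul_of_nonneg_left _ (by norm_num)
    apply Real.exp_le_exp.2
    have h3 : (2 ^ j * t) ^ 2 = 4 ^ j * t ^ 2 := by
      rw [mul_pow, ← pow_mul, mul_comm j 2, pow_mul]
      norm_num
    rw [h3, hc, div_le_iff₀ (by positivity)]
    have h4 : 32 * (n * b ^ 2 / t ^ 2) * (1 / 4) ^ j * (4 ^ j * t ^ 2) = 32 * (b ^ 2 * n) := by
      have h5 : ((1 / 4 : ℝ)) ^ j * 4 ^ j = 1 := by
        rw [← mul_pow]
        norm_num
      have h6 : t ^ 2 ≠ 0 := by positivity
      calc 32 * (n * b ^ 2 / t ^ 2) * (1 / 4) ^ j * (4 ^ j * t ^ 2)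
          = 32 * (n * b ^ 2) * ((1 / 4) ^ j * 4 ^ j) * (t ^ 2 / t ^ 2) := by ring
        _ = 32 * (b ^ 2 * n) := by rw [h5, div_self h6]; ring
    rw [h4]
    linarith
  have hind : ∀ j, F j ≤ 2 ^ j * Real.exp (32 * c * ∑ i ∈ Finset.range j, (1 / 4 : ℝ) ^ i) * F 0 := by
    intro j
    induction j with
    | zero => simp
    | succ j ih =>
      refine (hstep j).trans ?_
      rw [Finset.sum_range_succ, mul_add, Real.exp_add, pow_succ]
      calc 2 * Real.exp (32 * c * (1 / 4) ^ j) * F j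
          ≤ 2 * Real.exp (32 * c * (1 / 4) ^ j) *
            (2 ^ j * Real.exp (32 * c * ∑ i ∈ Finset.range j, (1 / 4 : ℝ) ^ i) * F 0) :=
          mul_le_mul_of_nonneg_left ih (by positivity)
        _ = _ := by ring
  have hex : ∃ J : ℕ, 2 * b * Real.sqrt n ≤ 2 ^ J * t := by
    obtain ⟨J, hJ⟩ := pow_unbounded_of_one_lt (2 * b * Real.sqrt n / t) (show (1 : ℝ) < 2 by norm_num)
    refine ⟨J, ?_⟩
    rw [div_lt_iff₀ ht] at hJ
    exact hJ.le
  classical
  set J := Nat.find hex with hJdef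
  have hJ : 2 * b * Real.sqrt n ≤ 2 ^ J * t := Nat.find_spec hex
  have hJ4 : (2 : ℝ) ^ J ≤ 4 * Real.sqrt n := by
    rcases Nat.eq_zero_or_pos J with h0 | h0
    · rw [h0, pow_zero]
      linarith
    · obtain ⟨k, hk⟩ : ∃ k, J = k + 1 := ⟨J - 1, by omega⟩
      have h1 := Nat.find_min hex (show k < Nat.find hex by omega)
      push Not at h1
      rw [hk, pow_succ]
      have h2 : 2 ^ k * t < 2 * Real.sqrt n * t := by
        refine h1.trans_le ?_
        have : 2 * Real.sqrt n * b ≤ 2 * Real.sqrt n * t :=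
          mul_le_mul_of_nonneg_left hbt (by positivity)
        linarith
      have h3 := lt_of_mul_lt_mul_right h2 ht.le
      linarith
  have hvol : vol p = F J := by
    change (volume (bl p)).toReal = (volume (bl _)).toReal
    congr 2
    ext x
    change p x ≤ 1 ↔ max (p x) (eu x / (2 ^ J * t)) ≤ 1
    rw [max_le_iff]
    constructor
    · intro hx
      refine ⟨hx, ?_⟩
      rw [div_le_one (by positivity)]
      refine (heu x).trans (le_trans ?_ hJ)
      have : 2 * b * Real.sqrt n * p x ≤ 2 * b * Real.sqrt n * 1 :=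
        mul_le_mul_of_nonneg_left hx (by positivity)
      linarith
    · exact fun h => h.1
  have hF00 : F 0 = vol (fun x => max (p x) (eu x / t)) := by
    change vol _ = vol _
    congr 1
    funext x
    rw [pow_zero, one_mul]
  rw [hvol, ← hF00]
  refine (hind J).trans ?_
  apply mul_le_mul_of_nonneg_right _ (hF0 0)
  apply mul_le_mul hJ4 _ (Real.exp_pos _).le (by positivity)
  apply Real.exp_le_exp.2
  have h7 : 32 * c * ∑ i ∈ Finset.range J, (1 / 4 : ℝ) ^ i ≤ 32 * c * (4 / 3) :=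
    mul_le_mul_of_nonneg_left (geom_le J) (by positivity)
  have h8 : 43 * n * b ^ 2 / t ^ 2 = 43 * c := by rw [hc]; ring
  rw [h8]
  linarith

end Pool.Agent.Lib.MP_cb8a44_nt.RM
end

section
/-!
# VST: one volume step
-/
open MeasureTheory Matrix Set
open scoped ENNReal

namespace Pool.Agent.Lib.MP_cb8a44_nt.RM

namespace VSTM

variable {ι : Type} [Fintype ι]

theorem nm_max (hNM1 : SpecNM1) {p : (ι → ℝ) → ℝ} (hp : Nm p) {c : ℝ} (hc : 0 < c) :
    Nm (fun x => max (p x) (eu x / c)) := by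
  have h1 := hNM1.mx hp (hNM1.sca (hNM1.euc (ι := ι)) (inv_pos.2 hc))
  have h2 : (fun x : ι → ℝ => max (p x) (eu x / c)) = (fun x => max (p x) (c⁻¹ * eu x)) := by
    funext x
    rw [div_eq_inv_mul]
  rw [h2]
  exact h1

theorem nm_neg {q : (ι → ℝ) → ℝ} (hq : Nm q) (x : ι → ℝ) : q (-x) = q x := by
  have h := hq.smul (-1) x
  rwa [abs_neg, abs_one, one_mul, neg_one_smul] at h

theorem eu_sq (x : ι → ℝ) : eu x ^ 2 = x ⬝ᵥ x := by
  unfold eu
  rw [Real.sq_sqrt (Finset.sum_nonneg (fun i _ => sq_nonneg _))]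
  exact Finset.sum_congr rfl (fun i _ => sq (x i))

end VSTM

open VSTM in
theorem specVST (hNM1 : SpecNM1) (hNM2 : SpecNM2) (hDSU : SpecDSU) (hAND : SpecAND) :
    SpecVST := by
  intro ι _ p u hp hu
  classical
  set q := du p with hqdef
  have hq : Nm q := hNM2.nm hp
  have hp0 : ∀ x, 0 ≤ p x := hNM1.nonneg hp
  have hq0 : ∀ x, 0 ≤ q x := hNM1.nonneg hq
  obtain ⟨X, -, hXc, hX⟩ := hDSU q (u / 2) hq (by positivity)
  set K : Set (ι → ℝ) := bl (fun x => max (p x) (eu x / (2 * u))) with hK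
  set K' : Set (ι → ℝ) := bl (fun x => max (p x) (eu x / u)) with hK'
  set T : Set (ι → ℝ) := {x | q x ≤ u ^ 2} with hT
  have hSC : SC K := hNM1.sc (nm_max hNM1 hp (by positivity))
  have hTm : MeasurableSet T :=
    (isClosed_le (hNM1.cont hq) continuous_const).measurableSet
  have hK'fin : volume K' ≠ ⊤ := (hNM1.cpt (nm_max hNM1 hp hu)).measure_lt_top.ne
  have hKT : T ∩ K ⊆ K' := by
    rintro x ⟨hx1, hx2⟩
    have h1 : p x ≤ 1 := (max_le_iff.1 hx2).1
    change max (p x) (eu x / u) ≤ 1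
    rw [max_le_iff]
    refine ⟨h1, ?_⟩
    rw [div_le_one hu]
    have h2 : eu x ^ 2 ≤ u ^ 2 := by
      rw [eu_sq]
      calc x ⬝ᵥ x ≤ p x * q x := hNM2.le hp x x
        _ ≤ 1 * u ^ 2 := mul_le_mul h1 hx1 (hq0 x) zero_le_one
        _ = u ^ 2 := one_mul _
    exact (pow_le_pow_iff_left₀ (hNM1.nonneg (hNM1.euc) x) hu.le (by norm_num)).1 h2
  set φ : (ι → ℝ) → ℝ≥0∞ := T.indicator 1 with hφ
  have hφm : Measurable φ := measurable_one.indicator hTm
  have hφs : ∀ x, φ (-x) = φ x := by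
    intro x
    have h1 : -x ∈ T ↔ x ∈ T := by
      change q (-x) ≤ u ^ 2 ↔ q x ≤ u ^ 2
      rw [nm_neg hq]
    by_cases hx : x ∈ T
    · rw [hφ, indicator_of_mem hx, indicator_of_mem (h1.2 hx)]
      rfl
    · rw [hφ, indicator_of_notMem hx, indicator_of_notMem (fun h => hx (h1.1 h))]
  have hφc : ∀ x y, φ x * φ y ≤ φ ((1 / 2 : ℝ) • (x + y)) ^ 2 := by
    intro x y
    by_cases hx : x ∈ T
    · by_cases hy : y ∈ T
      · have hxy : (1 / 2 : ℝ) • (x + y) ∈ T := by
          change q ((1 / 2 : ℝ) • (x + y)) ≤ u ^ 2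
          rw [hq.smul, abs_of_pos (by norm_num)]
          have h1 := hq.add x y
          have h2 : q x ≤ u ^ 2 := hx
          have h3 : q y ≤ u ^ 2 := hy
          linarith
        rw [hφ, indicator_of_mem hx, indicator_of_mem hy, indicator_of_mem hxy]
        simp
      · rw [hφ, indicator_of_notMem hy, mul_zero]
        exact bot_le
    · rw [hφ, indicator_of_notMem hx, zero_mul]
      exact bot_le
  have hpiece : ∀ y : ι → ℝ, volume (K ∩ {x | x + -((2 * u) • y) ∈ T}) ≤ volume K' := by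
    intro y
    have h1 := hAND K φ hSC hφm hφs hφc (-((2 * u) • y))
    have h2 : ∫⁻ x in K, φ x = volume (T ∩ K) := by
      rw [hφ, lintegral_indicator_one hTm, Measure.restrict_apply hTm]
    have h3m : MeasurableSet {x : ι → ℝ | x + -((2 * u) • y) ∈ T} :=
      hTm.preimage (measurable_id.add_const _)
    have h3 : ∫⁻ x in K, φ (x + -((2 * u) • y)) = volume ({x | x + -((2 * u) • y) ∈ T} ∩ K) := by
      have h4 : (fun x : ι → ℝ => φ (x + -((2 * u) • y))) =
          ({x : ι → ℝ | x + -((2 * u) • y) ∈ T}).indicator 1 := by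
        funext x
        by_cases hx : x + -((2 * u) • y) ∈ T
        · rw [hφ, indicator_of_mem hx, indicator_of_mem (show x ∈ {x | x + -((2 * u) • y) ∈ T} from hx)]
          rfl
        · rw [hφ, indicator_of_notMem hx,
            indicator_of_notMem (show x ∉ {x | x + -((2 * u) • y) ∈ T} from hx)]
      rw [h4, lintegral_indicator_one h3m, Measure.restrict_apply h3m]
    rw [h3, h2] at h1
    rw [inter_comm]
    exact h1.trans (measure_mono hKT)
  have hcover : K ⊆ ⋃ y ∈ X, (K ∩ {x | x + -((2 * u) • y) ∈ T}) := by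
    intro x hx
    have h2u : 0 < 2 * u := by positivity
    have hxe : eu x / (2 * u) ≤ 1 := (max_le_iff.1 hx).2
    obtain ⟨y, hy, hyq⟩ := hX ((2 * u)⁻¹ • x) (by
      rw [(hNM1.euc).smul, abs_of_pos (inv_pos.2 h2u), ← div_eq_inv_mul]
      exact hxe)
    rw [mem_iUnion₂]
    refine ⟨y, hy, hx, ?_⟩
    change q (x + -((2 * u) • y)) ≤ u ^ 2
    have h1 : x + -((2 * u) • y) = (2 * u) • ((2 * u)⁻¹ • x - y) := by
      rw [smul_sub, smul_smul, mul_inv_cancel₀ h2u.ne', one_smul, sub_eq_add_neg]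
    rw [h1, hq.smul, abs_of_pos h2u]
    calc 2 * u * q ((2 * u)⁻¹ • x - y) ≤ 2 * u * (u / 2) :=
          mul_le_mul_of_nonneg_left hyq h2u.le
      _ = u ^ 2 := by ring
  have hle : volume K ≤ X.card * volume K' := by
    calc volume K ≤ volume (⋃ y ∈ X, (K ∩ {x | x + -((2 * u) • y) ∈ T})) := measure_mono hcover
      _ ≤ ∑ y ∈ X, volume (K ∩ {x | x + -((2 * u) • y) ∈ T}) := measure_biUnion_finset_le _ _
      _ ≤ ∑ _y ∈ X, volume K' := Finset.sum_le_sum (fun y _ => hpiece y)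
      _ = X.card * volume K' := by rw [Finset.sum_const, nsmul_eq_mul]
  have hle2 : vol (fun x => max (p x) (eu x / (2 * u))) ≤
      X.card * vol (fun x => max (p x) (eu x / u)) := by
    change (volume K).toReal ≤ X.card * (volume K').toReal
    have h1 := ENNReal.toReal_mono (ENNReal.mul_ne_top (ENNReal.natCast_ne_top _) hK'fin) hle
    rwa [ENNReal.toReal_mul, ENNReal.toReal_natCast] at h1
  refine hle2.trans ?_
  apply mul_le_mul_of_nonneg_right _ ENNReal.toReal_nonneg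
  refine hXc.trans (le_of_eq ?_)
  congr 2
  field_simp
  ring

end Pool.Agent.Lib.MP_cb8a44_nt.RM
end

section
/-!
# MP_cb8a44_nt, block RM, module WST

The body `W = V + rB` and its Gaussian mass, by covering `W` by translates of `(1 + δ)V` and by
Anderson's inequality.
-/
set_option autoImplicit false

open MeasureTheory Matrix Set
open scoped ENNReal Pointwise

namespace Pool.Agent.Lib.MP_cb8a44_nt.RM

namespace WSTM

section
variable {ι : Type} [Fintype ι]

lemma le_of_bl {p q : (ι → ℝ) → ℝ} (hp : Nm p) (hq : Nm q) (hp0 : p 0 = 0) (hq0 : q 0 = 0)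
    (h : bl p ⊆ bl q) (x : ι → ℝ) : q x ≤ p x := by
  by_cases hx : x = 0
  · rw [hx, hp0, hq0]
  · have hpx := hp.pos x hx
    have h1 : (p x)⁻¹ • x ∈ bl p := by
      show p _ ≤ 1
      rw [hp.smul, abs_of_pos (inv_pos.mpr hpx), inv_mul_cancel₀ hpx.ne']
    have h2 : q ((p x)⁻¹ • x) ≤ 1 := h h1
    rw [hq.smul, abs_of_pos (inv_pos.mpr hpx)] at h2
    have := mul_le_mul_of_nonneg_left h2 hpx.le
    rw [← mul_assoc, mul_inv_cancel₀ hpx.ne', one_mul, mul_one] at this
    exact this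

/-- the Gaussian weight -/
noncomputable def ph (A : Matrix ι ι ℝ) (x : ι → ℝ) : ℝ≥0∞ :=
  ENNReal.ofReal (Real.exp (-(Real.pi * ∑ i, (A *ᵥ x) i ^ 2)))

lemma cont (A : Matrix ι ι ℝ) :
    Continuous (fun x : ι → ℝ => Real.exp (-(Real.pi * ∑ i, (A *ᵥ x) i ^ 2))) := by
  have h : Continuous (fun x : ι → ℝ => A *ᵥ x) :=
    Continuous.matrix_mulVec continuous_const continuous_id
  have h2 : ∀ i, Continuous (fun x : ι → ℝ => (A *ᵥ x) i) := fun i => (continuous_apply i).comp h
  fun_prop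

lemma ph_meas (A : Matrix ι ι ℝ) : Measurable (ph A) :=
  (cont A).measurable.ennreal_ofReal

lemma ph_neg (A : Matrix ι ι ℝ) (x : ι → ℝ) : ph A (-x) = ph A x := by
  simp [ph, Matrix.mulVec_neg]

lemma ph_le_one (A : Matrix ι ι ℝ) (x : ι → ℝ) : ph A x ≤ 1 := by
  rw [ph, ← ENNReal.ofReal_one]
  apply ENNReal.ofReal_le_ofReal
  rw [Real.exp_le_one_iff]
  have : 0 ≤ Real.pi * ∑ i, (A *ᵥ x) i ^ 2 :=
    mul_nonneg Real.pi_pos.le (Finset.sum_nonneg fun i _ => sq_nonneg _)
  linarith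

lemma ph_mid (A : Matrix ι ι ℝ) (x y : ι → ℝ) :
    ph A x * ph A y ≤ ph A ((1 / 2 : ℝ) • (x + y)) ^ 2 := by
  rw [ph, ph, ph, ← ENNReal.ofReal_mul (Real.exp_pos _).le, ← ENNReal.ofReal_pow (Real.exp_pos _).le,
    ← Real.exp_add, ← Real.exp_nat_mul]
  apply ENNReal.ofReal_le_ofReal
  apply Real.exp_le_exp.mpr
  have h : ∀ i, 2 * (A *ᵥ ((1 / 2 : ℝ) • (x + y))) i ^ 2 ≤ (A *ᵥ x) i ^ 2 + (A *ᵥ y) i ^ 2 := by
    intro i
    rw [Matrix.mulVec_smul, Matrix.mulVec_add]
    simp only [Pi.smul_apply, Pi.add_apply, smul_eq_mul]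
    nlinarith [sq_nonneg ((A *ᵥ x) i - (A *ᵥ y) i)]
  have h2 : 2 * ∑ i, (A *ᵥ ((1 / 2 : ℝ) • (x + y))) i ^ 2 ≤
      ∑ i, (A *ᵥ x) i ^ 2 + ∑ i, (A *ᵥ y) i ^ 2 := by
    rw [Finset.mul_sum, ← Finset.sum_add_distrib]
    exact Finset.sum_le_sum fun i _ => h i
  push_cast
  nlinarith [Real.pi_pos]

lemma ph_smul {A : Matrix ι ι ℝ} {c : ℝ} (hc : 1 ≤ c) (x : ι → ℝ) : ph A (c • x) ≤ ph A x := by
  rw [ph, ph]
  apply ENNReal.ofReal_le_ofReal
  apply Real.exp_le_exp.mpr
  have h : ∑ i, (A *ᵥ x) i ^ 2 ≤ ∑ i, (A *ᵥ (c • x)) i ^ 2 := by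
    apply Finset.sum_le_sum
    intro i _
    rw [Matrix.mulVec_smul]
    simp only [Pi.smul_apply, smul_eq_mul]
    have : 1 ≤ c ^ 2 := one_le_pow₀ hc
    nlinarith [sq_nonneg ((A *ᵥ x) i)]
  nlinarith [Real.pi_pos]

/-- scaling -/
lemma lint_smul {c : ℝ} (hc : 0 < c) (f : (ι → ℝ) → ℝ≥0∞) (hf : Measurable f) :
    ∫⁻ x, f x = ENNReal.ofReal (c ^ Fintype.card ι) * ∫⁻ x, f (c • x) := by
  have h1 := MeasureTheory.Measure.map_addHaar_smul (volume : Measure (ι → ℝ)) hc.ne'
  rw [Module.finrank_fintype_fun_eq_card] at h1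
  have h2 : ∫⁻ x, f (c • x) = ∫⁻ x, f x ∂(Measure.map (c • ·) (volume : Measure (ι → ℝ))) := by
    rw [lintegral_map hf (measurable_const_smul c)]
  have hcp : 0 < c ^ Fintype.card ι := pow_pos hc _
  rw [h2, h1, lintegral_smul_measure, smul_eq_mul, ← mul_assoc, ← ENNReal.ofReal_mul hcp.le,
    abs_of_pos (inv_pos.mpr hcp), mul_inv_cancel₀ hcp.ne', ENNReal.ofReal_one, one_mul]

end

end WSTM

open WSTM in
theorem specWST (hNM1 : SpecNM1) (hDSU : SpecDSU) (hGAU : SpecGAU) (hAND : SpecAND) : SpecWST := by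
  intro ι _ _ p r hp hr
  have h0 := hNM1.zero hp
  have hE : Nm (eu : (ι → ℝ) → ℝ) := hNM1.euc
  have hE0 := hNM1.zero hE
  -- the body
  let W : Set (ι → ℝ) := bl p + r • bl eu
  have hWc : IsCompact W := (hNM1.cpt hp).add ((hNM1.cpt hE).smul r)
  have hWx : Convex ℝ W := (hNM1.sc hp).conv.add ((hNM1.sc hE).conv.smul r)
  have hsub : bl p ⊆ W := by
    intro x hx
    refine ⟨x, hx, 0, ⟨0, ?_, smul_zero r⟩, add_zero x⟩
    show eu (0 : ι → ℝ) ≤ 1
    rw [hE0]; exact zero_le_one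
  have hWs : ∀ x ∈ W, -x ∈ W := by
    rintro _ ⟨v, hv, _, ⟨b, hb, rfl⟩, rfl⟩
    refine ⟨-v, (hNM1.sc hp).symm v hv, r • (-b), ⟨-b, (hNM1.sc hE).symm b hb, rfl⟩, ?_⟩
    show -v + r • (-b) = -(v + r • b)
    rw [smul_neg, neg_add]
  have hW0 : (0 : ι → ℝ) ∈ interior W := by
    rw [mem_interior]
    refine ⟨{x | p x < 1}, ?_, isOpen_lt (hNM1.cont hp) continuous_const, ?_⟩
    · intro x hx
      exact hsub (show p x ≤ 1 from le_of_lt hx)
    · show p 0 < 1
      rw [h0]; exact zero_lt_one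
  obtain ⟨w, hw, hwW⟩ := hGAU W hWc hWx hWs hW0
  have hw0 := hNM1.zero hw
  refine ⟨w, hw, ?_, ?_, ?_, ?_⟩
  · intro x
    exact le_of_bl hp hw h0 hw0 (by rw [hwW]; exact hsub) x
  · intro x
    have hE' := hNM1.sca hE (inv_pos.mpr hr)
    have h1 : bl (fun x : ι → ℝ => r⁻¹ * eu x) ⊆ bl w := by
      rw [hwW]
      intro y hy
      refine ⟨0, ?_, y, ⟨r⁻¹ • y, ?_, ?_⟩, zero_add y⟩
      · show p 0 ≤ 1
        rw [h0]; exact zero_le_one
      · show eu (r⁻¹ • y) ≤ 1
        rw [hE.smul, abs_of_pos (inv_pos.mpr hr)]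
        exact hy
      · show r • (r⁻¹ • y) = y
        rw [smul_smul, mul_inv_cancel₀ hr.ne', one_smul]
    have h2 := le_of_bl hE' hw (hNM1.zero hE') hw0 h1 x
    rw [div_eq_inv_mul]
    exact h2
  · intro t ht htp x
    have htr : 0 < t + r := by positivity
    have hE' := hNM1.sca hE (inv_pos.mpr htr)
    have h1 : bl w ⊆ bl (fun x : ι → ℝ => (t + r)⁻¹ * eu x) := by
      rw [hwW]
      rintro _ ⟨v, hv, _, ⟨b, hb, rfl⟩, rfl⟩
      show (t + r)⁻¹ * eu (v + r • b) ≤ 1
      rw [inv_mul_le_iff₀ htr, mul_one]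
      have h2 : eu v ≤ t * p v := htp v
      have hv' : p v ≤ 1 := hv
      have hb' : eu b ≤ 1 := hb
      have h3 : eu (v + r • b) ≤ eu v + r * eu b := by
        have := hE.add v (r • b)
        rwa [hE.smul, abs_of_pos hr] at this
      nlinarith
    have h2 := le_of_bl hw hE' hw0 (hNM1.zero hE') h1 x
    rwa [inv_mul_le_iff₀ htr] at h2
  · intro δ hδ A hA
    obtain ⟨X, hX1, hXc, hXcov⟩ := hDSU p (δ / r) hp (div_pos hδ hr)
    have h1δ : 0 < 1 + δ := by positivity
    have hq := hNM1.sca hp (inv_pos.mpr h1δ)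
    have hqm := (hNM1.sc hq).meas
    set q : (ι → ℝ) → ℝ := fun x => (1 + δ)⁻¹ * p x with hqdef
    have hqle : ∀ x, x ∈ bl q ↔ p x ≤ 1 + δ := by
      intro x
      show (1 + δ)⁻¹ * p x ≤ 1 ↔ _
      rw [inv_mul_le_iff₀ h1δ, mul_one]
    -- covering
    have hcov : bl w ⊆ ⋃ y : X, {x | x - r • (y : ι → ℝ) ∈ bl q} := by
      rw [hwW]
      rintro _ ⟨v, hv, _, ⟨b, hb, rfl⟩, rfl⟩
      obtain ⟨y, hy, hby⟩ := hXcov b hb
      rw [mem_iUnion]
      refine ⟨⟨y, hy⟩, ?_⟩
      show v + r • b - r • y ∈ bl q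
      rw [hqle]
      have h2 : v + r • b - r • y = v + r • (b - y) := by rw [smul_sub]; abel
      rw [h2]
      have h3 := hp.add v (r • (b - y))
      rw [hp.smul, abs_of_pos hr] at h3
      have h4 : r * p (b - y) ≤ δ := by
        have := mul_le_mul_of_nonneg_left hby hr.le
        rwa [mul_div_cancel₀ _ hr.ne'] at this
      have hv' : p v ≤ 1 := hv
      linarith
    -- one piece
    have hpiece : ∀ a : ι → ℝ, ∫⁻ x in {x | x - a ∈ bl q}, ph A x ≤ ∫⁻ x in bl q, ph A x := by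
      intro a
      have hms : MeasurableSet {x : ι → ℝ | x - a ∈ bl q} := (measurable_sub_const a) hqm
      have h2 := hAND (bl q) (ph A) (hNM1.sc hq) (ph_meas A) (ph_neg A) (ph_mid A) a
      refine le_trans (le_of_eq ?_) h2
      rw [← lintegral_indicator hms, ← lintegral_indicator hqm,
        ← lintegral_sub_right_eq_self (μ := (volume : Measure (ι → ℝ)))
          ((bl q).indicator fun x => ph A (x + a)) a]
      refine lintegral_congr fun x => ?_
      by_cases hx : x - a ∈ bl q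
      · rw [indicator_of_mem (show x ∈ {x | x - a ∈ bl q} from hx), indicator_of_mem hx,
          sub_add_cancel]
      · rw [indicator_of_notMem (show x ∉ {x | x - a ∈ bl q} from hx), indicator_of_notMem hx]
    have hscale : ∫⁻ x in bl q, ph A x ≤
        ENNReal.ofReal ((1 + δ) ^ Fintype.card ι) * ∫⁻ x in bl p, ph A x := by
      rw [← lintegral_indicator hqm, ← lintegral_indicator (hNM1.sc hp).meas,
        lint_smul h1δ _ ((ph_meas A).indicator hqm)]
      gcongr with x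
      by_cases hx : x ∈ bl p
      · have hx' : (1 + δ) • x ∈ bl q := by
          rw [hqle, hp.smul, abs_of_pos h1δ]
          have : p x ≤ 1 := hx
          nlinarith
        rw [indicator_of_mem hx, indicator_of_mem hx']
        exact ph_smul (by linarith) x
      · have hx' : (1 + δ) • x ∉ bl q := by
          rw [hqle, hp.smul, abs_of_pos h1δ]
          intro h
          apply hx
          show p x ≤ 1
          by_contra h5
          push Not at h5
          nlinarith
        rw [indicator_of_notMem hx, indicator_of_notMem hx']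
    have htot : ∫⁻ x in bl w, ph A x ≤
        (X.card : ℝ≥0∞) * (ENNReal.ofReal ((1 + δ) ^ Fintype.card ι) * ∫⁻ x in bl p, ph A x) := by
      calc ∫⁻ x in bl w, ph A x
          ≤ ∫⁻ x in ⋃ y : X, {x | x - r • (y : ι → ℝ) ∈ bl q}, ph A x :=
            lintegral_mono_set hcov
        _ ≤ ∑' y : X, ∫⁻ x in {x | x - r • (y : ι → ℝ) ∈ bl q}, ph A x :=
            lintegral_iUnion_le _ _
        _ = ∑ y : X, ∫⁻ x in {x | x - r • (y : ι → ℝ) ∈ bl q}, ph A x := tsum_fintype _
        _ ≤ ∑ _y : X, (ENNReal.ofReal ((1 + δ) ^ Fintype.card ι) * ∫⁻ x in bl p, ph A x) :=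
            Finset.sum_le_sum fun y _ => (hpiece _).trans hscale
        _ = _ := by
            rw [Finset.sum_const, Finset.card_univ, Fintype.card_coe, nsmul_eq_mul]
    -- back to real integrals
    have hfin : ∫⁻ x in bl p, ph A x ≠ ⊤ := by
      have h2 : ∫⁻ x in bl p, ph A x ≤ ∫⁻ _ in bl p, (1 : ℝ≥0∞) :=
        lintegral_mono fun x => ph_le_one A x
      rw [setLIntegral_one] at h2
      exact (lt_of_le_of_lt h2 (hNM1.cpt hp).measure_lt_top).ne
    have hint : ∀ s : Set (ι → ℝ), ∫ x in s, Real.exp (-(Real.pi * ∑ i, (A *ᵥ x) i ^ 2)) =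
        (∫⁻ x in s, ph A x).toReal := by
      intro s
      rw [integral_eq_lintegral_of_nonneg_ae (Filter.Eventually.of_forall fun x =>
        (Real.exp_pos _).le) (cont A).aestronglyMeasurable]
      rfl
    have hreal : (∫⁻ x in bl w, ph A x).toReal ≤
        X.card * ((1 + δ) ^ Fintype.card ι * (∫⁻ x in bl p, ph A x).toReal) := by
      have h2 := ENNReal.toReal_mono (ENNReal.mul_ne_top (ENNReal.natCast_ne_top _)
        (ENNReal.mul_ne_top ENNReal.ofReal_ne_top hfin)) htot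
      rwa [ENNReal.toReal_mul, ENNReal.toReal_mul, ENNReal.toReal_natCast,
        ENNReal.toReal_ofReal (pow_pos h1δ _).le] at h2
    have hXc' : (X.card : ℝ) ≤ 2 * Real.exp (8 * ell p ^ 2 * r ^ 2 / δ ^ 2) := by
      have h5 : 8 * ell p ^ 2 / (δ / r) ^ 2 = 8 * ell p ^ 2 * r ^ 2 / δ ^ 2 := by
        field_simp
      rwa [h5] at hXc
    show |A.det| * _ ≤ _ * (|A.det| * _)
    rw [hint, hint]
    have h9 : 0 ≤ (1 + δ) ^ Fintype.card ι * (∫⁻ x in bl p, ph A x).toReal :=
      mul_nonneg (pow_pos h1δ _).le ENNReal.toReal_nonneg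
    calc |A.det| * (∫⁻ x in bl w, ph A x).toReal
        ≤ |A.det| * ((2 * Real.exp (8 * ell p ^ 2 * r ^ 2 / δ ^ 2)) *
          ((1 + δ) ^ Fintype.card ι * (∫⁻ x in bl p, ph A x).toReal)) := by
          gcongr
          exact hreal.trans (mul_le_mul_of_nonneg_right hXc' h9)
      _ = _ := by ring

end Pool.Agent.Lib.MP_cb8a44_nt.RM
end
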