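import Mathlib
import Pool.Agent.Lib.MP_cb8a44_nt.RM.SpecM
import Pool.Agent.Lib.MP_cb8a44_nt.RM.Wst
import Pool.Agent.Lib.MP_cb8a44_nt.PL.Fin2
import Pool.Agent.Lib.MP_cb8a44_nt.RM.Nm1
import Pool.Agent.Lib.MP_cb8a44_nt.RM.Bas
import Pool.Agent.Lib.MP_cb8a44_nt.RM.Scl
import Pool.Agent.Lib.MP_cb8a44_nt.RM.Def

section
set_option autoImplicit false

open MeasureTheory Set ProbabilityTheory
open scoped ENNReal NNReal

namespace Pool.Agent.Lib.MP_cb8a44_nt.RM

namespace MEBM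

/-- the weight turning the standard Gaussian into another one -/
noncomputable def wt (α β x : ℝ) : ℝ :=
  Real.sqrt (1 - 2 * α) * Real.exp (-(β ^ 2 / (2 * (1 - 2 * α)))) * Real.exp (α * x ^ 2 + β * x)

theorem wt_pos {α : ℝ} (hα : α < 1 / 2) (β x : ℝ) : 0 < wt α β x := by
  unfold wt
  have : 0 < Real.sqrt (1 - 2 * α) := Real.sqrt_pos.2 (by linarith)
  positivity

theorem wt_meas (α β : ℝ) : Measurable fun x => ENNReal.ofReal (wt α β x) := by
  unfold wt; fun_prop

/-- variance of the new Gaussian -/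
noncomputable def vr (α : ℝ) : ℝ≥0 := Real.toNNReal (1 / (1 - 2 * α))

theorem vr_coe {α : ℝ} (hα : α < 1 / 2) : (vr α : ℝ) = 1 / (1 - 2 * α) := by
  unfold vr
  rw [Real.coe_toNNReal]
  have : 0 < 1 - 2 * α := by linarith
  positivity

theorem vr_ne {α : ℝ} (hα : α < 1 / 2) : vr α ≠ 0 := by
  intro h
  have h1 := vr_coe hα
  rw [h] at h1
  have : 0 < 1 / (1 - 2 * α) := by
    have : 0 < 1 - 2 * α := by linarith
    positivity
  simp only [NNReal.coe_zero] at h1
  linarith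

theorem wd {α : ℝ} (hα : α < 1 / 2) (β : ℝ) :
    (gaussianReal 0 1).withDensity (fun x => ENNReal.ofReal (wt α β x)) =
      gaussianReal (β / (1 - 2 * α)) (vr α) := by
  have k0 : 0 < 1 - 2 * α := by linarith
  rw [gaussianReal_of_var_ne_zero _ one_ne_zero, gaussianReal_of_var_ne_zero _ (vr_ne hα),
    ← withDensity_mul _ (measurable_gaussianPDF _ _) (wt_meas α β)]
  congr 1
  ext x
  simp only [Pi.mul_apply, gaussianPDF_def]
  rw [← ENNReal.ofReal_mul (gaussianPDFReal_nonneg _ _ _)]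
  congr 1
  rw [gaussianPDFReal_def, gaussianPDFReal_def, vr_coe hα]
  simp only [NNReal.coe_one, sub_zero, mul_one]
  set k := 1 - 2 * α with hk
  have e1 : Real.sqrt (2 * Real.pi * (1 / k)) = Real.sqrt (2 * Real.pi) / Real.sqrt k := by
    rw [mul_one_div, Real.sqrt_div (by positivity)]
  rw [e1]
  unfold wt
  rw [← hk, inv_div]
  have h1 : Real.sqrt k ≠ 0 := (Real.sqrt_pos.2 k0).ne'
  have h2 : Real.sqrt (2 * Real.pi) ≠ 0 := (Real.sqrt_pos.2 (by positivity)).ne'
  have e2 : Real.exp (-(x - β / k) ^ 2 / (2 * (1 / k))) =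
      Real.exp (-x ^ 2 / 2) * Real.exp (-(β ^ 2 / (2 * k))) * Real.exp (α * x ^ 2 + β * x) := by
    rw [← Real.exp_add, ← Real.exp_add]
    congr 1
    have h3 : α = (1 - k) / 2 := by rw [hk]; ring
    rw [h3]
    field_simp
    ring
  rw [e2]
  field_simp

theorem int_wt {α : ℝ} (hα : α < 1 / 2) (β : ℝ) (h : ℝ → ℝ) :
    ∫ x, wt α β x * h x ∂(gaussianReal 0 1) =
      ∫ x, h x ∂(gaussianReal (β / (1 - 2 * α)) (vr α)) := by
  rw [← wd hα β, integral_withDensity_eq_integral_toReal_smul (wt_meas α β)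
    (Filter.Eventually.of_forall fun x => ENNReal.ofReal_lt_top)]
  refine integral_congr_ae (Filter.Eventually.of_forall fun x => ?_)
  simp only [smul_eq_mul]
  rw [ENNReal.toReal_ofReal (wt_pos hα β x).le]

theorem integrable_wt {α : ℝ} (hα : α < 1 / 2) (β : ℝ) (h : ℝ → ℝ) :
    Integrable (fun x => wt α β x * h x) (gaussianReal 0 1) ↔
      Integrable h (gaussianReal (β / (1 - 2 * α)) (vr α)) := by
  rw [← wd hα β, integrable_withDensity_iff_integrable_smul' (wt_meas α β)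
    (Filter.Eventually.of_forall fun x => ENNReal.ofReal_lt_top)]
  refine integrable_congr (Filter.Eventually.of_forall fun x => ?_)
  simp only [smul_eq_mul]
  rw [ENNReal.toReal_ofReal (wt_pos hα β x).le]

theorem exp_int {α : ℝ} (hα : α < 1 / 2) (β : ℝ) :
    Integrable (fun x => Real.exp (α * x ^ 2 + β * x)) (gaussianReal 0 1) ∧
    ∫ x, Real.exp (α * x ^ 2 + β * x) ∂(gaussianReal 0 1) =
      (Real.sqrt (1 - 2 * α))⁻¹ * Real.exp (β ^ 2 / (2 * (1 - 2 * α))) := by
  have k0 : 0 < 1 - 2 * α := by linarith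
  have h1 : Real.sqrt (1 - 2 * α) ≠ 0 := (Real.sqrt_pos.2 k0).ne'
  set c := (Real.sqrt (1 - 2 * α))⁻¹ * Real.exp (β ^ 2 / (2 * (1 - 2 * α))) with hc
  have e : (fun x => Real.exp (α * x ^ 2 + β * x)) = fun x => c * (wt α β x * 1) := by
    ext x
    rw [hc]
    unfold wt
    rw [Real.exp_neg]
    have h2 := (Real.exp_pos (β ^ 2 / (2 * (1 - 2 * α)))).ne'
    calc Real.exp (α * x ^ 2 + β * x)
        = ((Real.sqrt (1 - 2 * α))⁻¹ * Real.sqrt (1 - 2 * α)) *
          (Real.exp (β ^ 2 / (2 * (1 - 2 * α))) * (Real.exp (β ^ 2 / (2 * (1 - 2 * α))))⁻¹) *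
          Real.exp (α * x ^ 2 + β * x) := by
          rw [inv_mul_cancel₀ h1, mul_inv_cancel₀ h2, one_mul, one_mul]
      _ = _ := by ring
  rw [e]
  constructor
  · exact ((integrable_wt hα β _).2 (integrable_const 1)).const_mul c
  · rw [integral_const_mul, int_wt hα]
    simp

/-- the one dimensional Mehler kernel -/
noncomputable def mk (θ x y : ℝ) : ℝ :=
  (Real.sqrt (1 - θ ^ 2))⁻¹ *
    Real.exp ((2 * θ * x * y - θ ^ 2 * (x ^ 2 + y ^ 2)) / (2 * (1 - θ ^ 2)))

theorem mk_symm (θ x y : ℝ) : mk θ x y = mk θ y x := by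
  unfold mk
  congr 3
  ring

theorem mk_nonneg (θ x y : ℝ) : 0 ≤ mk θ x y := by
  unfold mk; positivity

theorem mk_meas (θ : ℝ) : Measurable (Function.uncurry (mk θ)) := by
  unfold mk
  simp only [Function.uncurry_def]
  fun_prop

theorem one_sub {θ : ℝ} (hθ : |θ| < 1) : 0 < 1 - θ ^ 2 := by
  have := sq_abs θ
  nlinarith [abs_nonneg θ]

/-- parameters of the kernel as a weight -/
theorem mk_wt {θ : ℝ} (hθ : |θ| < 1) (x y : ℝ) :
    mk θ x y = wt (-(θ ^ 2 / (2 * (1 - θ ^ 2)))) (θ * x / (1 - θ ^ 2)) y := by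
  have h1 := one_sub hθ
  have e1 : 1 - 2 * -(θ ^ 2 / (2 * (1 - θ ^ 2))) = 1 / (1 - θ ^ 2) := by
    field_simp; ring
  unfold mk wt
  rw [e1, mul_assoc (Real.sqrt _), ← Real.exp_add, Real.sqrt_div zero_le_one, Real.sqrt_one,
    one_div (Real.sqrt _)]
  congr 2
  field_simp
  ring

theorem al {θ : ℝ} (hθ : |θ| < 1) : -(θ ^ 2 / (2 * (1 - θ ^ 2))) < 1 / 2 := by
  have h1 := one_sub hθ
  have : 0 ≤ θ ^ 2 / (2 * (1 - θ ^ 2)) := by positivity
  linarith

theorem vr_mk {θ : ℝ} (hθ : |θ| < 1) :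
    vr (-(θ ^ 2 / (2 * (1 - θ ^ 2)))) = Real.toNNReal (1 - θ ^ 2) := by
  have h1 := one_sub hθ
  unfold vr
  congr 1
  field_simp
  ring

theorem mean_mk {θ : ℝ} (hθ : |θ| < 1) (x : ℝ) :
    θ * x / (1 - θ ^ 2) / (1 - 2 * -(θ ^ 2 / (2 * (1 - θ ^ 2)))) = θ * x := by
  have h1 := one_sub hθ
  have e1 : 1 - 2 * -(θ ^ 2 / (2 * (1 - θ ^ 2))) = 1 / (1 - θ ^ 2) := by
    field_simp; ring
  rw [e1]
  field_simp

/-- the kernel as a density -/
theorem wd_mk {θ : ℝ} (hθ : |θ| < 1) (x : ℝ) :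
    (gaussianReal 0 1).withDensity (fun y => ENNReal.ofReal (mk θ x y)) =
      gaussianReal (θ * x) (Real.toNNReal (1 - θ ^ 2)) := by
  simp_rw [mk_wt hθ x]
  rw [wd (al hθ), mean_mk hθ, vr_mk hθ]

theorem int_mk {θ : ℝ} (hθ : |θ| < 1) (x : ℝ) (h : ℝ → ℝ) :
    ∫ y, mk θ x y * h y ∂(gaussianReal 0 1) =
      ∫ y, h y ∂(gaussianReal (θ * x) (Real.toNNReal (1 - θ ^ 2))) := by
  simp_rw [mk_wt hθ x]
  rw [int_wt (al hθ), mean_mk hθ, vr_mk hθ]

theorem integrable_mk {θ : ℝ} (hθ : |θ| < 1) (x : ℝ) (h : ℝ → ℝ) :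
    Integrable (fun y => mk θ x y * h y) (gaussianReal 0 1) ↔
      Integrable h (gaussianReal (θ * x) (Real.toNNReal (1 - θ ^ 2))) := by
  simp_rw [mk_wt hθ x]
  rw [integrable_wt (al hθ), mean_mk hθ, vr_mk hθ]

theorem mk_one {θ : ℝ} (hθ : |θ| < 1) (x : ℝ) :
    Integrable (fun y => mk θ x y) (gaussianReal 0 1) ∧
      ∫ y, mk θ x y ∂(gaussianReal 0 1) = 1 := by
  constructor
  · have := (integrable_mk hθ x (fun _ => 1)).2 (integrable_const 1)
    simpa using this
  · have := int_mk hθ x (fun _ => 1)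
    simpa using this

theorem mk_id {θ : ℝ} (hθ : |θ| < 1) (x : ℝ) :
    Integrable (fun y => mk θ x y * y) (gaussianReal 0 1) ∧
      ∫ y, mk θ x y * y ∂(gaussianReal 0 1) = θ * x := by
  constructor
  · exact (integrable_mk hθ x (fun y => y)).2 ((memLp_id_gaussianReal 1).integrable (le_refl _))
  · rw [int_mk hθ x (fun y => y)]
    exact integral_id_gaussianReal

theorem mk_diag {φ : ℝ} (hφ : |φ| < 1) :
    Integrable (fun y => mk φ y y) (gaussianReal 0 1) ∧
      ∫ y, mk φ y y ∂(gaussianReal 0 1) = (1 - φ)⁻¹ := by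
  have h1 := one_sub hφ
  have ha := abs_lt.1 hφ
  have p1 : 0 < 1 + φ := by linarith
  have p2 : 0 < 1 - φ := by linarith
  have hα : φ / (1 + φ) < 1 / 2 := by
    rw [div_lt_div_iff₀ p1 (by norm_num)]
    linarith
  have e : (fun y => mk φ y y) = fun y => (Real.sqrt (1 - φ ^ 2))⁻¹ *
      Real.exp (φ / (1 + φ) * y ^ 2 + 0 * y) := by
    ext y
    unfold mk
    congr 2
    have e1 : 1 - φ ^ 2 = (1 - φ) * (1 + φ) := by ring
    rw [e1]
    field_simp
    ring
  rw [e]
  obtain ⟨i1, i2⟩ := exp_int hα 0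
  refine ⟨i1.const_mul _, ?_⟩
  rw [integral_const_mul, i2]
  have e2 : 1 - 2 * (φ / (1 + φ)) = (1 - φ) / (1 + φ) := by
    field_simp; ring
  rw [e2]
  simp only [ne_eq, OfNat.ofNat_ne_zero, not_false_eq_true, zero_pow, zero_div, Real.exp_zero,
    mul_one]
  rw [← mul_inv, ← Real.sqrt_mul h1.le]
  have e3 : (1 - φ ^ 2) * ((1 - φ) / (1 + φ)) = (1 - φ) ^ 2 := by
    field_simp; ring
  rw [e3, Real.sqrt_sq p2.le]

theorem mk_mul {θ φ : ℝ} (hθ : |θ| < 1) (hφ : |φ| < 1) (y z : ℝ) :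
    Integrable (fun x => mk θ x y * mk φ x z) (gaussianReal 0 1) ∧
      ∫ x, mk θ x y * mk φ x z ∂(gaussianReal 0 1) = mk (θ * φ) y z := by
  have h1 := one_sub hθ
  have h2 := one_sub hφ
  have hθφ : |θ * φ| < 1 := by
    rw [abs_mul]
    nlinarith [abs_nonneg θ, abs_nonneg φ]
  have h3 := one_sub hθφ
  set a := 1 - θ ^ 2 with ha
  set b := 1 - φ ^ 2 with hb
  have ht2 : θ ^ 2 = 1 - a := by rw [ha]; ring
  have hp2 : φ ^ 2 = 1 - b := by rw [hb]; ring
  set c := 1 - (θ * φ) ^ 2 with hc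
  have hcab : c = a + b - a * b := by
    rw [hc, mul_pow, ht2, hp2]; ring
  set α := -(θ ^ 2 / (2 * a)) - φ ^ 2 / (2 * b) with hα
  set β := θ * y / a + φ * z / b with hβ
  have hk : 1 - 2 * α = c / (a * b) := by
    rw [hα, hcab, ht2, hp2]
    field_simp
    ring
  have hα' : α < 1 / 2 := by
    have : 0 < c / (a * b) := by positivity
    linarith
  set K := (Real.sqrt a)⁻¹ * (Real.sqrt b)⁻¹ *
    Real.exp (-(θ ^ 2 * y ^ 2 / (2 * a)) - φ ^ 2 * z ^ 2 / (2 * b)) with hK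
  have e : (fun x => mk θ x y * mk φ x z) = fun x => K * Real.exp (α * x ^ 2 + β * x) := by
    ext x
    unfold mk
    rw [← ha, ← hb, hK]
    have : Real.exp ((2 * θ * x * y - θ ^ 2 * (x ^ 2 + y ^ 2)) / (2 * a)) *
        Real.exp ((2 * φ * x * z - φ ^ 2 * (x ^ 2 + z ^ 2)) / (2 * b)) =
        Real.exp (-(θ ^ 2 * y ^ 2 / (2 * a)) - φ ^ 2 * z ^ 2 / (2 * b)) *
          Real.exp (α * x ^ 2 + β * x) := by
      rw [← Real.exp_add, ← Real.exp_add]
      congr 1
      rw [hα, hβ]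
      field_simp
      ring
    calc (Real.sqrt a)⁻¹ * Real.exp ((2 * θ * x * y - θ ^ 2 * (x ^ 2 + y ^ 2)) / (2 * a)) *
          ((Real.sqrt b)⁻¹ * Real.exp ((2 * φ * x * z - φ ^ 2 * (x ^ 2 + z ^ 2)) / (2 * b)))
        = (Real.sqrt a)⁻¹ * (Real.sqrt b)⁻¹ *
          (Real.exp ((2 * θ * x * y - θ ^ 2 * (x ^ 2 + y ^ 2)) / (2 * a)) *
          Real.exp ((2 * φ * x * z - φ ^ 2 * (x ^ 2 + z ^ 2)) / (2 * b))) := by ring
      _ = _ := by rw [this]; ring
  rw [e]
  obtain ⟨i1, i2⟩ := exp_int hα' β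
  refine ⟨i1.const_mul _, ?_⟩
  rw [integral_const_mul, i2, hk]
  unfold mk
  rw [← hc, hK]
  have e1 : (Real.sqrt a)⁻¹ * (Real.sqrt b)⁻¹ * (Real.sqrt (c / (a * b)))⁻¹ = (Real.sqrt c)⁻¹ := by
    rw [← mul_inv, ← mul_inv, ← Real.sqrt_mul h1.le, ← Real.sqrt_mul (by positivity)]
    congr 2
    field_simp
  have e2 : Real.exp (-(θ ^ 2 * y ^ 2 / (2 * a)) - φ ^ 2 * z ^ 2 / (2 * b)) *
      Real.exp (β ^ 2 / (2 * (c / (a * b)))) =
      Real.exp ((2 * (θ * φ) * y * z - (θ * φ) ^ 2 * (y ^ 2 + z ^ 2)) / (2 * c)) := by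
    rw [← Real.exp_add]
    congr 1
    have hne : a + b - a * b ≠ 0 := by rw [← hcab]; exact h3.ne'
    have e5 : β ^ 2 / (2 * (c / (a * b))) =
        ((1 - a) * y ^ 2 * b ^ 2 + 2 * (θ * φ) * y * z * a * b + (1 - b) * z ^ 2 * a ^ 2) /
          (2 * c * (a * b)) := by
      have e6 : β ^ 2 = ((1 - a) * y ^ 2 * b ^ 2 + 2 * (θ * φ) * y * z * a * b +
          (1 - b) * z ^ 2 * a ^ 2) / (a * b) ^ 2 := by
        rw [hβ, ← ht2, ← hp2]
        field_simp
        ring
      rw [e6]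
      field_simp
    rw [e5, mul_pow θ φ 2, ht2, hp2, hcab]
    field_simp
    ring
  calc (Real.sqrt a)⁻¹ * (Real.sqrt b)⁻¹ *
        Real.exp (-(θ ^ 2 * y ^ 2 / (2 * a)) - φ ^ 2 * z ^ 2 / (2 * b)) *
        ((Real.sqrt (c / (a * b)))⁻¹ * Real.exp (β ^ 2 / (2 * (c / (a * b)))))
      = ((Real.sqrt a)⁻¹ * (Real.sqrt b)⁻¹ * (Real.sqrt (c / (a * b)))⁻¹) *
        (Real.exp (-(θ ^ 2 * y ^ 2 / (2 * a)) - φ ^ 2 * z ^ 2 / (2 * b)) *
        Real.exp (β ^ 2 / (2 * (c / (a * b))))) := by ring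
    _ = _ := by rw [e1, e2]

end MEBM

end Pool.Agent.Lib.MP_cb8a44_nt.RM
end

section
set_option autoImplicit false

open MeasureTheory Matrix Set ProbabilityTheory
open scoped ENNReal NNReal

namespace Pool.Agent.Lib.MP_cb8a44_nt.RM

namespace MEBM

variable {ι : Type} [Fintype ι]

/-- the Mehler kernel -/
noncomputable def MK (θ : ℝ) (x y : ι → ℝ) : ℝ := ∏ i, mk θ (x i) (y i)

theorem MK_symm (θ : ℝ) (x y : ι → ℝ) : MK θ x y = MK θ y x := by
  unfold MK
  exact Finset.prod_congr rfl fun i _ => mk_symm _ _ _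

theorem MK_nonneg (θ : ℝ) (x y : ι → ℝ) : 0 ≤ MK θ x y :=
  Finset.prod_nonneg fun i _ => mk_nonneg _ _ _

theorem MK_meas (θ : ℝ) : Measurable (Function.uncurry (MK (ι := ι) θ)) := by
  unfold MK
  simp only [Function.uncurry_def]
  refine Finset.measurable_prod _ fun i _ => ?_
  exact (mk_meas θ).comp (f := fun z : (ι → ℝ) × (ι → ℝ) => (z.1 i, z.2 i)) (by fun_prop)

theorem MK_mul {θ φ : ℝ} (hθ : |θ| < 1) (hφ : |φ| < 1) (y z : ι → ℝ) :
    Integrable (fun x => MK θ x y * MK φ x z) (gm ι) ∧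
      ∫ x, MK θ x y * MK φ x z ∂(gm ι) = MK (θ * φ) y z := by
  have e : (fun x : ι → ℝ => MK θ x y * MK φ x z) =
      fun x => ∏ i, (mk θ (x i) (y i) * mk φ (x i) (z i)) := by
    ext x
    unfold MK
    rw [Finset.prod_mul_distrib]
  rw [e]
  constructor
  · exact Integrable.fintype_prod (f := fun i t => mk θ t (y i) * mk φ t (z i))
      fun i => (mk_mul hθ hφ (y i) (z i)).1
  · unfold gm
    rw [integral_fintype_prod_eq_prod (𝕜 := ℝ) (fun i t => mk θ t (y i) * mk φ t (z i))]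
    exact Finset.prod_congr rfl fun i _ => (mk_mul hθ hφ (y i) (z i)).2

theorem MK_diag {φ : ℝ} (hφ : |φ| < 1) :
    Integrable (fun y => MK φ y y) (gm ι) ∧
      ∫ y, MK φ y y ∂(gm ι) = ((1 - φ)⁻¹) ^ Fintype.card ι := by
  constructor
  · exact Integrable.fintype_prod (f := fun _ t => mk φ t t) fun i => (mk_diag hφ).1
  · unfold gm MK
    rw [integral_fintype_prod_eq_prod (𝕜 := ℝ) (fun _ t => mk φ t t)]
    rw [Finset.prod_congr rfl fun i _ => (mk_diag hφ).2, Finset.prod_const, Finset.card_univ]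

theorem MK_one {θ : ℝ} (hθ : |θ| < 1) (x : ι → ℝ) :
    Integrable (fun y => MK θ x y) (gm ι) ∧ ∫ y, MK θ x y ∂(gm ι) = 1 := by
  constructor
  · exact Integrable.fintype_prod (f := fun i t => mk θ (x i) t) fun i => (mk_one hθ (x i)).1
  · unfold gm MK
    rw [integral_fintype_prod_eq_prod (𝕜 := ℝ) (fun i t => mk θ (x i) t)]
    rw [Finset.prod_congr rfl fun i _ => (mk_one hθ (x i)).2, Finset.prod_const_one]

theorem MK_id {θ : ℝ} (hθ : |θ| < 1) (x : ι → ℝ) (j : ι) :
    Integrable (fun y => y j * MK θ x y) (gm ι) ∧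
      ∫ y, y j * MK θ x y ∂(gm ι) = θ * x j := by
  classical
  have e : (fun y : ι → ℝ => y j * MK θ x y) =
      fun y => ∏ i, (mk θ (x i) (y i) * (if i = j then y i else 1)) := by
    ext y
    unfold MK
    rw [Finset.prod_mul_distrib, Finset.prod_ite_eq' Finset.univ j, if_pos (Finset.mem_univ j),
      mul_comm]
  rw [e]
  constructor
  · refine Integrable.fintype_prod (f := fun i t => mk θ (x i) t * (if i = j then t else 1))
      fun i => ?_
    by_cases h : i = j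
    · simp only [h, if_true]
      exact (mk_id hθ (x j)).1
    · simp only [h, if_false, mul_one]
      exact (mk_one hθ (x i)).1
  · unfold gm
    rw [integral_fintype_prod_eq_prod (𝕜 := ℝ)
      (fun i t => mk θ (x i) t * (if i = j then t else 1))]
    have : ∀ i, ∫ t, mk θ (x i) t * (if i = j then t else 1) ∂(gaussianReal 0 1) =
        if i = j then θ * x i else 1 := by
      intro i
      by_cases h : i = j
      · simp only [h, if_true]
        exact (mk_id hθ (x j)).2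
      · simp only [h, if_false, mul_one]
        exact (mk_one hθ (x i)).2
    rw [Finset.prod_congr rfl fun i _ => this i, Finset.prod_ite_eq' Finset.univ j,
      if_pos (Finset.mem_univ j)]

/-- the kernel as a density -/
theorem wd_MK {θ : ℝ} (hθ : |θ| < 1) (x : ι → ℝ) :
    (gm ι).withDensity (fun y => ENNReal.ofReal (MK θ x y)) =
      Measure.pi fun i => gaussianReal (θ * x i) (Real.toNNReal (1 - θ ^ 2)) := by
  symm
  refine Measure.pi_eq fun s hs => ?_
  have hm : MeasurableSet (Set.pi univ s) := MeasurableSet.univ_pi hs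
  rw [withDensity_apply _ hm]
  have hint : Integrable (fun y => MK θ x y) (gm ι) := (MK_one hθ x).1
  rw [← ofReal_integral_eq_lintegral_ofReal hint.integrableOn
    (Filter.Eventually.of_forall fun y => MK_nonneg _ _ _)]
  rw [← integral_indicator hm]
  have e : (Set.pi univ s).indicator (fun y => MK θ x y) =
      fun y : ι → ℝ => ∏ i, (s i).indicator (fun t => mk θ (x i) t) (y i) := by
    ext y
    by_cases hy : y ∈ Set.pi univ s
    · rw [indicator_of_mem hy]
      unfold MK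
      refine Finset.prod_congr rfl fun i _ => ?_
      rw [indicator_of_mem (hy i (mem_univ i))]
    · rw [indicator_of_notMem hy]
      rw [Set.mem_univ_pi] at hy
      push Not at hy
      obtain ⟨i, hi⟩ := hy
      exact (Finset.prod_eq_zero (Finset.mem_univ i) (indicator_of_notMem hi _)).symm
  rw [e]
  unfold gm
  rw [integral_fintype_prod_eq_prod (𝕜 := ℝ) (fun i => (s i).indicator (fun t => mk θ (x i) t)),
    ENNReal.ofReal_prod_of_nonneg]
  · refine Finset.prod_congr rfl fun i _ => ?_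
    rw [integral_indicator (hs i), ofReal_integral_eq_lintegral_ofReal
      (mk_one hθ (x i)).1.integrableOn (Filter.Eventually.of_forall fun y => mk_nonneg _ _ _),
      ← withDensity_apply _ (hs i), wd_mk hθ]
  · intro i _
    exact integral_nonneg fun t => indicator_nonneg (fun t _ => mk_nonneg _ _ _) t

theorem map_aff {θ : ℝ} (hθ : |θ| < 1) (x : ι → ℝ) :
    (gm ι).map (fun y => θ • x + Real.sqrt (1 - θ ^ 2) • y) =
      Measure.pi fun i => gaussianReal (θ * x i) (Real.toNNReal (1 - θ ^ 2)) := by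
  have h1 := one_sub hθ
  have h2 : ∀ i, (gaussianReal 0 1).map (fun t => θ * x i + Real.sqrt (1 - θ ^ 2) * t) =
      gaussianReal (θ * x i) (Real.toNNReal (1 - θ ^ 2)) := by
    intro i
    have e : (fun t : ℝ => θ * x i + Real.sqrt (1 - θ ^ 2) * t) =
        (fun t => θ * x i + t) ∘ (fun t => Real.sqrt (1 - θ ^ 2) * t) := rfl
    rw [e, ← Measure.map_map (by fun_prop) (by fun_prop), gaussianReal_map_const_mul,
      gaussianReal_map_const_add]
    congr 1
    · ring
    · rw [mul_one]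
      ext
      rw [Real.coe_toNNReal _ h1.le]
      exact Real.sq_sqrt h1.le
  have : ∀ i, SigmaFinite ((gaussianReal 0 1).map (fun t => θ * x i + Real.sqrt (1 - θ ^ 2) * t)) := by
    intro i
    rw [h2 i]; infer_instance
  have h3 := Measure.pi_map_pi (μ := fun _ : ι => gaussianReal 0 1)
    (f := fun i t => θ * x i + Real.sqrt (1 - θ ^ 2) * t) (fun i => by fun_prop)
  simp_rw [h2] at h3
  exact h3

theorem int_aff {θ : ℝ} (hθ : |θ| < 1) (x : ι → ℝ) (f : (ι → ℝ) → ℝ) (hf : Measurable f) :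
    ∫ y, MK θ x y * f y ∂(gm ι) = ∫ y, f (θ • x + Real.sqrt (1 - θ ^ 2) • y) ∂(gm ι) := by
  have h1 : ∫ y, f (θ • x + Real.sqrt (1 - θ ^ 2) • y) ∂(gm ι) =
      ∫ y, f y ∂((gm ι).map (fun y => θ • x + Real.sqrt (1 - θ ^ 2) • y)) := by
    rw [integral_map (by fun_prop) hf.aestronglyMeasurable]
  rw [h1, map_aff hθ, ← wd_MK hθ, integral_withDensity_eq_integral_toReal_smul]
  · refine integral_congr_ae (Filter.Eventually.of_forall fun y => ?_)
    simp only [smul_eq_mul]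
    rw [ENNReal.toReal_ofReal (MK_nonneg _ _ _)]
  · exact ENNReal.measurable_ofReal.comp ((MK_meas θ).comp measurable_prodMk_left)
  · exact Filter.Eventually.of_forall fun x => ENNReal.ofReal_lt_top

/-- the scalar product -/
def sp (x y : ι → ℝ) : ℝ := ∑ i, x i * y i

theorem sp_meas : Measurable (Function.uncurry (sp (ι := ι))) := by
  unfold sp
  simp only [Function.uncurry_def]
  fun_prop

/-- the kernel `N` -/
noncomputable def NK (θ : ℝ) (x y : ι → ℝ) : ℝ := (MK θ x y - MK (-θ) x y) / 2 - θ * sp x y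

theorem NK_meas (θ : ℝ) : Measurable (Function.uncurry (NK (ι := ι) θ)) :=
  (((MK_meas θ).sub (MK_meas (-θ))).div_const 2).sub (sp_meas.const_mul θ)

theorem mul_coord (i j : ι) : Integrable (fun x : ι → ℝ => x i * x j) (gm ι) :=
  MEAM.mul_int (measurable_pi_apply i).aestronglyMeasurable
    (measurable_pi_apply j).aestronglyMeasurable (KCVM.sq_coord i) (KCVM.sq_coord j)

theorem sec_mom : ∫ x : ℝ, x ^ 2 ∂(gaussianReal 0 1) = 1 := by
  have h1 : Var[fun x : ℝ => x; gaussianReal 0 1] = 1 := by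
    rw [variance_fun_id_gaussianReal]; rfl
  rw [variance_eq_integral (by fun_prop)] at h1
  rw [integral_id_gaussianReal] at h1
  simpa using h1

theorem cov (i j : ι) [DecidableEq ι] :
    ∫ x : ι → ℝ, x i * x j ∂(gm ι) = if i = j then 1 else 0 := by
  by_cases h : i = j
  · subst h
    rw [if_pos rfl]
    have e : (fun x : ι → ℝ => x i * x i) = fun x => ∏ k, (if k = i then x k ^ 2 else 1) := by
      ext x
      rw [Finset.prod_ite_eq' Finset.univ i, if_pos (Finset.mem_univ i), sq]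
    rw [e]
    unfold gm
    rw [integral_fintype_prod_eq_prod (𝕜 := ℝ) (fun k t => if k = i then t ^ 2 else 1)]
    refine Finset.prod_eq_one fun k _ => ?_
    by_cases hk : k = i
    · simp only [hk, if_true]
      exact sec_mom
    · simp [hk]
  · rw [if_neg h]
    have e : (fun x : ι → ℝ => x i * x j) =
        fun x => ∏ k, ((if k = i then x k else 1) * (if k = j then x k else 1)) := by
      ext x
      rw [Finset.prod_mul_distrib, Finset.prod_ite_eq' Finset.univ i,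
        Finset.prod_ite_eq' Finset.univ j, if_pos (Finset.mem_univ i), if_pos (Finset.mem_univ j)]
    rw [e]
    unfold gm
    rw [integral_fintype_prod_eq_prod (𝕜 := ℝ)
      (fun k t => (if k = i then t else 1) * (if k = j then t else 1))]
    refine Finset.prod_eq_zero (Finset.mem_univ i) ?_
    simp only [if_true, h, if_false, mul_one]
    exact integral_id_gaussianReal

theorem sp_MK {θ : ℝ} (hθ : |θ| < 1) (y z : ι → ℝ) :
    Integrable (fun x => sp x y * MK θ x z) (gm ι) ∧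
      ∫ x, sp x y * MK θ x z ∂(gm ι) = θ * sp y z := by
  have e : (fun x : ι → ℝ => sp x y * MK θ x z) = fun x => ∑ i, y i * (x i * MK θ z x) := by
    ext x
    unfold sp
    rw [Finset.sum_mul, MK_symm θ x z]
    exact Finset.sum_congr rfl fun i _ => by ring
  rw [e]
  constructor
  · exact integrable_finsetSum _ fun i _ => (MK_id hθ z i).1.const_mul _
  · rw [integral_finsetSum _ fun i _ => (MK_id hθ z i).1.const_mul _]
    unfold sp
    rw [Finset.mul_sum]
    refine Finset.sum_congr rfl fun i _ => ?_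
    rw [integral_const_mul, (MK_id hθ z i).2]
    ring

theorem sp_sp (y z : ι → ℝ) :
    Integrable (fun x => sp x y * sp x z) (gm ι) ∧
      ∫ x, sp x y * sp x z ∂(gm ι) = sp y z := by
  classical
  have e : (fun x : ι → ℝ => sp x y * sp x z) = fun x => ∑ i, ∑ j, (y i * z j) * (x i * x j) := by
    ext x
    unfold sp
    rw [Finset.sum_mul_sum]
    exact Finset.sum_congr rfl fun i _ => Finset.sum_congr rfl fun j _ => by ring
  rw [e]
  have hi : ∀ i j, Integrable (fun x : ι → ℝ => (y i * z j) * (x i * x j)) (gm ι) :=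
    fun i j => (mul_coord i j).const_mul _
  constructor
  · exact integrable_finsetSum _ fun i _ => integrable_finsetSum _ fun j _ => hi i j
  · rw [integral_finsetSum _ fun i _ => integrable_finsetSum _ fun j _ => hi i j]
    unfold sp
    refine Finset.sum_congr rfl fun i _ => ?_
    rw [integral_finsetSum _ fun j _ => hi i j]
    simp_rw [integral_const_mul, cov, mul_ite, mul_one, mul_zero]
    rw [Finset.sum_ite_eq, if_pos (Finset.mem_univ i)]

theorem NK_mul {θ : ℝ} (hθ : |θ| < 1) (y z : ι → ℝ) :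
    ∫ x, NK θ x y * NK θ x z ∂(gm ι) = NK (θ ^ 2) y z := by
  have hθ' : |-θ| < 1 := by rwa [abs_neg]
  have a1 := MK_mul (ι := ι) hθ hθ y z
  have a2 := MK_mul (ι := ι) hθ hθ' y z
  have a3 := MK_mul (ι := ι) hθ' hθ y z
  have a4 := MK_mul (ι := ι) hθ' hθ' y z
  have b1 := sp_MK (ι := ι) hθ y z
  have b2 := sp_MK (ι := ι) hθ' y z
  have b3 := sp_MK (ι := ι) hθ z y
  have b4 := sp_MK (ι := ι) hθ' z y
  have c1 := sp_sp (ι := ι) y z
  have e : (fun x : ι → ℝ => NK θ x y * NK θ x z) = fun x =>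
      (1 / 4) * (MK θ x y * MK θ x z) + ((-(1 / 4)) * (MK θ x y * MK (-θ) x z) +
      ((-(1 / 4)) * (MK (-θ) x y * MK θ x z) + ((1 / 4) * (MK (-θ) x y * MK (-θ) x z) +
      ((-(θ / 2)) * (sp x y * MK θ x z) + ((θ / 2) * (sp x y * MK (-θ) x z) +
      ((-(θ / 2)) * (sp x z * MK θ x y) + ((θ / 2) * (sp x z * MK (-θ) x y) +
      θ ^ 2 * (sp x y * sp x z)))))))) := by
    ext x
    unfold NK
    ring
  have i9 := c1.1.const_mul (θ ^ 2)
  have i8 := (b4.1.const_mul (θ / 2)).add i9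
  have i7 := (b3.1.const_mul (-(θ / 2))).add i8
  have i6 := (b2.1.const_mul (θ / 2)).add i7
  have i5 := (b1.1.const_mul (-(θ / 2))).add i6
  have i4 := (a4.1.const_mul (1 / 4)).add i5
  have i3 := (a3.1.const_mul (-(1 / 4))).add i4
  have i2 := (a2.1.const_mul (-(1 / 4))).add i3
  have s1 := integral_add (a1.1.const_mul (1 / 4)) i2
  have s2 := integral_add (a2.1.const_mul (-(1 / 4))) i3
  have s3 := integral_add (a3.1.const_mul (-(1 / 4))) i4
  have s4 := integral_add (a4.1.const_mul (1 / 4)) i5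
  have s5 := integral_add (b1.1.const_mul (-(θ / 2))) i6
  have s6 := integral_add (b2.1.const_mul (θ / 2)) i7
  have s7 := integral_add (b3.1.const_mul (-(θ / 2))) i8
  have s8 := integral_add (b4.1.const_mul (θ / 2)) i9
  simp only [Pi.add_apply] at s1 s2 s3 s4 s5 s6 s7 s8
  rw [e, s1, s2, s3, s4, s5, s6, s7, s8]
  simp only [integral_const_mul]
  rw [a1.2, a2.2, a3.2, a4.2, b1.2, b2.2, b3.2, b4.2, c1.2]
  have hs : sp z y = sp y z := by
    unfold sp
    exact Finset.sum_congr rfl fun i _ => mul_comm _ _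
  rw [hs]
  unfold NK
  have e1 : θ * θ = θ ^ 2 := by ring
  have e2 : θ * -θ = -θ ^ 2 := by ring
  have e3 : -θ * θ = -θ ^ 2 := by ring
  have e4 : -θ * -θ = θ ^ 2 := by ring
  rw [e1, e2, e3, e4]
  ring

theorem MK_sq_int {θ : ℝ} (hθ : |θ| < 1) :
    MemLp (fun z : (ι → ℝ) × (ι → ℝ) => MK θ z.1 z.2) 2 ((gm ι).prod (gm ι)) := by
  have hθ2 : |θ * θ| < 1 := by
    rw [abs_mul]; nlinarith [abs_nonneg θ]
  have hm : Measurable fun z : (ι → ℝ) × (ι → ℝ) => MK θ z.1 z.2 := MK_meas θ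
  rw [memLp_two_iff_integrable_sq hm.aestronglyMeasurable]
  rw [integrable_prod_iff' (hm.pow_const 2).aestronglyMeasurable]
  constructor
  · refine Filter.Eventually.of_forall fun y => ?_
    refine (MK_mul hθ hθ y y).1.congr (Filter.Eventually.of_forall fun x => ?_)
    simp only
    rw [sq]
  · refine (MK_diag (ι := ι) hθ2).1.congr (Filter.Eventually.of_forall fun y => ?_)
    simp only
    rw [← (MK_mul hθ hθ y y).2]
    refine integral_congr_ae (Filter.Eventually.of_forall fun x => ?_)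
    simp only [Real.norm_eq_abs]
    rw [abs_of_nonneg (sq_nonneg _), sq]

theorem sp_mem : MemLp (fun z : (ι → ℝ) × (ι → ℝ) => sp z.1 z.2) 2 ((gm ι).prod (gm ι)) := by
  have h : ∀ i, MemLp (fun z : (ι → ℝ) × (ι → ℝ) => z.1 i * z.2 i) 2 ((gm ι).prod (gm ι)) := by
    intro i
    rw [memLp_two_iff_integrable_sq (by fun_prop)]
    have := (KCVM.sq_coord (ι := ι) i).mul_prod (KCVM.sq_coord (ι := ι) i)
    refine this.congr (Filter.Eventually.of_forall fun z => ?_)
    simp only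
    ring
  exact memLp_finsetSum (p := 2) Finset.univ fun i _ => h i

theorem NK_mem {θ : ℝ} (hθ : |θ| < 1) :
    MemLp (fun z : (ι → ℝ) × (ι → ℝ) => NK θ z.1 z.2) 2 ((gm ι).prod (gm ι)) := by
  have hθ' : |-θ| < 1 := by rwa [abs_neg]
  have h1 := (((MK_sq_int (ι := ι) hθ).sub (MK_sq_int (ι := ι) hθ')).mul_const (1 / 2)).sub
    ((sp_mem (ι := ι)).const_mul θ)
  refine MemLp.ae_eq (Filter.Eventually.of_forall fun z => ?_) h1
  simp only [Pi.sub_apply]
  unfold NK
  ring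

theorem NK_tot {θ : ℝ} (hθ : |θ| < 1) :
    ∫ z : (ι → ℝ) × (ι → ℝ), NK θ z.1 z.2 ^ 2 ∂((gm ι).prod (gm ι)) =
      (((1 - θ ^ 2)⁻¹) ^ Fintype.card ι - ((1 + θ ^ 2)⁻¹) ^ Fintype.card ι) / 2 -
        Fintype.card ι * θ ^ 2 := by
  classical
  have hθ2 : |θ ^ 2| < 1 := by
    rw [abs_pow]; exact pow_lt_one₀ (abs_nonneg _) hθ two_ne_zero
  have hθ2' : |-(θ ^ 2)| < 1 := by rwa [abs_neg]
  rw [integral_prod_symm _ (NK_mem hθ).integrable_sq]
  have h1 : ∀ y : ι → ℝ, ∫ x, NK θ x y ^ 2 ∂(gm ι) = NK (θ ^ 2) y y := by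
    intro y
    rw [← NK_mul hθ y y]
    refine integral_congr_ae (Filter.Eventually.of_forall fun x => ?_)
    simp only
    rw [sq]
  simp only
  simp_rw [h1]
  have d1 := MK_diag (ι := ι) hθ2
  have d2 := MK_diag (ι := ι) hθ2'
  have d3 : Integrable (fun y : ι → ℝ => sp y y) (gm ι) :=
    integrable_finsetSum _ fun i _ => mul_coord i i
  have e : (fun y : ι → ℝ => NK (θ ^ 2) y y) = fun y => (1 / 2) * MK (θ ^ 2) y y +
      ((-(1 / 2)) * MK (-(θ ^ 2)) y y + (-(θ ^ 2)) * sp y y) := by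
    ext y
    unfold NK
    ring
  have i2 := (d2.1.const_mul (-(1 / 2))).add (d3.const_mul (-(θ ^ 2)))
  have s1 := integral_add (d1.1.const_mul (1 / 2)) i2
  have s2 := integral_add (d2.1.const_mul (-(1 / 2))) (d3.const_mul (-(θ ^ 2)))
  simp only [Pi.add_apply] at s1 s2
  rw [e, s1, s2]
  simp only [integral_const_mul]
  have h3 : ∫ y : ι → ℝ, sp y y ∂(gm ι) = Fintype.card ι := by
    unfold sp
    rw [integral_finsetSum _ fun i _ => mul_coord i i]
    simp_rw [cov]
    simp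
  rw [d1.2, d2.2, h3, sub_neg_eq_add]
  ring

/-- Taylor expansion of `(1-u)^(-n)` -/
theorem taylor (n : ℕ) : ∃ C : ℝ, 0 ≤ C ∧ ∀ u : ℝ, |u| ≤ 1 / 2 →
    |((1 - u)⁻¹) ^ n - (1 + n * u + n * (n + 1) / 2 * u ^ 2)| ≤ C * |u| ^ 3 := by
  induction n with
  | zero => exact ⟨0, le_refl _, fun u _ => by simp⟩
  | succ n ih =>
    obtain ⟨C, hC, h⟩ := ih
    refine ⟨2 * (C + (n + 1) * (n + 2) / 2), by positivity, fun u hu => ?_⟩
    have h1 := abs_le.1 hu
    have h2 : (1:ℝ) / 2 ≤ 1 - u := by linarith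
    have h3 : (0:ℝ) < 1 - u := by linarith
    have e : ((1 - u)⁻¹) ^ (n + 1) - (1 + ((n + 1 : ℕ) : ℝ) * u +
        ((n + 1 : ℕ) : ℝ) * (((n + 1 : ℕ) : ℝ) + 1) / 2 * u ^ 2) =
        ((((1 - u)⁻¹) ^ n - (1 + n * u + n * (n + 1) / 2 * u ^ 2)) +
          (n + 1) * (n + 2) / 2 * u ^ 3) * (1 - u)⁻¹ := by
      rw [pow_succ]
      push_cast
      have : (1 + ((n:ℝ) + 1) * u + ((n:ℝ) + 1) * ((n:ℝ) + 1 + 1) / 2 * u ^ 2) =
          (1 + ((n:ℝ) + 1) * u + ((n:ℝ) + 1) * ((n:ℝ) + 1 + 1) / 2 * u ^ 2) * (1 - u) * (1 - u)⁻¹ := by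
        rw [mul_assoc, mul_inv_cancel₀ h3.ne', mul_one]
      rw [this]
      ring
    rw [e, abs_mul, abs_inv, abs_of_pos h3]
    have h4 : (1 - u)⁻¹ ≤ 2 := by
      rw [inv_le_comm₀ h3 (by norm_num)]
      linarith
    have h5 : |(((1 - u)⁻¹) ^ n - (1 + n * u + n * (n + 1) / 2 * u ^ 2)) +
          (n + 1) * (n + 2) / 2 * u ^ 3| ≤ C * |u| ^ 3 + (n + 1) * (n + 2) / 2 * |u| ^ 3 := by
      refine (abs_add_le _ _).trans (add_le_add (h u hu) ?_)
      rw [abs_mul, abs_pow, abs_of_nonneg (by positivity : (0:ℝ) ≤ (n + 1) * (n + 2) / 2)]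
    calc |(((1 - u)⁻¹) ^ n - (1 + n * u + n * (n + 1) / 2 * u ^ 2)) +
          (n + 1) * (n + 2) / 2 * u ^ 3| * (1 - u)⁻¹
        ≤ (C * |u| ^ 3 + (n + 1) * (n + 2) / 2 * |u| ^ 3) * 2 :=
          mul_le_mul h5 h4 (by positivity) (by positivity)
      _ = _ := by ring

end MEBM

open MEBM in
theorem specMEB : SpecMEB := by
  intro ι _
  obtain ⟨C, hC, hT⟩ := taylor (Fintype.card ι)
  have ab : ∀ θ ∈ Ioo (0:ℝ) 1, |θ| < 1 := fun θ h => by
    rw [abs_of_pos h.1]; exact h.2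
  refine ⟨NK, C, fun θ _ => NK_meas θ, fun θ h => (NK_mem (ab θ h)).integrable_sq, ?_,
    fun θ h y z => NK_mul (ab θ h) y z, ?_⟩
  · intro θ h
    have h' : θ ∈ Ioo (0:ℝ) 1 := ⟨h.1, by have := h.2; linarith⟩
    rw [NK_tot (ab θ h')]
    have hu : |θ ^ 2| ≤ 1 / 2 := by
      rw [abs_of_nonneg (sq_nonneg _)]
      have := h.1
      have := h.2
      nlinarith
    have hu' : |-(θ ^ 2)| ≤ 1 / 2 := by rwa [abs_neg]
    have t1 := abs_le.1 (hT _ hu)
    have t2 := abs_le.1 (hT _ hu')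
    rw [sub_neg_eq_add] at t2
    have e : |θ ^ 2| ^ 3 = θ ^ 6 := by
      rw [abs_of_nonneg (sq_nonneg _)]; ring
    have e' : |-(θ ^ 2)| ^ 3 = θ ^ 6 := by rw [abs_neg, e]
    rw [e] at t1
    rw [e'] at t2
    have e2 : (-(θ ^ 2)) ^ 2 = (θ ^ 2) ^ 2 := by ring
    rw [e2] at t2
    linarith [t1.2, t2.1]
  · intro f hf ⟨K, hK⟩ θ hθ x
    have h1 := ab θ hθ
    have h1' : |-θ| < 1 := by rwa [abs_neg]
    have hi : ∀ φ : ℝ, |φ| < 1 → Integrable (fun y => MK φ x y * f y) (gm ι) := by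
      intro φ hφ
      have := (MK_one hφ x).1.bdd_mul (c := K) hf.aestronglyMeasurable
        (Filter.Eventually.of_forall fun y => hK y)
      refine this.congr (Filter.Eventually.of_forall fun y => ?_)
      simp only
      ring
    have hj : ∀ j, Integrable (fun y : ι → ℝ => y j * f y) (gm ι) := by
      intro j
      have := (KCVM.coord (ι := ι) j).bdd_mul (c := K) hf.aestronglyMeasurable
        (Filter.Eventually.of_forall fun y => hK y)
      refine this.congr (Filter.Eventually.of_forall fun y => ?_)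
      simp only
      ring
    have e : (fun y => NK θ x y * f y) = fun y => (1 / 2) * (MK θ x y * f y) +
        ((-(1 / 2)) * (MK (-θ) x y * f y) + (-θ) * ∑ j, x j * (y j * f y)) := by
      ext y
      unfold NK sp
      have : (∑ j, x j * (y j * f y)) = (∑ j, x j * y j) * f y := by
        rw [Finset.sum_mul]
        exact Finset.sum_congr rfl fun j _ => by ring
      rw [this]
      ring
    have i3 : Integrable (fun y : ι → ℝ => (-θ) * ∑ j, x j * (y j * f y)) (gm ι) :=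
      (integrable_finsetSum _ fun j _ => (hj j).const_mul _).const_mul _
    have i2 := ((hi (-θ) h1').const_mul (-(1 / 2))).add i3
    have s1 := integral_add ((hi θ h1).const_mul (1 / 2)) i2
    have s2 := integral_add ((hi (-θ) h1').const_mul (-(1 / 2))) i3
    simp only [Pi.add_apply] at s1 s2
    rw [e, s1, s2]
    simp only [integral_const_mul]
    rw [integral_finsetSum _ fun j _ => (hj j).const_mul _]
    simp only [integral_const_mul]
    rw [int_aff h1 x f hf, int_aff h1' x f hf]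
    have e2 : (-θ) ^ 2 = θ ^ 2 := by ring
    rw [e2]
    simp only [neg_smul]
    ring

end Pool.Agent.Lib.MP_cb8a44_nt.RM
end

section
/-!
# MP_cb8a44_nt, block RM, part M complete: every symmetric convex body has an `M`-position
-/
set_option autoImplicit false

namespace Pool.Agent.Lib.MP_cb8a44_nt.RM.All

theorem hAND : SpecAND := specAND
theorem hCRT : SpecCRT := specCRT
theorem hNM1 : SpecNM1 := specNM1
theorem hNM2 : SpecNM2 := specNM2 hNM1
theorem hNM3 : SpecNM3 := specNM3 hNM1 hNM2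
theorem hGAU : SpecGAU := specGAU
theorem hGIN : SpecGIN := specGIN
theorem hLMN : SpecLMN := specLMN hNM1
theorem hSEL : SpecSEL := specSEL hNM1 hNM2
theorem hMEA : SpecMEA := specMEA
theorem hMEB : SpecMEB := specMEB
theorem hKCV : SpecKCV := specKCV hNM1 hMEA hMEB
theorem hLPS : SpecLPS := specLPS hNM1 hNM2 hLMN hSEL hKCV hGIN
theorem hDSU : SpecDSU := specDSU hNM1
theorem hVST : SpecVST := specVST hNM1 hNM2 hDSU hAND
theorem hVOL : SpecVOL := specVOL hNM1 hNM2 hNM3 hVST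
theorem hWST : SpecWST := specWST hNM1 hDSU hGAU hAND
theorem hGTR : SpecGTR := specGTR hNM1
theorem hSTP : SpecSTP := specSTP hNM1 hNM2 hGIN hLPS hVOL hWST hGTR
theorem hBAS : SpecBAS := specBAS hNM1
theorem hAUE : SpecAUE := specAUE hNM1
theorem hITR : SpecITR := specITR hSTP hBAS hAUE
theorem hMPO : SpecMPO := specMPO hGAU hITR

end Pool.Agent.Lib.MP_cb8a44_nt.RM.All
end

section
/-!
# MP_cb8a44_nt, block RM, part L: assembly
-/
set_option autoImplicit false

namespace Pool.Agent.Lib.MP_cb8a44_nt.RM.All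

theorem hINJ : SpecINJ := specINJ
theorem hQPD : SpecQPD := specQPD
theorem hGNI : SpecGNI := specGNI hQPD
theorem hMAS : SpecMAS := specMAS hQPD hGNI
theorem hVO1 : SpecVO1 := specVO1 hQPD
theorem hVO2 : SpecVO2 := specVO2 hQPD hVO1
theorem hVBM : SpecVBM := specVBM hQPD hVO1 hVO2
theorem hUNI : SpecUNI := specUNI hQPD hINJ hVO1 hVO2
theorem hSPB : SpecSPB := specSPB hINJ
theorem hSPA : SpecSPA := specSPA hSPB
theorem hPRM : SpecPRM := specPRM
theorem hSPL : SpecSPL := specSPL hINJ hUNI hSPA hSPB hPRM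
theorem hRED : SpecRED := specRED hINJ hQPD hPRM hSPB
theorem hFNV : SpecFNV := specFNV hINJ hQPD hRED
theorem hLSC : SpecLSC := specLSC
theorem hMNM : SpecMNM := specMNM hINJ hQPD hUNI hRED hLSC
theorem hDMO : SpecDMO := specDMO
theorem hDEF : SpecDEF := specDEF hINJ hFNV hDMO
theorem hLDF : SpecLDF := specLDF hQPD hVO1 hVO2 hVBM
theorem hCRI : SpecCRI := specCRI hVBM hDEF hLDF hCRT
theorem rmm (hSCL : SpecSCL) : SpecRMM := specRMM hVBM hSPL hMNM hCRI hSCL hMPO

end Pool.Agent.Lib.MP_cb8a44_nt.RM.All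
end

section
/-!
# MP_cb8a44_nt, block RM complete: the exponential reverse Minkowski inequality, without hypotheses
-/
set_option autoImplicit false

namespace Pool.Agent.Lib.MP_cb8a44_nt.RM.All

theorem hSCL : SpecSCL := specSCL hINJ hQPD hVO1 hVO2 hFNV
theorem hRMM : SpecRMM := rmm hSCL

/-- **The exponential reverse Minkowski inequality.** -/
theorem rmi : SpecRMI := specRMI hINJ hMAS hRMM

end Pool.Agent.Lib.MP_cb8a44_nt.RM.All
end
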